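import Pool.Agent.Lib.MP_1a91b9_ntK.C.Cfn

/-!
# Base change for `y² = x³ + d²`
-/

set_option autoImplicit false

namespace Pool.Agent.Lib.MP_1a91b9_ntK.C

open WeierstrassCurve Pool.Agent.Lib.MP_1a91b9_ntT.S9
open scoped Classical

variable {k : Type*} [Field k] {z d : k}

theorem isK_bc (hd : d ≠ 0) (hz : z ^ 2 + z + 1 = 0) (F : Type*) [Field F] [Algebra k F] :
    IsK (Affine.baseChange (ck d) F) (algebraMap k F z) (algebraMap k F d) := by
  refine ⟨?_, ?_, (map_ne_zero _).2 hd⟩
  · simp [ck, WeierstrassCurve.map, WeierstrassCurve.baseChange]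
  · rw [← map_pow, ← map_add, ← map_one (algebraMap k F), ← map_add, hz, map_zero]

variable (hd : d ≠ 0) (hz : z ^ 2 + z + 1 = 0)

theorem omP_map {F F' : Type*} [Field F] [Field F'] [Algebra k F]
    [Algebra k F'] (f : F →ₐ[k] F') (P : Pts (ck d) F) :
    Affine.Point.map f (omP (isK_bc hd hz F) P) =
      omP (isK_bc hd hz F') (Affine.Point.map f P) := by
  have hf : f (algebraMap k F z) = algebraMap k F' z := f.commutes z
  cases P with
  | zero =>
    change Affine.Point.map f (omP (isK_bc hd hz F) 0) =
      omP (isK_bc hd hz F') (Affine.Point.map f 0)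
    rw [map_zero, map_zero, map_zero]
  | some x y hn =>
    obtain ⟨h1, e1⟩ := omP_some (isK_bc hd hz F) x y hn
    rw [e1, Affine.Point.map_some, Affine.Point.map_some]
    obtain ⟨h2, e2⟩ := omP_some (isK_bc hd hz F') (f x) (f y)
      ((Affine.baseChange_nonsingular (ck d) f.injective x y).2 hn)
    rw [e2]
    congr 1
    rw [map_mul, hf]

theorem mu_map {F F' : Type*} [Field F] [Field F'] [CharZero F]
    [CharZero F'] [Algebra k F] [Algebra k F'] (f : F →ₐ[k] F') (P : Pts (ck d) F) :
    Affine.Point.map f (mu (isK_bc hd hz F) P) = mu (isK_bc hd hz F') (Affine.Point.map f P) := by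
  rw [mu_apply, mu_apply, map_sub, omP_map hd hz]

theorem tq_map {F F' : Type*} [Field F] [Field F'] [CharZero F]
    [CharZero F'] [Algebra k F] [Algebra k F'] (f : F →ₐ[k] F') :
    Affine.Point.map (W' := ck d) f (tq (isK_bc hd hz F)) = tq (isK_bc hd hz F') := by
  have hf : f (algebraMap k F d) = algebraMap k F' d := f.commutes d
  rw [tq, tq, Affine.Point.map_some]
  congr 1
  exact map_zero f

theorem cfn_map {F F' : Type*} [Field F] [Field F'] [Algebra k F] [Algebra k F'] (f : F →ₐ[k] F')
    (e : k) (P : Pts (ck d) F) :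
    cfn (algebraMap k F' z) (algebraMap k F' e) (Affine.Point.map f P) =
      f (cfn (algebraMap k F z) (algebraMap k F e) P) := by
  have hf : f (algebraMap k F z) = algebraMap k F' z := f.commutes z
  have hf2 : f (algebraMap k F e) = algebraMap k F' e := f.commutes e
  cases P with
  | zero =>
    change cfn (algebraMap k F' z) (algebraMap k F' e) (0 : Pts (ck d) F') = f 0
    rw [map_zero]
    rfl
  | some x y hn =>
    rw [Affine.Point.map_some]
    change (f y + (1 + 2 * algebraMap k F' z) * algebraMap k F' e) /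
      ((1 + 2 * algebraMap k F' z) * f x) =
      f ((y + (1 + 2 * algebraMap k F z) * algebraMap k F e) /
        ((1 + 2 * algebraMap k F z) * x))
    simp only [map_div₀, map_add, map_mul, map_one, map_ofNat, hf, hf2]

/-- The character with values in the base field. -/
noncomputable def chk {F : Type*} [Field F] [CharZero F] [Algebra k F] (P : Pts (ck d) F) : k :=
  if P = 0 then 1 else if P = tq (isK_bc hd hz F) then z ^ 2 else z

theorem ch_chk {F : Type*} [Field F] [CharZero F] [Algebra k F] (P : Pts (ck d) F) :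
    ch (isK_bc hd hz F) P = algebraMap k F (chk hd hz P) := by
  unfold ch chk
  split_ifs
  · rw [map_one]
  · rw [map_pow]
  · rfl

theorem ch_map {F F' : Type*} [Field F] [Field F'] [CharZero F]
    [CharZero F'] [Algebra k F] [Algebra k F'] (f : F →ₐ[k] F') (P : Pts (ck d) F) :
    ch (isK_bc hd hz F') (Affine.Point.map f P) = f (ch (isK_bc hd hz F) P) := by
  have hf : f (algebraMap k F z) = algebraMap k F' z := f.commutes z
  have hinj : Function.Injective (Affine.Point.map (W' := ck d) f) :=
    Affine.Point.map_injective f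
  have htq := tq_map hd hz f
  rw [ch, ch]
  by_cases h0 : P = 0
  · rw [if_pos h0, if_pos (by rw [h0, map_zero]), map_one]
  · have h0' : Affine.Point.map (W' := ck d) f P ≠ 0 := by
      intro h1
      exact h0 (hinj (h1.trans (map_zero _).symm))
    rw [if_neg h0, if_neg h0']
    by_cases h1 : P = tq (isK_bc hd hz F)
    · rw [if_pos h1, if_pos (by rw [h1, htq]), map_pow, hf]
    · rw [if_neg h1, if_neg (fun h2 => h1 (hinj (h2.trans htq.symm))), hf]

/-- The points of the kernel are rational. -/
theorem ker_fixed {F F' : Type*} [Field F] [Field F'] [CharZero F]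
    [CharZero F'] [Algebra k F] [Algebra k F'] (f g : F →ₐ[k] F') (P : Pts (ck d) F)
    (hP : mu (isK_bc hd hz F) P = 0) : Affine.Point.map f P = Affine.Point.map g P := by
  rcases mu_ker_all _ P hP with h | h | h
  · rw [h, map_zero, map_zero]
  · rw [h, tq_map hd hz, tq_map hd hz]
  · rw [h, map_neg, map_neg, tq_map hd hz, tq_map hd hz]

end Pool.Agent.Lib.MP_1a91b9_ntK.C
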