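import Pool.Agent.Lib.MP_1a91b9_ntK.C.Mu

/-!
# The function whose cube is `Y ∘ (1 - ω) - k`, and the translations by the kernel

`l = 1 + 2 z`. For `P = (x, y)`, `x ≠ 0`: `mu P = (- (x³ + 4 k²) / (3 z x²), - y (x³ - 8 k²) / (3 l x³))`
and `Y(mu P) - k = ((y + l k) / (l x))³`.
-/

set_option autoImplicit false

namespace Pool.Agent.Lib.MP_1a91b9_ntK.C

open WeierstrassCurve
open scoped Classical

/-- The function `(y + l k) / (l x)`, `l = 1 + 2 z`. -/
noncomputable def cfn {F : Type*} [Field F] {W : Affine F} (z k : F) : W.Point → F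
  | .zero => 0
  | .some x y _ => (y + (1 + 2 * z) * k) / ((1 + 2 * z) * x)

variable {F : Type*} [Field F] [CharZero F] {W : Affine F} {z k : F}

private theorem cfa_calc (hz : z ^ 2 + z + 1 = 0) (hz1 : 1 - z ≠ 0) (hz0 : z ≠ 0)
    (hl0 : 1 + 2 * z ≠ 0) {x y : F} (hX : x ≠ 0) (hE : y ^ 2 = x ^ 3 + k ^ 2) :
    ((y - (-y - 0 * (z * x) - 0)) / (x - (z * x))) ^ 2
        + 0 * ((y - (-y - 0 * (z * x) - 0)) / (x - (z * x)))
        - 0 - x - (z * x)
      = -(x ^ 3 + 4 * k ^ 2) / (3 * z * x ^ 2) ∧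
    -(((y - (-y - 0 * (z * x) - 0)) / (x - (z * x)))
          * (((y - (-y - 0 * (z * x) - 0)) / (x - (z * x))) ^ 2
            + 0 * ((y - (-y - 0 * (z * x) - 0)) / (x - (z * x)))
            - 0 - x - (z * x) - x) + y)
        - 0 * (((y - (-y - 0 * (z * x) - 0)) / (x - (z * x))) ^ 2
            + 0 * ((y - (-y - 0 * (z * x) - 0)) / (x - (z * x)))
            - 0 - x - (z * x)) - 0
      = -(y * (x ^ 3 - 8 * k ^ 2)) / (3 * (1 + 2 * z) * x ^ 3) := by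
  obtain ⟨m, hm⟩ : ∃ m : F, m = (y - (-y - 0 * (z * x) - 0)) / (x - (z * x)) := ⟨_, rfl⟩
  have hden : x - (z * x) = (1 - z) * x := by ring
  have hd3 : (1 - z) * x ≠ 0 := mul_ne_zero hz1 hX
  have hmA : m * ((1 - z) * x) = 2 * y := by
    rw [hm, hden, div_mul_cancel₀ _ hd3]
    ring
  rw [← hm]
  have h3 : (1 - z) ^ 2 = -3 * z := by linear_combination hz
  -- the square of the slope
  have hm2 : m ^ 2 * (3 * z * x ^ 2) = -(4 * (x ^ 3 + k ^ 2)) := by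
    have e1 : (m * ((1 - z) * x)) ^ 2 = (2 * y) ^ 2 := by rw [hmA]
    linear_combination -e1 - 4 * hE + (m ^ 2 * x ^ 2) * h3
  have hd1 : (3 * z * x ^ 2) ≠ 0 := mul_ne_zero (mul_ne_zero three_ne_zero hz0) (pow_ne_zero 2 hX)
  have hd2 : (3 * (1 + 2 * z) * x ^ 3) ≠ 0 :=
    mul_ne_zero (mul_ne_zero three_ne_zero hl0) (pow_ne_zero 3 hX)
  refine ⟨?_, ?_⟩
  · rw [eq_div_iff hd1]
    linear_combination hm2 - 3 * x ^ 3 * hz
  · rw [eq_div_iff hd2]
    linear_combination (-3 * x ^ 3 * m ^ 3 + 3 * (2 + z) * x ^ 4 * m + 6 * x ^ 3 * y) * hz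
      - (m * (1 - z) * x) * hm2
      + (4 * (x ^ 3 + k ^ 2) + 3 * (2 + z) * z * x ^ 3) * hmA

theorem mu_some (h : IsK W z k) {x y : F} (hn : W.Nonsingular x y) (hX : x ≠ 0) :
    ∃ (x' y' : F) (hn' : W.Nonsingular x' y'), mu h (.some x y hn) = .some x' y' hn' ∧
      x' = -(x ^ 3 + 4 * k ^ 2) / (3 * z * x ^ 2) ∧
      y' = -(y * (x ^ 3 - 8 * k ^ 2)) / (3 * (1 + 2 * z) * x ^ 3) := by
  have hz := h.hz
  have ha1 : W.a₁ = 0 := by rw [h.eq, ck]
  have ha2 : W.a₂ = 0 := by rw [h.eq, ck]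
  have ha3 : W.a₃ = 0 := by rw [h.eq, ck]
  have hz1 : 1 - z ≠ 0 := sub_ne_zero.2 h.z1.symm
  have hz0 := h.z0
  have hl0 := h.l0
  have hE := (h.nons x y).1 hn
  obtain ⟨hn2, hom⟩ := omP_some h x y hn
  have hne : x ≠ z * x := by
    intro h0
    have h1 : (1 - z) * x = 0 := by linear_combination h0
    exact hX ((mul_eq_zero.1 h1).resolve_left hz1)
  have hmu : mu h (.some x y hn) = Affine.Point.some x y hn + -Affine.Point.some (z * x) y hn2 := by
    rw [mu_apply, hom, sub_eq_add_neg]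
  rw [Affine.Point.neg_some, Affine.Point.add_of_X_ne hne] at hmu
  refine ⟨_, _, _, hmu, ?_, ?_⟩
  · rw [Affine.slope_of_X_ne hne, Affine.addX, Affine.negY, ha1, ha2, ha3]
    exact (cfa_calc hz hz1 hz0 hl0 hX hE).1
  · rw [Affine.slope_of_X_ne hne, Affine.addY, Affine.negAddY, Affine.addX, Affine.negY, Affine.negY, ha1, ha2, ha3]
    exact (cfa_calc hz hz1 hz0 hl0 hX hE).2

/-- A point which is not killed by `mu`. -/
theorem mu_ne_cases (h : IsK W z k) (P : W.Point) (hP : mu h P ≠ 0) :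
    ∃ (x y : F) (hn : W.Nonsingular x y), P = .some x y hn ∧ x ≠ 0 := by
  cases P with
  | zero =>
    exfalso
    exact hP (map_zero (mu h))
  | some x y hn =>
    refine ⟨x, y, hn, rfl, fun hX => hP ?_⟩
    rw [mu_apply, (omP_fixed h hn).2 hX, sub_self]

theorem cfn_cube (h : IsK W z k) (P : W.Point) {x y : F}
    (hn : W.Nonsingular x y) (hP : mu h P = .some x y hn) : cfn z k P ^ 3 = y - k := by
  have hl := h.l2
  have hl0 := h.l0
  obtain ⟨X, Y, hXY, rfl, hX⟩ := mu_ne_cases h P (by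
    rw [hP]
    exact Affine.Point.some_ne_zero _)
  obtain ⟨x', y', hn', hmu, -, hy'⟩ := mu_some h hXY hX
  rw [hmu] at hP
  injection hP with hx1 hy1
  have hE := (h.nons X Y).1 hXY
  rw [← hy1, hy']
  show ((Y + (1 + 2 * z) * k) / ((1 + 2 * z) * X)) ^ 3 = _
  generalize 1 + 2 * z = l at *
  have hA3 : X ^ 3 = Y ^ 2 - k ^ 2 := by linear_combination -hE
  have e1 : ((Y + l * k) / (l * X)) ^ 3 = -(Y + l * k) ^ 3 / (3 * l * X ^ 3) := by
    rw [div_pow, div_eq_div_iff (pow_ne_zero 3 (mul_ne_zero hl0 hX))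
      (mul_ne_zero (mul_ne_zero three_ne_zero hl0) (pow_ne_zero 3 hX))]
    linear_combination (Y + l * k) ^ 3 * X ^ 3 * l * hl
  rw [e1, eq_sub_iff_add_eq, ← sub_eq_zero]
  have hd : (3 * l * X ^ 3) ≠ 0 :=
    mul_ne_zero (mul_ne_zero three_ne_zero hl0) (pow_ne_zero 3 hX)
  have e2 : -(Y + l * k) ^ 3 / (3 * l * X ^ 3) + k - -(Y * (X ^ 3 - 8 * k ^ 2)) / (3 * l * X ^ 3) =
      (-(Y + l * k) ^ 3 + k * (3 * l * X ^ 3) + Y * (X ^ 3 - 8 * k ^ 2)) / (3 * l * X ^ 3) := by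
    field_simp
    ring
  rw [e2, div_eq_zero_iff]
  left
  linear_combination (3 * l * k + Y) * hA3 + (-3 * Y * k ^ 2 - l * k ^ 3) * hl

private theorem CFB_add (h : IsK W z k) {x y : F} (hn : W.Nonsingular x y) (hX : x ≠ 0) :
    ∃ (x' y' : F) (hn' : W.Nonsingular x' y'),
      (.some x y hn : W.Point) + tq h = .some x' y' hn' ∧
      x' = ((y - k) / x) ^ 2 - x ∧
      y' = -((y - k) / x * (((y - k) / x) ^ 2 - 2 * x) + y) := by
  have ha1 : W.a₁ = 0 := by rw [h.eq, ck]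
  have ha2 : W.a₂ = 0 := by rw [h.eq, ck]
  have ha3 : W.a₃ = 0 := by rw [h.eq, ck]
  refine ⟨_, _, _, Affine.Point.add_of_X_ne hX, ?_, ?_⟩
  · rw [Affine.slope_of_X_ne hX, Affine.addX, ha1, ha2, sub_zero]
    ring
  · rw [Affine.slope_of_X_ne hX, Affine.addY, Affine.negAddY, Affine.negY, Affine.addX, ha1, ha2,
      ha3, sub_zero]
    ring

omit [CharZero F] in
private theorem CFB_alg [CharZero F] (X Y m : F) (hz : z ^ 2 + z + 1 = 0) (he0 : k ≠ 0)
    (hl : (1 + 2 * z : F) ≠ 0) (hX : X ≠ 0) (hY : Y ^ 2 = X ^ 3 + k ^ 2) (hm : m * X = Y - k) :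
    (-(m * (m ^ 2 - 2 * X) + Y) + (1 + 2 * z) * k) / ((1 + 2 * z) * (m ^ 2 - X)) =
      z ^ 2 * ((Y + (1 + 2 * z) * k) / ((1 + 2 * z) * X)) := by
  have hD : Y - k ≠ 0 := by
    intro hD
    have h1 : X ^ 3 = 0 := by linear_combination (Y + k) * hD - hY
    exact hX (pow_eq_zero_iff (by norm_num) |>.1 h1)
  have hB : (m ^ 2 - X) * X ^ 2 = -2 * k * (Y - k) := by
    linear_combination (m * X + (Y - k)) * hm + hY
  have hA : (-(m * (m ^ 2 - 2 * X) + Y) + (1 + 2 * z) * k) * X ^ 3 =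
      -2 * z ^ 2 * k * (Y + (1 + 2 * z) * k) * (Y - k) := by
    linear_combination (-(m ^ 2 * X ^ 2 + m * X * (Y - k) + (Y - k) ^ 2) + 2 * X ^ 3) * hm +
      (-(2 * (Y - k) - Y + (1 + 2 * z) * k)) * hY +
      (k * (2 * Y + (4 * z - 2) * k) * (Y - k)) * hz
  have hB0 : m ^ 2 - X ≠ 0 := by
    intro h0
    rw [h0, zero_mul] at hB
    have h2 : (2 : F) ≠ 0 := two_ne_zero
    have h3 : 2 * k * (Y - k) = 0 := by linear_combination hB
    exact (mul_ne_zero (mul_ne_zero h2 he0) hD) h3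
  have key : (-(m * (m ^ 2 - 2 * X) + Y) + (1 + 2 * z) * k) * X =
      z ^ 2 * (Y + (1 + 2 * z) * k) * (m ^ 2 - X) := by
    refine mul_right_cancel₀ (pow_ne_zero 2 hX) ?_
    linear_combination hA - z ^ 2 * (Y + (1 + 2 * z) * k) * hB
  rw [← mul_div_assoc, div_eq_div_iff (mul_ne_zero hl hB0) (mul_ne_zero hl hX)]
  linear_combination (1 + 2 * z) * key

theorem cfn_add_tq (h : IsK W z k) (P : W.Point)
    (hP : mu h P ≠ 0) : cfn z k (P + tq h) = z ^ 2 * cfn z k P := by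
  obtain ⟨x, y, hn, rfl, hX⟩ := mu_ne_cases h P hP
  obtain ⟨x', y', hn', e1, e2, e3⟩ := CFB_add h hn hX
  rw [e1]
  change (y' + (1 + 2 * z) * k) / ((1 + 2 * z) * x') =
    z ^ 2 * ((y + (1 + 2 * z) * k) / ((1 + 2 * z) * x))
  rw [e2, e3]
  exact CFB_alg _ _ _ h.hz h.hk h.l0 hX ((h.nons x y).1 hn) (div_mul_cancel₀ _ hX)

theorem cfn_add (h : IsK W z k) (P R : W.Point)
    (hP : mu h P ≠ 0) (hR : mu h R = 0) : cfn z k (P + R) = ch h R * cfn z k P := by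
  have hz3 := h.z3
  rcases mu_ker_all h R hR with rfl | rfl | rfl
  · rw [add_zero, ch_zero, one_mul]
  · rw [cfn_add_tq h P hP, ch_tq]
  · have hP' : mu h (P + -tq h) ≠ 0 := by
      rw [map_add, map_neg, mu_tq, neg_zero, add_zero]
      exact hP
    have h2 := cfn_add_tq h (P + -tq h) hP'
    rw [neg_add_cancel_right] at h2
    rw [ch_neg_tq, h2]
    linear_combination (-cfn z k (P + -tq h)) * hz3

/-- The translation for `-k`. -/
theorem cfn_add' (h : IsK W z k) (P R : W.Point) (hP : mu h P ≠ 0) (hR : mu h R = 0) :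
    cfn z (-k) (P + R) = ch h R ^ 2 * cfn z (-k) P := by
  rw [cfn_add h.neg P R (by rwa [mu_negk]) (by rwa [mu_negk]), ch_negk h R hR]

theorem cfn_cube' (h : IsK W z k) (P : W.Point) {x y : F}
    (hn : W.Nonsingular x y) (hP : mu h P = .some x y hn) : cfn z (-k) P ^ 3 = y + k := by
  rw [cfn_cube h.neg P hn (by rw [mu_negk h, hP]), sub_neg_eq_add]

end Pool.Agent.Lib.MP_1a91b9_ntK.C
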