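import Mathlib

/-!
# MP_1a91b9_nt (cubic twists), part C: the local conditions of the cube-root descent

The curve is `y² = x³ + k²`, `l² = -3`; the descent map is `(x, y) ↦ y - k` modulo cubes.
-/

set_option autoImplicit false

namespace Pool.Agent.Lib.MP_1a91b9_ntK.C

open WithZero

/-- `u` is a cube up to a factor `= 1` modulo (more than) `3 l`: a cube in the completion. -/
def Cu {L : Type*} [Field L] (ν : Valuation L ℤᵐ⁰) (l u : L) : Prop :=
  ∃ b : L, b ≠ 0 ∧ ν (u / b ^ 3 - 1) < ν (3 * l)

/-- The local condition for `a`, over a field with a valuation: the class of `a` is trivial, or the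
class of one of the two points `(0, ± k)`, or the class of a point with ordinate `y`. -/
def GLoc {L : Type*} [Field L] (ν : Valuation L ℤᵐ⁰) (l k a : L) : Prop :=
  Cu ν l a ∨ Cu ν l (a * (2 * k)) ∨ Cu ν l (a * (2 * k) ^ 2) ∨
    ∃ y : L, Cu ν l (y ^ 2 - k ^ 2) ∧ Cu ν l (a * (y - k))

end Pool.Agent.Lib.MP_1a91b9_ntK.C
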