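import Pool.Agent.Lib.MP_1a91b9_ntK.C.Kd
import Pool.Agent.Lib.MP_1a91b9_ntK.C.LocDefs

/-!
# From the completion to the field
-/

set_option autoImplicit false

namespace Pool.Agent.Lib.MP_1a91b9_ntK.C

open WeierstrassCurve WithZero NumberField IsDedekindDomain
open scoped Classical

private theorem Dens_val {N : Type*} [Field N] [NumberField N] (v : HeightOneSpectrum (𝓞 N))
    (x : N) : Valued.v (algebraMap N (v.adicCompletion N) x) = v.valuation N x :=
  HeightOneSpectrum.valuedAdicCompletion_eq_valuation' v _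

private theorem Dens_dense {N : Type*} [Field N] [NumberField N] (v : HeightOneSpectrum (𝓞 N))
    (x : v.adicCompletion N) (γ : ℤᵐ⁰) (hγ : γ ≠ 0) :
    ∃ X : N, Valued.v (x - algebraMap N (v.adicCompletion N) X) < γ := by
  have hn1 : exp (-(1 : ℤ)) < (1 : ℤᵐ⁰) := by
    rw [← exp_zero, exp_lt_exp]
    omega
  have hlt : exp (-(1 : ℤ)) * γ < γ := by
    have h := mul_lt_mul_of_pos_right hn1 (zero_lt_iff.2 hγ)
    rwa [one_mul] at h
  obtain ⟨c, hc⟩ := HeightOneSpectrum.valuedAdicCompletion_surjective N v (exp (-(1 : ℤ)) * γ)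
  have hcr : Valued.v.restrict c ≠ 0 := by
    rw [Ne, Valuation.restrict_eq_zero_iff, hc]
    exact mul_ne_zero exp_ne_zero hγ
  have hO : IsOpen ((fun y : v.adicCompletion N => x - y) ⁻¹'
      {z : v.adicCompletion N | Valued.v.restrict z ≤ Valued.v.restrict c}) :=
    (Valued.isOpen_closedBall _ hcr).preimage (continuous_const.sub continuous_id)
  obtain ⟨z, hz⟩ := (HeightOneSpectrum.denseRange_algebraMap N v).exists_mem_open hO
    ⟨x, by
      rw [Set.mem_preimage, sub_self, Set.mem_ofPred_eq, map_zero]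
      exact zero_le⟩
  rw [Set.mem_preimage, Set.mem_ofPred_eq, Valuation.restrict_le_iff, hc] at hz
  exact ⟨z, hz.trans_lt hlt⟩

/-- if `p` and `q` are close to `1`, so is `p q` -/
private theorem Dens_mul {F : Type*} [Field F] (ν : Valuation F ℤᵐ⁰) {t : ℤᵐ⁰} (ht : t ≤ 1)
    {p q : F} (hp : ν (p - 1) < t) (hq : ν (q - 1) < t) : ν (p * q - 1) < t := by
  have hq1 : ν q ≤ 1 := by
    have e : q = (q - 1) + 1 := by ring
    rw [e]
    exact Valuation.map_add_le _ (hq.le.trans ht) (by rw [map_one])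
  have e : p * q - 1 = (p - 1) * q + (q - 1) := by ring
  rw [e]
  refine Valuation.map_add_lt _ ?_ hq
  rw [map_mul]
  exact (mul_le_of_le_one_right' hq1).trans_lt hp

/-- if `w` is close to `1`, so is `1 / w ^ 3` -/
private theorem Dens_inv {F : Type*} [Field F] (ν : Valuation F ℤᵐ⁰) {t : ℤᵐ⁰} (ht : t ≤ 1)
    {w : F} (hw : ν (w - 1) < t) : ν ((w ^ 3)⁻¹ - 1) < t := by
  have h1 : ν (w - 1) < ν 1 := by
    rw [map_one]
    exact hw.trans_le ht
  have hw1 : ν w = 1 := by
    have e : w = (w - 1) + 1 := by ring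
    rw [e, Valuation.map_add_eq_of_lt_right _ h1, map_one]
  have hw0 : w ≠ 0 := by
    intro h
    rw [h, map_zero] at hw1
    exact zero_ne_one hw1
  have h2 : ν (w ^ 3 - 1) < t := by
    have e : w ^ 3 = w * (w * w) := by ring
    rw [e]
    exact Dens_mul ν ht hw (Dens_mul ν ht hw hw)
  have e : (w ^ 3)⁻¹ - 1 = -((w ^ 3 - 1) * (w ^ 3)⁻¹) := by
    field_simp
    ring
  rw [e, Valuation.map_neg, map_mul, map_inv₀, map_pow, hw1, one_pow, inv_one, mul_one]
  exact h2

section

variable {N : Type*} [Field N] [NumberField N] (v : HeightOneSpectrum (𝓞 N)) {z : N}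

private theorem Dens_l0 (hz : z ^ 2 + z + 1 = 0) : (3 * (1 + 2 * z) : N) ≠ 0 := by
  intro h0
  have h3 : (9 : N) = 0 := by
    linear_combination 12 * hz - (1 + 2 * z) * h0
  norm_num at h3

private theorem Dens_t0 (hz : z ^ 2 + z + 1 = 0) : v.valuation N (3 * (1 + 2 * z)) ≠ 0 := by
  rw [Ne, Valuation.zero_iff]
  exact Dens_l0 hz

private theorem Dens_nat (n : ℕ) : v.valuation N (n : N) ≤ 1 := by
  have h : v.valuation N (algebraMap (𝓞 N) N (n : 𝓞 N)) ≤ 1 :=
    HeightOneSpectrum.valuation_le_one (K := N) v (n : 𝓞 N)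
  rwa [map_natCast (algebraMap (𝓞 N) N) n] at h

private theorem Dens_t1 (hz : z ^ 2 + z + 1 = 0) : v.valuation N (3 * (1 + 2 * z)) ≤ 1 := by
  have hz3 : z ^ 3 = 1 := by linear_combination (z - 1) * hz
  have hzv : v.valuation N z ≤ 1 := by
    have h1 : v.valuation N z ^ 3 = 1 := by rw [← map_pow, hz3, map_one]
    exact (pow_eq_one_iff_of_nonneg zero_le (by norm_num)).1 h1 |>.le
  have h3 : v.valuation N (3 : N) ≤ 1 := by exact_mod_cast Dens_nat v 3
  have h2 : v.valuation N (2 : N) ≤ 1 := by exact_mod_cast Dens_nat v 2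
  rw [map_mul]
  refine mul_le_one' h3 (Valuation.map_add_le _ (by rw [map_one]) ?_)
  rw [map_mul]
  exact mul_le_one' h2 hzv

private theorem Dens_cu (hz : z ^ 2 + z + 1 = 0)
    (u : N) (β : v.adicCompletion N) (hβ : β ≠ 0)
    (h : Valued.v (algebraMap N (v.adicCompletion N) u / β ^ 3 - 1) <
      v.valuation N (3 * (1 + 2 * z))) :
    Cu (v.valuation N) (1 + 2 * z) u := by
  have ht0 := Dens_t0 v hz
  have ht1 := Dens_t1 v hz
  set t := v.valuation N (3 * (1 + 2 * z)) with htdef
  have hβv : (Valued.v β : ℤᵐ⁰) ≠ 0 := by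
    rw [Ne, Valuation.zero_iff]
    exact hβ
  obtain ⟨b, hb⟩ := Dens_dense v β (Valued.v β * t) (mul_ne_zero hβv ht0)
  have hw : Valued.v (algebraMap N (v.adicCompletion N) b / β - 1) < t := by
    have e : algebraMap N (v.adicCompletion N) b / β - 1 =
        -((β - algebraMap N (v.adicCompletion N) b) / β) := by
      field_simp
      ring
    rw [e, Valuation.map_neg, map_div₀, div_lt_iff₀ (zero_lt_iff.2 hβv), mul_comm]
    exact hb
  have hw0 : algebraMap N (v.adicCompletion N) b / β ≠ 0 := by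
    intro hc
    rw [hc, zero_sub, Valuation.map_neg, map_one] at hw
    exact absurd ht1 (not_le.2 hw)
  have hb0 : algebraMap N (v.adicCompletion N) b ≠ 0 := by
    intro hc
    rw [hc, zero_div] at hw0
    exact hw0 rfl
  refine ⟨b, fun hc => hb0 (by rw [hc, map_zero]), ?_⟩
  rw [← Dens_val v, map_sub, map_div₀, map_pow, map_one]
  have e : algebraMap N (v.adicCompletion N) u / algebraMap N (v.adicCompletion N) b ^ 3 =
      (algebraMap N (v.adicCompletion N) u / β ^ 3) *
        ((algebraMap N (v.adicCompletion N) b / β) ^ 3)⁻¹ := by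
    field_simp
  rw [e]
  exact Dens_mul _ ht1 h (Dens_inv _ ht1 hw)

private theorem Dens_cu' (hz : z ^ 2 + z + 1 = 0) (u : N) (hu : u ≠ 0)
    (h : ∃ β : v.adicCompletion N, β ^ 3 = algebraMap N (v.adicCompletion N) u) :
    Cu (v.valuation N) (1 + 2 * z) u := by
  obtain ⟨r, hr⟩ := h
  have hu' : algebraMap N (v.adicCompletion N) u ≠ 0 := (map_ne_zero _).2 hu
  have hr0 : r ≠ 0 := by
    rintro rfl
    rw [zero_pow three_ne_zero] at hr
    exact hu' hr.symm
  refine Dens_cu v hz u r hr0 ?_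
  rw [← hr, div_self (pow_ne_zero 3 hr0), sub_self, map_zero]
  exact zero_lt_iff.2 (Dens_t0 v hz)

/-- passage from the completion to the field -/
theorem gloc_of_locAt (hz : z ^ 2 + z + 1 = 0) {d a : N} (hd : d ≠ 0) (ha : a ≠ 0)
    (h : LocAt d a (v.adicCompletion N)) : GLoc (v.valuation N) (1 + 2 * z) d a := by
  have hd2 : (2 * d : N) ≠ 0 := mul_ne_zero two_ne_zero hd
  rcases h with h | h | h | ⟨x, y, β, hxy, hx0, hβ⟩
  · exact Or.inl (Dens_cu' v hz _ ha h)
  · exact Or.inr (Or.inl (Dens_cu' v hz _ (mul_ne_zero ha hd2) h))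
  · exact Or.inr (Or.inr (Or.inl (Dens_cu' v hz _ (mul_ne_zero ha (pow_ne_zero 2 hd2)) h)))
  · right; right; right
    set D := algebraMap N (v.adicCompletion N) d with hD
    have hprod : (y - D) * (y + D) = x ^ 3 := by linear_combination hxy
    have hx3 : x ^ 3 ≠ 0 := pow_ne_zero 3 hx0
    have hm0 : y - D ≠ 0 := by
      intro hc
      rw [hc, zero_mul] at hprod
      exact hx3 hprod.symm
    have hp0 : y + D ≠ 0 := by
      intro hc
      rw [hc, mul_zero] at hprod
      exact hx3 hprod.symm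
    have ht0 := Dens_t0 v hz
    have ht1 := Dens_t1 v hz
    set t := v.valuation N (3 * (1 + 2 * z)) with htdef
    have hmv : (Valued.v (y - D) : ℤᵐ⁰) ≠ 0 := by
      rw [Ne, Valuation.zero_iff]
      exact hm0
    have hpv : (Valued.v (y + D) : ℤᵐ⁰) ≠ 0 := by
      rw [Ne, Valuation.zero_iff]
      exact hp0
    obtain ⟨γ, hγ0, hγm, hγp⟩ : ∃ γ : ℤᵐ⁰, γ ≠ 0 ∧ γ ≤ Valued.v (y - D) ∧
        γ ≤ Valued.v (y + D) :=
      ⟨min (Valued.v (y - D)) (Valued.v (y + D)), by
        rcases min_choice (Valued.v (y - D) : ℤᵐ⁰) (Valued.v (y + D)) with h | h <;> rw [h] <;>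
          assumption, min_le_left _ _, min_le_right _ _⟩
    obtain ⟨Y, hY⟩ := Dens_dense v y (γ * t) (mul_ne_zero hγ0 ht0)
    have hη : ∀ e : v.adicCompletion N, γ ≤ Valued.v (y - e) → y - e ≠ 0 →
        Valued.v ((algebraMap N (v.adicCompletion N) Y - e) / (y - e) - 1) < t := by
      intro e he he0
      have hev : (Valued.v (y - e) : ℤᵐ⁰) ≠ 0 := by
        rw [Ne, Valuation.zero_iff]
        exact he0
      have e1 : (algebraMap N (v.adicCompletion N) Y - e) / (y - e) - 1 =
          -((y - algebraMap N (v.adicCompletion N) Y) / (y - e)) := by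
        rw [div_sub_one he0, ← neg_div]
        congr 1
        ring
      rw [e1, Valuation.map_neg, map_div₀, div_lt_iff₀ (zero_lt_iff.2 hev), mul_comm]
      exact hY.trans_le (mul_le_mul_left he _)
    have hηm := hη D hγm hm0
    have hηp := hη (-D) (by rwa [sub_neg_eq_add]) (by rwa [sub_neg_eq_add])
    rw [sub_neg_eq_add, sub_neg_eq_add] at hηp
    refine ⟨Y, ?_, ?_⟩
    · refine Dens_cu v hz _ x hx0 ?_
      have e : algebraMap N (v.adicCompletion N) (Y ^ 2 - d ^ 2) / x ^ 3 =
          ((algebraMap N (v.adicCompletion N) Y - D) / (y - D)) *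
          ((algebraMap N (v.adicCompletion N) Y + D) / (y + D)) := by
        rw [div_mul_div_comm, hprod, map_sub, map_pow, map_pow, ← hD]
        congr 1
        ring
      rw [e]
      exact Dens_mul _ ht1 hηm hηp
    · have ha' : algebraMap N (v.adicCompletion N) a ≠ 0 := (map_ne_zero _).2 ha
      have hβ0 : β ≠ 0 := by
        rintro rfl
        rw [zero_pow three_ne_zero] at hβ
        exact (mul_ne_zero ha' hm0) hβ.symm
      refine Dens_cu v hz _ β hβ0 ?_
      have e : algebraMap N (v.adicCompletion N) (a * (Y - d)) / β ^ 3 =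
          (algebraMap N (v.adicCompletion N) Y - D) / (y - D) := by
        rw [hβ, map_mul, map_sub, ← hD, mul_div_mul_left _ _ ha']
      rw [e]
      exact hηm

end

end Pool.Agent.Lib.MP_1a91b9_ntK.C
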