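import Pool.Agent.Lib.MP_1a91b9_ntT.S9.MA
import Pool.Agent.Lib.MP_1a91b9_ntT3.R3.Defs
import Pool.Agent.Lib.MP_1a91b9_ntK.C.Dens

/-!
# Locally trivial cocycles, the descent by `1 - ω`, the 3-torsion of the Tate-Shafarevich group
-/

set_option autoImplicit false

namespace Pool.Agent.Lib.MP_1a91b9_ntK.C

open WeierstrassCurve WithZero NumberField IsDedekindDomain
open Pool.Agent.Lib.MP_1a91b9_ntT.S9 (Pts Gal coc cob trivOver shaCoc Sha up)
open Pool.Agent.Lib.MP_1a91b9_ntT3.S9 (ShaP)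
open scoped Classical

/-- The conclusion of the analysis of the Selmer elements of `y² = x³ + d²`. -/
def SelCl {N : Type*} [Field N] [NumberField N] (z d : N) : Prop :=
  ∀ a : N, a ≠ 0 → (∀ v : HeightOneSpectrum (𝓞 N), GLoc (v.valuation N) (1 + 2 * z) d a) →
    (∃ r, r ^ 3 = a) ∨ (∃ r, r ^ 3 = a * (2 * d)) ∨ ∃ r, r ^ 3 = a * (2 * d) ^ 2

section

variable {N : Type*} [Field N] [NumberField N] {d : N} (hd : d ≠ 0) {z : N}
  (hz : z ^ 2 + z + 1 = 0) (hS : SelCl z d)

include hS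

/-- A locally trivial cocycle with values in the kernel of `1 - ω` is the coboundary of a point `R`
with `(1 - ω) R` in the kernel. -/
theorem main_coc (c : Gal N → Pts (ck d) (AlgebraicClosure N)) (hc : c ∈ shaCoc (ck d))
    (h2 : ∀ σ, mu (isK_bc hd hz (AlgebraicClosure N)) (c σ) = 0) :
    ∃ R : Pts (ck d) (AlgebraicClosure N),
      (mu (isK_bc hd hz (AlgebraicClosure N)) R = 0 ∨
        mu (isK_bc hd hz (AlgebraicClosure N)) R = tq (isK_bc hd hz (AlgebraicClosure N)) ∨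
        mu (isK_bc hd hz (AlgebraicClosure N)) R = -tq (isK_bc hd hz (AlgebraicClosure N))) ∧
      ∀ σ, c σ = act (ck d) σ R - R := by
  obtain ⟨a, b, hk⟩ := exists_kd hd hz c hc.1.1 h2
  have ha : a ≠ 0 := by
    rintro rfl
    have h := hk.cu
    rw [_root_.map_zero] at h
    exact hk.ne ((pow_eq_zero_iff three_ne_zero).1 h.symm)
  have hloc : ∀ v : HeightOneSpectrum (𝓞 N), GLoc (v.valuation N) (1 + 2 * z) d a := fun v => by
    have : CharZero (v.adicCompletion N) :=
      charZero_of_injective_algebraMap (algebraMap N (v.adicCompletion N)).injective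
    have h : c ∈ ⨅ v : HeightOneSpectrum (𝓞 N), trivOver (ck d) (v.adicCompletion N) := hc.1.2
    have hcv : c ∈ trivOver (ck d) (v.adicCompletion N) := AddSubgroup.mem_iInf.1 h v
    exact gloc_of_locAt v hz hd ha (kd_loc hd hz c h2 a b hk hcv)
  rcases hS a ha hloc with h | h
  · refine ⟨0, Or.inl (_root_.map_zero _), fun σ => ?_⟩
    rw [kd_zero hd hz c h2 a b hk h σ, _root_.map_zero, sub_zero]
  · obtain ⟨R, hR, hc'⟩ := kd_cob hd hz c h2 a b hk h
    exact ⟨R, Or.inr hR, hc'⟩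

include hd hz in
private theorem desc_pts0 (P : Pts (ck d) N) :
    ∃ T Q : Pts (ck d) N, mu (isK_bc hd hz N) T = 0 ∧ P = T + mu (isK_bc hd hz N) Q := by
  have hup : ∀ (σ : Gal N) (P : Pts (ck d) N),
      act (ck d) σ (up (ck d) N (AlgebraicClosure N) P) = up (ck d) N (AlgebraicClosure N) P := by
    intro σ P
    show Affine.Point.map _ (Affine.Point.map _ _) = _
    rw [Affine.Point.map_map]
    have hcomp : (σ : AlgebraicClosure N →ₐ[N] AlgebraicClosure N).comp
        (IsScalarTower.toAlgHom N N (AlgebraicClosure N)) =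
        IsScalarTower.toAlgHom N N (AlgebraicClosure N) := AlgHom.ext fun x => σ.commutes x
    rw [hcomp]
  obtain ⟨R₀, hR₀⟩ := exists_mu_closed (isK_bc hd hz (AlgebraicClosure N))
    (up (ck d) N (AlgebraicClosure N) P)
  obtain ⟨R, hR, hc⟩ := main_coc hd hz hS (fun σ => act (ck d) σ R₀ - R₀)
    (Pool.Agent.Lib.MP_1a91b9_ntT.S9.cob_le_shaCoc (ck d) ⟨R₀, fun σ => rfl⟩) fun σ => by
      rw [_root_.map_sub, ← act_mu hd hz, hR₀, hup, sub_self]
  obtain ⟨Q, hQ⟩ := Pool.Agent.Lib.MP_1a91b9_ntT.S9.fixed_pt (L := N) (ck d) (R₀ - R) fun σ => by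
    have h1 : Affine.Point.map ((σ : AlgebraicClosure N →ₐ[N] AlgebraicClosure N).restrictScalars N)
        (R₀ - R) = act (ck d) σ (R₀ - R) := rfl
    rw [h1, _root_.map_sub]
    have h2 := hc σ
    have h3 : act (ck d) σ R₀ - act (ck d) σ R = (act (ck d) σ R₀ - R₀) -
      (act (ck d) σ R - R) + (R₀ - R) := by abel
    rw [h3, ← h2, sub_self, zero_add]
  have hinj : Function.Injective (up (ck d) N (AlgebraicClosure N)) := Affine.Point.map_injective _
  have hmuup : ∀ P : Pts (ck d) N, up (ck d) N (AlgebraicClosure N) (mu (isK_bc hd hz N) P) =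
      mu (isK_bc hd hz (AlgebraicClosure N)) (up (ck d) N (AlgebraicClosure N) P) := fun P =>
    mu_map hd hz (IsScalarTower.toAlgHom N N (AlgebraicClosure N)) P
  have htq : up (ck d) N (AlgebraicClosure N) (tq (isK_bc hd hz N)) =
      tq (isK_bc hd hz (AlgebraicClosure N)) :=
    tq_map hd hz (IsScalarTower.toAlgHom N N (AlgebraicClosure N))
  have hP : up (ck d) N (AlgebraicClosure N) P =
      mu (isK_bc hd hz (AlgebraicClosure N)) R +
        up (ck d) N (AlgebraicClosure N) (mu (isK_bc hd hz N) Q) := by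
    rw [hmuup, hQ, _root_.map_sub, hR₀]
    abel
  rcases hR with hR | hR | hR
  · refine ⟨0, Q, _root_.map_zero _, hinj ?_⟩
    rw [hP, hR, zero_add, zero_add]
  · refine ⟨tq (isK_bc hd hz N), Q, mu_tq _, hinj ?_⟩
    rw [hP, hR, _root_.map_add, htq]
  · refine ⟨-tq (isK_bc hd hz N), Q, by rw [_root_.map_neg, mu_tq, neg_zero], hinj ?_⟩
    rw [hP, hR, _root_.map_add, _root_.map_neg (up (ck d) N (AlgebraicClosure N)) _, htq]

omit hS [NumberField N] in
theorem isK_self {W : Affine N} (hW : W = ck d) (hd : d ≠ 0) (hz : z ^ 2 + z + 1 = 0) :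
    IsK W z d := ⟨hW, hz, hd⟩

omit hS in
private theorem desc_transport {W₁ W₂ : Affine N} (e : W₁ = W₂) {z₁ z₂ d₁ d₂ : N} (ez : z₁ = z₂)
    (ed : d₁ = d₂) (h₁ : IsK W₁ z₁ d₁) (h₂ : IsK W₂ z₂ d₂)
    (h : ∀ P : W₁.Point, ∃ T Q : W₁.Point, mu h₁ T = 0 ∧ P = T + mu h₁ Q) :
    ∀ P : W₂.Point, ∃ T Q : W₂.Point, mu h₂ T = 0 ∧ P = T + mu h₂ Q := by
  subst e
  subst ez
  subst ed
  exact h

include hd hz in
theorem desc_pts {W : Affine N} (hW : IsK W z d) (P : W.Point) :
    ∃ T Q : W.Point, mu hW T = 0 ∧ P = T + mu hW Q := by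
  have h0 := isK_bc hd hz N
  refine desc_transport (h0.eq.trans hW.eq.symm) rfl rfl h0 hW (desc_pts0 hd hz hS) P

include hd hz in
theorem mu_class (c : Gal N → Pts (ck d) (AlgebraicClosure N)) (hc : c ∈ shaCoc (ck d))
    (h2 : (fun σ => mu (isK_bc hd hz (AlgebraicClosure N)) (c σ)) ∈ cob (ck d)) :
    c ∈ cob (ck d) := by
  obtain ⟨Q, hQ⟩ := h2
  obtain ⟨R, hR⟩ := exists_mu_closed (isK_bc hd hz (AlgebraicClosure N)) Q
  have hd' : (fun σ : Gal N => act (ck d) σ R - R) ∈ cob (ck d) := ⟨R, fun σ => rfl⟩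
  have hc' : c - (fun σ : Gal N => act (ck d) σ R - R) ∈ cob (ck d) := by
    obtain ⟨R', _, h⟩ := main_coc hd hz hS _
      (sub_mem hc (Pool.Agent.Lib.MP_1a91b9_ntT.S9.cob_le_shaCoc (ck d) hd')) fun σ => by
        have h1 : mu (isK_bc hd hz (AlgebraicClosure N)) (c σ) = act (ck d) σ Q - Q := hQ σ
        simp only [Pi.sub_apply]
        rw [_root_.map_sub, _root_.map_sub, h1, ← act_mu hd hz, hR, sub_self]
    exact ⟨R', h⟩
  have h5 := add_mem hc' hd'
  rwa [sub_add_cancel] at h5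

omit hS in
/-- `1 - ω` preserves the locally trivial cocycles. -/
theorem mu_shaCoc (c : Gal N → Pts (ck d) (AlgebraicClosure N)) (hc : c ∈ shaCoc (ck d)) :
    (fun σ => mu (isK_bc hd hz (AlgebraicClosure N)) (c σ)) ∈ shaCoc (ck d) := by
  have htriv : ∀ (L : Type _) [Field L] [CharZero L] [Algebra N L], c ∈ trivOver (ck d) L →
      (fun σ => mu (isK_bc hd hz (AlgebraicClosure N)) (c σ)) ∈ trivOver (ck d) L := by
    intro L _ _ _ h i
    obtain ⟨P, hP⟩ := h i
    refine ⟨mu (isK_bc hd hz (AlgebraicClosure L)) P, fun σ τ hστ => ?_⟩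
    rw [mu_map hd hz, hP σ τ hστ, _root_.map_sub, mu_map hd hz]
  refine ⟨⟨⟨?_, ?_⟩, ?_⟩, ?_⟩
  · exact hc.1.1.1.comp _
  · intro σ τ
    show mu (isK_bc hd hz (AlgebraicClosure N)) (c (σ * τ)) = _
    rw [hc.1.1.2 σ τ, _root_.map_add]
    congr 1
    exact (mu_map hd hz _ _).symm
  · refine AddSubgroup.mem_iInf.2 fun v => ?_
    have : CharZero (v.adicCompletion N) :=
      charZero_of_injective_algebraMap (algebraMap N (v.adicCompletion N)).injective
    exact htriv _ (AddSubgroup.mem_iInf.1 hc.1.2 v)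
  · refine AddSubgroup.mem_iInf.2 fun v => ?_
    have : CharZero v.Completion :=
      charZero_of_injective_algebraMap (algebraMap N v.Completion).injective
    exact htriv _ (AddSubgroup.mem_iInf.1 hc.2 v)

include hd hz in
theorem three_class (c : Gal N → Pts (ck d) (AlgebraicClosure N)) (hc : c ∈ shaCoc (ck d))
    (h3 : 3 • c ∈ cob (ck d)) : c ∈ cob (ck d) := by
  refine mu_class hd hz hS c hc (mu_class hd hz hS _ (mu_shaCoc hd hz c hc) ?_)
  obtain ⟨Q, hQ⟩ := h3
  refine ⟨-(omP (isK_bc hd hz (AlgebraicClosure N)) Q), fun σ => ?_⟩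
  have h1 : 3 • c σ = act (ck d) σ Q - Q := hQ σ
  show mu (isK_bc hd hz (AlgebraicClosure N)) (mu (isK_bc hd hz (AlgebraicClosure N)) (c σ)) =
    act (ck d) σ (-(omP (isK_bc hd hz (AlgebraicClosure N)) Q)) -
      -(omP (isK_bc hd hz (AlgebraicClosure N)) Q)
  have h4 : act (ck d) σ (omP (isK_bc hd hz (AlgebraicClosure N)) Q) =
      omP (isK_bc hd hz (AlgebraicClosure N)) (act (ck d) σ Q) :=
    omP_map hd hz (σ : AlgebraicClosure N →ₐ[N] AlgebraicClosure N) Q
  rw [mu_mu, ← _root_.map_nsmul, h1, _root_.map_sub, _root_.map_neg, h4]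
  abel

include hd hz in
theorem sha_three (x : Sha (ck d)) (h : 3 • x = 0) : x = 0 := by
  have key : ∀ y : shaCoc (ck d) ⧸ (cob (ck d)).addSubgroupOf (shaCoc (ck d)),
      3 • y = 0 → y = 0 := by
    intro y hy
    obtain ⟨⟨c, hc⟩, rfl⟩ := QuotientAddGroup.mk_surjective y
    rw [← QuotientAddGroup.mk_nsmul, QuotientAddGroup.eq_zero_iff,
      AddSubgroup.mem_addSubgroupOf] at hy
    rw [QuotientAddGroup.eq_zero_iff, AddSubgroup.mem_addSubgroupOf]
    exact three_class hd hz hS c hc hy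
  exact key x h

include hd hz in
/-- The 3-primary part of the Tate-Shafarevich group is trivial. -/
theorem card_shaP : Nat.card (ShaP 3 (ck d)) = 1 := by
  have key : ∀ n : ℕ, ∀ y : Sha (ck d), 3 ^ n • y = 0 → y = 0 := by
    intro n
    induction n with
    | zero =>
      intro y hy
      simpa using hy
    | succ n ih =>
      intro y hy
      refine sha_three hd hz hS y (ih _ ?_)
      rw [← mul_nsmul', ← pow_succ]
      exact hy
  have h1 : ∀ x : AddCommGroup.primaryComponent (Sha (ck d)) 3, x = 0 := by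
    rintro ⟨x, n, hn⟩
    exact Subtype.ext (key n x hn)
  exact Nat.card_eq_one_iff_unique.2
    ⟨⟨fun x y => (h1 x).trans (h1 y).symm⟩, ⟨(0 : AddCommGroup.primaryComponent (Sha (ck d)) 3)⟩⟩

end

end Pool.Agent.Lib.MP_1a91b9_ntK.C
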