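import Pool.Agent.Lib.MP_1a91b9_ntK.C.Hyp3
import Pool.Agent.Lib.MP_1a91b9_ntK.R.Ring

/-!
# MP_1a91b9_nt (cubic twists), part C: elements of `K` whose valuations are divisible by `3`;
monomials `w ^ i * ∏ q ^ V q`
-/

set_option autoImplicit false
set_option linter.unusedSectionVars false

namespace Pool.Agent.Lib.MP_1a91b9_ntK.C

open NumberField IsDedekindDomain WithZero Finset Pool.Agent.Lib.MP_1a91b9_ntT
open Pool.Agent.Lib.MP_1a91b9_ntH (wO s3 Nz Nz_two_le Nz_mul Nz_eq_zero isUnit_iff_Nz exists_coords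
  wO_quad isEis coe_wO prime_s3 s3_sq)
open Pool.Agent.Lib.MP_1a91b9_ntH.C (ideal_eq val_one val_lt val_le val_prime val_le_sq s3_prime coe_s3
  exists_near two_prime)
open Pool.Agent.Lib.MP_1a91b9_ntX.R (cs G3 cs_mul cs_pow cs_one)

noncomputable section

theorem wO_ne : wO ≠ 0 := by
  intro h
  have hw := wO_quad
  rw [h] at hw
  norm_num at hw

theorem wO_cube : wO ^ 3 = 1 := by linear_combination (wO - 1) * wO_quad

theorem wO_unit : IsUnit wO := IsUnit.of_mul_eq_one (wO ^ 2) (by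
  rw [← pow_succ']
  exact wO_cube)

theorem isUnit_notMem {v : HeightOneSpectrum (𝓞 K)} {u : 𝓞 K} (hu : IsUnit u) : u ∉ v.asIdeal :=
  fun h => v.isPrime.ne_top (Ideal.eq_top_of_isUnit_mem _ h hu)

/-- The units are cubes up to a power of `w`. -/
theorem unit_w {u : 𝓞 K} (hu : IsUnit u) :
    ∃ i : ℕ, ∃ m : 𝓞 K, m ≠ 0 ∧ u = wO ^ i * m ^ 3 := by
  obtain ⟨p, rfl⟩ := exists_coords u
  have h1 := (isEis.isUnit_iff p.1 p.2).1 hu
  unfold Pool.Agent.Lib.MP_1a91b9_ntH.R.nm at h1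
  have hw := wO_quad
  have h2 : (2 * p.1 - p.2) ^ 2 + 3 * p.2 ^ 2 = 4 := by linear_combination 4 * h1
  have h3 : p.2 ≤ 1 := by nlinarith [sq_nonneg (2 * p.1 - p.2)]
  have h4 : -1 ≤ p.2 := by nlinarith [sq_nonneg (2 * p.1 - p.2)]
  have h5 : (2 * p.2 - p.1) ^ 2 + 3 * p.1 ^ 2 = 4 := by linear_combination 4 * h1
  have h6 : p.1 ≤ 1 := by nlinarith [sq_nonneg (2 * p.2 - p.1)]
  have h7 : -1 ≤ p.1 := by nlinarith [sq_nonneg (2 * p.2 - p.1)]
  have hp1 : p.1 = -1 ∨ p.1 = 0 ∨ p.1 = 1 := by omega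
  have hp2 : p.2 = -1 ∨ p.2 = 0 ∨ p.2 = 1 := by omega
  have h0 : (-1 : 𝓞 K) ≠ 0 := neg_ne_zero.2 one_ne_zero
  rcases hp1 with e1 | e1 | e1 <;> rcases hp2 with e2 | e2 | e2 <;> rw [e1, e2] at h1 ⊢ <;>
    norm_num at h1
  · refine ⟨2, 1, one_ne_zero, ?_⟩
    push_cast
    linear_combination -hw
  · refine ⟨0, -1, h0, ?_⟩
    push_cast
    ring
  · refine ⟨1, -1, h0, ?_⟩
    push_cast
    ring
  · refine ⟨1, 1, one_ne_zero, ?_⟩
    push_cast
    ring
  · refine ⟨0, 1, one_ne_zero, ?_⟩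
    push_cast
    ring
  · refine ⟨2, -1, h0, ?_⟩
    push_cast
    linear_combination hw

/-- The place of a prime element. -/
def pw (p : 𝓞 K) (h : Prime p) : HeightOneSpectrum (𝓞 K) where
  asIdeal := Ideal.span {p}
  isPrime := (Ideal.span_singleton_prime h.ne_zero).2 h
  ne_bot := by
    rw [Ne, Ideal.span_singleton_eq_bot]
    exact h.ne_zero

theorem mem_pw (p : 𝓞 K) (h : Prime p) : p ∈ (pw p h).asIdeal := Ideal.mem_span_singleton_self p

theorem eq_pw {v : HeightOneSpectrum (𝓞 K)} {p : 𝓞 K} (hp : Prime p) (h : p ∈ v.asIdeal) :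
    v = pw p hp := HeightOneSpectrum.ext (ideal_eq hp h)

theorem coe_ne {x : 𝓞 K} (hx : x ≠ 0) : (x : K) ≠ 0 := fun h0 =>
  hx (RingOfIntegers.ext (by simpa using h0))

theorem cv_mul_cube {g h : ℤᵐ⁰} (hh : h ≠ 0) : Cv (g * h ^ 3) ↔ Cv g := by
  obtain ⟨n, rfl⟩ := exists_exp hh
  have e3 : (exp n : ℤᵐ⁰) ^ 3 = exp (3 * n) := by
    rw [← exp_nsmul, nsmul_eq_mul]
    push_cast
    rfl
  rw [e3]
  constructor
  · rintro ⟨m, hm⟩
    refine ⟨m - n, ?_⟩
    have h1 : g = g * exp (3 * n) * exp (-(3 * n)) := by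
      rw [mul_assoc, ← exp_add, add_neg_cancel, exp_zero, mul_one]
    rw [h1, hm, ← exp_add]
    congr 1
    ring
  · rintro ⟨m, rfl⟩
    refine ⟨m + n, ?_⟩
    rw [← exp_add]
    congr 1
    ring

theorem cube_of_O (n : ℕ) : ∀ z : 𝓞 K, z ≠ 0 → Nz z = n →
    (∀ v : HeightOneSpectrum (𝓞 K), Cv (v.valuation K (z : K))) →
    ∃ i : ℕ, ∃ m : 𝓞 K, m ≠ 0 ∧ z = wO ^ i * m ^ 3 := by
  induction n using Nat.strong_induction_on with
  | _ n ih =>
    intro z hz hn hv
    by_cases hu : IsUnit z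
    · exact unit_w hu
    · obtain ⟨p, hp, hpz⟩ := WfDvdMonoid.exists_irreducible_factor hu hz
      have hp' : Prime p := hp.prime
      have hmem := mem_pw p hp'
      obtain ⟨m, hm⟩ := hv (pw p hp')
      have h1 : (pw p hp').valuation K (z : K) < 1 := by
        rw [val_lt]
        exact Ideal.mem_span_singleton.2 hpz
      have h2 : m < 0 := by
        rw [hm, ← exp_zero, exp_lt_exp] at h1
        omega
      have h3 : p ^ 3 ∣ z := by
        rw [← val_le_sq hp' hmem, hm, exp_le_exp]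
        push_cast
        omega
      obtain ⟨z', rfl⟩ := h3
      have hz' : z' ≠ 0 := right_ne_zero_of_mul hz
      have h4 : Nz z' < n := by
        rw [← hn, Nz_mul]
        have h5 : 2 ≤ Nz p := Nz_two_le hp'
        have h6 : Nz z' ≠ 0 := fun h => hz' (Nz_eq_zero.1 h)
        have h7 : 2 ≤ Nz (p ^ 3) := by
          rw [pow_three, Nz_mul, Nz_mul]
          nlinarith
        nlinarith [Nat.pos_of_ne_zero h6]
      obtain ⟨i, b, hb, hzb⟩ := ih _ h4 z' hz' rfl (by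
        intro v
        have h5 := hv v
        have e : ((p ^ 3 * z' : 𝓞 K) : K) = (z' : K) * (p : K) ^ 3 := by
          push_cast
          ring
        rw [e, map_mul, map_pow] at h5
        exact (cv_mul_cube ((v.valuation K).ne_zero_iff.2 (coe_ne hp'.ne_zero))).1 h5)
      refine ⟨i, p * b, mul_ne_zero hp'.ne_zero hb, ?_⟩
      rw [hzb]
      ring

/-- An element all of whose valuations are divisible by `3` is a cube up to a power of `w`. -/
theorem cube_of {a : K} (ha : a ≠ 0) (h : ∀ v : HeightOneSpectrum (𝓞 K), Cv (v.valuation K a)) :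
    ∃ i : ℕ, ∃ b : K, b ≠ 0 ∧ a = ((wO ^ i : 𝓞 K) : K) * b ^ 3 := by
  obtain ⟨x, y, hy, hxy⟩ := IsFractionRing.div_surjective (A := 𝓞 K) a
  have hy0 : y ≠ 0 := nonZeroDivisors.ne_zero hy
  have hyK : (y : K) ≠ 0 := coe_ne hy0
  have hx0 : x ≠ 0 := by
    rintro rfl
    rw [map_zero, zero_div] at hxy
    exact ha hxy.symm
  have hz : ((x * y ^ 2 : 𝓞 K) : K) = a * (y : K) ^ 3 := by
    rw [← hxy]
    push_cast
    field_simp
  obtain ⟨i, m, hm, hzm⟩ := cube_of_O _ (x * y ^ 2) (mul_ne_zero hx0 (pow_ne_zero 2 hy0)) rfl (by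
    intro v
    rw [hz, map_mul, map_pow]
    exact (cv_mul_cube ((v.valuation K).ne_zero_iff.2 hyK)).2 (h v))
  refine ⟨i, (m : K) / y, div_ne_zero (coe_ne hm) hyK, ?_⟩
  rw [hzm] at hz
  have hz' : a * (y : K) ^ 3 = ((wO ^ i : 𝓞 K) : K) * (m : K) ^ 3 := by
    rw [← hz]
    push_cast
    rfl
  field_simp
  exact hz'

/-- The monomial `w ^ i * ∏ q ^ V q`. -/
def mon (S : Finset P3) (i : ℕ) (V : P3 → ℕ) : 𝓞 K := wO ^ i * ∏ q ∈ S, q.1 ^ V q

theorem mon_ne (S : Finset P3) (i : ℕ) (V : P3 → ℕ) : mon S i V ≠ 0 :=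
  mul_ne_zero (pow_ne_zero _ wO_ne) (prod_ne_zero_iff.2 fun q _ => pow_ne_zero _ q.ne_zero)

theorem mon_mul (S : Finset P3) (i j : ℕ) (V W : P3 → ℕ) :
    mon S i V * mon S j W = mon S (i + j) (fun q => V q + W q) := by
  unfold mon
  simp only [pow_add, prod_mul_distrib]
  ring

theorem mon_pow (S : Finset P3) (i n : ℕ) (V : P3 → ℕ) :
    mon S i V ^ n = mon S (i * n) (fun q => V q * n) := by
  unfold mon
  simp only [pow_mul, prod_pow, mul_pow]

theorem mon_congr {S : Finset P3} {i : ℕ} {V W : P3 → ℕ} (h : ∀ q ∈ S, V q = W q) :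
    mon S i V = mon S i W := by
  unfold mon
  rw [prod_congr rfl fun q hq => by rw [h q hq]]

theorem mon_erase {S : Finset P3} {q : P3} (hq : q ∈ S) (i : ℕ) (V : P3 → ℕ) :
    mon S i V = q.1 ^ V q * mon (S.erase q) i V := by
  unfold mon
  rw [← mul_prod_erase S _ hq]
  ring

theorem mon_insert {S : Finset P3} {q : P3} (hq : q ∉ S) (i : ℕ) (V : P3 → ℕ) :
    mon (insert q S) i V = q.1 ^ V q * mon S i V := by
  unfold mon
  rw [prod_insert hq]
  ring

theorem mon_notMem {v : HeightOneSpectrum (𝓞 K)} {T : Finset P3} (h : ∀ q ∈ T, q.1 ∉ v.asIdeal)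
    (i : ℕ) (V : P3 → ℕ) : mon T i V ∉ v.asIdeal := by
  intro h1
  rcases v.isPrime.mem_or_mem h1 with h2 | h2
  · exact isUnit_notMem (wO_unit.pow i) h2
  · obtain ⟨q, hq, h3⟩ := (v.isPrime.prod_mem_iff).1 h2
    exact h q hq (v.isPrime.mem_of_pow_mem _ h3)

theorem not_dvd_mon {q : P3} {T : Finset P3} (h : q ∉ T) (i : ℕ) (V : P3 → ℕ) :
    ¬ q.1 ∣ mon T i V := by
  rw [← Ideal.mem_span_singleton]
  refine mon_notMem (v := pw q.1 q.prime) ?_ i V
  intro p hp h1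
  exact P3.not_dvd (fun e : q = p => h (by rw [e]; exact hp)) (Ideal.mem_span_singleton.1 h1)

theorem notMem_of_ne {v : HeightOneSpectrum (𝓞 K)} {p q : P3} (h : p.1 ∈ v.asIdeal) (hpq : p ≠ q) :
    q.1 ∉ v.asIdeal := by
  rw [ideal_eq p.prime h, Ideal.mem_span_singleton]
  exact P3.not_dvd hpq

/-- the symbol of a monomial -/
theorem cs_mon {q : P3} {T : Finset P3} (h : q ∉ T) (i : ℕ) (V : P3 → ℕ) :
    cs (Ideal.span {q.1}) (mon T i V) = i * d3.a q + ∑ p ∈ T, (V p : ZMod 3) * d3.s p q := by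
  have hw : wO ∉ Ideal.span {q.1} := by
    intro h1
    exact isUnit_notMem (v := pw q.1 q.prime) wO_unit h1
  induction T using Finset.induction_on with
  | empty =>
    unfold mon
    rw [prod_empty, mul_one, sum_empty, add_zero, cs_pow q.g3 hw]
    rfl
  | insert p T hp ih =>
    have hpq : q ≠ p := fun e => h (by rw [e]; exact mem_insert_self _ _)
    have hT : q ∉ T := fun h1 => h (mem_insert_of_mem h1)
    have h1 : p.1 ∉ Ideal.span {q.1} := P3.not_mem.2 (P3.not_dvd hpq)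
    have h2 : p.1 ^ V p ∉ Ideal.span {q.1} := fun h2 => h1 (q.g3.pr.mem_of_pow_mem _ h2)
    have h3 : mon T i V ∉ Ideal.span {q.1} := P3.not_mem.2 (not_dvd_mon hT i V)
    rw [mon_insert hp, cs_mul q.g3 h2 h3, cs_pow q.g3 h1, ih hT, sum_insert hp]
    have h4 : cs (Ideal.span {q.1}) p.1 = d3.s p q := rfl
    rw [h4]
    ring

/-- a monomial with exponents divisible by `3` is a cube -/
theorem mon_cube {S : Finset P3} {i : ℕ} {V : P3 → ℕ} (hi : 3 ∣ i) (hV : ∀ q ∈ S, 3 ∣ V q) :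
    ∃ c : 𝓞 K, mon S i V = c ^ 3 := by
  refine ⟨mon S (i / 3) (fun q => V q / 3), ?_⟩
  rw [mon_pow, Nat.div_mul_cancel hi]
  exact mon_congr fun q hq => (Nat.div_mul_cancel (hV q hq)).symm

theorem prod_in3 (S : Finset P3) (V : P3 → ℕ) : In3 (∏ q ∈ S, q.1 ^ V q) ∧
    cl3 (∏ q ∈ S, q.1 ^ V q) = ∑ q ∈ S, (V q : ZMod 3) * d3.a q := by
  have hp : ∀ (q : P3) (n : ℕ), In3 (q.1 ^ n) ∧ cl3 (q.1 ^ n) = (n : ZMod 3) * d3.a q := by
    intro q n
    induction n with
    | zero =>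
      rw [pow_zero, Nat.cast_zero, zero_mul]
      exact ⟨in3_one, cl3_one⟩
    | succ n ih =>
      rw [pow_succ]
      refine ⟨ih.1.mul q.in3, ?_⟩
      rw [cl3_mul ih.1 q.in3, ih.2, cl3_q]
      push_cast
      ring
  induction S using Finset.induction_on with
  | empty =>
    rw [prod_empty, sum_empty]
    exact ⟨in3_one, cl3_one⟩
  | insert q S hq ih =>
    rw [prod_insert hq, sum_insert hq]
    exact ⟨(hp q _).1.mul ih.1, by rw [cl3_mul (hp q _).1 ih.1, (hp q _).2, ih.2]⟩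

/-- the decomposition -/
theorem dec3 (S : Finset P3) : ∀ {a : K}, a ≠ 0 →
    (∀ v : HeightOneSpectrum (𝓞 K), (∀ q ∈ S, q.1 ∉ v.asIdeal) → Cv (v.valuation K a)) →
    ∃ (i : ℕ) (V : P3 → ℕ) (b : K), b ≠ 0 ∧ a = (mon S i V : K) * b ^ 3 := by
  induction S using Finset.induction_on with
  | empty =>
    intro a ha h
    obtain ⟨i, b, hb, hab⟩ := cube_of ha fun v => h v fun q hq => absurd hq (notMem_empty q)
    refine ⟨i, fun _ => 0, b, hb, ?_⟩
    rw [hab]
    unfold mon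
    rw [prod_empty, mul_one]
  | insert q S hq ih =>
    intro a ha h
    obtain ⟨n, hn⟩ := exists_nu ((pw q.1 q.prime).valuation K) ha
    obtain ⟨c, hc⟩ : ∃ c : ℕ, (3 : ℤ) ∣ n + c := ⟨((-n) % 3).toNat, by omega⟩
    have hqK : (q.1 : K) ≠ 0 := coe_ne q.ne_zero
    have ha' : a / (q.1 : K) ^ c ≠ 0 := div_ne_zero ha (pow_ne_zero _ hqK)
    obtain ⟨i, V, b, hb, hab⟩ := ih ha' (by
      intro v hv
      by_cases hqv : q.1 ∈ v.asIdeal
      · have e := eq_pw q.prime hqv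
        rw [map_div₀, map_pow, val_prime q.prime hqv, e, hn, ← exp_nsmul, ← exp_sub, cv_exp]
        have e2 : n - c • (-1 : ℤ) = n + c := by
          rw [nsmul_eq_mul]
          ring
        rw [e2]
        exact hc
      · rw [map_div₀, map_pow, val_one hqv, one_pow, div_one]
        refine h v fun p hp => ?_
        rcases mem_insert.1 hp with rfl | hp
        · exact hqv
        · exact hv p hp)
    refine ⟨i, Function.update V q c, b, hb, ?_⟩
    have e1 : mon S i (Function.update V q c) = mon S i V := mon_congr fun p hp =>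
      Function.update_of_ne (fun e => hq (by rw [← e]; exact hp)) _ _
    rw [mon_insert hq, Function.update_self, e1]
    have e2 : a = (q.1 : K) ^ c * (a / (q.1 : K) ^ c) := by field_simp
    rw [e2, hab]
    push_cast
    ring

end

end Pool.Agent.Lib.MP_1a91b9_ntK.C
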