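import Pool.Agent.Lib.MP_1a91b9_ntK.C.Cfn

/-!
# Divisibility by `1 - ω`

`Q = (x, y)`, `l = 1 + 2 z`, `l² = -3`. Let `r³ = y - k`, `r ≠ 0`, and `r' = z x / r`:
`r'³ = x³ / (y - k) = y + k`, `r³ - r'³ = - 2 k ≠ 0`, so `r ≠ r'`. Put `X = 2 k / (r - r')`,
`Y = l k (r + r') / (r - r')`.
-/

set_option autoImplicit false

namespace Pool.Agent.Lib.MP_1a91b9_ntK.C

open WeierstrassCurve
open scoped Classical

variable {F : Type*} [Field F] [CharZero F] {W : Affine F} {z k : F}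

theorem exists_mu (h : IsK W z k) {x y : F}
    (hn : W.Nonsingular x y) (r : F) (hr : r ^ 3 = y - k) (hr0 : r ≠ 0) :
    ∃ P : W.Point, mu h P = .some x y hn := by
  have hz := h.hz
  have hz0 := h.z0
  have hl := h.l0
  have he0 := h.hk
  have h2 : (2 : F) ≠ 0 := two_ne_zero
  have hz3 := h.z3
  have hc := (h.nons x y).1 hn
  obtain ⟨r', hr'⟩ : ∃ r', r' = z * x / r := ⟨_, rfl⟩
  have hrr : r' * r = z * x := by rw [hr', div_mul_cancel₀ _ hr0]
  have hr3 : r' ^ 3 = y + k := by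
    have h3 : r' ^ 3 * r ^ 3 = (y + k) * r ^ 3 := by
      rw [← mul_pow, hrr, hr]
      linear_combination x ^ 3 * hz3 - hc
    exact mul_right_cancel₀ (pow_ne_zero 3 hr0) h3
  have hd3 : (r - r') * (r ^ 2 + r * r' + r' ^ 2) = -2 * k := by
    linear_combination hr - hr3
  have hd : r - r' ≠ 0 := by
    intro h0
    rw [h0, zero_mul] at hd3
    exact (mul_ne_zero h2 he0) (by linear_combination hd3)
  obtain ⟨X, hX⟩ : ∃ X, X = 2 * k / (r - r') := ⟨_, rfl⟩
  obtain ⟨Y, hY⟩ : ∃ Y, Y = (1 + 2 * z) * k * (r + r') / (r - r') := ⟨_, rfl⟩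
  have hXd : X * (r - r') = 2 * k := by rw [hX, div_mul_cancel₀ _ hd]
  have hYd : Y * (r - r') = (1 + 2 * z) * k * (r + r') := by rw [hY, div_mul_cancel₀ _ hd]
  have hX0 : X ≠ 0 := by
    rw [hX]
    exact div_ne_zero (mul_ne_zero h2 he0) hd
  have hXY : Y ^ 2 = X ^ 3 + k ^ 2 := by
    have h3 : Y ^ 2 * (r - r') ^ 3 = (X ^ 3 + k ^ 2) * (r - r') ^ 3 := by
      have e1 : Y ^ 2 * (r - r') ^ 3 = ((1 + 2 * z) * k * (r + r')) ^ 2 * (r - r') := by
        rw [← hYd]
        ring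
      have e2 : (X ^ 3 + k ^ 2) * (r - r') ^ 3 = (2 * k) ^ 3 + k ^ 2 * (r - r') ^ 3 := by
        rw [← hXd]
        ring
      rw [e1, e2]
      linear_combination (-4 * k ^ 2) * hd3 + 4 * k ^ 2 * (r + r') ^ 2 * (r - r') * hz
    exact mul_right_cancel₀ (pow_ne_zero 3 hd) h3
  have hns : W.Nonsingular X Y := (h.nons _ _).2 hXY
  refine ⟨.some X Y hns, ?_⟩
  obtain ⟨x', y', hn', e1, e2, -⟩ := mu_some h hns hX0
  have e3 := cfn_cube h _ hn' e1
  have e4 : cfn z k (.some X Y hns : W.Point) = r := by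
    change (Y + (1 + 2 * z) * k) / ((1 + 2 * z) * X) = r
    rw [div_eq_iff (mul_ne_zero hl hX0)]
    refine mul_right_cancel₀ hd ?_
    linear_combination hYd - (1 + 2 * z) * r * hXd
  rw [e4, hr] at e3
  have ey : y' = y := by linear_combination -e3
  have ex : x' = x := by
    rw [e2, div_eq_iff (mul_ne_zero (mul_ne_zero three_ne_zero hz0) (pow_ne_zero 2 hX0))]
    refine mul_right_cancel₀ (pow_ne_zero 2 hd) ?_
    have e5 : -(X ^ 3 + 4 * k ^ 2) * (r - r') ^ 2 =
        -(((1 + 2 * z) * k * (r + r')) ^ 2 + 3 * k ^ 2 * (r - r') ^ 2) := by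
      rw [← hYd]
      linear_combination (r - r') ^ 2 * hXY
    have e6 : x * (3 * z * X ^ 2) * (r - r') ^ 2 = 3 * (r' * r) * (2 * k) ^ 2 := by
      rw [hrr, ← hXd]
      ring
    rw [e5, e6]
    linear_combination (-4 * k ^ 2 * (r + r') ^ 2) * hz
  subst ex
  subst ey
  exact e1

theorem exists_mu_closed [IsAlgClosed F] (h : IsK W z k) (Q : W.Point) :
    ∃ P : W.Point, mu h P = Q := by
  have hcl : ∀ (x y : F) (hn : W.Nonsingular x y), y - k ≠ 0 →
      ∃ P : W.Point, mu h P = .some x y hn := by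
    intro x y hn hne
    obtain ⟨r, hr⟩ := IsAlgClosed.exists_pow_nat_eq (y - k) (n := 3) (by norm_num)
    refine exists_mu h hn r hr ?_
    rintro rfl
    apply hne
    rw [← hr]
    ring
  cases Q with
  | zero => exact ⟨0, map_zero _⟩
  | some x y hn =>
    by_cases hy : y - k = 0
    · have hneg : W.negY x y - k ≠ 0 := by
        have ha1 : W.a₁ = 0 := by rw [h.eq, ck]
        have ha3 : W.a₃ = 0 := by rw [h.eq, ck]
        rw [Affine.negY, ha1, ha3]
        intro h0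
        have h1 : (2 : F) * k = 0 := by linear_combination -h0 - hy
        exact (mul_ne_zero two_ne_zero h.hk) h1
      obtain ⟨P, hP⟩ := hcl x (W.negY x y) ((Affine.nonsingular_neg x y).2 hn) hneg
      refine ⟨-P, ?_⟩
      rw [map_neg, hP, ← Affine.Point.neg_some, neg_neg]
    · exact hcl x y hn hy

end Pool.Agent.Lib.MP_1a91b9_ntK.C
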