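import Pool.Agent.Lib.MP_1a91b9_ntK.C.V

/-!
# MP_1a91b9_nt (cubic twists), part C: the local condition above 3

`D = 2 k` is a unit, not congruent to `± 1` modulo `3 l`: modulo `3 l` the local image consists of the
powers of `D` times cubes.
-/

set_option autoImplicit false
set_option linter.unusedSectionVars false

namespace Pool.Agent.Lib.MP_1a91b9_ntK.C

open WithZero

/-- `u` is a cube modulo `3 l` -/
def Cb {L : Type*} [Field L] (ν : Valuation L ℤᵐ⁰) (l u : L) : Prop :=
  ∃ b : L, b ≠ 0 ∧ ν (u / b ^ 3 - 1) ≤ ν (3 * l)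

variable {L : Type*} [Field L] [CharZero L] {ν : Valuation L ℤᵐ⁰} {l : L}

theorem Cu.cb {u : L} (h : Cu ν l u) : Cb ν l u := by
  obtain ⟨b, hb, h⟩ := h
  exact ⟨b, hb, h.le⟩

theorem nu_one' {x : L} (hl : ν (3 * l) < 1) (h : ν (x - 1) ≤ ν (3 * l)) : ν x = 1 := by
  have := ν.map_one_add_of_lt (lt_of_le_of_lt h hl)
  rwa [add_sub_cancel] at this

theorem Cb.ne {u : L} (hl : ν (3 * l) < 1) (h : Cb ν l u) : u ≠ 0 := by
  rintro rfl
  obtain ⟨b, hb, h⟩ := h
  rw [zero_div, zero_sub, Valuation.map_neg, map_one] at h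
  exact absurd h (not_le.2 hl)

theorem Cb.mul {u u' : L} (hl : ν (3 * l) < 1) (h : Cb ν l u) (h' : Cb ν l u') :
    Cb ν l (u * u') := by
  obtain ⟨b, hb, h⟩ := h
  obtain ⟨b', hb', h'⟩ := h'
  refine ⟨b * b', mul_ne_zero hb hb', ?_⟩
  have e : u * u' / (b * b') ^ 3 - 1 = (u / b ^ 3) * (u' / b' ^ 3 - 1) + (u / b ^ 3 - 1) := by
    field_simp
    ring
  rw [e]
  refine ν.map_add_le ?_ h
  rw [map_mul, nu_one' hl h, one_mul]
  exact h'

theorem Cb.val {u : L} (hl : ν (3 * l) < 1) (h : Cb ν l u) : Cv (ν u) := by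
  obtain ⟨b, hb, h⟩ := h
  obtain ⟨m, hm⟩ := exists_nu ν hb
  refine ⟨m, ?_⟩
  have e : u = b ^ 3 * (u / b ^ 3) := by field_simp
  rw [e, map_mul, nu_one' hl h, mul_one, map_pow, hm, ← exp_nsmul]
  norm_num

theorem Cb.one {u : L} (h : ν (u - 1) ≤ ν (3 * l)) : Cb ν l u :=
  ⟨1, one_ne_zero, by rwa [one_pow, div_one]⟩

theorem Cb.of_mul_cube {u s : L} (hs : s ≠ 0) (h : Cb ν l (u * s ^ 3)) : Cb ν l u := by
  obtain ⟨b, hb, h⟩ := h
  refine ⟨b / s, div_ne_zero hb hs, ?_⟩
  have e : u / (b / s) ^ 3 = u * s ^ 3 / b ^ 3 := by field_simp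
  rwa [e]

theorem Cb.neg {u : L} (h : Cb ν l (-u)) : Cb ν l u := by
  refine Cb.of_mul_cube (s := -1) (by norm_num) ?_
  have e : u * (-1) ^ 3 = -u := by ring
  rwa [e]

theorem Cb.near {a x y : L} (hl : ν (3 * l) < 1) (h : Cb ν l (a * x))
    (hy : ν (y / x - 1) ≤ ν (3 * l)) : Cb ν l (a * y) := by
  have hx : x ≠ 0 := fun h' => h.ne hl (by rw [h', mul_zero])
  have h2 := h.mul hl (Cb.one hy)
  have e : a * x * (y / x) = a * y := by field_simp
  rwa [e] at h2

theorem Cb.cancel {a x : L} (hl : ν (3 * l) < 1) (h : Cb ν l (a * x)) (hx : Cb ν l x) :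
    Cb ν l a := by
  refine Cb.of_mul_cube (hx.ne hl) ?_
  have h2 := (h.mul hl hx).mul hl hx
  have e : a * x * x * x = a * x ^ 3 := by ring
  rwa [e] at h2

theorem Cb.of_sq {u : L} (hl : ν (3 * l) < 1) (h : Cb ν l (u ^ 2)) : Cb ν l u := by
  have hu : u ≠ 0 := by
    rintro rfl
    exact h.ne hl (by ring)
  refine Cb.of_mul_cube hu ?_
  have h2 := h.mul hl h
  have e : u ^ 2 * u ^ 2 = u * u ^ 3 := by ring
  rwa [e] at h2

/-! ### the place above 3 -/

section

variable (hl2 : l ^ 2 = -3) (hl1 : ν l = exp (-1))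
  (hres : ∀ x : L, ν x ≤ 1 → ν x < 1 ∨ ν (x - 1) < 1 ∨ ν (x + 1) < 1)

theorem lt_iff_le {x : L} (n : ℤ) : ν x < exp n ↔ ν x ≤ exp (n - 1) := by
  by_cases hx : x = 0
  · subst hx
    rw [map_zero]
    simp
  · obtain ⟨m, hm⟩ := exists_nu ν hx
    rw [hm, exp_lt_exp, exp_le_exp]
    omega

theorem lt_one_iff {x : L} : ν x < 1 ↔ ν x ≤ exp (-1) := by
  have h := lt_iff_le (ν := ν) (x := x) 0
  rwa [exp_zero, zero_sub] at h

include hl2 hl1 in
theorem nu_three : ν 3 = exp (-2) := by
  have h : ν (l ^ 2) = ν 3 := by rw [hl2, Valuation.map_neg]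
  rw [← h, map_pow, hl1, ← exp_nsmul]
  norm_num

include hl2 hl1 in
theorem nu_three_l : ν (3 * l) = exp (-3) := by
  rw [map_mul, nu_three hl2 hl1, hl1, ← exp_add]
  norm_num

include hl2 hl1 in
theorem nu_three_l_lt : ν (3 * l) < 1 := by
  rw [nu_three_l hl2 hl1, ← exp_zero, exp_lt_exp]
  norm_num

include hl2 hl1 hres in
/-- a cube modulo `3 l` which is a unit is `± 1` modulo `3 l` -/
theorem Cb.pm {u : L} (hu : ν u = 1) (h : Cb ν l u) : ν (u - 1) ≤ exp (-3) ∨ ν (u + 1) ≤ exp (-3) := by
  have hlt := nu_three_l_lt (ν := ν) hl2 hl1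
  obtain ⟨b, hb, h⟩ := h
  have h1 := nu_one' hlt h
  have hbv : ν b = 1 := by
    rw [map_div₀, hu, one_div, inv_eq_one, map_pow] at h1
    exact (pow_eq_one_iff_of_nonneg zero_le (by norm_num)).1 h1
  rw [nu_three_l hl2 hl1] at h
  have h3 := nu_three (ν := ν) hl2 hl1
  have key : ∀ s : L, s ^ 3 = s → ν s = 1 → ν (b - s) < 1 → ν (u - s) ≤ exp (-3) := by
    intro s hs hs1 hbs
    rw [lt_one_iff] at hbs
    have e : u - s = b ^ 3 * (u / b ^ 3 - 1) + ((b - s) ^ 3 + 3 * (s * b * (b - s))) := by
      field_simp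
      linear_combination hs
    rw [e]
    refine ν.map_add_le ?_ (ν.map_add_le ?_ ?_)
    · rw [map_mul, map_pow, hbv, one_pow, one_mul]
      exact h
    · rw [map_pow]
      calc ν (b - s) ^ 3 ≤ exp (-1) ^ 3 := by gcongr
        _ = exp (-3) := by
          rw [← exp_nsmul]
          norm_num
    · rw [map_mul, map_mul, map_mul, h3, hs1, hbv, one_mul, one_mul]
      calc exp (-2) * ν (b - s) ≤ exp (-2) * exp (-1) := by gcongr
        _ = exp (-3) := by
          rw [← exp_add]
          norm_num
  rcases hres b hbv.le with h4 | h4 | h4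
  · rw [hbv] at h4
    exact absurd h4 (lt_irrefl _)
  · exact Or.inl (key 1 (by norm_num) (map_one ν) h4)
  · right
    have := key (-1) (by norm_num) (by rw [Valuation.map_neg, map_one]) (by rwa [sub_neg_eq_add])
    rwa [sub_neg_eq_add] at this

include hl2 hl1 hres in
/-- (c): the place above `3`, for `D = 2 k` a unit not congruent to `± 1` modulo `3 l` -/
theorem loc_three {k a : L} (hD : ν (2 * k) = 1) (hD1 : ¬ ν (2 * k - 1) ≤ ν (3 * l))
    (hD2 : ¬ ν (2 * k + 1) ≤ ν (3 * l)) (h : GLoc ν l k a) :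
    Cb ν l a ∨ Cb ν l (a * (2 * k)) ∨ Cb ν l (a * (2 * k) ^ 2) := by
  have hlt := nu_three_l_lt (ν := ν) hl2 hl1
  have h3l := nu_three_l (ν := ν) hl2 hl1
  have h3 := nu_three (ν := ν) hl2 hl1
  have hl0 : l ≠ 0 := by
    rintro rfl
    rw [map_zero] at hl1
    exact exp_ne_zero hl1.symm
  have h2k : (2 * k : L) ≠ 0 := fun h' => by
    rw [h', map_zero] at hD
    exact zero_ne_one hD
  have hk : k ≠ 0 := right_ne_zero_of_mul h2k
  have hnu2 : ν 2 = 1 := by
    have e : (2 : L) = -1 + 3 := by norm_num
    rw [e, ν.map_add_eq_of_lt_left (by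
      rw [Valuation.map_neg, map_one, h3, ← exp_zero, exp_lt_exp]
      norm_num), Valuation.map_neg, map_one]
  rcases h with h | h | h | ⟨y, hy, h⟩
  · exact Or.inl h.cb
  · exact Or.inr (Or.inl h.cb)
  · exact Or.inr (Or.inr h.cb)
  have hy0 := hy.ne hlt.le
  have e : y ^ 2 - k ^ 2 = (y - k) * (y + k) := by ring
  rw [e] at hy hy0
  obtain ⟨D, hDe⟩ : ∃ D : L, D = 2 * k := ⟨_, rfl⟩
  obtain ⟨Y, hYe⟩ : ∃ Y : L, Y = y - k := ⟨_, rfl⟩
  have hZe : y + k = Y + D := by rw [hDe, hYe]; ring
  have htwo := two ν y k hk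
  rw [hZe, ← hYe, ← hDe] at htwo
  rw [hZe, ← hYe] at hy hy0
  rw [← hYe] at h
  rw [← hDe] at hD hD1 hD2 h2k ⊢
  have h1 : Y ≠ 0 := left_ne_zero_of_mul hy0
  have h2 : Y + D ≠ 0 := right_ne_zero_of_mul hy0
  have hval := hy.val hlt.le
  obtain ⟨n, hn⟩ := exists_nu ν h1
  obtain ⟨n', hn'⟩ := exists_nu ν h2
  rw [map_mul, hn, hn', ← exp_add, cv_exp] at hval
  rw [hn, hn', hD, ← exp_zero, exp_inj, exp_inj, exp_inj, exp_le_exp, exp_lt_exp, exp_lt_exp]
    at htwo
  rcases htwo with ⟨h4, h5⟩ | ⟨h4, h5⟩ | ⟨h4, h5⟩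
  · by_cases hn0 : n = 0
    · -- both factors are units
      subst hn0
      rw [exp_zero] at hn
      have hn'1 : ν (Y + D) = 1 := by rw [hn', ← h4, exp_zero]
      obtain ⟨t, ht⟩ : ∃ t : L, t = Y / D := ⟨_, rfl⟩
      have hYt : Y = D * t := by rw [ht]; field_simp
      have htv : ν t = 1 := by rw [ht, map_div₀, hn, hD, div_one]
      have ht1v : ν (t + 1) = 1 := by
        have e2 : Y + D = D * (t + 1) := by rw [hYt]; ring
        rw [e2, map_mul, hD, one_mul] at hn'1
        exact hn'1
      have ht1 : ν (t - 1) ≤ exp (-1) := by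
        rcases hres t htv.le with h6 | h6 | h6
        · rw [htv] at h6
          exact absurd h6 (lt_irrefl _)
        · exact lt_one_iff.1 h6
        · rw [ht1v] at h6
          exact absurd h6 (lt_irrefl _)
      -- `s = (t - 1) / l`
      obtain ⟨s, hs⟩ : ∃ s : L, s = (t - 1) / l := ⟨_, rfl⟩
      have hts : t = 1 + l * s := by rw [hs]; field_simp; ring
      have hsv : ν s ≤ 1 := by
        rw [hs, map_div₀, hl1]
        exact (div_le_one₀ exp_pos).2 ht1
      -- `u = - D² t (t + 1)` is a cube
      have hu : Cb ν l (-(Y * (Y + D))) := by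
        refine Cb.neg ?_
        rw [neg_neg]
        exact hy.cb
      have huv : ν (-(Y * (Y + D))) = 1 := by
        rw [Valuation.map_neg, map_mul, hn, hn'1, mul_one]
      have hpm := Cb.pm hl2 hl1 hres huv hu
      -- `u = D² (1 + 3 (s² - 1))` modulo `3 l`
      have eu : -(Y * (Y + D)) = D ^ 2 * (1 + 3 * (s ^ 2 - 1)) - 3 * (l * (D ^ 2 * s)) := by
        rw [hYt, hts]
        linear_combination -(D ^ 2 * s ^ 2) * hl2
      have hsmall : ν (3 * (l * (D ^ 2 * s))) ≤ exp (-3) := by
        rw [map_mul, map_mul, map_mul, map_pow, hD, one_pow, one_mul, hl1, h3, ← mul_assoc, ← exp_add]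
        calc exp (-2 + -1) * ν s ≤ exp (-2 + -1) * 1 := by gcongr
          _ = exp (-3) := by rw [mul_one]; norm_num
      have hpm2 : ν (D ^ 2 * (1 + 3 * (s ^ 2 - 1)) - 1) ≤ exp (-3) ∨
          ν (D ^ 2 * (1 + 3 * (s ^ 2 - 1)) + 1) ≤ exp (-3) := by
        rcases hpm with h6 | h6
        · left
          have e2 : D ^ 2 * (1 + 3 * (s ^ 2 - 1)) - 1 = (-(Y * (Y + D)) - 1) + 3 * (l * (D ^ 2 * s)) := by
            rw [eu]; ring
          rw [e2]
          exact ν.map_add_le h6 hsmall
        · right
          have e2 : D ^ 2 * (1 + 3 * (s ^ 2 - 1)) + 1 = (-(Y * (Y + D)) + 1) + 3 * (l * (D ^ 2 * s)) := by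
            rw [eu]; ring
          rw [e2]
          exact ν.map_add_le h6 hsmall
      -- `D = ± 1` modulo `l`
      have hDl : ν (D - 1) ≤ exp (-1) ∨ ν (D + 1) ≤ exp (-1) := by
        rcases hres D hD.le with h6 | h6 | h6
        · rw [hD] at h6
          exact absurd h6 (lt_irrefl _)
        · exact Or.inl (lt_one_iff.1 h6)
        · exact Or.inr (lt_one_iff.1 h6)
      have hD2l : ν (D ^ 2 - 1) ≤ exp (-1) := by
        have e2 : D ^ 2 - 1 = (D - 1) * (D + 1) := by ring
        rw [e2, map_mul]
        have h6 : ν (D - 1) ≤ 1 := (ν.map_sub _ _).trans (by rw [hD, map_one, max_self])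
        have h7 : ν (D + 1) ≤ 1 := ν.map_add_le hD.le (map_one ν).le
        rcases hDl with h8 | h8
        · calc ν (D - 1) * ν (D + 1) ≤ exp (-1) * 1 := by gcongr
            _ = exp (-1) := mul_one _
        · calc ν (D - 1) * ν (D + 1) ≤ 1 * exp (-1) := by gcongr
            _ = exp (-1) := one_mul _
      have hsq1 : ν (s ^ 2 - 1) ≤ 1 := by
        refine (ν.map_sub _ _).trans ?_
        rw [map_one, map_pow]
        exact max_le (pow_le_one₀ zero_le hsv) le_rfl
      have h3s : ν (3 * (s ^ 2 - 1)) ≤ exp (-2) := by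
        rw [map_mul, h3]
        calc exp (-2) * ν (s ^ 2 - 1) ≤ exp (-2) * 1 := by gcongr
          _ = exp (-2) := mul_one _
      have hplus : ν (D ^ 2 * (1 + 3 * (s ^ 2 - 1)) - 1) ≤ exp (-3) := by
        rcases hpm2 with h6 | h6
        · exact h6
        · exfalso
          have e2 : (2 : L) = (D ^ 2 * (1 + 3 * (s ^ 2 - 1)) + 1) - ((D ^ 2 - 1) +
              D ^ 2 * (3 * (s ^ 2 - 1))) := by ring
          have h7 : ν 2 ≤ exp (-1) := by
            rw [e2]
            refine ν.map_sub_le (h6.trans (by rw [exp_le_exp]; norm_num)) (ν.map_add_le hD2l ?_)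
            rw [map_mul, map_pow, hD, one_pow, one_mul]
            exact h3s.trans (by rw [exp_le_exp]; norm_num)
          rw [hnu2, ← exp_zero, exp_le_exp] at h7
          norm_num at h7
      have hs3 : ν s < 1 ∨ ν (s ^ 2 - 1) < 1 := by
        rcases hres s hsv with h6 | h6 | h6
        · exact Or.inl h6
        · right
          have e2 : s ^ 2 - 1 = (s - 1) * (s + 1) := by ring
          rw [e2, map_mul]
          have h7 : ν (s + 1) ≤ 1 := ν.map_add_le hsv (map_one ν).le
          calc ν (s - 1) * ν (s + 1) ≤ ν (s - 1) * 1 := by gcongr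
            _ < 1 := by rw [mul_one]; exact h6
        · right
          have e2 : s ^ 2 - 1 = (s + 1) * (s - 1) := by ring
          rw [e2, map_mul]
          have h7 : ν (s - 1) ≤ 1 := (ν.map_sub _ _).trans (by rw [map_one]; exact max_le hsv le_rfl)
          calc ν (s + 1) * ν (s - 1) ≤ ν (s + 1) * 1 := by gcongr
            _ < 1 := by rw [mul_one]; exact h6
      rcases hs3 with hs3 | hs3
      · -- `s = 0` modulo `l`: `D = ± 2` modulo `3 l`, `t = 1 + 3 r`
        have hs4 : ν s ≤ exp (-1) := lt_one_iff.1 hs3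
        have h9 : ν 9 ≤ exp (-3) := by
          have e2 : (9 : L) = 3 * 3 := by norm_num
          rw [e2, map_mul, h3, ← exp_add, exp_le_exp]
          norm_num
        have hD4 : ν (D ^ 2 - 4) ≤ exp (-3) := by
          have e2 : 2 * (D ^ 2 - 4) = (3 * (D ^ 2 * s ^ 2) - (D ^ 2 * (1 + 3 * (s ^ 2 - 1)) - 1)) - 9 := by
            ring
          have h10 : ν (2 * (D ^ 2 - 4)) ≤ exp (-3) := by
            rw [e2]
            refine ν.map_sub_le (ν.map_sub_le ?_ hplus) h9
            rw [map_mul, map_mul, map_pow, hD, one_pow, one_mul, map_pow, h3, sq]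
            calc exp (-2) * (ν s * ν s) ≤ exp (-2) * (exp (-1) * 1) := by gcongr
              _ = exp (-3) := by
                rw [mul_one, ← exp_add]
                norm_num
          rwa [map_mul, hnu2, one_mul] at h10
        have hD2' : ν (D + 2) ≤ exp (-3) ∨ ν (D - 2) ≤ exp (-3) := by
          have e2 : D ^ 2 - 4 = (D - 2) * (D + 2) := by ring
          rw [e2, map_mul] at hD4
          rcases hDl with h8 | h8
          · left
            have h10 : ν (D - 2) = 1 := by
              have e3 : D - 2 = (D - 1) - 1 := by ring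
              rw [e3, ν.map_sub_eq_of_lt_right (by
                rw [map_one]
                exact lt_one_iff.2 h8), map_one]
            rwa [h10, one_mul] at hD4
          · right
            have h10 : ν (D + 2) = 1 := by
              have e3 : D + 2 = (D + 1) + 1 := by ring
              rw [e3, ν.map_add_eq_of_lt_right (by
                rw [map_one]
                exact lt_one_iff.2 h8), map_one]
            rwa [h10, mul_one] at hD4
        obtain ⟨r, hr⟩ : ∃ r : L, r = (t - 1) / 3 := ⟨_, rfl⟩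
        have htr : t = 1 + 3 * r := by rw [hr]; field_simp; ring
        have hrv : ν r ≤ 1 := by
          rw [hr, map_div₀, h3]
          refine (div_le_one₀ exp_pos).2 ?_
          have e2 : t - 1 = l * s := by rw [hts]; ring
          rw [e2, map_mul, hl1]
          calc exp (-1) * ν s ≤ exp (-1) * exp (-1) := by gcongr
            _ = exp (-2) := by
              rw [← exp_add]
              norm_num
        have ht0 : t ≠ 0 := fun h' => by
          rw [h', map_zero] at htv
          exact zero_ne_one htv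
        have h3m : ∀ {x : L}, ν x < 1 → ν (3 * x) ≤ exp (-3) := by
          intro x hx
          rw [map_mul, h3]
          calc exp (-2) * ν x ≤ exp (-2) * exp (-1) := by
                gcongr
                exact lt_one_iff.1 hx
            _ = exp (-3) := by
              rw [← exp_add]
              norm_num
        -- the general step
        have step : ∀ w : L, ν (w - t) ≤ exp (-3) → Cb ν l (a * (D * w)) := by
          intro w hw
          refine h.cb.near hlt ?_
          have e2 : D * w / Y - 1 = (w - t) / t := by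
            rw [hYt]
            field_simp
          rw [e2, map_div₀, htv, div_one, h3l]
          exact hw
        rcases hres r hrv with h6 | h6 | h6
        · right
          left
          have h7 := step 1 (by
            have e2 : 1 - t = -(3 * r) := by rw [htr]; ring
            rw [e2, Valuation.map_neg]
            exact h3m h6)
          rwa [mul_one] at h7
        · left
          have h7 := step (D ^ 2) (by
            have e2 : D ^ 2 - t = (D ^ 2 - 4) - 3 * (r - 1) := by rw [htr]; ring
            rw [e2]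
            exact ν.map_sub_le hD4 (h3m h6))
          refine Cb.of_mul_cube h2k ?_
          have e2 : a * (D * D ^ 2) = a * D ^ 3 := by ring
          rwa [e2] at h7
        · right
          right
          rcases hD2' with h8 | h8
          · have h7 := step D (by
              have e2 : D - t = (D + 2) - 3 * (r + 1) := by rw [htr]; ring
              rw [e2]
              exact ν.map_sub_le h8 (h3m h6))
            have e2 : a * (D * D) = a * D ^ 2 := by ring
            rwa [e2] at h7
          · have h7 := step (-D) (by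
              have e2 : -D - t = -(D - 2) - 3 * (r + 1) := by rw [htr]; ring
              rw [e2]
              exact ν.map_sub_le (by rw [Valuation.map_neg]; exact h8) (h3m h6))
            refine Cb.neg ?_
            have e2 : a * (D * -D) = -(a * D ^ 2) := by ring
            rwa [e2] at h7
      · -- `s² = 1` modulo `l`: `D² = 1` modulo `3 l`
        exfalso
        have h6 : ν (D ^ 2 - 1) ≤ exp (-3) := by
          have e2 : D ^ 2 - 1 = (D ^ 2 * (1 + 3 * (s ^ 2 - 1)) - 1) - 3 * (D ^ 2 * (s ^ 2 - 1)) := by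
            ring
          rw [e2]
          refine ν.map_sub_le hplus ?_
          rw [map_mul, map_mul, map_pow, hD, one_pow, one_mul, h3]
          calc exp (-2) * ν (s ^ 2 - 1) ≤ exp (-2) * exp (-1) := by
                gcongr
                exact lt_one_iff.1 hs3
            _ = exp (-3) := by
              rw [← exp_add]
              norm_num
        have e2 : D ^ 2 - 1 = (D - 1) * (D + 1) := by ring
        rw [e2, map_mul] at h6
        rcases hDl with h8 | h8
        · have h9 : ν (D + 1) = 1 := by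
            have e3 : D + 1 = (D - 1) + 2 := by ring
            rw [e3, ν.map_add_eq_of_lt_right (by
              rw [hnu2]
              exact lt_one_iff.2 h8), hnu2]
          rw [h9, mul_one, ← h3l] at h6
          exact hD1 h6
        · have h9 : ν (D - 1) = 1 := by
            have e3 : D - 1 = (D + 1) - 2 := by ring
            rw [e3, ν.map_sub_eq_of_lt_right (by
              rw [hnu2]
              exact lt_one_iff.2 h8), hnu2]
          rw [h9, one_mul, ← h3l] at h6
          exact hD2 h6
    · -- `Y` is not integral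
      left
      have hn3 : 3 ≤ n := by omega
      have h6 : Cb ν l (Y * Y) := by
        refine hy.cb.near hlt ?_
        have e2 : Y / (Y + D) - 1 = -(D / (Y + D)) := by
          rw [div_sub_one h2, ← neg_div]
          congr 1
          ring
        rw [e2, Valuation.map_neg, map_div₀, hD, hn', one_div, ← exp_neg, h3l, exp_le_exp]
        omega
      refine h.cb.cancel hlt (Cb.of_sq hlt ?_)
      rwa [sq]
  · -- `Y` divisible by `3 l`: the class of `D⁻¹`
    right
    right
    have hn3 : n ≤ -3 := by omega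
    have h6 : Cb ν l (Y * D) := by
      refine hy.cb.near hlt ?_
      have e2 : D / (Y + D) - 1 = -(Y / (Y + D)) := by
        rw [div_sub_one h2, ← neg_div]
        congr 1
        ring
      rw [e2, Valuation.map_neg, map_div₀, hn, hn', h4, exp_zero, div_one, h3l, exp_le_exp]
      omega
    refine Cb.of_mul_cube h1 ?_
    have h7 := (h.cb.mul hlt h6).mul hlt h6
    have e3 : a * Y * (Y * D) * (Y * D) = a * D ^ 2 * Y ^ 3 := by ring
    rwa [e3] at h7
  · -- `Y + D` divisible by `3 l`
    right
    left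
    have hn3 : n' ≤ -3 := by omega
    have h6 : Cb ν l (a * (-D)) := by
      refine h.cb.near hlt ?_
      have e2 : -D / Y - 1 = -((Y + D) / Y) := by
        rw [div_sub_one h1, ← neg_div]
        congr 1
        ring
      rw [e2, Valuation.map_neg, map_div₀, hn, hn', h4, exp_zero, div_one, h3l, exp_le_exp]
      omega
    refine Cb.neg ?_
    have e3 : -(a * D) = a * (-D) := by ring
    rwa [e3]

end

end Pool.Agent.Lib.MP_1a91b9_ntK.C
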