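import Pool.Agent.Lib.MP_1a91b9_ntH.C.Hyp
import Pool.Agent.Lib.MP_1a91b9_ntK.C.V3
import Pool.Agent.Lib.MP_1a91b9_ntK.R.Sym3

/-!
# MP_1a91b9_nt (cubic twists), part C: the hypotheses of the local theorems over `K = ℚ(√-3)`

`l = √-3 = 1 + 2 w` in `K`.
-/

set_option autoImplicit false
set_option linter.unusedSectionVars false

namespace Pool.Agent.Lib.MP_1a91b9_ntK.C

open NumberField IsDedekindDomain WithZero Pool.Agent.Lib.MP_1a91b9_ntT
  Pool.Agent.Lib.MP_1a91b9_ntH
open Pool.Agent.Lib.MP_1a91b9_ntH.C (ideal_eq val_one val_lt val_le val_prime val_le_sq s3_prime coe_s3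
  exists_near two_prime)
open Pool.Agent.Lib.MP_1a91b9_ntX.R (cs G3)

noncomputable section

/-- `√-3` in `K` -/
def lK : K := ((s3 : 𝓞 K) : K)

theorem lK_eq : lK = 1 + 2 * om := coe_s3

theorem lK_sq : lK ^ 2 = -3 := by
  rw [lK_eq]
  linear_combination 4 * om_quad

theorem lK_ne : lK ≠ 0 := by
  intro h
  have := lK_sq
  rw [h] at this
  norm_num at this

theorem coe_three_s3 : ((3 * s3 : 𝓞 K) : K) = 3 * lK := by
  have e : ((3 * s3 : 𝓞 K) : K) = algebraMap (𝓞 K) K (3 * s3) := rfl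
  rw [e, map_mul, map_ofNat]
  rfl

theorem three_mem {v : HeightOneSpectrum (𝓞 K)} : (3 : 𝓞 K) ∈ v.asIdeal ↔ s3 ∈ v.asIdeal := by
  rw [three_eq]
  constructor
  · intro h
    rcases v.isPrime.mem_or_mem h with h1 | h1
    · exact h1
    · simpa using v.asIdeal.neg_mem h1
  · intro h
    exact v.asIdeal.mul_mem_right _ h

/-- away from `3` -/
theorem val_three_l {v : HeightOneSpectrum (𝓞 K)} (h : s3 ∉ v.asIdeal) :
    v.valuation K (3 * lK) = 1 := by
  rw [← coe_three_s3]
  apply val_one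
  intro h1
  rcases v.isPrime.mem_or_mem h1 with h2 | h2
  · exact h (three_mem.1 h2)
  · exact h h2

theorem val_three_l_le (v : HeightOneSpectrum (𝓞 K)) : v.valuation K (3 * lK) ≤ 1 := by
  rw [← coe_three_s3]
  exact val_le v _

/-! ### the place above 3 -/

theorem val_l {v : HeightOneSpectrum (𝓞 K)} (h : s3 ∈ v.asIdeal) :
    v.valuation K lK = exp (-1) := val_prime s3_prime h

theorem s3_cube : s3 ^ 3 = -(3 * s3) := by
  linear_combination s3 * s3_sq

theorem le_three_l_iff {v : HeightOneSpectrum (𝓞 K)} (h : s3 ∈ v.asIdeal) (x : 𝓞 K) :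
    v.valuation K (x : K) ≤ v.valuation K (3 * lK) ↔ 3 * s3 ∣ x := by
  rw [nu_three_l lK_sq (val_l h)]
  have h1 := val_le_sq s3_prime h (x := x) 3
  rw [s3_cube, neg_dvd] at h1
  exact h1

theorem mem_s3 {v : HeightOneSpectrum (𝓞 K)} (h : s3 ∈ v.asIdeal) (x : 𝓞 K) :
    x ∈ v.asIdeal ↔ s3 ∣ x := by
  rw [ideal_eq s3_prime h, Ideal.mem_span_singleton]

theorem res_three {v : HeightOneSpectrum (𝓞 K)} (h : s3 ∈ v.asIdeal) (x : K)
    (hx : v.valuation K x ≤ 1) : v.valuation K x < 1 ∨ v.valuation K (x - 1) < 1 ∨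
      v.valuation K (x + 1) < 1 := by
  obtain ⟨y, hy⟩ := exists_near v x hx
  have key : ∀ z : 𝓞 K, s3 ∣ y - z → v.valuation K (x - (z : K)) < 1 := by
    intro z hz
    have h6 := (v.valuation K).map_add_lt hy (val_lt.2 ((mem_s3 h _).2 hz))
    have e : x - (y : K) + ((y - z : 𝓞 K) : K) = x - (z : K) := by
      push_cast
      ring
    rwa [e] at h6
  rcases exists_mod_s3 y with h1 | h1 | h1
  · left
    have := key 0 (by rwa [sub_zero])
    have e : x - ((0 : 𝓞 K) : K) = x := by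
      have e1 : ((0 : 𝓞 K) : K) = 0 := map_zero (algebraMap (𝓞 K) K)
      rw [e1, sub_zero]
    rwa [e] at this
  · right
    left
    have := key 1 h1
    have e1 : ((1 : 𝓞 K) : K) = 1 := map_one (algebraMap (𝓞 K) K)
    rwa [e1] at this
  · right
    right
    have := key (-1) (by rwa [sub_neg_eq_add])
    have e1 : ((-1 : 𝓞 K) : K) = -1 := by
      have e2 : ((-1 : 𝓞 K) : K) = algebraMap (𝓞 K) K (-1) := rfl
      rw [e2, map_neg, map_one]
    rwa [e1, sub_neg_eq_add] at this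

/-- at `3`: a unit is a cube modulo `3 √-3` if and only if it is `± 1` -/
theorem cb_iff {v : HeightOneSpectrum (𝓞 K)} (h : s3 ∈ v.asIdeal) {x : 𝓞 K} (hx : ¬ s3 ∣ x) :
    Cb (v.valuation K) lK (x : K) ↔ 3 * s3 ∣ x - 1 ∨ 3 * s3 ∣ x + 1 := by
  have hxv : v.valuation K (x : K) = 1 := val_one fun h1 => hx ((mem_s3 h x).1 h1)
  have h3 := nu_three_l (ν := v.valuation K) lK_sq (val_l h)
  have e1 : ((x - 1 : 𝓞 K) : K) = (x : K) - 1 := by
    push_cast
    rfl
  have e2 : ((x + 1 : 𝓞 K) : K) = (x : K) + 1 := by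
    push_cast
    rfl
  constructor
  · intro hc
    rcases Cb.pm lK_sq (val_l h) (res_three h) hxv hc with h4 | h4
    · left
      rw [← le_three_l_iff h, e1, h3]
      exact h4
    · right
      rw [← le_three_l_iff h, e2, h3]
      exact h4
  · rintro (h4 | h4)
    · refine Cb.one ?_
      rwa [← e1, le_three_l_iff h]
    · refine Cb.neg (Cb.one ?_)
      have e3 : -(x : K) - 1 = -((x + 1 : 𝓞 K) : K) := by rw [e2]; ring
      rw [e3, Valuation.map_neg]
      rwa [le_three_l_iff h]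

/-- **the local theorem above 3** -/
theorem loc_three_K {v : HeightOneSpectrum (𝓞 K)} (h : s3 ∈ v.asIdeal) {D : 𝓞 K}
    (hD : ¬ s3 ∣ D) (hD1 : ¬ 3 * s3 ∣ D - 1) (hD2 : ¬ 3 * s3 ∣ D + 1) {k a : K}
    (hk : 2 * k = (D : K)) (hl : GLoc (v.valuation K) lK k a) :
    Cb (v.valuation K) lK a ∨ Cb (v.valuation K) lK (a * (D : K)) ∨
      Cb (v.valuation K) lK (a * (D : K) ^ 2) := by
  have e1 : ((D - 1 : 𝓞 K) : K) = (D : K) - 1 := by
    push_cast
    rfl
  have e2 : ((D + 1 : 𝓞 K) : K) = (D : K) + 1 := by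
    push_cast
    rfl
  rw [← hk]
  refine loc_three lK_sq (val_l h) (res_three h) ?_ ?_ ?_ hl
  · rw [hk]
    exact val_one fun h1 => hD ((mem_s3 h D).1 h1)
  · rw [hk, ← e1, le_three_l_iff h]
    exact hD1
  · rw [hk, ← e2, le_three_l_iff h]
    exact hD2

/-! ### the other places -/

/-- a prime element in `v`: the value of `p ^ e * m` -/
theorem val_pow_mul {v : HeightOneSpectrum (𝓞 K)} {p m : 𝓞 K} (hp : Prime p) (h : p ∈ v.asIdeal)
    (hm : ¬ p ∣ m) (e : ℕ) : v.valuation K (((p ^ e * m : 𝓞 K)) : K) = exp (-(e : ℤ)) := by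
  have hm1 : m ∉ v.asIdeal := by rwa [ideal_eq hp h, Ideal.mem_span_singleton]
  have e1 : ((p ^ e * m : 𝓞 K) : K) = (p : K) ^ e * (m : K) := by
    push_cast
    rfl
  rw [e1, map_mul, map_pow, val_prime hp h, val_one hm1, mul_one, ← exp_nsmul]
  congr 1
  simp

/-- **the unramified places**: `D` not in `v` -/
theorem loc_unr_K {v : HeightOneSpectrum (𝓞 K)} {D : 𝓞 K} (hD : D ∉ v.asIdeal) {k a : K}
    (hk : 2 * k = (D : K)) (hl : GLoc (v.valuation K) lK k a) : Cv (v.valuation K a) := by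
  have hk0 : k ≠ 0 := by
    rintro rfl
    rw [mul_zero] at hk
    apply hD
    have : D = 0 := RingOfIntegers.ext (by simpa using hk.symm)
    rw [this]
    exact v.asIdeal.zero_mem
  refine loc_unr (v.valuation K) hk0 (val_three_l_le v) ⟨0, ?_⟩ hl
  rw [hk, val_one hD, mul_zero, exp_zero]

/-- **the tame places**: `D = p ^ e * m`, `e` not divisible by `3` -/
theorem loc_tame_K {v : HeightOneSpectrum (𝓞 K)} {p m : 𝓞 K} (hp : Prime p) (hps : ¬ s3 ∣ p)
    (h : p ∈ v.asIdeal) (hm : ¬ p ∣ m) {e : ℕ} (he : ¬ 3 ∣ e) {k a : K}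
    (hk : 2 * k = ((p ^ e * m : 𝓞 K) : K)) (hl : GLoc (v.valuation K) lK k a) :
    Cu (v.valuation K) lK a ∨ Cu (v.valuation K) lK (a * ((p ^ e * m : 𝓞 K) : K)) ∨
      Cu (v.valuation K) lK (a * ((p ^ e * m : 𝓞 K) : K) ^ 2) := by
  have hv := val_pow_mul hp h hm e
  have hk0 : k ≠ 0 := by
    rintro rfl
    rw [← hk, mul_zero, map_zero] at hv
    exact exp_ne_zero hv.symm
  have hs : s3 ∉ v.asIdeal := by
    intro h1
    have h2 := (ideal_eq s3_prime h1) ▸ h
    exact hps (Ideal.mem_span_singleton.1 h2)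
  rw [← hk]
  refine loc_tame (v.valuation K) hk0 (val_three_l hs) ?_ hl
  rw [hk, hv, cv_exp]
  omega

/-- **the symbol**: an element of `𝓞 K` prime to `p` is a local cube at `p` if and only if its cubic
residue symbol is trivial -/
theorem cu_iff {v : HeightOneSpectrum (𝓞 K)} {p : 𝓞 K} (hp : Prime p) (hps : ¬ s3 ∣ p)
    (h : p ∈ v.asIdeal) {x : 𝓞 K} (hx : ¬ p ∣ x) :
    Cu (v.valuation K) lK (x : K) ↔ cs (Ideal.span {p}) x = 0 := by
  have hI := ideal_eq hp h
  have hG := g3_of hp hps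
  have hs : s3 ∉ v.asIdeal := by
    intro h1
    have h2 := (ideal_eq s3_prime h1) ▸ h
    exact hps (Ideal.mem_span_singleton.1 h2)
  have h3 := val_three_l hs
  have hx1 : x ∉ v.asIdeal := by rwa [hI, Ideal.mem_span_singleton]
  have hx2 : x ∉ Ideal.span {p} := by rwa [← hI]
  have hvx := val_one hx1
  rw [cs_eq_zero_iff hG hx2]
  constructor
  · rintro ⟨b, hb, hbx⟩
    have h1 : v.valuation K ((x : K) / b ^ 3) = 1 := nu_one h3.le hbx
    have hvb : v.valuation K b = 1 := by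
      rw [map_div₀, map_pow, hvx, one_div, inv_eq_one] at h1
      exact (pow_eq_one_iff_of_nonneg zero_le (by norm_num)).1 h1
    obtain ⟨y, hy⟩ := exists_near v b hvb.le
    have hvy : v.valuation K (y : K) ≤ 1 := val_le v y
    refine ⟨y, ?_⟩
    rw [← hI, ← val_lt]
    have e : ((x - y ^ 3 : 𝓞 K) : K) = b ^ 3 * ((x : K) / b ^ 3 - 1) +
        (b - y) * (b ^ 2 + b * y + (y : K) ^ 2) := by
      push_cast
      field_simp
      ring
    rw [e]
    refine (v.valuation K).map_add_lt ?_ ?_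
    · rw [map_mul, map_pow, hvb, one_pow, one_mul, ← h3]
      exact hbx
    · rw [map_mul]
      have h4 : v.valuation K (b ^ 2 + b * y + (y : K) ^ 2) ≤ 1 := by
        refine (v.valuation K).map_add_le ((v.valuation K).map_add_le ?_ ?_) ?_
        · rw [map_pow, hvb, one_pow]
        · rw [map_mul, hvb, one_mul]
          exact hvy
        · rw [map_pow]
          exact pow_le_one₀ zero_le hvy
      calc _ ≤ v.valuation K (b - y) * 1 := by gcongr
        _ < 1 := by rw [mul_one]; exact hy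
  · rintro ⟨y, hy⟩
    rw [← hI] at hy
    have hy1 : y ∉ v.asIdeal := by
      intro hy1
      apply hx1
      have e : x = (x - y ^ 3) + y ^ 3 := by ring
      rw [e]
      exact v.asIdeal.add_mem hy (v.asIdeal.pow_mem_of_mem hy1 3 (by norm_num))
    have hy0 : (y : K) ≠ 0 := by
      intro h0
      apply hy1
      have : y = 0 := RingOfIntegers.ext (by simpa using h0)
      rw [this]
      exact v.asIdeal.zero_mem
    refine ⟨y, hy0, ?_⟩
    rw [h3]
    have e : (x : K) / (y : K) ^ 3 - 1 = ((x - y ^ 3 : 𝓞 K) : K) / (y : K) ^ 3 := by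
      push_cast
      field_simp
    rw [e, map_div₀, map_pow, val_one hy1, one_pow, div_one]
    exact val_lt.2 hy

end

end Pool.Agent.Lib.MP_1a91b9_ntK.C
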