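import Pool.Agent.Lib.MP_1a91b9_ntT.S9.MB
import Pool.Agent.Lib.MP_1a91b9_ntT3.S9.Kum
import Pool.Agent.Lib.MP_1a91b9_ntK.C.Bc
import Pool.Agent.Lib.MP_1a91b9_ntK.C.Em

/-!
# Kummer data of a cocycle with values in the kernel of `1 - ω`
-/

set_option autoImplicit false

namespace Pool.Agent.Lib.MP_1a91b9_ntK.C

open WeierstrassCurve
open Pool.Agent.Lib.MP_1a91b9_ntT.S9 (Pts Gal coc cob trivOver shaCoc Sha up)
open scoped Classical

/-- The action of an automorphism on the points over the algebraic closure. -/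
noncomputable abbrev act {k : Type*} [Field k] (W : WeierstrassCurve k) (σ : Gal k) :
    Pts W (AlgebraicClosure k) →+ Pts W (AlgebraicClosure k) :=
  Affine.Point.map (W' := W) (σ : AlgebraicClosure k →ₐ[k] AlgebraicClosure k)

section

variable {k : Type*} [Field k] [CharZero k] {z d : k} (hd : d ≠ 0) (hz : z ^ 2 + z + 1 = 0)

/-- Kummer data: `b ^ 3 = a` and `σ b = ch (c σ)⁻¹ b`. -/
structure KD (c : Gal k → Pts (ck d) (AlgebraicClosure k)) (a : k) (b : AlgebraicClosure k) :
    Prop where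
  ne : b ≠ 0
  cu : algebraMap k (AlgebraicClosure k) a = b ^ 3
  act : ∀ σ : Gal k, σ b = ch (isK_bc hd hz (AlgebraicClosure k)) (c σ) ^ 2 * b

omit [CharZero k] in
theorem act_mu [CharZero k] (σ : Gal k) (P : Pts (ck d) (AlgebraicClosure k)) :
    act (ck d) σ (mu (isK_bc hd hz (AlgebraicClosure k)) P) =
      mu (isK_bc hd hz (AlgebraicClosure k)) (act (ck d) σ P) :=
  mu_map hd hz _ P

theorem act_ker (σ : Gal k) (P : Pts (ck d) (AlgebraicClosure k))
    (hP : mu (isK_bc hd hz (AlgebraicClosure k)) P = 0) : act (ck d) σ P = P := by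
  rcases mu_ker_all _ P hP with h | h | h
  · rw [h, map_zero]
  · rw [h, tq_map hd hz]
  · rw [h, map_neg, tq_map hd hz]

theorem exists_kd (c : Gal k → Pts (ck d) (AlgebraicClosure k)) (hc : c ∈ coc (ck d))
    (hmu : ∀ σ, mu (isK_bc hd hz (AlgebraicClosure k)) (c σ) = 0) : ∃ a b, KD hd hz c a b := by
  set h := isK_bc hd hz (AlgebraicClosure k) with hh
  obtain ⟨M0, hM0, hM⟩ := Pool.Agent.Lib.MP_1a91b9_ntT.S9.exists_open (ck d) c hc
  have hch : ∀ σ, algebraMap k (AlgebraicClosure k) (chk hd hz (c σ)) = ch h (c σ) := fun σ =>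
    (ch_chk hd hz (c σ)).symm
  obtain ⟨b', hb0, hb⟩ := Pool.Agent.Lib.MP_1a91b9_ntT3.S9.kummer_gen (k := k)
    (Ω := AlgebraicClosure k) (fun σ => chk hd hz (c σ)) (by
      intro σ h0
      have h2 := ch_ne h (c σ)
      rw [← hch] at h2
      exact h2 (by
        have h3 : chk hd hz (c σ) = 0 := h0
        rw [h3, map_zero])) (by
      intro σ τ
      have h1 : c (σ * τ) = c σ + act (ck d) σ (c τ) := hc.2 σ τ
      apply (algebraMap k (AlgebraicClosure k)).injective
      rw [map_mul, hch, hch, hch, h1, act_ker hd hz σ (c τ) (hmu τ), ch_add h _ _ (hmu _) (hmu _)])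
      M0 (by
      intro σ hσ
      apply (algebraMap k (AlgebraicClosure k)).injective
      rw [hch, hM σ hσ, ch_zero, map_one])
  have hact : ∀ σ : Gal k, σ b' = ch h (c σ) * b' := by
    intro σ
    rw [hb σ, hch]
  obtain ⟨a, ha⟩ := Pool.Agent.Lib.MP_1a91b9_ntT.S9.fixed_elem ((b' ^ 2) ^ 3) (by
    intro σ
    rw [map_pow, map_pow, hact σ, mul_pow, mul_pow, ← pow_mul, mul_comm 2 3, pow_mul, ch_cube,
      one_pow, one_mul])
  refine ⟨a, b' ^ 2, pow_ne_zero 2 hb0, ha, fun σ => ?_⟩
  rw [map_pow, hact σ, mul_pow]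

end

/-- The local condition over an extension `L` of `k` for an element `a` of `k`. -/
def LocAt {k : Type*} [Field k] (d a : k) (L : Type*) [Field L] [Algebra k L] : Prop :=
  (∃ β : L, β ^ 3 = algebraMap k L a) ∨ (∃ β : L, β ^ 3 = algebraMap k L (a * (2 * d))) ∨
    (∃ β : L, β ^ 3 = algebraMap k L (a * (2 * d) ^ 2)) ∨
    ∃ x y β : L, y ^ 2 = x ^ 3 + (algebraMap k L d) ^ 2 ∧ x ≠ 0 ∧
      β ^ 3 = algebraMap k L a * (y - algebraMap k L d)

section

variable {k : Type*} [Field k] [CharZero k] {z d : k} (hd : d ≠ 0) (hz : z ^ 2 + z + 1 = 0)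

/-- JOB Tr. -/
theorem transfer {L : Type*} [Field L] [CharZero L] [Algebra k L]
    (c : Gal k → Pts (ck d) (AlgebraicClosure k)) (hc : c ∈ trivOver (ck d) L)
    (hmu : ∀ σ, mu (isK_bc hd hz (AlgebraicClosure k)) (c σ) = 0)
    (ι : AlgebraicClosure k →ₐ[k] AlgebraicClosure L) :
    ∃ (P : Pts (ck d) (AlgebraicClosure L)) (Q : Pts (ck d) L),
      mu (isK_bc hd hz (AlgebraicClosure L)) P = up (ck d) L (AlgebraicClosure L) Q ∧
      ∀ (σ : Gal L) (τ : Gal k), (∀ x, ι (τ x) = σ (ι x)) →
        Affine.Point.map ι (c τ) =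
          Affine.Point.map ((σ : AlgebraicClosure L →ₐ[L] _).restrictScalars k) P - P := by
  obtain ⟨P, hP⟩ := hc ι
  have key : ∀ σ' : Gal L, Affine.Point.map ((σ' : AlgebraicClosure L →ₐ[L] _).restrictScalars k)
      (mu (isK_bc hd hz (AlgebraicClosure L)) P) = mu (isK_bc hd hz (AlgebraicClosure L)) P := by
    intro σ'
    obtain ⟨τ, hτ⟩ := Pool.Agent.Lib.MP_1a91b9_ntT.S9.exists_comp ι
      (((σ' : AlgebraicClosure L →ₐ[L] _).restrictScalars k).comp ι)
    have h1 := hP σ' τ (fun x => (hτ x).symm)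
    have h3 : mu (isK_bc hd hz (AlgebraicClosure L)) (Affine.Point.map ι (c τ)) = 0 := by
      rw [← mu_map hd hz, hmu, _root_.map_zero]
    rw [h1, _root_.map_sub, sub_eq_zero] at h3
    rw [mu_map hd hz]
    exact h3
  obtain ⟨Q, hQ⟩ := Pool.Agent.Lib.MP_1a91b9_ntT.S9.fixed_pt (ck d)
    (mu (isK_bc hd hz (AlgebraicClosure L)) P) key
  exact ⟨P, Q, hQ.symm, hP⟩

theorem kd_loc (c : Gal k → Pts (ck d) (AlgebraicClosure k))
    (hmu : ∀ σ, mu (isK_bc hd hz (AlgebraicClosure k)) (c σ) = 0) (a : k)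
    (b : AlgebraicClosure k) (hk : KD hd hz c a b) {L : Type*} [Field L] [CharZero L] [Algebra k L]
    (hc : c ∈ trivOver (ck d) L) : LocAt d a L := by
  obtain ⟨j⟩ : Nonempty (AlgebraicClosure k →ₐ[k] AlgebraicClosure L) := ⟨IsAlgClosed.lift⟩
  obtain ⟨P, Q, hPQ, hP⟩ := transfer hd hz c hc hmu j
  have hja : ∀ x : k, j (algebraMap k (AlgebraicClosure k) x) =
      algebraMap L (AlgebraicClosure L) (algebraMap k L x) := by
    intro x
    rw [j.commutes, ← IsScalarTower.algebraMap_apply]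
  have htau : ∀ σ : Gal L, ∃ τ : Gal k, ∀ x, j (τ x) = σ (j x) := by
    intro σ
    obtain ⟨τ, hτ⟩ := Pool.Agent.Lib.MP_1a91b9_ntT.S9.exists_comp j
      ((((σ : AlgebraicClosure L →ₐ[L] AlgebraicClosure L)).restrictScalars k).comp j)
    exact ⟨τ, fun x => (hτ x).symm⟩
  have hjinj : Function.Injective (Affine.Point.map (W' := ck d) j) := Affine.Point.map_injective j
  set hA := isK_bc hd hz (AlgebraicClosure L) with hAdef
  have hjb : j b ^ 3 = algebraMap L (AlgebraicClosure L) (algebraMap k L a) := by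
    rw [← map_pow, ← hk.cu, hja]
  -- the Galois action on `P` and on `b`
  have hS : ∀ (σ : Gal L), ∃ R : Pts (ck d) (AlgebraicClosure L), mu hA R = 0 ∧
      Affine.Point.map (W' := ck d)
        ((σ : AlgebraicClosure L →ₐ[L] AlgebraicClosure L).restrictScalars k) P = P + R ∧
      σ (j b) = ch hA R ^ 2 * j b := by
    intro σ
    obtain ⟨τ, hτ⟩ := htau σ
    refine ⟨Affine.Point.map j (c τ), ?_, ?_, ?_⟩
    · rw [hAdef, ← mu_map hd hz, hmu, map_zero]
    · rw [hP σ τ hτ]
      abel
    · rw [← hτ, hk.act τ, map_mul, map_pow, hAdef, ch_map hd hz]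
  have hcfn : ∀ (σ : Gal L) (e : k), σ (cfn (algebraMap k (AlgebraicClosure L) z)
      (algebraMap k (AlgebraicClosure L) e) P) = cfn (algebraMap k (AlgebraicClosure L) z)
      (algebraMap k (AlgebraicClosure L) e) (Affine.Point.map (W' := ck d)
        ((σ : AlgebraicClosure L →ₐ[L] AlgebraicClosure L).restrictScalars k) P) := by
    intro σ e
    exact (cfn_map ((σ : AlgebraicClosure L →ₐ[L] AlgebraicClosure L).restrictScalars k) e P).symm
  have hdd : algebraMap k (AlgebraicClosure L) d =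
      algebraMap L (AlgebraicClosure L) (algebraMap k L d) := IsScalarTower.algebraMap_apply _ _ _ _
  cases Q with
  | zero =>
    left
    have hP0 : mu hA P = 0 := hPQ
    obtain ⟨β, hβ⟩ := Pool.Agent.Lib.MP_1a91b9_ntT.S9.fixed_elem (k := L) (j b) (by
      intro σ
      obtain ⟨R, hR0, hR, hb⟩ := hS σ
      have h1 : Affine.Point.map (W' := ck d)
          ((σ : AlgebraicClosure L →ₐ[L] AlgebraicClosure L).restrictScalars k) P = P := by
        rcases mu_ker_all _ P hP0 with h | h | h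
        · rw [h, map_zero]
        · rw [h, hAdef, tq_map hd hz]
        · rw [h, map_neg, hAdef, tq_map hd hz]
      have h2 : R = 0 := by
        rw [h1] at hR
        exact (add_eq_left.1 hR.symm)
      rw [hb, h2, ch_zero, one_pow, one_mul])
    refine ⟨β, ?_⟩
    apply (algebraMap L (AlgebraicClosure L)).injective
    rw [map_pow, hβ, hjb]
  | some x y h =>
    obtain ⟨hn2, hUV⟩ : ∃ hn2, up (ck d) L (AlgebraicClosure L) (Affine.Point.some x y h) =
      Affine.Point.some (algebraMap L (AlgebraicClosure L) x)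
        (algebraMap L (AlgebraicClosure L) y) hn2 := ⟨_, rfl⟩
    rw [hUV] at hPQ
    have hne : mu hA P ≠ 0 := by
      rw [hPQ]
      exact Affine.Point.some_ne_zero _
    have heq : y ^ 2 = x ^ 3 + (algebraMap k L d) ^ 2 := ((isK_bc hd hz L).nons x y).1 h
    -- the first function
    have hfix : ∀ σ : Gal L, σ (j b * cfn (algebraMap k (AlgebraicClosure L) z)
        (algebraMap k (AlgebraicClosure L) d) P) = j b * cfn (algebraMap k (AlgebraicClosure L) z)
        (algebraMap k (AlgebraicClosure L) d) P := by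
      intro σ
      obtain ⟨R, hR0, hR, hb⟩ := hS σ
      rw [map_mul, hcfn, hR, cfn_add hA P R hne hR0, hb]
      linear_combination (j b * cfn (algebraMap k (AlgebraicClosure L) z)
        (algebraMap k (AlgebraicClosure L) d) P) * ch_cube hA R
    obtain ⟨β, hβ⟩ := Pool.Agent.Lib.MP_1a91b9_ntT.S9.fixed_elem _ hfix
    have hβ3 : β ^ 3 = algebraMap k L a * (y - algebraMap k L d) := by
      apply (algebraMap L (AlgebraicClosure L)).injective
      rw [map_pow, hβ, mul_pow, hjb, cfn_cube hA P hn2 hPQ, map_mul, map_sub, hdd]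
    by_cases hx : x = 0
    · have hm : (y - algebraMap k L d) * (y + algebraMap k L d) = 0 := by
        rw [hx] at heq
        linear_combination heq
      rcases mul_eq_zero.1 hm with h1 | h1
      · -- `y = d`: the second function
        right; right; left
        have hfix' : ∀ σ : Gal L, σ (j b * cfn (algebraMap k (AlgebraicClosure L) z)
            (-algebraMap k (AlgebraicClosure L) d) P ^ 2) =
            j b * cfn (algebraMap k (AlgebraicClosure L) z)
            (-algebraMap k (AlgebraicClosure L) d) P ^ 2 := by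
          intro σ
          obtain ⟨R, hR0, hR, hb⟩ := hS σ
          have h3 := hcfn σ (-d)
          rw [map_neg] at h3
          rw [map_mul, map_pow, h3, hR, cfn_add' hA P R hne hR0, hb]
          linear_combination (j b * cfn (algebraMap k (AlgebraicClosure L) z)
            (-algebraMap k (AlgebraicClosure L) d) P ^ 2) * (ch hA R ^ 3 + 1) * ch_cube hA R
        obtain ⟨γ, hγ⟩ := Pool.Agent.Lib.MP_1a91b9_ntT.S9.fixed_elem _ hfix'
        refine ⟨γ, ?_⟩
        apply (algebraMap L (AlgebraicClosure L)).injective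
        have h4 : y = algebraMap k L d := sub_eq_zero.1 h1
        rw [map_pow, hγ, mul_pow, hjb, ← pow_mul, mul_comm 2 3, pow_mul,
          cfn_cube' hA P hn2 hPQ, h4, ← hdd]
        simp only [map_mul, map_pow, map_ofNat, ← hdd]
        ring
      · -- `y = -d`
        right; left
        refine ⟨-β, ?_⟩
        have h4 : y = -algebraMap k L d := eq_neg_of_add_eq_zero_left h1
        rw [neg_pow, hβ3, h4]
        simp only [map_mul, map_ofNat]
        ring
    · exact Or.inr (Or.inr (Or.inr ⟨x, y, β, heq, hx, hβ3⟩))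

/-- the cube roots of a cube -/
theorem cube_root_fixed {r : k} {x : AlgebraicClosure k}
    (hz : z ^ 2 + z + 1 = 0) (h : x ^ 3 = algebraMap k (AlgebraicClosure k) r ^ 3) (σ : Gal k) :
    σ x = x := by
  have hω : (algebraMap k (AlgebraicClosure k) z) ^ 2 + algebraMap k (AlgebraicClosure k) z + 1 =
      0 := by
    rw [← map_pow, ← map_one (algebraMap k (AlgebraicClosure k)), ← map_add, ← map_add, hz,
      map_zero]
  set ζ := algebraMap k (AlgebraicClosure k) z with hζ
  set ρ := algebraMap k (AlgebraicClosure k) r with hρ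
  have hfac : (x - ρ) * ((x - ζ * ρ) * (x - ζ ^ 2 * ρ)) = 0 := by
    linear_combination h + (x - ρ) * ((ζ - 1) * ρ ^ 2 - x * ρ) * hω
  rcases mul_eq_zero.1 hfac with h1 | h1
  · rw [sub_eq_zero.1 h1]
    exact σ.commutes r
  · rcases mul_eq_zero.1 h1 with h1 | h1
    · rw [sub_eq_zero.1 h1, map_mul, hζ, hρ, AlgEquiv.commutes, AlgEquiv.commutes]
    · rw [sub_eq_zero.1 h1, map_mul, map_pow, hζ, hρ, AlgEquiv.commutes, AlgEquiv.commutes]

theorem kd_zero (c : Gal k → Pts (ck d) (AlgebraicClosure k))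
    (hmu : ∀ σ, mu (isK_bc hd hz (AlgebraicClosure k)) (c σ) = 0) (a : k)
    (b : AlgebraicClosure k) (hk : KD hd hz c a b) (ha : ∃ r, r ^ 3 = a) (σ : Gal k) :
    c σ = 0 := by
  obtain ⟨r, hr⟩ := ha
  have h1 : σ b = b := cube_root_fixed (r := r) hz (by rw [← hk.cu, ← hr, map_pow]) σ
  have h2 := hk.act σ
  rw [h1] at h2
  have h3 : ch (isK_bc hd hz (AlgebraicClosure k)) (c σ) ^ 2 = 1 :=
    (mul_eq_right₀ hk.ne).1 h2.symm
  have h4 := ch_cube (isK_bc hd hz (AlgebraicClosure k)) (c σ)
  have h5 : ch (isK_bc hd hz (AlgebraicClosure k)) (c σ) = 1 := by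
    linear_combination h4 - ch (isK_bc hd hz (AlgebraicClosure k)) (c σ) * h3
  exact ch_inj _ _ _ (hmu σ) (map_zero _) (by rw [h5, ch_zero])

/-- The class of the points `R` with `mu R` in the kernel. -/
theorem kd_cob (c : Gal k → Pts (ck d) (AlgebraicClosure k))
    (hmu : ∀ σ, mu (isK_bc hd hz (AlgebraicClosure k)) (c σ) = 0) (a : k)
    (b : AlgebraicClosure k) (hk : KD hd hz c a b)
    (ha : (∃ r, r ^ 3 = a * (2 * d)) ∨ ∃ r, r ^ 3 = a * (2 * d) ^ 2) :
    ∃ R : Pts (ck d) (AlgebraicClosure k),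
      (mu (isK_bc hd hz (AlgebraicClosure k)) R = tq (isK_bc hd hz (AlgebraicClosure k)) ∨
        mu (isK_bc hd hz (AlgebraicClosure k)) R = -tq (isK_bc hd hz (AlgebraicClosure k))) ∧
      ∀ σ, c σ = act (ck d) σ R - R := by
  set h := isK_bc hd hz (AlgebraicClosure k) with hh
  have hcfn : ∀ (σ : Gal k) (e : k) (R : Pts (ck d) (AlgebraicClosure k)),
      σ (cfn (algebraMap k (AlgebraicClosure k) z)
      (algebraMap k (AlgebraicClosure k) e) R) = cfn (algebraMap k (AlgebraicClosure k) z)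
      (algebraMap k (AlgebraicClosure k) e) (act (ck d) σ R) := fun σ e R =>
    (cfn_map (σ : AlgebraicClosure k →ₐ[k] AlgebraicClosure k) e R).symm
  -- the difference
  have hdiff : ∀ (R : Pts (ck d) (AlgebraicClosure k)), mu h (mu h R) = 0 → ∀ σ : Gal k,
      mu h (act (ck d) σ R - R) = 0 := by
    intro R hR σ
    rw [map_sub, ← act_mu hd hz, act_ker hd hz σ _ hR, sub_self]
  rcases ha with ⟨r, hr⟩ | ⟨r, hr⟩
  · obtain ⟨R, hR⟩ := exists_mu_closed h (-tq h)
    refine ⟨R, Or.inr hR, fun σ => ?_⟩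
    have hR2 : mu h (mu h R) = 0 := by rw [hR, map_neg, mu_tq, neg_zero]
    have hne : mu h R ≠ 0 := by
      rw [hR]
      exact neg_ne_zero.2 (tq_ne h)
    obtain ⟨hn, e1⟩ : ∃ hn, -tq h = .some 0 (-algebraMap k (AlgebraicClosure k) d) hn := by
      rw [← tq_neg h]
      exact ⟨_, rfl⟩
    have h3 := cfn_cube h R hn (hR.trans e1)
    have hx : (-(b * cfn (algebraMap k (AlgebraicClosure k) z)
        (algebraMap k (AlgebraicClosure k) d) R)) ^ 3 =
        algebraMap k (AlgebraicClosure k) r ^ 3 := by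
      rw [neg_pow, mul_pow, h3, ← hk.cu, ← map_pow, hr]
      simp only [map_mul, map_ofNat]
      ring
    have h4 := cube_root_fixed hz hx σ
    rw [map_neg, map_mul, hk.act σ, hcfn] at h4
    have h5 : act (ck d) σ R = R + (act (ck d) σ R - R) := by abel
    rw [h5, cfn_add h R _ hne (hdiff R hR2 σ)] at h4
    have hf0 : b * cfn (algebraMap k (AlgebraicClosure k) z)
        (algebraMap k (AlgebraicClosure k) d) R ≠ 0 := by
      refine mul_ne_zero hk.ne fun h0 => ?_
      rw [h0] at h3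
      have h6 : (2 : AlgebraicClosure k) * algebraMap k (AlgebraicClosure k) d = 0 := by
        linear_combination h3
      exact (mul_ne_zero two_ne_zero h.hk) h6
    have h6 : ch h (c σ) ^ 2 * ch h (act (ck d) σ R - R) = 1 := by
      apply mul_right_cancel₀ hf0
      rw [one_mul]
      linear_combination -h4
    apply ch_inj h _ _ (hmu σ) (hdiff R hR2 σ)
    linear_combination (-ch h (c σ)) * h6 + ch h (act (ck d) σ R - R) * ch_cube h (c σ)
  · obtain ⟨R, hR⟩ := exists_mu_closed h (tq h)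
    refine ⟨R, Or.inl hR, fun σ => ?_⟩
    have hR2 : mu h (mu h R) = 0 := by rw [hR, mu_tq]
    have hne : mu h R ≠ 0 := by
      rw [hR]
      exact tq_ne h
    have h3 := cfn_cube' h R _ hR
    have hx : (b * cfn (algebraMap k (AlgebraicClosure k) z)
        (-algebraMap k (AlgebraicClosure k) d) R ^ 2) ^ 3 =
        algebraMap k (AlgebraicClosure k) r ^ 3 := by
      rw [mul_pow, ← pow_mul, mul_comm 2 3, pow_mul, h3, ← hk.cu, ← map_pow, hr]
      simp only [map_mul, map_pow, map_ofNat]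
      ring
    have h4 := cube_root_fixed hz hx σ
    have h7 := hcfn σ (-d) R
    rw [map_neg] at h7
    rw [map_mul, map_pow, hk.act σ, h7] at h4
    have h5 : act (ck d) σ R = R + (act (ck d) σ R - R) := by abel
    rw [h5, cfn_add' h R _ hne (hdiff R hR2 σ)] at h4
    have hf0 : b * cfn (algebraMap k (AlgebraicClosure k) z)
        (-algebraMap k (AlgebraicClosure k) d) R ^ 2 ≠ 0 := by
      refine mul_ne_zero hk.ne (pow_ne_zero 2 fun h0 => ?_)
      rw [h0] at h3
      have h6 : (2 : AlgebraicClosure k) * algebraMap k (AlgebraicClosure k) d = 0 := by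
        linear_combination -h3
      exact (mul_ne_zero two_ne_zero h.hk) h6
    have h6 : ch h (c σ) ^ 2 * ch h (act (ck d) σ R - R) ^ 4 = 1 := by
      apply mul_right_cancel₀ hf0
      rw [one_mul]
      linear_combination h4
    have h8 : ch h (c σ) ^ 2 * ch h (act (ck d) σ R - R) = 1 := by
      linear_combination h6 - ch h (c σ) ^ 2 * ch h (act (ck d) σ R - R) *
        ch_cube h (act (ck d) σ R - R)
    apply ch_inj h _ _ (hmu σ) (hdiff R hR2 σ)
    linear_combination (-ch h (c σ)) * h8 + ch h (act (ck d) σ R - R) * ch_cube h (c σ)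

end

end Pool.Agent.Lib.MP_1a91b9_ntK.C
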