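import Pool.Agent.Lib.MP_1a91b9_ntK.C.Dec3

/-!
# MP_1a91b9_nt (cubic twists), part C: the Selmer classes of the cube-root descent
-/

set_option autoImplicit false
set_option linter.unusedSectionVars false

namespace Pool.Agent.Lib.MP_1a91b9_ntK.C

open NumberField IsDedekindDomain WithZero Finset Pool.Agent.Lib.MP_1a91b9_ntT
open Pool.Agent.Lib.MP_1a91b9_ntH (wO s3 Nz Nz_two_le Nz_mul Nz_eq_zero isUnit_iff_Nz exists_coords
  wO_quad isEis coe_wO prime_s3 s3_sq cp eq_cp coords_inj)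
open Pool.Agent.Lib.MP_1a91b9_ntH.C (ideal_eq val_one val_lt val_le val_prime val_le_sq s3_prime coe_s3
  exists_near two_prime)
open Pool.Agent.Lib.MP_1a91b9_ntX.R (cs G3 cs_mul cs_pow cs_one)

noncomputable section

/-! ### classes modulo `3 √-3` -/

theorem s3_dvd_coords (m n : ℤ) : s3 ∣ (m : 𝓞 K) + n * wO ↔ (3 : ℤ) ∣ m + n := by
  have hs := s3_sq
  have hw := wO_quad
  constructor
  · rintro ⟨t, ht⟩
    have h1 := eq_cp t
    set a := (cp t).1
    set b := (cp t).2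
    rw [h1] at ht
    have h2 : (m : 𝓞 K) + n * wO = ((-a + 2 * -b + 2 * b - b + b : ℤ) : 𝓞 K) * 0 +
        (((a - 2 * b : ℤ) : 𝓞 K) + ((2 * a - b : ℤ) : 𝓞 K) * wO) := by
      rw [ht]
      unfold s3
      push_cast
      linear_combination 2 * (b : 𝓞 K) * hw
    rw [mul_zero, zero_add] at h2
    obtain ⟨h3, h4⟩ := coords_inj h2
    omega
  · rintro ⟨c, hc⟩
    have h1 : m = 3 * c - n := by omega
    refine ⟨-s3 * c + (1 + wO) * n, ?_⟩
    rw [h1]
    push_cast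
    unfold s3 at hs ⊢
    linear_combination (c : 𝓞 K) * hs - 2 * (n : 𝓞 K) * hw

theorem cl3_eq_zero {x : 𝓞 K} (hx : In3 x) (h : 3 * s3 ∣ x - 1) : cl3 x = 0 := by
  obtain ⟨m, n, rfl⟩ := in3_form hx
  obtain ⟨t, ht⟩ := h
  have h1 : s3 ∣ (m : 𝓞 K) + n * wO := by
    refine ⟨t, ?_⟩
    have h2 : (3 : 𝓞 K) * ((m : 𝓞 K) + n * wO) = 3 * (s3 * t) := by linear_combination ht
    exact mul_left_cancel₀ (by norm_num : (3 : 𝓞 K) ≠ 0) h2
  rw [cl3_of, neg_eq_zero]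
  have h2 := (s3_dvd_coords m n).1 h1
  have h3 := (ZMod.intCast_zmod_eq_zero_iff_dvd (m + n) 3).2 (by exact_mod_cast h2)
  push_cast at h3
  exact h3

theorem cl3_of_zero {x : 𝓞 K} (hx : In3 x) (h : cl3 x = 0) : 3 * s3 ∣ x - 1 := by
  obtain ⟨m, n, rfl⟩ := in3_form hx
  rw [cl3_of, neg_eq_zero] at h
  have h2 : ((m + n : ℤ) : ZMod 3) = 0 := by
    push_cast
    exact h
  have h3 := (ZMod.intCast_zmod_eq_zero_iff_dvd (m + n) 3).1 h2
  obtain ⟨t, ht⟩ := (s3_dvd_coords m n).2 (by exact_mod_cast h3)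
  exact ⟨t, by linear_combination 3 * ht⟩

theorem three_not_dvd (m n : ℤ) (h : ¬ (3 ∣ m ∧ 3 ∣ n)) : ¬ (3 : 𝓞 K) ∣ (m : 𝓞 K) + n * wO := by
  rintro ⟨t, ht⟩
  have h1 := eq_cp t
  have h2 : (m : 𝓞 K) + n * wO = ((3 * (cp t).1 : ℤ) : 𝓞 K) + ((3 * (cp t).2 : ℤ) : 𝓞 K) * wO := by
    push_cast
    linear_combination ht + 3 * h1
  obtain ⟨h3, h4⟩ := coords_inj h2
  exact h ⟨⟨_, h3⟩, ⟨_, h4⟩⟩

/-- a monomial is `± 1` modulo `3 √-3` only if `i = 0` and `∑ V q * a q = 0` -/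
theorem mon_pm {S : Finset P3} {i : ℕ} {V : P3 → ℕ}
    (h : 3 * s3 ∣ mon S i V - 1 ∨ 3 * s3 ∣ mon S i V + 1) :
    3 ∣ i ∧ ∑ q ∈ S, (V q : ZMod 3) * d3.a q = 0 := by
  obtain ⟨h1, h2⟩ := prod_in3 S V
  set P := ∏ q ∈ S, q.1 ^ V q with hP
  have hm : mon S i V = wO ^ i * P := rfl
  have hw := wO_quad
  have h30 : ∀ c : 𝓞 K, 3 * s3 ∣ c → (3 : 𝓞 K) ∣ c := fun c hc => (dvd_mul_right _ _).trans hc
  obtain ⟨t, ht⟩ := h1
  have h3 : (3 : 𝓞 K) ∣ mon S i V - wO ^ i := ⟨wO ^ i * t, by rw [hm]; linear_combination wO ^ i * ht⟩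
  have h4 : (3 : 𝓞 K) ∣ wO ^ i - 1 ∨ (3 : 𝓞 K) ∣ wO ^ i + 1 := by
    rcases h with h | h
    · left
      have := dvd_sub (h30 _ h) h3
      rwa [show mon S i V - 1 - (mon S i V - wO ^ i) = wO ^ i - 1 by ring] at this
    · right
      have := dvd_sub (h30 _ h) h3
      rwa [show mon S i V + 1 - (mon S i V - wO ^ i) = wO ^ i + 1 by ring] at this
  have e0 : wO ^ i = wO ^ (i % 3) := by
    conv_lhs => rw [← Nat.div_add_mod i 3, pow_add, pow_mul, wO_cube, one_pow, one_mul]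
  have hi : i % 3 = 0 := by
    have hlt : i % 3 < 3 := Nat.mod_lt _ (by norm_num)
    rw [e0] at h4
    interval_cases hi3 : i % 3
    · rfl
    · exfalso
      rcases h4 with h4 | h4
      · refine three_not_dvd (-1) 1 (by norm_num) ?_
        have e : (((-1 : ℤ) : 𝓞 K) + (1 : ℤ) * wO) = wO ^ 1 - 1 := by push_cast; ring
        rw [e]
        exact h4
      · refine three_not_dvd 1 1 (by norm_num) ?_
        have e : (((1 : ℤ) : 𝓞 K) + (1 : ℤ) * wO) = wO ^ 1 + 1 := by push_cast; ring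
        rw [e]
        exact h4
    · exfalso
      rcases h4 with h4 | h4
      · refine three_not_dvd (-2) (-1) (by norm_num) ?_
        have e : (((-2 : ℤ) : 𝓞 K) + (-1 : ℤ) * wO) = wO ^ 2 - 1 := by
          push_cast
          linear_combination -hw
        rw [e]
        exact h4
      · refine three_not_dvd 0 (-1) (by norm_num) ?_
        have e : (((0 : ℤ) : 𝓞 K) + (-1 : ℤ) * wO) = wO ^ 2 + 1 := by
          push_cast
          linear_combination -hw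
        rw [e]
        exact h4
  refine ⟨Nat.dvd_of_mod_eq_zero hi, ?_⟩
  rw [← h2]
  refine cl3_eq_zero ⟨t, ht⟩ ?_
  have e1 : mon S i V = P := by rw [hm, e0, hi, pow_zero, one_mul]
  rw [e1] at h
  rcases h with h | h
  · exact h
  · exfalso
    have h5 := dvd_sub (h30 _ h) ⟨t, ht⟩
    refine three_not_dvd 2 0 (by norm_num) ?_
    have e : (((2 : ℤ) : 𝓞 K) + (0 : ℤ) * wO) = P + 1 - (P - 1) := by
      push_cast
      ring
    rw [e]
    exact h5

/-- The Selmer condition on the exponents. -/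
def Good3 (S : Finset P3) (i : ZMod 3) (E : P3 → ZMod 3) : Prop :=
  ∀ V : P3 → ZMod 3,
    (∀ q ∈ S, ∑ p ∈ S.erase q, V p * d3.s p q =
      V q * (E q * (i * d3.a q + ∑ p ∈ S.erase q, E p * d3.s p q))) →
    ∑ q ∈ S, V q * d3.a q = 0 → ∀ q ∈ S, V q = 0

theorem aux_row : ∀ v s e m : ZMod 3, e ≠ 0 → v + s * e = 0 → s * m = -(v * (e * m)) := by
  decide

/-- **the Selmer group**: only the classes of the torsion points -/
theorem sel3 (S : Finset P3) (i : ℕ) (E : P3 → ℕ) (hE : ∀ q ∈ S, ¬ 3 ∣ E q)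
    (hD1 : ¬ 3 * s3 ∣ mon S i E - 1) (hD2 : ¬ 3 * s3 ∣ mon S i E + 1)
    (hgood : Good3 S i fun q => (E q : ZMod 3))
    {k a : K} (hk : 2 * k = ((mon S i E : 𝓞 K) : K)) (ha : a ≠ 0)
    (hl : ∀ v : HeightOneSpectrum (𝓞 K), GLoc (v.valuation K) lK k a) :
    ∃ (t : ℕ) (b : K), t < 3 ∧ a * (2 * k) ^ t = b ^ 3 := by
  -- the decomposition
  obtain ⟨i₀, V₀, b₀, hb₀, hab₀⟩ := dec3 S ha (by
    intro v hv
    exact loc_unr_K (mon_notMem hv i E) hk (hl v))
  have hs3 : ∀ q ∈ S, q.1 ∉ (pw s3 prime_s3).asIdeal := by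
    intro q _ h2
    exact q.in3.not_s3 (Ideal.mem_span_singleton.1 h2)
  have hns : ∀ (j : ℕ) (V : P3 → ℕ), ¬ s3 ∣ mon S j V := fun j V h1 =>
    mon_notMem hs3 j V (Ideal.mem_span_singleton.2 h1)
  -- the place above `3`
  have hmem3 := mem_pw s3 prime_s3
  obtain ⟨t, ht3, ht⟩ : ∃ t : ℕ, t < 3 ∧
      Cb ((pw s3 prime_s3).valuation K) lK (a * ((mon S i E : 𝓞 K) : K) ^ t) := by
    rcases loc_three_K hmem3 (hns i E) hD1 hD2 hk (hl _) with h | h | h
    · exact ⟨0, by norm_num, by rwa [pow_zero, mul_one]⟩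
    · exact ⟨1, by norm_num, by rwa [pow_one]⟩
    · exact ⟨2, by norm_num, h⟩
  obtain ⟨j, V, hjV⟩ : ∃ (j : ℕ) (V : P3 → ℕ), mon S i₀ V₀ * mon S i E ^ t = mon S j V :=
    ⟨_, _, by rw [mon_pow, mon_mul]⟩
  have haV : a * ((mon S i E : 𝓞 K) : K) ^ t = ((mon S j V : 𝓞 K) : K) * b₀ ^ 3 := by
    rw [← hjV, hab₀]
    push_cast
    ring
  rw [haV] at ht
  obtain ⟨hj, hVa⟩ := mon_pm ((cb_iff hmem3 (hns j V)).1 (Cb.of_mul_cube hb₀ ht))
  have hj3 : ((j : ℕ) : ZMod 3) = 0 := (ZMod.natCast_eq_zero_iff j 3).2 hj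
  have hD0 : ((mon S i E : 𝓞 K) : K) ≠ 0 := coe_ne (mon_ne S i E)
  -- the places of `S`
  have hrow : ∀ q ∈ S, ∑ p ∈ S.erase q, (V p : ZMod 3) * d3.s p q =
      (V q : ZMod 3) * ((E q : ZMod 3) * ((i : ZMod 3) * d3.a q +
        ∑ p ∈ S.erase q, (E p : ZMod 3) * d3.s p q)) := by
    intro q hq
    have hmem := mem_pw q.1 q.prime
    have hqs : ¬ s3 ∣ q.1 := q.in3.not_s3
    have hl3 := val_three_l_le (pw q.1 q.prime)
    have hDq := mon_erase hq i E
    obtain ⟨r, hr⟩ : ∃ r : ℕ, Cu ((pw q.1 q.prime).valuation K) lK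
        (a * ((mon S i E : 𝓞 K) : K) ^ r) := by
      rw [hDq]
      rw [hDq] at hk
      rcases loc_tame_K q.prime hqs hmem (not_dvd_mon (notMem_erase q S) i E) (hE q hq) hk (hl _)
        with h | h | h
      · exact ⟨0, by rwa [pow_zero, mul_one]⟩
      · exact ⟨1, by rwa [pow_one]⟩
      · exact ⟨2, h⟩
    set s : ℕ := r + 2 * t with hs
    have h1 : Cu ((pw q.1 q.prime).valuation K) lK
        ((((mon S j V : 𝓞 K) : K) * ((mon S i E : 𝓞 K) : K) ^ s) * b₀ ^ 3) := by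
      have h2 := hr.mul hl3 (Cu.cube (ν := (pw q.1 q.prime).valuation K) lK_ne
        (pow_ne_zero t hD0))
      have e : a * ((mon S i E : 𝓞 K) : K) ^ r * (((mon S i E : 𝓞 K) : K) ^ t) ^ 3 =
          (((mon S j V : 𝓞 K) : K) * ((mon S i E : 𝓞 K) : K) ^ s) * b₀ ^ 3 := by
        rw [hs]
        linear_combination (((mon S i E : 𝓞 K) : K) ^ (r + 2 * t)) * haV
      rwa [e] at h2
    have h2 := Cu.of_mul_cube hb₀ h1
    set J : ℕ := j + i * s with hJ
    set W : P3 → ℕ := fun p => V p + E p * s with hW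
    have e1 : ((mon S j V : 𝓞 K) : K) * ((mon S i E : 𝓞 K) : K) ^ s = ((mon S J W : 𝓞 K) : K) := by
      have e2 : mon S j V * mon S i E ^ s = mon S J W := by rw [mon_pow, mon_mul]
      rw [← e2]
      push_cast
      rfl
    rw [e1] at h2
    have h3 := h2.val hl3
    rw [mon_erase hq, val_pow_mul q.prime hmem (not_dvd_mon (notMem_erase q S) J W), cv_exp] at h3
    have h4 : 3 ∣ W q := by omega
    obtain ⟨c, hc⟩ := h4
    have h5 : Cu ((pw q.1 q.prime).valuation K) lK ((mon (S.erase q) J W : 𝓞 K) : K) := by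
      refine Cu.of_mul_cube (s := (q.1 : K) ^ c) (pow_ne_zero c (coe_ne q.ne_zero)) ?_
      have e2 : ((mon (S.erase q) J W : 𝓞 K) : K) * ((q.1 : K) ^ c) ^ 3 = ((mon S J W : 𝓞 K) : K) := by
        rw [mon_erase hq, hc]
        push_cast
        ring
      rwa [e2]
    rw [cu_iff q.prime hqs hmem (not_dvd_mon (notMem_erase q S) J W),
      cs_mon (notMem_erase q S)] at h5
    have h6 : (V q : ZMod 3) + (s : ZMod 3) * (E q : ZMod 3) = 0 := by
      have h7 : ((W q : ℕ) : ZMod 3) = 0 := (ZMod.natCast_eq_zero_iff _ 3).2 ⟨c, hc⟩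
      rw [hW] at h7
      push_cast at h7
      linear_combination h7
    have hEq : (E q : ZMod 3) ≠ 0 := fun h => hE q hq ((ZMod.natCast_eq_zero_iff _ 3).1 h)
    have h8 := aux_row (V q) s (E q) ((i : ZMod 3) * d3.a q +
        ∑ p ∈ S.erase q, (E p : ZMod 3) * d3.s p q) hEq h6
    have h9 : ∑ p ∈ S.erase q, ((W p : ℕ) : ZMod 3) * d3.s p q =
        ∑ p ∈ S.erase q, (V p : ZMod 3) * d3.s p q +
          s * ∑ p ∈ S.erase q, (E p : ZMod 3) * d3.s p q := by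
      rw [mul_sum, ← sum_add_distrib]
      refine sum_congr rfl fun p _ => ?_
      rw [hW]
      push_cast
      ring
    rw [h9, hJ] at h5
    push_cast at h5
    linear_combination h5 - h8 - d3.a q * hj3
  have hV := hgood (fun q => (V q : ZMod 3)) hrow hVa
  obtain ⟨c, hc⟩ := mon_cube hj fun q hq => (ZMod.natCast_eq_zero_iff _ 3).1 (hV q hq)
  refine ⟨t, (c : K) * b₀, ht3, ?_⟩
  rw [hk, haV, hc]
  push_cast
  ring

end

end Pool.Agent.Lib.MP_1a91b9_ntK.C
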