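import Pool.Agent.Lib.MP_1a91b9_ntK.A.Forest
import Pool.Agent.Lib.MP_1a91b9_ntK.C.Gal
import Pool.Agent.Lib.MP_1a91b9_ntK.C.Sel3

/-!
# MP_1a91b9_nt (cubic twists), part C: the points of `y² = x³ + (D / 2)²`, `D = w ^ i * ∏ q ^ E q`
-/

set_option autoImplicit false
set_option linter.unusedSectionVars false

namespace Pool.Agent.Lib.MP_1a91b9_ntK.C

open NumberField IsDedekindDomain WithZero Finset WeierstrassCurve Pool.Agent.Lib.MP_1a91b9_ntT
open Pool.Agent.Lib.MP_1a91b9_ntT3.S9 (ShaP)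
open Pool.Agent.Lib.MP_1a91b9_ntH (wO s3 om_quad)
open Pool.Agent.Lib.MP_1a91b9_ntX.R (cs)

noncomputable section

/-- the condition on `D`: not `± 1` modulo `3 √-3` -/
def Ram3 (S : Finset P3) (i : ℕ) (E : P3 → ℕ) : Prop :=
  ¬ (3 ∣ i ∧ ∑ q ∈ S, (E q : ZMod 3) * d3.a q = 0)

theorem Ram3.one {S : Finset P3} {i : ℕ} {E : P3 → ℕ} (h : Ram3 S i E) :
    ¬ 3 * s3 ∣ mon S i E - 1 := fun h1 => h (mon_pm (Or.inl h1))

theorem Ram3.neg_one {S : Finset P3} {i : ℕ} {E : P3 → ℕ} (h : Ram3 S i E) :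
    ¬ 3 * s3 ∣ mon S i E + 1 := fun h1 => h (mon_pm (Or.inr h1))

/-- **the Selmer group** in the form used by the descent -/
theorem selCl3 (S : Finset P3) (i : ℕ) (E : P3 → ℕ) (hE : ∀ q ∈ S, ¬ 3 ∣ E q)
    (hR : Ram3 S i E) (hgood : Good3 S i fun q => (E q : ZMod 3))
    {k : K} (hk : 2 * k = ((mon S i E : 𝓞 K) : K)) : SelCl om k := by
  intro a ha hl
  obtain ⟨t, b, ht, hb⟩ := sel3 S i E hE hR.one hR.neg_one hgood hk ha (by
    rw [lK_eq]
    exact hl)
  interval_cases t
  · exact Or.inl ⟨b, by rw [← hb, pow_zero, mul_one]⟩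
  · exact Or.inr (Or.inl ⟨b, by rw [← hb, pow_one]⟩)
  · exact Or.inr (Or.inr ⟨b, hb.symm⟩)

/-- **the points and the Tate-Shafarevich group** -/
theorem points3 (S : Finset P3) (i : ℕ) (E : P3 → ℕ) (hE : ∀ q ∈ S, ¬ 3 ∣ E q)
    (hR : Ram3 S i E) (hgood : Good3 S i fun q => (E q : ZMod 3))
    {k : K} (hk : 2 * k = ((mon S i E : 𝓞 K) : K)) {W : WeierstrassCurve K} (hW : W = ck k) :
    Finite W.toAffine.Point ∧ (∃ m : ℕ, ¬ 3 ∣ m ∧ Nat.card W.toAffine.Point = 3 * m) ∧
      Nat.card (ShaP 3 W) = 1 := by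
  have hk0 : k ≠ 0 := by
    rintro rfl
    rw [mul_zero] at hk
    exact coe_ne (mon_ne S i E) hk.symm
  have hom : om ^ 2 + om + 1 = 0 := om_quad
  exact of_selCl hk0 hom (selCl3 S i E hE hR hgood hk) hW

/-! ### the condition in terms of the matrices -/

theorem sq_one3 : ∀ x : ZMod 3, x ≠ 0 → x * x = 1 := by decide

theorem d3_symm {p q : P3} (h : p ≠ q) : d3.s p q = d3.s q p :=
  cs_recip q.prime p.prime q.in3 p.in3 fun e => h (Subtype.ext e.symm)

/-- a solution of the row equations is in the kernel -/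
theorem row_ker {S : Finset P3} {i : ZMod 3} {e : P3 → ZMod 3} (he : ∀ q ∈ S, e q ≠ 0)
    {V : P3 → ZMod 3} (hV : ∀ q ∈ S, ∑ p ∈ S.erase q, V p * d3.s p q =
      V q * (e q * (i * d3.a q + ∑ p ∈ S.erase q, e p * d3.s p q))) :
    (NM (fun q p => d3.s q p * e p) (fun q => i * d3.a q) S).mulVec
      (fun q => e q * V q) = 0 := by
  ext q
  rw [Pi.zero_apply, Matrix.mulVec, dotProduct]
  have h1 := hV q q.2
  have h2 : ∑ p : S, NM (fun q p => d3.s q p * e p) (fun q => i * d3.a q) S q p * (e p * V p) =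
      (i * d3.a q + ∑ p ∈ S.erase q, d3.s q p * e p) * (e q * V q) -
        ∑ p ∈ S.erase q, V p * d3.s p q := by
    rw [← add_sum_erase univ _ (mem_univ q)]
    have h3 : ∑ p ∈ univ.erase q, NM (fun q p => d3.s q p * e p) (fun q => i * d3.a q) S q p *
        (e p * V p) = ∑ p ∈ univ.erase q, -((V p : ZMod 3) * d3.s p q) := by
      refine sum_congr rfl fun p hp => ?_
      have hpq : p ≠ q := (mem_erase.1 hp).1
      have hpq' : (p : P3) ≠ q := fun h => hpq (Subtype.ext h)
      unfold NM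
      rw [if_neg (Ne.symm hpq), d3_symm hpq']
      have := sq_one3 (e p) (he p p.2)
      linear_combination -(d3.s q p * V p) * this
    have h4 : ∑ p ∈ univ.erase q, -((V p : ZMod 3) * d3.s p q) =
        -∑ p ∈ S.erase q, V p * d3.s p q := by
      rw [sum_neg_distrib]
      congr 1
      have h5 : ((univ : Finset S).erase q).map (Function.Embedding.subtype _) = S.erase q := by
        ext p
        simp only [mem_map, mem_erase, mem_univ, and_true, Function.Embedding.coe_subtype]
        constructor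
        · rintro ⟨x, hx, rfl⟩
          exact ⟨fun h => hx (Subtype.ext h), x.2⟩
        · rintro ⟨h1, h2⟩
          exact ⟨⟨p, h2⟩, fun h => h1 (congrArg Subtype.val h), rfl⟩
      rw [← h5, sum_map]
      rfl
    rw [h3, h4]
    unfold NM
    rw [if_pos rfl]
    ring
  rw [h2]
  have h5 : ∑ p ∈ S.erase (q : P3), d3.s q p * e p = ∑ p ∈ S.erase (q : P3), e p * d3.s p q := by
    refine sum_congr rfl fun p hp => ?_
    rw [d3_symm (mem_erase.1 hp).1]
    ring
  rw [h5, h1]
  ring

/-- `i ≠ 0`: an invertible matrix -/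
theorem good3_of_det {S : Finset P3} {i : ZMod 3} {e : P3 → ZMod 3} (he : ∀ q ∈ S, e q ≠ 0)
    (h : (NM (fun q p => d3.s q p * e p) (fun q => i * d3.a q) S).det ≠ 0) : Good3 S i e := by
  intro V hV _ q hq
  have h1 := Matrix.eq_zero_of_mulVec_eq_zero h (row_ker he hV)
  have h2 := congrFun h1 ⟨q, hq⟩
  rw [Pi.zero_apply] at h2
  exact (mul_eq_zero.1 h2).resolve_left (he q hq)

/-- the kernel is the line of the constant vector (after the scaling) and the class is not `0` -/
theorem good3_of_ker {S : Finset P3} {i : ZMod 3} {e : P3 → ZMod 3} (he : ∀ q ∈ S, e q ≠ 0)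
    (hA : ∑ q ∈ S, e q * d3.a q ≠ 0)
    (h : ∀ U : S → ZMod 3, (NM (fun q p => d3.s q p * e p) (fun q => i * d3.a q) S).mulVec U = 0 →
      ∃ c, ∀ q, U q = c) : Good3 S i e := by
  intro V hV h0 q hq
  obtain ⟨c, hc⟩ := h _ (row_ker he hV)
  have h1 : ∀ q ∈ S, V q = c * e q := by
    intro q hq
    have h2 := hc ⟨q, hq⟩
    have h3 := sq_one3 (e q) (he q hq)
    linear_combination e q * h2 - V q * h3
  have h2 : c * ∑ q ∈ S, e q * d3.a q = 0 := by
    rw [← h0, mul_sum]
    refine sum_congr rfl fun q hq => ?_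
    rw [h1 q hq]
    ring
  have h3 : c = 0 := (mul_eq_zero.1 h2).resolve_right hA
  rw [h1 q hq, h3, zero_mul]

/-- two vectors of the kernel of a matrix with a nonzero minor -/
theorem ker_adj {n : Type*} [Fintype n] [DecidableEq n] {F : Type*} [Field F] {M : Matrix n n F}
    {r j : n} (h : M.adjugate r j ≠ 0) {x y : n → F} (hx : M.mulVec x = 0) (hy : M.mulVec y = 0)
    (q : n) : x r * y q = y r * x q := by
  have h1 : (M.updateRow j (Pi.single r 1)).mulVec (x r • y - y r • x) = 0 := by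
    ext p
    by_cases hp : p = j
    · subst hp
      rw [Matrix.mulVec, Matrix.updateRow_self, single_one_dotProduct, Pi.sub_apply, Pi.smul_apply,
        Pi.smul_apply, smul_eq_mul, smul_eq_mul, Pi.zero_apply]
      ring
    · rw [Matrix.mulVec, Matrix.updateRow_ne hp]
      have h2 : M.mulVec (x r • y - y r • x) = 0 := by
        rw [Matrix.mulVec_sub, Matrix.mulVec_smul, Matrix.mulVec_smul, hx, hy, smul_zero, smul_zero,
          sub_zero]
      exact congrFun h2 p
  have h2 := Matrix.eq_zero_of_mulVec_eq_zero (by rwa [← Matrix.adjugate_apply]) h1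
  have h3 := congrFun h2 q
  rw [Pi.sub_apply, Pi.smul_apply, Pi.smul_apply, smul_eq_mul, smul_eq_mul, Pi.zero_apply] at h3
  exact sub_eq_zero.1 h3

theorem NM_one {ι R : Type*} [DecidableEq ι] [CommRing R] (m : ι → ι → R) (S : Finset ι) :
    (NM m 0 S).mulVec (fun _ => 1) = 0 := by
  ext q
  rw [Pi.zero_apply, Matrix.mulVec, dotProduct]
  simp only [mul_one]
  rw [← add_sum_erase univ _ (mem_univ q)]
  have h3 : ∑ p ∈ univ.erase q, NM m 0 S q p = -∑ p ∈ S.erase q, m q p := by
    have h5 : ((univ : Finset S).erase q).map (Function.Embedding.subtype _) = S.erase q := by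
      ext p
      simp only [mem_map, mem_erase, mem_univ, and_true, Function.Embedding.coe_subtype]
      constructor
      · rintro ⟨x, hx, rfl⟩
        exact ⟨fun h => hx (Subtype.ext h), x.2⟩
      · rintro ⟨h1, h2⟩
        exact ⟨⟨p, h2⟩, fun h => h1 (congrArg Subtype.val h), rfl⟩
    rw [← h5, sum_map, ← sum_neg_distrib]
    refine sum_congr rfl fun p hp => ?_
    unfold NM
    rw [if_neg (Ne.symm (mem_erase.1 hp).1)]
    rfl
  rw [h3]
  unfold NM
  rw [if_pos rfl, Pi.zero_apply, zero_add, add_neg_cancel]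

theorem NM_left {S : Finset P3} {e : P3 → ZMod 3} :
    (NM (fun q p => d3.s q p * e p) 0 S).transpose.mulVec (fun q => e q) = 0 := by
  ext q
  rw [Pi.zero_apply, Matrix.mulVec, dotProduct]
  rw [← add_sum_erase univ _ (mem_univ q)]
  have h3 : ∑ p ∈ univ.erase q, (NM (fun q p => d3.s q p * e p) 0 S).transpose q p * e p =
      -∑ p ∈ S.erase q, d3.s q p * e p * e q := by
    have h5 : ((univ : Finset S).erase q).map (Function.Embedding.subtype _) = S.erase q := by
      ext p
      simp only [mem_map, mem_erase, mem_univ, and_true, Function.Embedding.coe_subtype]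
      constructor
      · rintro ⟨x, hx, rfl⟩
        exact ⟨fun h => hx (Subtype.ext h), x.2⟩
      · rintro ⟨h1, h2⟩
        exact ⟨⟨p, h2⟩, fun h => h1 (congrArg Subtype.val h), rfl⟩
    rw [← h5, sum_map, ← sum_neg_distrib]
    refine sum_congr rfl fun p hp => ?_
    have hpq : (p : P3) ≠ q := fun h => (mem_erase.1 hp).1 (Subtype.ext h)
    rw [Matrix.transpose_apply]
    unfold NM
    rw [if_neg (mem_erase.1 hp).1]
    change -(d3.s p q * e q) * e p = -(d3.s q p * e p * e q)
    rw [d3_symm hpq]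
    ring
  rw [h3, Matrix.transpose_apply]
  unfold NM
  rw [if_pos rfl, Pi.zero_apply, zero_add, sum_mul, add_neg_cancel]

/-- `i = 0`: the condition of the analytic side -/
theorem good3_of_cz {S : Finset P3} {e : P3 → ZMod 3} (he : ∀ q ∈ S, e q ≠ 0)
    (h : CZ (fun q p => d3.s q p * e p) d3.a S ≠ 0) :
    ∑ q ∈ S, e q * d3.a q ≠ 0 ∧ Good3 S 0 e := by
  set M := NM (fun q p => d3.s q p * e p) 0 S with hM
  obtain ⟨r, -, hr⟩ := exists_ne_zero_of_sum_ne_zero h
  have hr' : M.adjugate r r ≠ 0 := right_ne_zero_of_mul hr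
  have hM1 : M.mulVec (fun _ => 1) = 0 := NM_one _ S
  have hdet : M.det = 0 := Matrix.exists_mulVec_eq_zero_iff.1 ⟨_, fun h0 =>
    one_ne_zero (congrFun h0 r), hM1⟩
  have hcol : ∀ p q : S, M.adjugate q p = M.adjugate r p := by
    intro p q
    have h1 : M.mulVec (fun q => M.adjugate q p) = 0 := by
      have h2 := Matrix.mul_adjugate M
      rw [hdet, zero_smul] at h2
      ext q
      exact congrFun (congrFun h2 q) p
    have h2 := ker_adj hr' hM1 h1 q
    rw [one_mul, mul_one] at h2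
    exact h2
  have hrow : ∀ p : S, e r * M.adjugate r p = M.adjugate r r * e p := by
    intro p
    have h1 : M.transpose.mulVec (fun q => M.adjugate r q) = 0 := by
      have h2 := Matrix.adjugate_mul M
      rw [hdet, zero_smul] at h2
      ext q
      have h3 : ∑ p, M.adjugate r p * M p q = 0 := by
        have h4 := congrFun (congrFun h2 r) q
        rwa [Matrix.mul_apply, Matrix.zero_apply] at h4
      change ∑ p, M p q * M.adjugate r p = 0
      rw [← h3]
      exact sum_congr rfl fun p _ => mul_comm _ _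
    have h3 : M.transpose.adjugate r r ≠ 0 := by
      rw [← Matrix.adjugate_transpose, Matrix.transpose_apply]
      exact hr'
    exact ker_adj h3 NM_left h1 p
  have hA : ∑ q ∈ S, e q * d3.a q ≠ 0 := by
    intro hA
    have h1 : e r * CZ (fun q p => d3.s q p * e p) d3.a S =
        M.adjugate r r * ∑ q ∈ S, e q * d3.a q := by
      unfold CZ
      rw [← hM, mul_sum, mul_sum, ← sum_coe_sort S (fun q => M.adjugate r r * (e q * d3.a q))]
      refine sum_congr rfl fun q _ => ?_
      have h2 := hrow q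
      rw [hcol q q]
      linear_combination d3.a q * h2
    rw [hA, mul_zero] at h1
    exact (mul_ne_zero (he r r.2) h) h1
  refine ⟨hA, good3_of_ker he hA fun U hU => ⟨U r, fun q => ?_⟩⟩
  have e0 : (fun q : P3 => (0 : ZMod 3) * d3.a q) = 0 := by
    ext q
    rw [zero_mul, Pi.zero_apply]
  rw [e0] at hU
  have h2 := ker_adj hr' hM1 hU q
  rw [one_mul, mul_one] at h2
  exact h2

end

end Pool.Agent.Lib.MP_1a91b9_ntK.C
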