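import Pool.Agent.Lib.MP_1a91b9_ntK.C.Om

/-!
# The endomorphism `1 - ω` of `y² = x³ + k²` and its kernel
-/

set_option autoImplicit false

namespace Pool.Agent.Lib.MP_1a91b9_ntK.C

open WeierstrassCurve
open scoped Classical

variable {F : Type*} [Field F] [CharZero F] {W : Affine F} {z k : F}

private theorem mu_congr {x x' y y' : F} (hx : x = x') (hy : y = y') (h1 : W.Nonsingular x y)
    (h2 : W.Nonsingular x' y') : Affine.Point.some x y h1 = Affine.Point.some x' y' h2 := by
  subst hx
  subst hy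
  rfl

private theorem mu_fix' (h : IsK W z k) {x : F} (hx : z * x = x) : x = 0 := by
  by_contra hx0
  exact h.z1 (mul_right_cancel₀ hx0 (by rw [hx, one_mul]))

theorem om_sum (h : IsK W z k) (P : W.Point) : P + omP h P + omP h (omP h P) = 0 := by
  rcases P with _ | ⟨x, y, hn⟩
  · change (0 : W.Point) + omP h 0 + omP h (omP h 0) = 0
    rw [map_zero, map_zero, add_zero, add_zero]
  · obtain ⟨hn1, h1⟩ := omP_some h x y hn
    obtain ⟨hn2, h2⟩ := omP_some h (z * x) y hn1
    rw [h1, h2]
    have ha1 : W.a₁ = 0 := by rw [h.eq, ck]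
    have ha2 : W.a₂ = 0 := by rw [h.eq, ck]
    have ha3 : W.a₃ = 0 := by rw [h.eq, ck]
    have ha4 : W.a₄ = 0 := by rw [h.eq, ck]
    by_cases hx : x = 0
    · have hxx : z * x = x := by rw [hx, mul_zero]
      have hxx2 : z * (z * x) = x := by rw [hx, mul_zero, mul_zero]
      rw [mu_congr hxx rfl hn1 hn, mu_congr hxx2 rfl hn2 hn]
      have hy : y ≠ W.negY x y := by
        intro h3
        rw [Affine.negY, ha1, ha3] at h3
        have h4 : 2 * y = 0 := by linear_combination h3
        have h5 : y = 0 := (mul_eq_zero.1 h4).resolve_left two_ne_zero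
        have h6 := (h.nons x y).1 hn
        rw [hx, h5] at h6
        exact h.hk (pow_eq_zero_iff two_ne_zero |>.1 (by linear_combination -h6))
      have hsl : W.slope x x y y = 0 := by
        rw [Affine.slope_of_Y_ne rfl hy, ha1, ha2, ha4]
        have h4 : 3 * x ^ 2 + 2 * 0 * x + 0 - 0 * y = 0 := by
          rw [hx]
          ring
        rw [h4, zero_div]
      rw [Affine.Point.add_self_of_Y_ne hy]
      apply Affine.Point.add_of_Y_eq
      · rw [hsl, Affine.addX, ha1, ha2, hx]
        ring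
      · rw [hsl, Affine.addY, Affine.negAddY, Affine.negY, Affine.negY, ha1, ha3]
        ring
    · have hxx : x ≠ z * x := fun h3 => hx (mu_fix' h h3.symm)
      have hsl : W.slope x (z * x) y y = 0 := by
        rw [Affine.slope_of_X_ne hxx, sub_self, zero_div]
      rw [Affine.Point.add_of_X_ne hxx]
      apply Affine.Point.add_of_Y_eq
      · rw [hsl, Affine.addX, ha1, ha2]
        linear_combination (-x) * h.hz
      · rw [hsl, Affine.addY, Affine.negAddY, Affine.negY, Affine.negY, ha1, ha3]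
        ring

theorem omP_fixed (h : IsK W z k) {x y : F} (hn : W.Nonsingular x y) :
    omP h (.some x y hn) = .some x y hn ↔ x = 0 := by
  obtain ⟨hn1, h1⟩ := omP_some h x y hn
  rw [h1]
  constructor
  · intro h2
    have h3 : z * x = x := by
      injection h2
    exact mu_fix' h h3
  · intro hx
    exact mu_congr (by rw [hx, mul_zero]) rfl hn1 hn

/-- The endomorphism `1 - ω`. -/
noncomputable def mu (h : IsK W z k) : W.Point →+ W.Point := AddMonoidHom.id _ - omP h

theorem mu_apply (h : IsK W z k) (P : W.Point) : mu h P = P - omP h P := rfl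

theorem mu_mu (h : IsK W z k) (P : W.Point) : mu h (mu h P) = -(3 • omP h P) := by
  rw [mu_apply, mu_apply, map_sub]
  have h1 := om_sum h P
  have h2 : P - omP h P - (omP h P - omP h (omP h P)) =
      (P + omP h P + omP h (omP h P)) - 3 • omP h P := by abel
  rw [h2, h1, zero_sub]

theorem mu_om (h : IsK W z k) (P : W.Point) : mu h (omP h P) = omP h (mu h P) := by
  rw [mu_apply, mu_apply, map_sub]

theorem mu_zero (h : IsK W z k) (P : W.Point) (hP : mu h P = 0) :
    P = 0 ∨ ∃ (x y : F) (hn : W.Nonsingular x y), P = .some x y hn ∧ x = 0 := by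
  rcases P with _ | ⟨x, y, hn⟩
  · exact Or.inl rfl
  · refine Or.inr ⟨x, y, hn, rfl, ?_⟩
    rw [mu_apply, sub_eq_zero] at hP
    exact (omP_fixed h hn).1 hP.symm

theorem IsK.neg (h : IsK W z k) : IsK W z (-k) :=
  ⟨by rw [h.eq, ck, ck, neg_sq], h.hz, neg_ne_zero.2 h.hk⟩

/-- `ω` does not depend on the sign of `k`. -/
theorem omP_negk (h : IsK W z k) (P : W.Point) : omP h.neg P = omP h P := by
  rcases P with _ | ⟨x, y, hn⟩
  · change omP h.neg 0 = omP h 0
    rw [map_zero, map_zero]
  · obtain ⟨hn1, h1⟩ := omP_some h x y hn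
    obtain ⟨hn2, h2⟩ := omP_some h.neg x y hn
    rw [h1, h2]

theorem mu_negk (h : IsK W z k) (P : W.Point) : mu h.neg P = mu h P := by
  rw [mu_apply, mu_apply, omP_negk]

/-- The point `(0, k)`. -/
noncomputable def tq (h : IsK W z k) : W.Point :=
  Affine.Point.some 0 k ((h.nons _ _).2 (by ring))

theorem tq_ne (h : IsK W z k) : tq h ≠ 0 := by
  unfold tq
  exact Affine.Point.some_ne_zero _

theorem tq_neg (h : IsK W z k) : tq h.neg = -tq h := by
  unfold tq
  rw [Affine.Point.neg_some, Affine.Point.some.injEq]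
  refine ⟨rfl, ?_⟩
  have h1 : W.a₁ = 0 := by rw [h.eq, ck]
  have h3 : W.a₃ = 0 := by rw [h.eq, ck]
  rw [Affine.negY, h1, h3]
  ring

theorem tq_ne_neg (h : IsK W z k) : -tq h ≠ tq h := by
  rw [← tq_neg h]
  unfold tq
  intro h1
  rw [Affine.Point.some.injEq] at h1
  have h2 : 2 * k = 0 := by linear_combination -h1.2
  exact h.hk ((mul_eq_zero.1 h2).resolve_left two_ne_zero)

theorem mu_tq (h : IsK W z k) : mu h (tq h) = 0 := by
  rw [mu_apply, sub_eq_zero]
  symm
  unfold tq
  rw [omP_fixed]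

theorem tq_add_self (h : IsK W z k) : tq h + tq h = -tq h := by
  have h1 := mu_tq h
  rw [mu_apply, sub_eq_zero] at h1
  have h2 := om_sum h (tq h)
  rw [← h1, ← h1] at h2
  exact eq_neg_of_add_eq_zero_left h2

theorem mu_ker_all (h : IsK W z k) (P : W.Point) (hP : mu h P = 0) :
    P = 0 ∨ P = tq h ∨ P = -tq h := by
  rcases mu_zero h P hP with h1 | ⟨x, y, hn, rfl, rfl⟩
  · exact Or.inl h1
  · right
    have heq := (h.nons 0 y).1 hn
    have hm : (y - k) * (y + k) = 0 := by linear_combination heq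
    rcases mul_eq_zero.1 hm with h1 | h1
    · left
      exact mu_congr rfl (sub_eq_zero.1 h1) _ _
    · right
      rw [← tq_neg h]
      exact mu_congr rfl (eq_neg_of_add_eq_zero_left h1) _ _

/-- The character of the kernel of `1 - ω` with `ch T = z²`, `T = (0, k)`. -/
noncomputable def ch (h : IsK W z k) (P : W.Point) : F :=
  if P = 0 then 1 else if P = tq h then z ^ 2 else z

theorem ch_zero (h : IsK W z k) : ch h 0 = 1 := by
  unfold ch
  rw [if_pos rfl]

theorem ch_tq (h : IsK W z k) : ch h (tq h) = z ^ 2 := by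
  unfold ch
  rw [if_neg (tq_ne h), if_pos rfl]

theorem ch_neg_tq (h : IsK W z k) : ch h (-tq h) = z := by
  unfold ch
  rw [if_neg (neg_ne_zero.2 (tq_ne h)), if_neg (tq_ne_neg h)]

theorem ch_cases (h : IsK W z k) (P : W.Point) : ch h P = 1 ∨ ch h P = z ∨ ch h P = z ^ 2 := by
  unfold ch
  split_ifs
  · exact Or.inl rfl
  · exact Or.inr (Or.inr rfl)
  · exact Or.inr (Or.inl rfl)

theorem ch_cube (h : IsK W z k) (P : W.Point) : ch h P ^ 3 = 1 := by
  rcases ch_cases h P with e | e | e
  · rw [e, one_pow]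
  · rw [e, h.z3]
  · rw [e, ← pow_mul, mul_comm, pow_mul, h.z3, one_pow]

theorem ch_ne (h : IsK W z k) (P : W.Point) : ch h P ≠ 0 := by
  intro h0
  have h1 := ch_cube h P
  rw [h0] at h1
  norm_num at h1

theorem ch_add (h : IsK W z k) (P Q : W.Point) (hP : mu h P = 0) (hQ : mu h Q = 0) :
    ch h (P + Q) = ch h P * ch h Q := by
  have hz3 := h.z3
  have e1 := tq_add_self h
  have e2 : -tq h + -tq h = tq h := by
    rw [← neg_add, e1, neg_neg]
  rcases mu_ker_all h P hP with rfl | rfl | rfl
  · rw [zero_add, ch_zero, one_mul]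
  · rcases mu_ker_all h Q hQ with rfl | rfl | rfl
    · rw [add_zero, ch_zero, mul_one]
    · rw [e1, ch_neg_tq, ch_tq]
      linear_combination (-z) * hz3
    · rw [add_neg_cancel, ch_zero, ch_neg_tq, ch_tq]
      linear_combination -hz3
  · rcases mu_ker_all h Q hQ with rfl | rfl | rfl
    · rw [add_zero, ch_zero, mul_one]
    · rw [neg_add_cancel, ch_zero, ch_neg_tq, ch_tq]
      linear_combination -hz3
    · rw [e2, ch_neg_tq, ch_tq]
      ring

theorem ch_inj (h : IsK W z k) (P Q : W.Point) (hP : mu h P = 0) (hQ : mu h Q = 0)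
    (e : ch h P = ch h Q) : P = Q := by
  have h1 := h.z1
  have h2 := h.z21
  have h3 := h.z22
  rcases mu_ker_all h P hP with rfl | rfl | rfl <;>
    rcases mu_ker_all h Q hQ with rfl | rfl | rfl
  · rfl
  · rw [ch_zero, ch_tq] at e
    exact absurd e.symm h2
  · rw [ch_zero, ch_neg_tq] at e
    exact absurd e.symm h1
  · rw [ch_zero, ch_tq] at e
    exact absurd e h2
  · rfl
  · rw [ch_tq, ch_neg_tq] at e
    exact absurd e h3
  · rw [ch_zero, ch_neg_tq] at e
    exact absurd e h1
  · rw [ch_tq, ch_neg_tq] at e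
    exact absurd e.symm h3
  · rfl

/-- The character for `-k` is the inverse. -/
theorem ch_negk (h : IsK W z k) (P : W.Point) (hP : mu h P = 0) : ch h.neg P = ch h P ^ 2 := by
  rcases mu_ker_all h P hP with rfl | rfl | rfl
  · rw [ch_zero, ch_zero, one_pow]
  · have e : tq h = -tq h.neg := by rw [tq_neg, neg_neg]
    rw [ch_tq]
    conv_lhs => rw [e, ch_neg_tq]
    linear_combination (-z) * h.z3
  · rw [ch_neg_tq, ← tq_neg h, ch_tq]

end Pool.Agent.Lib.MP_1a91b9_ntK.C
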