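import Pool.Agent.Lib.MP_1a91b9_nt.VcPoint
import Pool.Agent.Lib.MP_1a91b9_ntT.S9.KB
import Pool.Agent.Lib.MP_1a91b9_ntT3.S9.Defs

/-!
# The curve `y² = x³ + k²`, `z² + z + 1 = 0`, and its automorphism `(x, y) ↦ (z x, y)`
-/

set_option autoImplicit false

namespace Pool.Agent.Lib.MP_1a91b9_ntK.C

open WeierstrassCurve
open scoped Classical

/-- The curve `y² = x³ + k²`. -/
def ck {F : Type*} [Field F] (k : F) : WeierstrassCurve F := ⟨0, 0, 0, 0, k ^ 2⟩

/-- `W` is the curve `y² = x³ + k²`, `k ≠ 0`, and `z` is a primitive cube root of unity. -/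
structure IsK {F : Type*} [Field F] (W : Affine F) (z k : F) : Prop where
  eq : W = ck k
  hz : z ^ 2 + z + 1 = 0
  hk : k ≠ 0

section
variable {F : Type*} [Field F] {W : Affine F} {z k : F}

theorem IsK.eqn (h : IsK W z k) (x y : F) : W.Equation x y ↔ y ^ 2 = x ^ 3 + k ^ 2 := by
  rw [h.eq, ck, Affine.equation_iff]
  dsimp only
  constructor
  · intro e
    linear_combination e
  · intro e
    linear_combination e

theorem IsK.nons [CharZero F] (h : IsK W z k) (x y : F) :
    W.Nonsingular x y ↔ y ^ 2 = x ^ 3 + k ^ 2 := by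
  rw [Affine.nonsingular_iff, h.eqn]
  constructor
  · exact fun e => e.1
  · intro e
    refine ⟨e, ?_⟩
    by_contra hc
    push Not at hc
    obtain ⟨h1, h2⟩ := hc
    rw [h.eq, ck] at h1 h2
    dsimp only at h1 h2
    have hy : 2 * y = 0 := by linear_combination h2
    have hy' : y = 0 := (mul_eq_zero.1 hy).resolve_left two_ne_zero
    have hx2 : 3 * x ^ 2 = 0 := by linear_combination -h1
    have hx : x = 0 := pow_eq_zero_iff two_ne_zero |>.1
      ((mul_eq_zero.1 hx2).resolve_left three_ne_zero)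
    rw [hx, hy'] at e
    have hk2 : k ^ 2 = 0 := by linear_combination -e
    exact h.hk (pow_eq_zero_iff two_ne_zero |>.1 hk2)

theorem IsK.z3 (h : IsK W z k) : z ^ 3 = 1 := by
  linear_combination (z - 1) * h.hz

theorem IsK.z0 (h : IsK W z k) : z ≠ 0 := by
  rintro rfl
  have hz := h.hz
  norm_num at hz

theorem IsK.z1 [CharZero F] (h : IsK W z k) : z ≠ 1 := by
  rintro rfl
  have hz := h.hz
  norm_num at hz

theorem IsK.z21 [CharZero F] (h : IsK W z k) : z ^ 2 ≠ 1 := by
  intro h2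
  apply h.z1
  linear_combination h.z3 - z * h2

theorem IsK.z22 [CharZero F] (h : IsK W z k) : z ^ 2 ≠ z := by
  intro h2
  apply h.z1
  exact mul_left_cancel₀ h.z0 (by linear_combination h2)

theorem IsK.l2 (h : IsK W z k) : (1 + 2 * z) ^ 2 = -3 := by
  linear_combination 4 * h.hz

theorem IsK.l0 [CharZero F] (h : IsK W z k) : (1 + 2 * z) ≠ 0 := by
  intro h0
  have h3 : (3 : F) = 0 := by linear_combination 4 * h.hz - (1 + 2 * z) * h0
  norm_num at h3

theorem exists_omP (h : IsK W z k) : ∃ f : W.Point →+ W.Point, ∀ (x y : F)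
    (hn : W.Nonsingular x y), ∃ hn', f (.some x y hn) = .some (z * x) y hn' := by
  have hz := h.hz
  have hz3 := h.z3
  have hz0 := h.z0
  let C : VariableChange F := ⟨Units.mk0 (z ^ 2) (pow_ne_zero 2 hz0), 0, 0, 0⟩
  have hui : ((C.u⁻¹ : Fˣ) : F) = z := by
    change ((Units.mk0 (z ^ 2) (pow_ne_zero 2 hz0))⁻¹ : Fˣ).val = z
    rw [Units.val_inv_eq_inv_val, Units.val_mk0]
    exact inv_eq_of_mul_eq_one_right (by linear_combination hz3)
  have hCW : C • W = W := by
    rw [h.eq, ck]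
    ext
    · rw [variableChange_a₁, hui]
      change z * (0 + 2 * 0) = 0
      ring
    · rw [variableChange_a₂, hui]
      change z ^ 2 * (0 - 0 * 0 + 3 * 0 - 0 ^ 2) = 0
      ring
    · rw [variableChange_a₃, hui]
      change z ^ 3 * (0 + 0 * 0 + 2 * 0) = 0
      ring
    · rw [variableChange_a₄, hui]
      change z ^ 4 * (0 - 0 * 0 + 2 * 0 * 0 - (0 + 0 * 0) * 0 +
        3 * (0) ^ 2 - 2 * 0 * 0) = 0
      ring
    · rw [variableChange_a₆, hui]
      change z ^ 6 * (k ^ 2 + 0 * 0 + (0) ^ 2 * 0 + (0) ^ 3 - 0 * 0 - 0 ^ 2 -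
        0 * 0 * 0) = k ^ 2
      have e1 : z ^ 6 = 1 := by linear_combination (z ^ 3 + 1) * hz3
      rw [e1]
      ring
  have key := Pool.Agent.Lib.MP_1a91b9_nt.exists_point_equiv W C
  rw [hCW] at key
  obtain ⟨e, he⟩ := key
  refine ⟨e.toAddMonoidHom, fun x y hn => ?_⟩
  obtain ⟨h', h1⟩ := he x y hn
  have e2 : ((C.u : F)) = z ^ 2 := rfl
  have ex : (C.u : F) ^ 2 * x + C.r = z * x := by
    rw [e2]
    change (z ^ 2) ^ 2 * x + 0 = _
    linear_combination z * x * hz3
  have ey : (C.u : F) ^ 3 * y + (C.u : F) ^ 2 * C.s * x + C.t = y := by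
    rw [e2]
    change (z ^ 2) ^ 3 * y + (z ^ 2) ^ 2 * 0 * x + 0 = _
    linear_combination (z ^ 3 + 1) * y * hz3
  have h2 : ∀ (x' y' : F) (h' : W.Nonsingular x' y'), x' = z * x → y' = y →
      e (.some x y hn) = .some x' y' h' → ∃ hn', e (.some x y hn) = .some (z * x) y hn' := by
    intro x' y' hq hx' hy' h3
    subst hx'
    subst hy'
    exact ⟨hq, h3⟩
  exact h2 _ _ h' ex ey h1

/-- The automorphism `(x, y) ↦ (z x, y)`. -/
noncomputable def omP (h : IsK W z k) : W.Point →+ W.Point := (exists_omP h).choose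

theorem omP_some (h : IsK W z k) (x y : F) (hn : W.Nonsingular x y) :
    ∃ hn', omP h (.some x y hn) = .some (z * x) y hn' :=
  (exists_omP h).choose_spec x y hn

end

end Pool.Agent.Lib.MP_1a91b9_ntK.C
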