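import Pool.Agent.Lib.MP_1a91b9_ntH.C.TamDefs

/-!
# MP_1a91b9_nt (cubic twists), block K-tam: the curve `y² + D y = x³` over a field
-/

set_option autoImplicit false

namespace Pool.Agent.Lib.MP_1a91b9_ntK.C

open NumberField IsDedekindDomain WithZero WeierstrassCurve
open Pool.Agent.Lib.MP_1a91b9_ntH.C (nsSet nsG)
open scoped Classical

/-- The curve `y² + D y = x³` over a field. -/
def wd {F : Type*} [Field F] (D : F) : WeierstrassCurve F := ⟨0, 0, D, 0, 0⟩

section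

variable {L : Type*} [Field L] {D : L}

theorem wd_eqn (x y : L) : (wd D).toAffine.Equation x y ↔ y ^ 2 + D * y = x ^ 3 := by
  rw [Affine.equation_iff]
  simp [wd]

theorem wd_disc : (wd D).Δ = -27 * D ^ 4 := by
  simp only [wd, WeierstrassCurve.Δ, WeierstrassCurve.b₂, WeierstrassCurve.b₄, WeierstrassCurve.b₆,
    WeierstrassCurve.b₈]
  ring

theorem wd_nons [CharZero L] (hD : D ≠ 0) (x y : L) :
    (wd D).toAffine.Nonsingular x y ↔ y ^ 2 + D * y = x ^ 3 := by
  have h : (wd D).toAffine.Δ ≠ 0 := by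
    change (wd D).Δ ≠ 0
    rw [wd_disc]
    exact mul_ne_zero (by norm_num) (pow_ne_zero 4 hD)
  rw [← Affine.equation_iff_nonsingular_of_Δ_ne_zero h, wd_eqn]

/-- the third point on a line -/
theorem wd_line {x₁ x₂ y₁ y₂ : L} (h₁ : (wd D).toAffine.Equation x₁ y₁)
    (h₂ : (wd D).toAffine.Equation x₂ y₂) (hxy : ¬(x₁ = x₂ ∧ y₁ = (wd D).toAffine.negY x₂ y₂)) :
    ∃ l n x₃ y₃ : L, (wd D).toAffine.addX x₁ x₂ ((wd D).toAffine.slope x₁ x₂ y₁ y₂) = x₃ ∧
      (wd D).toAffine.addY x₁ x₂ y₁ ((wd D).toAffine.slope x₁ x₂ y₁ y₂) = -y₃ - D ∧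
      y₁ = l * x₁ + n ∧ y₂ = l * x₂ + n ∧ y₃ = l * x₃ + n ∧
      ∀ t : L, (l * t + n) ^ 2 + D * (l * t + n) - t ^ 3 = -((t - x₁) * (t - x₂) * (t - x₃)) := by
  obtain ⟨l, hl⟩ : ∃ l, l = (wd D).toAffine.slope x₁ x₂ y₁ y₂ := ⟨_, rfl⟩
  have hpoly := Affine.addPolynomial_slope h₁ h₂ hxy
  have hy2 : y₂ = l * (x₂ - x₁) + y₁ := by
    by_cases hx : x₁ = x₂
    · have h3 : y₁ = y₂ := Affine.Y_eq_of_Y_ne h₁ h₂ hx (fun h => hxy ⟨hx, h⟩)
      rw [hx, h3, sub_self, mul_zero, zero_add]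
    · rw [hl, Affine.slope_of_X_ne hx]
      have : x₁ - x₂ ≠ 0 := sub_ne_zero.2 hx
      field_simp
      ring
  rw [← hl] at hpoly ⊢
  refine ⟨l, y₁ - l * x₁, (wd D).toAffine.addX x₁ x₂ l, l * ((wd D).toAffine.addX x₁ x₂ l - x₁) + y₁,
    rfl, ?_, ?_, ?_, ?_, ?_⟩
  · have e3 : (wd D).toAffine.a₃ = D := rfl
    have e1 : (wd D).toAffine.a₁ = 0 := rfl
    rw [Affine.addY, Affine.negY, Affine.negAddY, e3, e1]
    ring
  · ring
  · rw [hy2]; ring
  · ring
  · intro t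
    have h1 := congrArg (Polynomial.eval t) hpoly
    rw [Affine.addPolynomial_eq] at h1
    have hy := (wd_eqn x₁ y₁).1 h₁
    simp only [Cubic.toPoly, Polynomial.eval_neg, Polynomial.eval_add, Polynomial.eval_mul,
      Polynomial.eval_C, Polynomial.eval_pow, Polynomial.eval_X, Polynomial.eval_sub] at h1
    have e1 : (wd D).toAffine.a₁ = 0 := rfl
    have e2 : (wd D).toAffine.a₂ = 0 := rfl
    have e3 : (wd D).toAffine.a₃ = D := rfl
    have e4 : (wd D).toAffine.a₄ = 0 := rfl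
    have e6 : (wd D).toAffine.a₆ = 0 := rfl
    rw [e1, e2, e3, e4, e6] at h1
    linear_combination h1

theorem wd_prod {l n x₁ x₂ x₃ : L}
    (h : ∀ t : L, (l * t + n) ^ 2 + D * (l * t + n) - t ^ 3 = -((t - x₁) * (t - x₂) * (t - x₃))) :
    (l * x₁ + n) * (l * x₂ + n) * (l * x₃ + n) = n ^ 3 ∧
      (l * x₁ + n + D) * (l * x₂ + n + D) * (l * x₃ + n + D) = (n + D) ^ 3 := by
  by_cases hl : l = 0
  · subst hl
    constructor <;> ring
  · constructor
    · have h1 := h (-n / l)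
      have e : l * (-n / l) + n = 0 := by field_simp; ring
      rw [e] at h1
      have h2 : n ^ 3 / l ^ 3 = (l * x₁ + n) * (l * x₂ + n) * (l * x₃ + n) / l ^ 3 := by
        have e1 : (-n / l) ^ 3 = -(n ^ 3 / l ^ 3) := by field_simp
        have e2 : (-n / l - x₁) * (-n / l - x₂) * (-n / l - x₃) =
            -((l * x₁ + n) * (l * x₂ + n) * (l * x₃ + n) / l ^ 3) := by
          field_simp
          ring
        rw [e1, e2] at h1
        linear_combination h1
      have h3 : (l ^ 3 : L) ≠ 0 := pow_ne_zero 3 hl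
      rw [div_left_inj' h3] at h2
      exact h2.symm
    · have h1 := h (-(n + D) / l)
      have e : l * (-(n + D) / l) + n = -D := by field_simp; ring
      rw [e] at h1
      have h2 : (n + D) ^ 3 / l ^ 3 = (l * x₁ + n + D) * (l * x₂ + n + D) * (l * x₃ + n + D) / l ^ 3 := by
        have e1 : (-(n + D) / l) ^ 3 = -((n + D) ^ 3 / l ^ 3) := by field_simp
        have e2 : (-(n + D) / l - x₁) * (-(n + D) / l - x₂) * (-(n + D) / l - x₃) =
            -((l * x₁ + n + D) * (l * x₂ + n + D) * (l * x₃ + n + D) / l ^ 3) := by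
          field_simp
          ring
        rw [e1, e2] at h1
        linear_combination h1
      have h3 : (l ^ 3 : L) ≠ 0 := pow_ne_zero 3 hl
      rw [div_left_inj' h3] at h2
      exact h2.symm

end

end Pool.Agent.Lib.MP_1a91b9_ntK.C
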