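import Pool.Agent.Lib.MP_1a91b9_ntH.C.PerC
import Pool.Agent.Lib.MP_1a91b9_ntK.A.LocDef
import Pool.Agent.Lib.MP_1a91b9_ntK.A.Res
import Pool.Agent.Lib.MP_1a91b9_ntK.A.Good
import Pool.Agent.Lib.MP_1a91b9_ntK.C.TamDefs

/-!
# MP_1a91b9_nt (cubic twists), part C, block Per: the period and the 3-part of the formula

`W_D : y² + D y = x³`, `D` cube-free and prime to `√-3`: the equation is minimal everywhere,
`Ω = √3 ‖Om‖² / ‖D‖^(2/3)`. With `ν = 3 L / (Om √-3 ^ r)`: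
`g(1) √3 / Ω = 3^(r - 2) ‖ν‖² ‖D‖^(2/3)`.
-/

set_option autoImplicit false

namespace Pool.Agent.Lib.MP_1a91b9_ntK.C

open NumberField IsDedekindDomain WeierstrassCurve WithZero MeasureTheory
open Pool.Agent.Lib.MP_1a91b9_ntT Pool.Agent.Lib.MP_1a91b9_ntT.Per
open Pool.Agent.Lib.MP_1a91b9_ntH (wO s3 Nz Nz_eq s3_ne s3_not_isUnit)
open Pool.Agent.Lib.MP_1a91b9_ntH.C (perb_unique perb_sqf perb_one perb_eq perb_int perb_three
  s3_prime om_quad' sqrt_discr_K discr_K)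
open Pool.Agent.Lib.MP_1a91b9_ntT.S9 (tam normFactor period)
open Pool.Agent.Lib.MP_1a91b9_ntT3.S9 (UnitAt ShaP PPart PPartQ unitAt_of_val ppartQ_of)
open scoped Classical

/-! ### The infinite part -/

theorem per3_iff {d x y t : ℂ} (ht : t ^ 2 = 4 * x ^ 3 + d ^ 2) :
    (wd d).toAffine.Equation x y ↔ y = (t - d) / 2 ∨ y = (-t - d) / 2 := by
  rw [wd_eqn]
  constructor
  · intro h
    have h1 : (2 * y + d - t) * (2 * y + d + t) = 0 := by linear_combination 4 * h - ht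
    rcases mul_eq_zero.1 h1 with h2 | h2
    · left
      linear_combination h2 / 2
    · right
      linear_combination h2 / 2
  · rintro (rfl | rfl)
    · linear_combination ht / 4
    · linear_combination ht / 4

theorem per3_fib (d x : ℂ) :
    ∑' y : {y : ℂ // (wd d).toAffine.Equation x y},
      (‖2 * (y : ℂ) + (wd d).a₁ * x + (wd d).a₃‖ ^ 2)⁻¹ = 2 * ‖4 * x ^ 3 + d ^ 2‖⁻¹ := by
  show ∑' y : {y : ℂ // (wd d).toAffine.Equation x y}, (‖2 * (y : ℂ) + 0 * x + d‖ ^ 2)⁻¹ = _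
  obtain ⟨t, ht⟩ := IsAlgClosed.exists_pow_nat_eq (4 * x ^ 3 + d ^ 2) (n := 2) (by norm_num)
  rw [← ht]
  rcases eq_or_ne t 0 with h0 | h0
  · have h : ∀ y : {y : ℂ // (wd d).toAffine.Equation x y},
        (‖2 * (y : ℂ) + 0 * x + d‖ ^ 2)⁻¹ = 0 := by
      rintro ⟨y, hy⟩
      rw [per3_iff ht, h0, neg_zero, or_self] at hy
      show (‖2 * y + 0 * x + d‖ ^ 2)⁻¹ = 0
      have e : 2 * y + 0 * x + d = 0 := by rw [hy]; ring
      rw [e]
      norm_num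
    rw [tsum_congr h, tsum_zero, h0]
    norm_num
  · have hne : (t - d) / 2 ≠ (-t - d) / 2 := by
      intro h
      apply h0
      have h1 : (2 : ℂ) ≠ 0 := two_ne_zero
      have h2 := (div_left_inj' h1).1 h
      have h3 : 2 * t = 0 := by linear_combination h2
      simpa using h3
    have e : {y : ℂ | (wd d).toAffine.Equation x y} =
        (({(t - d) / 2, (-t - d) / 2} : Finset ℂ) : Set ℂ) := by
      ext y
      rw [Finset.coe_pair, Set.mem_ofPred_eq, per3_iff ht]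
      rfl
    have key : ∑' y : ({y : ℂ | (wd d).toAffine.Equation x y} : Set ℂ),
        (‖2 * (y : ℂ) + 0 * x + d‖ ^ 2)⁻¹ =
        (‖2 * ((t - d) / 2) + 0 * x + d‖ ^ 2)⁻¹ + (‖2 * ((-t - d) / 2) + 0 * x + d‖ ^ 2)⁻¹ := by
      rw [e, Finset.tsum_subtype' _ (fun y : ℂ => (‖2 * y + 0 * x + d‖ ^ 2)⁻¹), Finset.sum_pair hne]
    refine Eq.trans key ?_
    have e1 : 2 * ((t - d) / 2) + 0 * x + d = t := by ring
    have e2 : 2 * ((-t - d) / 2) + 0 * x + d = -t := by ring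
    rw [e1, e2, norm_neg, ← norm_pow, two_mul]

/-- The area of `y² + d y = x³` over `ℂ`. -/
theorem perC_wd {d : ℂ} (hd : d ≠ 0) :
    perC (wd d) = Real.sqrt 3 / 2 * (‖Om‖ ^ 2 / ‖d‖ ^ (2 / 3 : ℝ)) := by
  have hd2 : d ^ 2 ≠ 0 := pow_ne_zero 2 hd
  have hn : 0 < ‖d‖ := norm_pos_iff.2 hd
  have hr0 : 0 < ‖d‖ ^ (2 / 3 : ℝ) := Real.rpow_pos_of_pos hn _
  have hr : (‖d‖ ^ (2 / 3 : ℝ)) ^ 3 = ‖d ^ 2‖ := by
    rw [norm_pow, ← Real.rpow_natCast, ← Real.rpow_mul hn.le]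
    norm_num
  rw [perC]
  simp only [per3_fib]
  rw [integral_const_mul, MP_1a91b9_ntT3.S9.integral_scale _ hd2 (‖d‖ ^ (2 / 3 : ℝ)) hr0 hr,
    integral_g]
  field_simp
  try ring

theorem wd_map {F G : Type*} [Field F] [Field G] (f : F →+* G) (d : F) :
    (wd d).map f = wd (f d) := by
  simp [wd, WeierstrassCurve.map]

theorem prod_perAt_wd {d : K} (hd : d ≠ 0) :
    ∏ v : InfinitePlace K, perAt (wd d) v = Real.sqrt 3 * (‖Om‖ ^ 2 / ‖embK d‖ ^ (2 / 3 : ℝ)) := by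
  have hv : Fintype.card (InfinitePlace K) = 1 := by
    have h1 := MP_1a91b9_ntT3.S9.card_places (N := K) om_quad'
    rw [S3.finrank_K] at h1
    omega
  have h : ∀ v : InfinitePlace K, perAt (wd d) v =
      Real.sqrt 3 * (‖Om‖ ^ 2 / ‖embK d‖ ^ (2 / 3 : ℝ)) := by
    intro v
    rw [perAt, dif_neg (MP_1a91b9_ntT3.S9.pb_not_real om_quad' v), wd_map,
      perC_wd ((map_ne_zero v.embedding).2 hd)]
    have h : ‖v.embedding d‖ = ‖embK d‖ := by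
      have h2 : v = InfinitePlace.mk embK.toRingHom :=
        (Fintype.card_le_one_iff.1 hv.le) _ _
      have h3 : ‖v.embedding d‖ = v d := by
        rw [← InfinitePlace.apply, InfinitePlace.mk_embedding]
      rw [h3, h2]
      rfl
    rw [h]
    ring
  simp only [h]
  rw [Finset.prod_const, Finset.card_univ, hv, pow_one]

/-! ### The finite part -/

/-- cube-free integers -/
theorem per3_cubefree {x : 𝓞 K} (hx0 : x ≠ 0) (hx : ∀ p : 𝓞 K, Prime p → ¬ p ^ 3 ∣ x)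
    (v : HeightOneSpectrum (𝓞 K)) : exp (-2 : ℤ) ≤ v.valuation K (x : K) := by
  by_contra h
  rw [not_le] at h
  have h0 : v.valuation K (x : K) ≠ 0 := by
    rw [Valuation.ne_zero_iff]
    intro h1
    exact hx0 (RingOfIntegers.ext h1)
  have h1 : v.valuation K (x : K) ≤ exp (-((3 : ℕ) : ℤ)) := by
    rw [← exp_log h0] at h ⊢
    rw [exp_lt_exp] at h
    rw [exp_le_exp]
    push_cast
    omega
  have h2 : v.valuation K (x : K) = v.intValuation x := HeightOneSpectrum.valuation_of_algebraMap v x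
  rw [h2, HeightOneSpectrum.intValuation_le_pow_iff_mem] at h1
  obtain ⟨p, hp⟩ := (IsPrincipalIdealRing.principal v.asIdeal).principal
  have hp' : v.asIdeal = Ideal.span {p} := hp
  have hp0 : p ≠ 0 := by
    rintro rfl
    apply v.ne_bot
    rw [hp', Ideal.span_singleton_eq_bot]
  rw [hp', Ideal.span_singleton_pow, Ideal.mem_span_singleton] at h1
  refine hx p ?_ h1
  rw [← Ideal.span_singleton_prime hp0, ← hp']
  exact v.isPrime

theorem per3_disc (D : 𝓞 K) (v : HeightOneSpectrum (𝓞 K)) : v.valuation K ((wd (D : K)).Δ) =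
    v.valuation K ((s3 : 𝓞 K) : K) ^ 6 * v.valuation K (D : K) ^ 4 := by
  have e : (wd (D : K)).Δ = ((s3 : 𝓞 K) : K) ^ 6 * (D : K) ^ 4 := by
    rw [wd_disc]
    have h := perb_three
    have h2 : (-27 : K) = ((s3 : 𝓞 K) : K) ^ 6 := by
      have h3 : ((s3 : 𝓞 K) : K) ^ 2 = -3 := by linear_combination h
      have h4 : ((s3 : 𝓞 K) : K) ^ 6 = (((s3 : 𝓞 K) : K) ^ 2) ^ 3 := by ring
      rw [h4, h3]
      norm_num
    rw [h2]
  rw [e, map_mul, map_pow, map_pow]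

theorem per3_min {D : 𝓞 K} (hD0 : D ≠ 0) (hD : ∀ p : 𝓞 K, Prime p → ¬ p ^ 3 ∣ D) (h3 : ¬ s3 ∣ D)
    (v : HeightOneSpectrum (𝓞 K)) : exp (-12 : ℤ) < v.valuation K ((wd (D : K)).Δ) := by
  rw [per3_disc]
  by_cases hv3 : s3 ∈ v.asIdeal
  · have hd : D ∉ v.asIdeal := by
      rw [perb_eq s3_prime hv3, Ideal.mem_span_singleton]
      exact h3
    rw [perb_one hd, one_pow, mul_one]
    refine lt_of_lt_of_le (b := exp (-6 : ℤ)) (exp_lt_exp.2 (by norm_num)) ?_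
    have h1 := pow_le_pow_left₀ zero_le (perb_sqf s3_prime.squarefree v) 6
    rw [← exp_nsmul] at h1
    simpa using h1
  · rw [perb_one hv3, one_pow, one_mul]
    refine lt_of_lt_of_le (b := exp (-8 : ℤ)) (exp_lt_exp.2 (by norm_num)) ?_
    have h1 := pow_le_pow_left₀ zero_le (per3_cubefree hD0 hD v) 4
    rw [← exp_nsmul] at h1
    simpa using h1

theorem per3_nf {D : 𝓞 K} (hD0 : D ≠ 0) (hD : ∀ p : 𝓞 K, Prime p → ¬ p ^ 3 ∣ D) (h3 : ¬ s3 ∣ D)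
    (v : HeightOneSpectrum (𝓞 K)) : normFactor (wd (D : K)) v = 1 := by
  have hu := perb_unique (wd (D : K)) v 1
  obtain ⟨r, hr⟩ := perb_int v D
  have hbc : (wd (D : K)).baseChange (v.adicCompletion K) =
      wd (algebraMap K (v.adicCompletion K) (D : K)) := wd_map _ _
  have h1 := hu ⟨0, 0, r, 0, 0⟩ (by
    rw [one_smul, hbc, Pool.Agent.Lib.MP_1a91b9_ntH.C.perb_bc, map_zero, hr]
    rfl) (by
    rw [one_smul, WeierstrassCurve.baseChange, WeierstrassCurve.map_Δ,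
      MP_1a91b9_nt.valued_algebraMap]
    exact per3_min hD0 hD h3 v)
  have h3 : Valued.v (((1 : VariableChange (v.adicCompletion K)).u : (v.adicCompletion K)ˣ) :
      v.adicCompletion K) = 1 := by
    show Valued.v (((1 : (v.adicCompletion K)ˣ)) : v.adicCompletion K) = 1
    rw [Units.val_one, map_one]
  rw [h3] at h1
  rw [normFactor, h1, log_one, neg_zero, zpow_zero]

/-- **The period.** -/
theorem period_wd {D : 𝓞 K} (hD0 : D ≠ 0) (hD : ∀ p : 𝓞 K, Prime p → ¬ p ^ 3 ∣ D)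
    (h3 : ¬ s3 ∣ D) :
    period (wd (D : K)) = √3 * (‖Om‖ ^ 2 / ‖em D‖ ^ (2 / 3 : ℝ)) := by
  have hDK : (D : K) ≠ 0 := fun h => hD0 (RingOfIntegers.ext h)
  rw [period, finprod_congr (fun v => per3_nf hD0 hD h3 v), finprod_one, prod_perAt_wd hDK, one_mul]
  rfl

/-! ### Valuation rings above `3` -/

section val
variable {A : ValuationSubring ℂ}

theorem per3_conj {x : ℂ} (h : (A.comap (starRingEnd ℂ)).valuation x = 1) :
    A.valuation ((starRingEnd ℂ) x) = 1 := by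
  have h0 : x ≠ 0 := by
    rintro rfl
    rw [map_zero] at h
    exact zero_ne_one h
  have h1 : x ∈ A.comap (starRingEnd ℂ) := by
    rw [← ValuationSubring.valuation_le_one_iff, h]
  have h2 : x⁻¹ ∈ A.comap (starRingEnd ℂ) := by
    rw [← ValuationSubring.valuation_le_one_iff, map_inv₀, h, inv_one]
  rw [ValuationSubring.mem_comap] at h1 h2
  rw [map_inv₀] at h2
  have h3 := (A.valuation_le_one_iff _).2 h1
  have h4 := (A.valuation_le_one_iff _).2 h2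
  rw [map_inv₀] at h4
  refine le_antisymm h3 ?_
  have h5 : A.valuation ((starRingEnd ℂ) x) ≠ 0 := by
    rw [Valuation.ne_zero_iff]
    exact (map_ne_zero _).2 h0
  exact (inv_le_one₀ (zero_lt_iff.2 h5)).1 h4

theorem per3_normsq {y : ℂ} (h : A.valuation y = 1)
    (h' : (A.comap (starRingEnd ℂ)).valuation y = 1) :
    A.valuation ((‖y‖ ^ 2 : ℝ) : ℂ) = 1 := by
  rw [Complex.ofReal_pow, ← Complex.conj_mul', map_mul, per3_conj h', h, one_mul]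

theorem per3_comap (hA : Three A) : Three (A.comap (starRingEnd ℂ)) := by
  intro h
  apply hA
  rw [ValuationSubring.mem_comap, map_inv₀, map_ofNat] at h
  exact h

theorem per3_pow {y : ℂ} {n : ℕ} (hn : n ≠ 0) (h : A.valuation (y ^ n) = 1) :
    A.valuation y = 1 := by
  rw [map_pow] at h
  exact (pow_eq_one_iff_of_nonneg zero_le hn).1 h

theorem per3_nat (hA : Three A) {n : ℕ} (hn : ¬ 3 ∣ n) : A.valuation (n : ℂ) = 1 := by
  refine v_cop3 hA ?_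
  rw [Nat.coprime_comm, Nat.Prime.coprime_iff_not_dvd Nat.prime_three]
  exact hn

theorem per3_three (hA : ((3 : ℕ) : ℂ)⁻¹ ∉ A) : Three A := by
  intro h
  exact hA (by simpa using h)

end val

theorem per3_g {g1 L : ℂ} (hg : g1 = L * (starRingEnd ℂ) L) : g1 = ((‖L‖ ^ 2 : ℝ) : ℂ) := by
  rw [hg, Complex.mul_conj, Complex.normSq_eq_norm_sq]

/-- The 3-part of the formula from the 3-adic value of `L`. -/
theorem formula3 {D : 𝓞 K} (hD0 : D ≠ 0) (hD : ∀ p : 𝓞 K, Prime p → ¬ p ^ 3 ∣ D)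
    (h3 : ¬ s3 ∣ D) {r : ℕ} {L g1 : ℂ} (hg : g1 = L * (starRingEnd ℂ) L)
    (hν : ∀ A : ValuationSubring ℂ, Three A → A.valuation (L * 3 / (Om * sq3 ^ r)) = 1)
    (hL : L ≠ 0) {m t C T : ℕ} (hm : ¬ 3 ∣ m) (hC : C = 3 * m) (ht : ¬ 3 ∣ t)
    (hT : T = 3 ^ r * t) :
    ∃ x : ℝ, UnitAt 3 x ∧ g1 * (√|(discr K : ℝ)| : ℝ) / (period (wd (D : K)) : ℝ) =
      (x * ((1 : ℝ) * (T : ℝ) / (C : ℝ) ^ 2) : ℝ) := by
  have hDe : em D ≠ 0 := by
    rw [MP_1a91b9_ntH.em, Ne, map_eq_zero]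
    exact fun h => hD0 (RingOfIntegers.ext h)
  have hn0 : 0 < ‖em D‖ := norm_pos_iff.2 hDe
  have hOm : 0 < ‖Om‖ := norm_pos_iff.2 Om_ne_zero
  obtain ⟨d, hd⟩ : ∃ d : ℝ, d = ‖em D‖ ^ (2 / 3 : ℝ) := ⟨_, rfl⟩
  have hd0 : 0 < d := by rw [hd]; exact Real.rpow_pos_of_pos hn0 _
  have hd3 : d ^ 3 = ‖em D‖ ^ 2 := by
    rw [hd, ← Real.rpow_natCast, ← Real.rpow_mul hn0.le]
    norm_num
  obtain ⟨ν, hνd⟩ : ∃ ν, ν = L * 3 / (Om * sq3 ^ r) := ⟨_, rfl⟩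
  have hsr : sq3 ^ r ≠ 0 := pow_ne_zero _ sq3_ne
  have hν0 : ν ≠ 0 := by
    rw [hνd]
    exact div_ne_zero (mul_ne_zero hL (by norm_num)) (mul_ne_zero Om_ne_zero hsr)
  have hνn : 0 < ‖ν‖ := norm_pos_iff.2 hν0
  rw [← hνd] at hν
  have hs3 : ‖sq3‖ ^ 2 = 3 := by
    rw [← norm_pow, sq3_sq]
    norm_num
  have hLn : ‖L‖ ^ 2 = ‖ν‖ ^ 2 * ‖Om‖ ^ 2 * 3 ^ r / 9 := by
    have h1 : L = ν * (Om * sq3 ^ r) / 3 := by
      rw [hνd]
      have := Om_ne_zero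
      field_simp
    have h2 : (‖sq3‖ ^ r) ^ 2 = 3 ^ r := by
      rw [← pow_mul, mul_comm r 2, pow_mul, hs3]
    rw [h1, norm_div, norm_mul, norm_mul, norm_pow, div_pow, mul_pow, mul_pow, h2]
    norm_num
    ring
  have hm0 : (m : ℝ) ≠ 0 := by
    intro h
    have : m = 0 := by exact_mod_cast h
    rw [this] at hm
    exact hm (dvd_zero _)
  have ht0 : (t : ℝ) ≠ 0 := by
    intro h
    have : t = 0 := by exact_mod_cast h
    rw [this] at ht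
    exact ht (dvd_zero _)
  refine ⟨‖ν‖ ^ 2 * d * (m : ℝ) ^ 2 / t, ?_, ?_⟩
  · refine unitAt_of_val Nat.prime_three ?_ fun A hA => ?_
    · positivity
    · have hA3 := per3_three hA
      have e1 : A.valuation ((‖ν‖ ^ 2 : ℝ) : ℂ) = 1 :=
        per3_normsq (hν A hA3) (hν _ (per3_comap hA3))
      have e2 : A.valuation ((d : ℝ) : ℂ) = 1 := by
        refine per3_pow (n := 3) (by norm_num) ?_
        have h4 : ((d : ℝ) : ℂ) ^ 3 = ((Nz D : ℕ) : ℂ) := by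
          rw [← Complex.ofReal_pow, hd3]
          have h5 : ‖em D‖ ^ 2 = ((Nz D : ℕ) : ℝ) := (Nz_eq D).symm
          rw [h5]
          push_cast
          rfl
        rw [h4]
        refine per3_nat hA3 ?_
        rwa [← s3_dvd_iff]
      have e4 : (((‖ν‖ ^ 2 * d * (m : ℝ) ^ 2 / t : ℝ)) : ℂ) =
          ((‖ν‖ ^ 2 : ℝ) : ℂ) * ((d : ℝ) : ℂ) * (m : ℂ) ^ 2 / (t : ℂ) := by
        push_cast
        ring
      rw [e4, map_div₀, map_mul, map_mul, map_pow, e1, e2, per3_nat hA3 hm, per3_nat hA3 ht]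
      simp
  · rw [per3_g hg, sqrt_discr_K, period_wd hD0 hD h3, ← hd, ← Complex.ofReal_mul,
      ← Complex.ofReal_div, hLn, hC, hT]
    congr 1
    have h3 : (√3 : ℝ) ≠ 0 := by positivity
    push_cast
    field_simp
    norm_num

/-- The rational form. -/
theorem rat3 {D : 𝓞 K} (hD0 : D ≠ 0) {L g1 : ℂ} (hg : g1 = L * (starRingEnd ℂ) L)
    (hrat : ∃ q : ℚ, ‖L‖ ^ 2 * ‖em D‖ ^ (2 / 3 : ℝ) = (q : ℝ) * ‖Om‖ ^ 2) :
    ∃ q : ℚ, g1 * (√|(discr K : ℝ)| : ℝ) =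
      (q : ℂ) * (∏ v : InfinitePlace K, Per.perAt (wd (D : K)) v : ℝ) := by
  have hDe : em D ≠ 0 := by
    rw [MP_1a91b9_ntH.em, Ne, map_eq_zero]
    exact fun h => hD0 (RingOfIntegers.ext h)
  have hn0 : 0 < ‖em D‖ := norm_pos_iff.2 hDe
  have hd0 : 0 < ‖em D‖ ^ (2 / 3 : ℝ) := Real.rpow_pos_of_pos hn0 _
  have hDK : (D : K) ≠ 0 := fun h => hD0 (RingOfIntegers.ext h)
  obtain ⟨q, hq⟩ := hrat
  have hL : ‖L‖ ^ 2 = (q : ℝ) * ‖Om‖ ^ 2 / ‖em D‖ ^ (2 / 3 : ℝ) := by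
    rw [← hq]
    field_simp
  refine ⟨q, ?_⟩
  have hem : ‖embK (D : K)‖ = ‖em D‖ := rfl
  have key : (‖L‖ ^ 2 : ℝ) * √3 =
      (q : ℝ) * (√3 * (‖Om‖ ^ 2 / ‖em D‖ ^ (2 / 3 : ℝ))) := by
    rw [hL]
    ring
  rw [per3_g hg, sqrt_discr_K, prod_perAt_wd hDK, hem, ← Complex.ofReal_mul, key,
    Complex.ofReal_mul, Complex.ofReal_ratCast]

/-- **The 3-part, strong form**, for `y² + D y = x³`. -/
theorem ppartQ3 {D : 𝓞 K} (hD0 : D ≠ 0) (hD : ∀ p : 𝓞 K, Prime p → ¬ p ^ 3 ∣ D)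
    (h3 : ¬ s3 ∣ D) {r : ℕ} {L : ℂ} {g : ℂ → ℂ} (hgd : Differentiable ℂ g)
    (hgs : ∀ s : ℂ, 3 / 2 < s.re → g s = (wd (D : K)).LSeries s)
    (hg : g 1 = L * (starRingEnd ℂ) L)
    (hν : ∀ A : ValuationSubring ℂ, Three A → A.valuation (L * 3 / (Om * sq3 ^ r)) = 1)
    (hL : L ≠ 0) (hfin : Finite (wd (D : K)).toAffine.Point) {m t : ℕ} (hm : ¬ 3 ∣ m)
    (hC : Nat.card (wd (D : K)).toAffine.Point = 3 * m) (ht : ¬ 3 ∣ t)
    (hT : (∏ᶠ v : HeightOneSpectrum (𝓞 K), tam (wd (D : K)) v) = 3 ^ r * t)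
    (hsha : Nat.card (ShaP 3 (wd (D : K))) = 1)
    (hrat : ∃ q : ℚ, ‖L‖ ^ 2 * ‖em D‖ ^ (2 / 3 : ℝ) = (q : ℝ) * ‖Om‖ ^ 2) :
    PPartQ 3 (wd (D : K)) := by
  obtain ⟨x, hx, he⟩ := formula3 hD0 hD h3 hg hν hL hm hC ht hT
  have hg0 : g 1 ≠ 0 := by
    intro h0
    rw [h0] at hg
    exact mul_ne_zero hL ((map_ne_zero _).2 hL) hg.symm
  have hf : Finite (ShaP 3 (wd (D : K))) :=
    Nat.finite_of_card_ne_zero (by rw [hsha]; exact one_ne_zero)
  obtain ⟨q, hq⟩ := rat3 hD0 hg hrat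
  refine ppartQ_of ⟨g, x, hgd, hgs, hg0, hfin, hf, hx, ?_⟩
    ⟨g, q, hgd, fun s hs => hgs s (by linarith), hq⟩
  rw [hsha, Nat.cast_one]
  exact he

end Pool.Agent.Lib.MP_1a91b9_ntK.C
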