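import Pool.Agent.Lib.MP_1a91b9_ntK.C.Hyp3

/-!
# MP_1a91b9_nt (cubic twists), part C: the torsion, by reduction modulo 2

`y² = x³ + k²`, `2 k = D` prime to `2`. If the group of points over `K = ℚ(√-3)` is finite of order
`3 n`, `n` prime to `3`, then its order is `3`, and `D` is not a sum of two cubes.
-/

set_option autoImplicit false
set_option linter.unusedSectionVars false

namespace Pool.Agent.Lib.MP_1a91b9_ntK.C

open NumberField IsDedekindDomain WithZero WeierstrassCurve Pool.Agent.Lib.MP_1a91b9_ntT
  Pool.Agent.Lib.MP_1a91b9_ntH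
open Pool.Agent.Lib.MP_1a91b9_ntH.C (ideal_eq val_one val_lt val_le val_prime val_le_sq
  exists_near two_prime val_four mem_two)
open scoped Classical

noncomputable section

theorem tors_eqn {k x y : K} {W : Affine K} (hW : W = ⟨0, 0, 0, 0, k ^ 2⟩) :
    W.Equation x y ↔ y ^ 2 = x ^ 3 + k ^ 2 := by
  subst hW
  rw [Affine.equation_iff]
  simp

theorem tors_nons {k x y : K} (hk : k ≠ 0) {W : Affine K} (hW : W = ⟨0, 0, 0, 0, k ^ 2⟩) :
    W.Nonsingular x y ↔ y ^ 2 = x ^ 3 + k ^ 2 := by
  rw [Affine.nonsingular_iff, tors_eqn hW]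
  subst hW
  simp only [and_iff_left_iff_imp]
  intro h
  by_contra hc
  push Not at hc
  obtain ⟨h1, h2⟩ := hc
  have hx : x = 0 := by
    have : 3 * x ^ 2 = 0 := by simpa using h1.symm
    simpa using this
  have hy : y = 0 := by
    have h2' : y = -y := by simpa using h2
    have : 2 * y = 0 := by linear_combination h2'
    simpa using this
  rw [hx, hy] at h
  apply hk
  have : k ^ 2 = 0 := by linear_combination -h
  simpa using this

section

variable {v : HeightOneSpectrum (𝓞 K)} (hv : (2 : 𝓞 K) ∈ v.asIdeal) {D : 𝓞 K} (hD : ¬ (2 : 𝓞 K) ∣ D)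
  {k : K} (hk : 2 * k = (D : K)) {W : Affine K} (hW : W = ⟨0, 0, 0, 0, k ^ 2⟩)

include hv hD in
theorem tors_D : v.valuation K (D : K) = 1 := by
  apply val_one
  rw [ideal_eq two_prime hv, Ideal.mem_span_singleton]
  exact hD

include hv hD hk in
theorem tors_k : k ≠ 0 := by
  rintro rfl
  have h := tors_D hv hD
  rw [← hk, mul_zero, map_zero] at h
  exact zero_ne_one h

/-- the abscissa of a point, `0` for the point at infinity -/
def absc {W : Affine K} : W.Point → K
  | .zero => 0
  | .some x _ _ => x

include hv hD hk in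
/-- no point has ordinate `0` -/
theorem tors_y {x : K} (h : (0 : K) ^ 2 = x ^ 3 + k ^ 2) : False := by
  have h1 : 2 * 2 * x ^ 3 = -(D : K) ^ 2 := by
    rw [← hk]
    linear_combination -4 * h
  have h2 := congrArg (v.valuation K) h1
  rw [Valuation.map_neg, map_pow, tors_D hv hD, one_pow, map_mul, map_mul, val_four hv,
    map_pow] at h2
  have hx0 : x ≠ 0 := by
    rintro rfl
    rw [map_zero] at h2
    simp at h2
  obtain ⟨n, hn⟩ := exists_nu (v.valuation K) hx0
  rw [hn, ← exp_nsmul, ← exp_add, ← exp_add, ← exp_zero, exp_inj, nsmul_eq_mul] at h2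
  push_cast at h2
  omega

include hv hD hk in
/-- doubling a pole -/
theorem tors_dbl {x : K} (hx : 1 < v.valuation K x) :
    v.valuation K x < v.valuation K (x * (x ^ 3 - 2 * (D : K) ^ 2) / (4 * x ^ 3 + (D : K) ^ 2)) := by
  have h2 := val_four hv
  have hDv := tors_D hv hD
  have hx0 : x ≠ 0 := by
    rintro rfl
    rw [map_zero] at hx
    exact not_lt_zero hx
  obtain ⟨n, hn⟩ := exists_nu (v.valuation K) hx0
  have hn0 : 0 < n := by rwa [hn, ← exp_zero, exp_lt_exp] at hx
  have hx3 : v.valuation K (x ^ 3) = exp (3 * n) := by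
    rw [map_pow, hn, ← exp_nsmul, nsmul_eq_mul]
    push_cast
    rfl
  have h4 : v.valuation K 4 = exp (-2) := by
    have e : (4 : K) = 2 * 2 := by norm_num
    rw [e, map_mul, h2, ← exp_add]
    norm_num
  have ha : v.valuation K (x ^ 3 - 2 * (D : K) ^ 2) = exp (3 * n) := by
    rw [(v.valuation K).map_sub_eq_of_lt_left (by
      rw [hx3, map_mul, map_pow, hDv, one_pow, mul_one, h2, exp_lt_exp]
      omega), hx3]
  have hb : v.valuation K (4 * x ^ 3 + (D : K) ^ 2) = exp (3 * n - 2) := by
    have e4 : v.valuation K (4 * x ^ 3) = exp (3 * n - 2) := by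
      rw [map_mul, h4, hx3, ← exp_add]
      congr 1
      ring
    rw [(v.valuation K).map_add_eq_of_lt_left (by
      rw [e4, map_pow, hDv, one_pow, ← exp_zero, exp_lt_exp]
      omega), e4]
  rw [map_div₀, map_mul, ha, hb, hn, ← exp_add, ← exp_sub, exp_lt_exp]
  omega

include hv hD hk hW in
/-- in a finite group of points all abscissas are integral at `2` -/
theorem tors_int [Finite W.Point] (P : W.Point) : v.valuation K (absc P) ≤ 1 := by
  by_contra hc
  push Not at hc
  obtain ⟨Q, hQ⟩ := Finite.exists_max (fun P : W.Point => v.valuation K (absc P))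
  have hQ1 : 1 < v.valuation K (absc Q) := lt_of_lt_of_le hc (hQ P)
  have hk0 := tors_k hv hD hk
  obtain _ | ⟨x, y, h⟩ := Q
  · have e : absc (Affine.Point.zero : W.Point) = 0 := rfl
    rw [e, map_zero] at hQ1
    exact not_lt_zero hQ1
  · have e : absc (Affine.Point.some x y h : W.Point) = x := rfl
    rw [e] at hQ1
    have heq := (tors_nons hk0 hW).1 h
    have hy : y ≠ 0 := by
      rintro rfl
      exact tors_y hv hD hk heq
    have hyn : y ≠ W.negY x y := by
      rw [Affine.negY, hW]
      simp only [zero_mul, sub_zero]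
      intro h1
      apply hy
      have : 2 * y = 0 := by linear_combination h1
      simpa using this
    have h2 := hQ (Affine.Point.some x y h + Affine.Point.some x y h)
    simp only [e] at h2
    rw [Affine.Point.add_self_of_Y_ne hyn] at h2
    have hx' : absc (Affine.Point.some _ _ (Affine.nonsingular_add h h fun hxy => hyn hxy.2)) =
        x * (x ^ 3 - 2 * (D : K) ^ 2) / (4 * x ^ 3 + (D : K) ^ 2) := by
      show W.addX x x (W.slope x x y y) = _
      rw [Affine.slope_of_Y_ne rfl hyn, Affine.addX, Affine.negY, hW]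
      simp only [zero_mul, mul_zero, sub_zero, add_zero]
      have hy2 : 4 * x ^ 3 + (D : K) ^ 2 = (y - -y) ^ 2 := by
        rw [← hk]
        linear_combination -4 * heq
      have hyy : y - -y ≠ 0 := by
        intro h1
        apply hy
        have : 2 * y = 0 := by linear_combination h1
        simpa using this
      rw [hy2, ← hk]
      field_simp
      linear_combination (-8 * x) * heq
    rw [hx'] at h2
    exact absurd (tors_dbl hv hD hk hQ1) (not_lt.2 h2)

include hv hD hk hW in
/-- the ordinates `Y = y - k` are integral -/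
theorem tors_Y {x y : K} (heq : y ^ 2 = x ^ 3 + k ^ 2) (hx : v.valuation K x ≤ 1) :
    v.valuation K (y - k) ≤ 1 := by
  have hDv := tors_D hv hD
  by_contra hc
  push Not at hc
  have e : (y - k) * (y - k + (D : K)) = x ^ 3 := by
    rw [← hk]
    linear_combination heq
  have h1 : v.valuation K (y - k + (D : K)) = v.valuation K (y - k) :=
    (v.valuation K).map_add_eq_of_lt_left (by rwa [hDv])
  have h2 := congrArg (v.valuation K) e
  rw [map_mul, h1, map_pow] at h2
  have h3 : v.valuation K x ^ 3 ≤ 1 := pow_le_one₀ zero_le hx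
  rw [← h2] at h3
  exact absurd h3 (not_le.2 (one_lt_mul_of_lt_of_le hc hc.le))

include hv hD hk hW in
/-- two different points are different modulo `2` -/
theorem tors_inj [Finite W.Point] {x y x' y' : K} (h : W.Nonsingular x y)
    (h' : W.Nonsingular x' y') (hx : v.valuation K (x - x') < 1)
    (hy : v.valuation K (y - y') < 1) :
    (Affine.Point.some x y h : W.Point) = Affine.Point.some x' y' h' := by
  have hk0 := tors_k hv hD hk
  have hDv := tors_D hv hD
  have heq := (tors_nons hk0 hW).1 h
  have heq' := (tors_nons hk0 hW).1 h'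
  have hxv : v.valuation K x ≤ 1 := tors_int hv hD hk hW (Affine.Point.some x y h)
  have hxv' : v.valuation K x' ≤ 1 := tors_int hv hD hk hW (Affine.Point.some x' y' h')
  have hYv := tors_Y hv hD hk hW heq hxv
  -- `y + y'` is a unit
  have hs : v.valuation K (y + y') = 1 := by
    have e : y + y' = (D : K) + (2 * (y - k) - (y - y')) := by
      rw [← hk]
      ring
    rw [e, (v.valuation K).map_add_eq_of_lt_left, hDv]
    rw [hDv]
    refine (v.valuation K).map_sub_lt ?_ hy
    rw [map_mul, val_four hv]
    calc exp (-1) * v.valuation K (y - k) ≤ exp (-1) * 1 := by gcongr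
      _ < 1 := by
        rw [mul_one, ← exp_zero, exp_lt_exp]
        norm_num
  by_cases hxx : x = x'
  · subst hxx
    have h1 : (y - y') * (y + y') = 0 := by linear_combination heq - heq'
    rcases mul_eq_zero.1 h1 with h2 | h2
    · have : y = y' := by linear_combination h2
      subst this
      rfl
    · rw [h2, map_zero] at hs
      exact absurd hs zero_ne_one
  · exfalso
    have hneg : W.negY x' y' = -y' := by
      rw [Affine.negY, hW]
      simp
    have h3 := tors_int hv hD hk hW
      (Affine.Point.some x y h + -Affine.Point.some x' y' h')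
    rw [Affine.Point.neg_some, Affine.Point.add_of_X_ne hxx] at h3
    have h4 : absc (Affine.Point.some _ _ (Affine.nonsingular_add h ((Affine.nonsingular_neg _ _).2 h')
        fun hxy => hxx hxy.1)) = ((y + y') / (x - x')) ^ 2 - (x + x') := by
      show W.addX x x' (W.slope x x' y (W.negY x' y')) = _
      rw [Affine.slope_of_X_ne hxx, hneg, Affine.addX, hW]
      simp only [zero_mul, sub_zero, add_zero]
      ring
    rw [h4] at h3
    have h5 : 1 < v.valuation K (((y + y') / (x - x')) ^ 2) := by
      rw [map_pow, map_div₀, hs]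
      have h6 : 1 < 1 / v.valuation K (x - x') := by
        rw [one_div]
        exact (one_lt_inv₀ (zero_lt_iff.2 (((v.valuation K).ne_zero_iff).2 (sub_ne_zero.2 hxx)))).2 hx
      exact one_lt_pow₀ h6 (by norm_num)
    have h7 : v.valuation K (x + x') ≤ 1 := (v.valuation K).map_add_le hxv hxv'
    rw [(v.valuation K).map_sub_eq_of_lt_left (lt_of_le_of_lt h7 h5)] at h3
    exact absurd h5 (not_lt.2 h3)

end

theorem count_F4 : ∀ d : F4, d ≠ 0 →
    Fintype.card {p : F4 × F4 // p.2 * p.2 + d * p.2 = p.1 * p.1 * p.1} ≤ 8 := by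
  decide

/-- at most nine points -/
theorem tors_card_le {D : 𝓞 K} (hD : ¬ (2 : 𝓞 K) ∣ D) {k : K} (hk : 2 * k = (D : K)) {W : Affine K}
    (hW : W = ⟨0, 0, 0, 0, k ^ 2⟩) [Finite W.Point] : Nat.card W.Point ≤ 9 := by
  obtain ⟨v, hv⟩ : ∃ v : HeightOneSpectrum (𝓞 K), (2 : 𝓞 K) ∈ v.asIdeal :=
    ⟨⟨Ideal.span {2}, (Ideal.span_singleton_prime two_prime.ne_zero).2 two_prime, by
      rw [Ne, Ideal.span_singleton_eq_bot]
      exact two_prime.ne_zero⟩, Ideal.mem_span_singleton_self _⟩
  have hk0 := tors_k hv hD hk
  -- representatives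
  have hrep : ∀ P : W.Point, ∀ x y h, P = Affine.Point.some x y h →
      ∃ p : F4 × F4, p.2 * p.2 + red D * p.2 = p.1 * p.1 * p.1 ∧ ∃ a b : 𝓞 K,
        v.valuation K (x - (a : K)) < 1 ∧ v.valuation K (y - k - (b : K)) < 1 ∧ p = (red a, red b) := by
    intro P x y h hP
    have heq := (tors_nons hk0 hW).1 h
    have hxv : v.valuation K x ≤ 1 := tors_int hv hD hk hW (Affine.Point.some x y h)
    have hYv := tors_Y hv hD hk hW heq hxv
    obtain ⟨a, ha⟩ := exists_near v x hxv
    obtain ⟨b, hb⟩ := exists_near v (y - k) hYv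
    refine ⟨(red a, red b), ?_, a, b, ha, hb, rfl⟩
    have h1 : b * b + D * b - a * a * a ∈ v.asIdeal := by
      rw [← val_lt]
      obtain ⟨s, hs⟩ : ∃ s : K, s = x - (a : K) := ⟨_, rfl⟩
      obtain ⟨t, ht⟩ : ∃ t : K, t = y - k - (b : K) := ⟨_, rfl⟩
      rw [← hs] at ha
      rw [← ht] at hb
      have e : ((b * b + D * b - a * a * a : 𝓞 K) : K) =
          s * (s ^ 2 + 3 * ((a : K) * s) + 3 * (a : K) ^ 2) - t * (t + 2 * (b : K) + (D : K)) := by
        have e1 : ((b * b + D * b - a * a * a : 𝓞 K) : K) =
            (b : K) * b + (D : K) * b - (a : K) * a * a := by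
          push_cast
          rfl
        have ex : x = (a : K) + s := by rw [hs]; ring
        have ey : y = (b : K) + t + k := by rw [ht]; ring
        rw [ex, ey] at heq
        rw [e1, ← hk]
        linear_combination heq
      have hint : ∀ z : 𝓞 K, v.valuation K (z : K) ≤ 1 := fun z => val_le v z
      have h3 : v.valuation K 3 ≤ 1 := by
        have e3 : (3 : K) = ((3 : 𝓞 K) : K) := (map_ofNat (algebraMap (𝓞 K) K) 3).symm
        rw [e3]
        exact hint 3
      have h2 : v.valuation K 2 ≤ 1 := by
        have e3 : (2 : K) = ((2 : 𝓞 K) : K) := (map_ofNat (algebraMap (𝓞 K) K) 2).symm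
        rw [e3]
        exact hint 2
      rw [e]
      refine (v.valuation K).map_sub_lt ?_ ?_
      · rw [map_mul]
        have h6 : v.valuation K (s ^ 2 + 3 * ((a : K) * s) + 3 * (a : K) ^ 2) ≤ 1 := by
          refine (v.valuation K).map_add_le ((v.valuation K).map_add_le ?_ ?_) ?_
          · rw [map_pow]
            exact pow_le_one₀ zero_le ha.le
          · rw [map_mul, map_mul]
            exact mul_le_one' h3 (mul_le_one' (hint a) ha.le)
          · rw [map_mul, map_pow]
            exact mul_le_one' h3 (pow_le_one₀ zero_le (hint a))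
        calc v.valuation K s * _ ≤ v.valuation K s * 1 := by gcongr
          _ < 1 := by rw [mul_one]; exact ha
      · rw [map_mul]
        have h6 : v.valuation K (t + 2 * (b : K) + (D : K)) ≤ 1 := by
          refine (v.valuation K).map_add_le ((v.valuation K).map_add_le hb.le ?_) (hint D)
          rw [map_mul]
          exact mul_le_one' h2 (hint b)
        calc v.valuation K t * _ ≤ v.valuation K t * 1 := by gcongr
          _ < 1 := by rw [mul_one]; exact hb
    rw [mem_two hv, map_sub, map_add, map_mul, map_mul, map_mul, map_mul, sub_eq_zero] at h1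
    exact h1
  choose! f hf using hrep
  have hD0 : red D ≠ 0 := fun h => hD (red_eq_zero.1 h)
  let g : W.Point → Option {p : F4 × F4 // p.2 * p.2 + red D * p.2 = p.1 * p.1 * p.1} := fun P =>
    match P with
    | .zero => none
    | .some x y h => some ⟨f (.some x y h) x y, (hf _ x y h rfl).1⟩
  have hg : Function.Injective g := by
    intro P Q hPQ
    obtain _ | ⟨x, y, h⟩ := P
    · obtain _ | ⟨x', y', h'⟩ := Q
      · rfl
      · cases hPQ
    · obtain _ | ⟨x', y', h'⟩ := Q
      · cases hPQ
      · have h1 : f (.some x y h) x y = f (.some x' y' h') x' y' := by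
          have h2 := Option.some.inj hPQ
          exact congrArg Subtype.val h2
        obtain ⟨-, a, b, ha, hb, hab⟩ := hf _ x y h rfl
        obtain ⟨-, a', b', ha', hb', hab'⟩ := hf _ x' y' h' rfl
        rw [hab, hab', Prod.mk.injEq] at h1
        have key : ∀ {z z' : K} {c c' : 𝓞 K}, v.valuation K (z - (c : K)) < 1 →
            v.valuation K (z' - (c' : K)) < 1 → red c = red c' → v.valuation K (z - z') < 1 := by
          intro z z' c c' hz hz' hc
          have h3 : c - c' ∈ v.asIdeal := by rw [mem_two hv, map_sub, hc, sub_self]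
          have h4 := (v.valuation K).map_add_lt ((v.valuation K).map_sub_lt hz hz') (val_lt.2 h3)
          have e : z - (c : K) - (z' - (c' : K)) + ((c - c' : 𝓞 K) : K) = z - z' := by
            push_cast
            ring
          rwa [e] at h4
        refine tors_inj hv hD hk hW h h' (key ha ha' h1.1) ?_
        have h5 := key hb hb' h1.2
        have e : y - k - (y' - k) = y - y' := by ring
        rwa [e] at h5
  have h1 := Nat.card_le_card_of_injective g hg
  have h2 : Nat.card (Option {p : F4 × F4 // p.2 * p.2 + red D * p.2 = p.1 * p.1 * p.1}) ≤ 9 := by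
    rw [Nat.card_eq_fintype_card, Fintype.card_option]
    have := count_F4 (red D) hD0
    omega
  exact h1.trans h2

/-- **the torsion**: a group of order `3 n`, `n` prime to `3`, has order `3` -/
theorem tors_card {D : 𝓞 K} (hD : ¬ (2 : 𝓞 K) ∣ D) {k : K} (hk : 2 * k = (D : K)) {W : Affine K}
    (hW : W = ⟨0, 0, 0, 0, k ^ 2⟩) [Finite W.Point] {n : ℕ} (hn : Nat.card W.Point = 3 * n)
    (h3 : ¬ 3 ∣ n) : Nat.card W.Point = 3 := by
  have h1 := tors_card_le hD hk hW
  have h0 : 0 < Nat.card W.Point := Nat.card_pos
  have h2 : n ≠ 2 := by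
    rintro rfl
    obtain ⟨v, hv⟩ : ∃ v : HeightOneSpectrum (𝓞 K), (2 : 𝓞 K) ∈ v.asIdeal :=
      ⟨⟨Ideal.span {2}, (Ideal.span_singleton_prime two_prime.ne_zero).2 two_prime, by
        rw [Ne, Ideal.span_singleton_eq_bot]
        exact two_prime.ne_zero⟩, Ideal.mem_span_singleton_self _⟩
    have hk0 := tors_k hv hD hk
    have : Fact (Nat.Prime 2) := ⟨Nat.prime_two⟩
    obtain ⟨P, hP⟩ := exists_prime_addOrderOf_dvd_card' (G := W.Point) 2 (by rw [hn]; norm_num)
    have hP2 : P + P = 0 := by
      have := addOrderOf_nsmul_eq_zero P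
      rwa [hP, two_nsmul] at this
    have hP0 : P ≠ 0 := by
      rintro rfl
      rw [addOrderOf_zero] at hP
      norm_num at hP
    obtain _ | ⟨x, y, h⟩ := P
    · exact hP0 rfl
    · have heq := (tors_nons hk0 hW).1 h
      have hy : y ≠ 0 := by
        rintro rfl
        exact tors_y hv hD hk heq
      have hyn : y ≠ W.negY x y := by
        rw [Affine.negY, hW]
        simp only [zero_mul, sub_zero]
        intro h1
        apply hy
        have : 2 * y = 0 := by linear_combination h1
        simpa using this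
      rw [Affine.Point.add_self_of_Y_ne hyn] at hP2
      exact Affine.Point.some_ne_zero _ hP2
  have h4 : n = 1 := by
    have : n ≤ 3 := by omega
    interval_cases n
    · omega
    · rfl
    · exact absurd rfl h2
    · exact absurd (dvd_refl 3) h3
  rw [hn, h4]

/-- **not a sum of two cubes** -/
theorem not_sum_cubes {D : 𝓞 K} (hD0 : D ≠ 0) {k : K} (hk : 2 * k = (D : K)) {W : Affine K}
    (hW : W = ⟨0, 0, 0, 0, k ^ 2⟩) [Finite W.Point] (hn : Nat.card W.Point = 3) (x y : K) :
    x ^ 3 + y ^ 3 ≠ (D : K) := by
  intro h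
  have hDK : (D : K) ≠ 0 := by
    intro h0
    exact hD0 (RingOfIntegers.ext (by simpa using h0))
  have hk0 : k ≠ 0 := by
    rintro rfl
    rw [mul_zero] at hk
    exact hDK hk.symm
  have hs : x + y ≠ 0 := by
    intro h0
    apply hDK
    rw [← h]
    have : y = -x := by linear_combination h0
    rw [this]
    ring
  have hl2 := lK_sq
  have e0 : ((-(D : K) / (x + y)) : K) ≠ 0 := div_ne_zero (neg_ne_zero.2 hDK) hs
  have e1 : (-(lK / 2 * (D : K) * (x - y) / (x + y))) ^ 2 = (-(D : K) / (x + y)) ^ 3 + k ^ 2 := by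
    have hk2 : k = (D : K) / 2 := by
      rw [← hk]
      ring
    rw [hk2]
    field_simp
    linear_combination ((x - y) ^ 2 * (x + y)) * hl2 - 4 * h
  have p1 : W.Nonsingular 0 k := (tors_nons hk0 hW).2 (by ring)
  have p2 : W.Nonsingular 0 (-k) := (tors_nons hk0 hW).2 (by ring)
  have p3 := (tors_nons hk0 hW).2 e1
  have : Fintype W.Point := Fintype.ofFinite _
  have hc : ({0, Affine.Point.some _ _ p1, Affine.Point.some _ _ p2, Affine.Point.some _ _ p3} :
      Finset W.Point).card = 4 := by
    rw [Finset.card_insert_of_notMem, Finset.card_insert_of_notMem, Finset.card_insert_of_notMem,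
      Finset.card_singleton]
    · rw [Finset.mem_singleton, Affine.Point.some.injEq]
      rintro ⟨h1, -⟩
      exact e0 h1.symm
    · rw [Finset.mem_insert, Finset.mem_singleton, Affine.Point.some.injEq,
        Affine.Point.some.injEq]
      rintro (⟨-, h1⟩ | ⟨h1, -⟩)
      · apply hk0
        have : 2 * k = 0 := by linear_combination h1
        simpa using this
      · exact e0 h1.symm
    · rw [Finset.mem_insert, Finset.mem_insert, Finset.mem_singleton]
      rintro (h1 | h1 | h1)
      · exact Affine.Point.some_ne_zero _ h1.symm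
      · exact Affine.Point.some_ne_zero _ h1.symm
      · exact Affine.Point.some_ne_zero _ h1.symm
  have h2 := Finset.card_le_univ ({0, Affine.Point.some _ _ p1, Affine.Point.some _ _ p2,
    Affine.Point.some _ _ p3} : Finset W.Point)
  rw [hc, ← Nat.card_eq_fintype_card, hn] at h2
  omega

end

end Pool.Agent.Lib.MP_1a91b9_ntK.C
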