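import Pool.Agent.Lib.MP_1a91b9_ntK.C.Main3
import Pool.Agent.Lib.MP_1a91b9_ntK.C.Tors

/-!
# MP_1a91b9_nt (cubic twists), part C: the torsion, at the place `√-3`

`y² = x³ + k²`, `2 k = D` a unit at `√-3` which is not `± 1` modulo `3 √-3`. If the group of points is
finite of order `3 n`, `n` prime to `3`, then its points are the three points in the kernel of `1 - ω`
and, if `D` is twice a cube, the sums of these and of the points of order two. In terms of sums of
cubes: `x³ + y³ = D` implies `x³ = y³`.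
-/

set_option autoImplicit false
set_option linter.unusedSectionVars false

namespace Pool.Agent.Lib.MP_1a91b9_ntK.C

open WithZero WeierstrassCurve
open scoped Classical

noncomputable section

section

variable {F : Type*} [Field F] [CharZero F] {W : Affine F} {z k : F}

theorem mu_some3 (h : IsK W z k) {x y : F} (hn : W.Nonsingular x y) (hx : x ≠ 0) :
    ∃ (X Y : F) (hn' : W.Nonsingular X Y), mu h (.some x y hn) = .some X Y hn' ∧
      3 * z * x ^ 2 * X = -(x ^ 3 + 4 * k ^ 2) := by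
  obtain ⟨hn1, h1⟩ := omP_some h x y hn
  have ha1 : W.a₁ = 0 := by rw [h.eq, ck]
  have ha2 : W.a₂ = 0 := by rw [h.eq, ck]
  have ha3 : W.a₃ = 0 := by rw [h.eq, ck]
  have heq := (h.nons x y).1 hn
  have hz := h.hz
  have hz1 : 1 - z ≠ 0 := sub_ne_zero.2 h.z1.symm
  have hxx : x ≠ z * x := by
    intro h3
    exact mul_ne_zero hz1 hx (by linear_combination h3)
  rw [mu_apply, h1, sub_eq_add_neg, Affine.Point.neg_some, Affine.Point.add_of_X_ne hxx]
  refine ⟨_, _, _, rfl, ?_⟩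
  rw [Affine.slope_of_X_ne hxx, Affine.addX, ha1, ha2, Affine.negY, ha1, ha3]
  set s := (y - (-y - 0 * (z * x) - 0)) / (x - z * x) with hs
  have hs1 : s * (x - z * x) = 2 * y := by
    rw [hs, div_mul_cancel₀ _ (sub_ne_zero.2 hxx)]
    ring
  have hs2 : s ^ 2 * x ^ 2 * (1 - z) ^ 2 = 4 * y ^ 2 := by
    linear_combination (s * (x - z * x) + 2 * y) * hs1
  linear_combination (-1) * hs2 + (s ^ 2 * x ^ 2 - 3 * x ^ 3) * hz - 4 * heq

theorem two_some (h : IsK W z k) {x y : F} (hn : W.Nonsingular x y) (hy : y ≠ 0) :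
    ∃ (X Y : F) (hn' : W.Nonsingular X Y), Affine.Point.some x y hn + .some x y hn = .some X Y hn' ∧
      4 * y ^ 2 * X = x * (x ^ 3 - 8 * k ^ 2) := by
  have ha1 : W.a₁ = 0 := by rw [h.eq, ck]
  have ha2 : W.a₂ = 0 := by rw [h.eq, ck]
  have ha3 : W.a₃ = 0 := by rw [h.eq, ck]
  have ha4 : W.a₄ = 0 := by rw [h.eq, ck]
  have heq := (h.nons x y).1 hn
  have h2y : 2 * y ≠ 0 := mul_ne_zero two_ne_zero hy
  have hyn : y ≠ W.negY x y := by
    rw [Affine.negY, ha1, ha3]
    intro h1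
    exact h2y (by linear_combination h1)
  rw [Affine.Point.add_self_of_Y_ne hyn]
  refine ⟨_, _, _, rfl, ?_⟩
  rw [Affine.slope_of_Y_ne rfl hyn, Affine.addX, ha1, ha2, ha4, Affine.negY, ha1, ha3]
  set s := (3 * x ^ 2 + 2 * 0 * x + 0 - 0 * y) / (y - (-y - 0 * x - 0)) with hs
  have hs1 : s * (2 * y) = 3 * x ^ 2 := by
    have e : y - (-y - 0 * x - 0) = 2 * y := by ring
    rw [hs, e, div_mul_cancel₀ _ h2y]
    ring
  have hs2 : 4 * y ^ 2 * s ^ 2 = 9 * x ^ 4 := by
    linear_combination (s * (2 * y) + 3 * x ^ 2) * hs1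
  linear_combination hs2 - 8 * x * heq

/-- the abscissa of a point, `0` for the point at infinity -/
def abs3 : W.Point → F
  | .zero => 0
  | .some x _ _ => x

variable (h : IsK W z k) (hinj : ∀ P ∈ (mu h).range, mu h P = 0 → P = 0)
  {ν : Valuation F ℤᵐ⁰} (hl : ν (1 + 2 * z) = exp (-1))

include h hl in
theorem nu3 : ν 3 = exp (-2) := by
  have e : (3 : F) = -(1 + 2 * z) ^ 2 := by linear_combination h.l2
  rw [e, Valuation.map_neg, map_pow, hl, ← exp_nsmul]
  congr 1

include h in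
theorem nuz : ν z = 1 := by
  have h1 := congrArg ν h.z3
  rw [map_pow, map_one] at h1
  exact (pow_eq_one_iff_of_nonneg zero_le (by norm_num)).1 h1

include hinj in
theorem rng_ne {x y : F} {hn : W.Nonsingular x y}
    (hP : Affine.Point.some x y hn ∈ (mu h).range) : x ≠ 0 := by
  rintro rfl
  have h1 : mu h (.some 0 y hn) = 0 := by
    rw [mu_apply, sub_eq_zero]
    exact ((omP_fixed h hn).2 rfl).symm
  exact Affine.Point.some_ne_zero _ (hinj _ hP h1)

include hinj hl in
theorem rng_le [Finite W.Point] (hk : ν (4 * k ^ 2) = 1) (P : W.Point) (hP : P ∈ (mu h).range) :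
    ν (abs3 P) ≤ 1 := by
  by_contra hc
  push Not at hc
  obtain ⟨⟨Q, hQR⟩, hQ⟩ := Finite.exists_max (fun P : (mu h).range => ν (abs3 P.1))
  have hQ1 : 1 < ν (abs3 Q) := lt_of_lt_of_le hc (hQ ⟨P, hP⟩)
  obtain _ | ⟨x, y, hn⟩ := Q
  · have e : abs3 (Affine.Point.zero : W.Point) = 0 := rfl
    rw [e, map_zero] at hQ1
    exact not_lt_zero hQ1
  · have e : abs3 (Affine.Point.some x y hn : W.Point) = x := rfl
    rw [e] at hQ1
    have hx := rng_ne h hinj hQR
    obtain ⟨X, Y, hn', h1, h2⟩ := mu_some3 h hn hx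
    have h3 := hQ ⟨mu h (.some x y hn), ⟨_, rfl⟩⟩
    dsimp only at h3
    rw [h1] at h3
    have e' : abs3 (Affine.Point.some X Y hn' : W.Point) = X := rfl
    rw [e, e'] at h3
    obtain ⟨n, hn0⟩ := exists_nu ν hx
    have h4 := congrArg ν h2
    have hn1 : 0 < n := by rwa [hn0, ← exp_zero, exp_lt_exp] at hQ1
    have h5 : ν (x ^ 3 + 4 * k ^ 2) = exp (3 * n) := by
      have h6 : ν (x ^ 3) = exp (3 * n) := by
        rw [map_pow, hn0, ← exp_nsmul, nsmul_eq_mul]
        push_cast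
        rfl
      rw [ν.map_add_eq_of_lt_left (by
        rw [hk, h6, ← exp_zero, exp_lt_exp]
        omega), h6]
    have hX0 : X ≠ 0 := by
      rintro rfl
      rw [mul_zero, map_zero, Valuation.map_neg, h5] at h4
      exact exp_ne_zero h4.symm
    obtain ⟨m, hm⟩ := exists_nu ν hX0
    rw [Valuation.map_neg, h5, map_mul, map_mul, map_mul, nu3 h hl, nuz h, mul_one, map_pow, hn0, hm,
      ← exp_nsmul, ← exp_add, ← exp_add, exp_inj, nsmul_eq_mul] at h4
    push_cast at h4
    rw [hn0, hm, exp_le_exp] at h3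
    omega

include hinj hl in
theorem rng_one [Finite W.Point] (hk : ν (4 * k ^ 2) = 1) {x y : F} {hn : W.Nonsingular x y}
    (hP : Affine.Point.some x y hn ∈ (mu h).range) :
    ν x = 1 ∧ ν (x ^ 3 + 4 * k ^ 2) ≤ exp (-2) := by
  have hx := rng_ne h hinj hP
  obtain ⟨X, Y, hn', h1, h2⟩ := mu_some3 h hn hx
  have h3 : ν X ≤ 1 := by
    have := rng_le h hinj hl hk (mu h (.some x y hn)) ⟨_, rfl⟩
    rw [h1] at this
    exact this
  have h4 : ν x ≤ 1 := rng_le h hinj hl hk _ hP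
  have h5 := congrArg ν h2
  rw [Valuation.map_neg, map_mul, map_mul, map_mul, nu3 h hl, nuz h, mul_one, map_pow] at h5
  have h6 : ν x = 1 := by
    by_contra hc
    have h7 : ν x < 1 := lt_of_le_of_ne h4 hc
    obtain ⟨n, hn0⟩ := exists_nu ν hx
    have h8 : ν (x ^ 3 + 4 * k ^ 2) = 1 := by
      rw [ν.map_add_eq_of_lt_right, hk]
      rw [hk, map_pow]
      exact pow_lt_one₀ zero_le h7 (by norm_num)
    rw [h8, hn0] at h5
    have hX0 : X ≠ 0 := by
      rintro rfl
      rw [map_zero, mul_zero] at h5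
      exact zero_ne_one h5
    obtain ⟨m, hm⟩ := exists_nu ν hX0
    rw [hm, ← exp_nsmul, ← exp_add, ← exp_add, ← exp_zero, exp_inj, nsmul_eq_mul] at h5
    rw [hm, ← exp_zero, exp_le_exp] at h3
    rw [hn0, ← exp_zero, exp_lt_exp] at h7
    push_cast at h5
    omega
  refine ⟨h6, ?_⟩
  rw [← h5, h6, one_pow, mul_one]
  calc exp (-2) * ν X ≤ exp (-2) * 1 := by gcongr
    _ = exp (-2) := mul_one _

variable (hres : ∀ x : F, ν x ≤ 1 → ν x < 1 ∨ ν (x - 1) < 1 ∨ ν (x + 1) < 1)

include h hl in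
theorem nu2 : ν 2 = 1 := by
  have e : (2 : F) = -1 + 3 := by norm_num
  rw [e, ν.map_add_eq_of_lt_left (by
    rw [Valuation.map_neg, map_one, nu3 h hl, ← exp_zero, exp_lt_exp]
    norm_num), Valuation.map_neg, map_one]

include hres in
/-- the square of a unit is `1` -/
theorem sq_near {u : F} (hu : ν u = 1) : ν (u ^ 2 - 1) < 1 := by
  have e : u ^ 2 - 1 = (u - 1) * (u + 1) := by ring
  have h1 : ν (u - 1) ≤ 1 := by
    refine (ν.map_sub u 1).trans ?_
    rw [hu, map_one, max_self]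
  have h2 : ν (u + 1) ≤ 1 := by
    refine (ν.map_add u 1).trans ?_
    rw [hu, map_one, max_self]
  rw [e, map_mul]
  rcases hres u hu.le with h3 | h3 | h3
  · rw [hu] at h3
    exact absurd h3 (lt_irrefl _)
  · calc ν (u - 1) * ν (u + 1) ≤ ν (u - 1) * 1 := by gcongr
      _ < 1 := by rw [mul_one]; exact h3
  · calc ν (u - 1) * ν (u + 1) ≤ 1 * ν (u + 1) := by gcongr
      _ < 1 := by rw [one_mul]; exact h3

include hres in
theorem cube_near {u : F} (hu : ν u ≤ 1) : ν (u ^ 3 - u) < 1 := by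
  by_cases h1 : ν u < 1
  · have e : u ^ 3 - u = u * (u ^ 2 - 1) := by ring
    rw [e, map_mul]
    have h2 : ν (u ^ 2 - 1) ≤ 1 := by
      refine (ν.map_sub _ _).trans (max_le ?_ (map_one ν).le)
      rw [map_pow]
      exact pow_le_one₀ zero_le hu
    calc ν u * ν (u ^ 2 - 1) ≤ ν u * 1 := by gcongr
      _ < 1 := by rw [mul_one]; exact h1
  · have h2 : ν u = 1 := le_antisymm hu (not_lt.1 h1)
    have e : u ^ 3 - u = u * (u ^ 2 - 1) := by ring
    rw [e, map_mul, h2, one_mul]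
    exact sq_near hres h2

include h hinj hl hres in
/-- the points of order prime to `3` have order `1` or `2` -/
theorem rng_two [Finite W.Point] (hD : ν (2 * k) = 1) (hD1 : ¬ ν (2 * k - 1) ≤ exp (-3))
    (hD2 : ¬ ν (2 * k + 1) ≤ exp (-3)) {x y : F} {hn : W.Nonsingular x y}
    (hP : Affine.Point.some x y hn ∈ (mu h).range) : y = 0 := by
  by_contra hy
  have hl2 := h.l2
  set l : F := 1 + 2 * z with hle
  have h3 := nu3 h hl
  have h2v := nu2 h hl
  have hl0 : l ≠ 0 := h.l0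
  set D : F := 2 * k with hDe
  have hk4 : 4 * k ^ 2 = D ^ 2 := by rw [hDe]; ring
  have hk : ν (4 * k ^ 2) = 1 := by rw [hk4, map_pow, hD, one_pow]
  have heq := (h.nons x y).1 hn
  obtain ⟨hx1, hx2⟩ := rng_one h hinj hl hk hP
  rw [hk4] at hx2
  have hDsq : ν (D ^ 2 - 1) < 1 := sq_near hres hD
  -- the residue of `x`
  have hxr : ν (x + 1) < 1 := by
    rcases hres x hx1.le with h4 | h4 | h4
    · rw [hx1] at h4
      exact absurd h4 (lt_irrefl _)
    · exfalso
      have e : x ^ 3 + D ^ 2 = 2 + ((x - 1) * (x ^ 2 + x + 1) + (D ^ 2 - 1)) := by ring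
      have h5 : ν ((x - 1) * (x ^ 2 + x + 1) + (D ^ 2 - 1)) < 1 := by
        refine ν.map_add_lt ?_ hDsq
        rw [map_mul]
        have h6 : ν (x ^ 2 + x + 1) ≤ 1 := by
          refine ν.map_add_le (ν.map_add_le ?_ hx1.le) (map_one ν).le
          rw [map_pow, hx1, one_pow]
        calc ν (x - 1) * ν (x ^ 2 + x + 1) ≤ ν (x - 1) * 1 := by gcongr
          _ < 1 := by rw [mul_one]; exact h4
      rw [e, ν.map_add_eq_of_lt_left (by rwa [h2v]), h2v, ← exp_zero, exp_le_exp] at hx2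
      omega
    · exact h4
  -- `x³ + 1` is divisible by `9`
  have hx3 : ν (x ^ 3 + 1) ≤ exp (-4) := by
    obtain ⟨u, hu⟩ : ∃ u : F, u = (x + 1) / l := ⟨_, rfl⟩
    have hxu : x = l * u - 1 := by rw [hu]; field_simp; ring
    have huv : ν u ≤ 1 := by
      rw [hu, map_div₀, hl]
      exact (div_le_one₀ exp_pos).2 (lt_one_iff.1 hxr)
    have e : x ^ 3 + 1 = 3 * (3 * u ^ 2) - 3 * (l * (u ^ 3 - u)) := by
      rw [hxu]
      linear_combination (l * u ^ 3 - 3 * u ^ 2) * hl2
    rw [e]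
    refine (ν.map_sub _ _).trans (max_le ?_ ?_)
    · rw [map_mul, map_mul, h3, map_pow]
      calc exp (-2) * (exp (-2) * ν u ^ 2) ≤ exp (-2) * (exp (-2) * 1) := by
            gcongr
            exact pow_le_one₀ zero_le huv
        _ = exp (-4) := by rw [mul_one, ← exp_add]; norm_num
    · rw [map_mul, map_mul, h3, hl]
      calc exp (-2) * (exp (-1) * ν (u ^ 3 - u)) ≤ exp (-2) * (exp (-1) * exp (-1)) := by
            gcongr
            exact lt_one_iff.1 (cube_near hres huv)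
        _ = exp (-4) := by rw [← exp_add, ← exp_add]; norm_num
  -- the double
  obtain ⟨X, Y, hn', h4, h5⟩ := two_some h hn hy
  have hP2 : Affine.Point.some X Y hn' ∈ (mu h).range := h4 ▸ (mu h).range.add_mem hP hP
  have hX1 := (rng_one h hinj hl hk hP2).1
  have h2y : (2 * y : F) ≠ 0 := mul_ne_zero two_ne_zero hy
  obtain ⟨n, hn0⟩ := exists_nu ν h2y
  obtain ⟨n, rfl⟩ : ∃ m : ℤ, n = -m := ⟨-n, (neg_neg n).symm⟩
  have hr2 : ν ((2 * y) ^ 2) = exp (-(2 * n)) := by
    rw [map_pow, hn0, ← exp_nsmul]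
    congr 1
    rw [nsmul_eq_mul]
    push_cast
    ring
  have h6 : ν (x ^ 3 - 2 * D ^ 2) = exp (-(2 * n)) := by
    have e : (2 * y) ^ 2 * X = x * (x ^ 3 - 2 * D ^ 2) := by
      rw [hDe]
      linear_combination h5
    have h7 := congrArg ν e
    rw [map_mul, map_mul, hX1, mul_one, hx1, one_mul, hr2] at h7
    exact h7.symm
  have h9 : ν (3 * (3 * x ^ 3)) = exp (-4) := by
    rw [map_mul, map_mul, map_pow, hx1, one_pow, mul_one, h3, ← exp_add]
    norm_num
  have eq4 : (2 * y) ^ 2 = 4 * x ^ 3 + D ^ 2 := by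
    rw [hDe]
    linear_combination 4 * heq
  -- `n ≤ 2`
  have hn2 : n ≤ 2 := by
    have e : 3 * (3 * x ^ 3) = (x ^ 3 - 2 * D ^ 2) + 2 * (2 * y) ^ 2 := by
      linear_combination -2 * eq4
    have h7 := ν.map_add (x ^ 3 - 2 * D ^ 2) (2 * (2 * y) ^ 2)
    rw [← e, h9, map_mul, h2v, one_mul, h6, hr2, max_self, exp_le_exp] at h7
    omega
  -- `1 ≤ n`
  have hn1 : 1 ≤ n := by
    have e : (2 * y) ^ 2 = (4 * (x ^ 3 + 1) + (D ^ 2 - 1)) - 3 := by
      linear_combination eq4
    have h7 : ν ((2 * y) ^ 2) < 1 := by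
      rw [e]
      refine ν.map_sub_lt (ν.map_add_lt ?_ hDsq) ?_
      · have e4 : (4 : F) = 2 * 2 := by norm_num
        rw [map_mul, e4, map_mul, h2v, mul_one, one_mul]
        refine lt_of_le_of_lt hx3 ?_
        rw [← exp_zero, exp_lt_exp]
        norm_num
      · rw [h3, ← exp_zero, exp_lt_exp]
        norm_num
    rw [hr2, ← exp_zero, exp_lt_exp] at h7
    omega
  have hn12 : n = 1 ∨ n = 2 := by omega
  rcases hn12 with rfl | rfl
  · -- `D² = 1` modulo `3 l`
    obtain ⟨u, hu⟩ : ∃ u : F, u = 2 * y / l := ⟨_, rfl⟩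
    have hyu : 2 * y = l * u := by rw [hu]; field_simp
    have huv : ν u = 1 := by
      rw [hu, map_div₀, hn0, hl]
      exact div_self exp_ne_zero
    have e : (D - 1) * (D + 1) = -(3 * (u ^ 2 - 1)) - 4 * (x ^ 3 + 1) := by
      rw [hyu] at eq4
      linear_combination -eq4 + u ^ 2 * hl2
    have h7 : ν ((D - 1) * (D + 1)) ≤ exp (-3) := by
      rw [e]
      refine (ν.map_sub _ _).trans (max_le ?_ ?_)
      · rw [Valuation.map_neg, map_mul, h3]
        calc exp (-2) * ν (u ^ 2 - 1) ≤ exp (-2) * exp (-1) := by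
              gcongr
              exact lt_one_iff.1 (sq_near hres huv)
          _ = exp (-3) := by rw [← exp_add]; norm_num
      · have e4 : (4 : F) = 2 * 2 := by norm_num
        rw [map_mul, e4, map_mul, h2v, mul_one, one_mul]
        refine hx3.trans ?_
        rw [exp_le_exp]
        norm_num
    rw [map_mul] at h7
    rcases hres D hD.le with h8 | h8 | h8
    · rw [hD] at h8
      exact lt_irrefl _ h8
    · apply hD1
      have h10 : ν (D + 1) = 1 := by
        have e2 : D + 1 = 2 + (D - 1) := by ring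
        rw [e2, ν.map_add_eq_of_lt_left (by rwa [h2v]), h2v]
      rwa [h10, mul_one] at h7
    · apply hD2
      have h10 : ν (D - 1) = 1 := by
        have e2 : D - 1 = (D + 1) - 2 := by ring
        rw [e2, ν.map_sub_eq_of_lt_right (by rwa [h2v]), h2v]
      rwa [h10, one_mul] at h7
  · -- `x (2 P)` is not a unit
    obtain ⟨u, hu⟩ : ∃ u : F, u = 2 * y / 3 := ⟨_, rfl⟩
    have hyu : 2 * y = 3 * u := by rw [hu]; field_simp
    have huv : ν u = 1 := by
      rw [hu, map_div₀, hn0, h3]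
      exact div_self exp_ne_zero
    have e : x ^ 3 - 2 * D ^ 2 = 3 * (3 * ((x ^ 3 + 1) - 2 * (u ^ 2 - 1) - 3)) := by
      rw [hyu] at eq4
      linear_combination 2 * eq4
    have h7 : ν ((x ^ 3 + 1) - 2 * (u ^ 2 - 1) - 3) < 1 := by
      refine ν.map_sub_lt (ν.map_sub_lt ?_ ?_) ?_
      · refine lt_of_le_of_lt hx3 ?_
        rw [← exp_zero, exp_lt_exp]
        norm_num
      · rw [map_mul, h2v, one_mul]
        exact sq_near hres huv
      · rw [h3, ← exp_zero, exp_lt_exp]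
        norm_num
    rw [e, map_mul, map_mul, h3] at h6
    rw [lt_one_iff] at h7
    have h8 : exp (-2) * (exp (-2) * ν ((x ^ 3 + 1) - 2 * (u ^ 2 - 1) - 3)) ≤
        exp (-2) * (exp (-2) * exp (-1)) := by gcongr
    rw [h6, ← exp_add, ← exp_add, exp_le_exp] at h8
    omega

include hinj in
theorem rng_decomp [Finite W.Point] (P : W.Point) :
    ∃ T Q : W.Point, mu h T = 0 ∧ Q ∈ (mu h).range ∧ P = T + Q := by
  let f : (mu h).range → (mu h).range := fun P => ⟨mu h P.1, ⟨P.1, rfl⟩⟩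
  have hf : Function.Injective f := by
    intro P Q hPQ
    have h1 : mu h P.1 = mu h Q.1 := congrArg Subtype.val hPQ
    have h2 : mu h (P.1 - Q.1) = 0 := by rw [map_sub, h1, sub_self]
    have h3 := hinj _ ((mu h).range.sub_mem P.2 Q.2) h2
    exact Subtype.ext (sub_eq_zero.1 h3)
  obtain ⟨Q, hQ⟩ := (Finite.injective_iff_surjective.1 hf) ⟨mu h P, ⟨P, rfl⟩⟩
  have hQ' : mu h Q.1 = mu h P := congrArg Subtype.val hQ
  refine ⟨P - Q.1, Q.1, ?_, Q.2, (sub_add_cancel _ _).symm⟩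
  rw [map_sub, hQ', sub_self]

include h hinj hl hres in
/-- the abscissas of the points -/
theorem absc_cases [Finite W.Point] (hD : ν (2 * k) = 1) (hD1 : ¬ ν (2 * k - 1) ≤ exp (-3))
    (hD2 : ¬ ν (2 * k + 1) ≤ exp (-3)) {x y : F} (hn : W.Nonsingular x y) :
    x = 0 ∨ x ^ 3 = -k ^ 2 ∨ x ^ 3 = 8 * k ^ 2 := by
  obtain ⟨T, Q, hT, hQ, hTQ⟩ := rng_decomp h hinj (.some x y hn)
  have hker := mu_ker_all h T hT
  rcases Q with _ | ⟨x', y', hn'⟩
  · left
    have e : T + Affine.Point.zero = T := add_zero T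
    rw [e] at hTQ
    rcases hker with h1 | h1 | h1
    · exact absurd (hTQ.trans h1) (Affine.Point.some_ne_zero _)
    · rw [h1, tq, Affine.Point.some.injEq] at hTQ
      exact hTQ.1
    · rw [h1, ← tq_neg, tq, Affine.Point.some.injEq] at hTQ
      exact hTQ.1
  · have hx' := rng_ne h hinj hQ
    have hy' := rng_two h hinj hl hres hD hD1 hD2 hQ
    subst hy'
    have heq := (h.nons x' 0).1 hn'
    have ha1 : W.a₁ = 0 := by rw [h.eq, ck]
    have ha2 : W.a₂ = 0 := by rw [h.eq, ck]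
    have ha3 : W.a₃ = 0 := by rw [h.eq, ck]
    have key : ∀ (κ : F) (hκ : W.Nonsingular 0 κ), κ ^ 2 = k ^ 2 →
        Affine.Point.some x y hn = Affine.Point.some 0 κ hκ + Affine.Point.some x' 0 hn' →
        x ^ 3 = 8 * k ^ 2 := by
      intro κ hκ hκ2 h1
      have hxx : (0 : F) ≠ x' := hx'.symm
      rw [Affine.Point.add_of_X_ne hxx, Affine.Point.some.injEq, Affine.slope_of_X_ne hxx,
        Affine.addX, ha1, ha2] at h1
      have h2 : x * x' ^ 2 = -2 * x' ^ 3 := by
        rw [h1.1]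
        field_simp
        linear_combination hκ2 - heq
      have h3 : x = -2 * x' := mul_right_cancel₀ (pow_ne_zero 2 hx') (by linear_combination h2)
      rw [h3]
      linear_combination 8 * heq
    rcases hker with h1 | h1 | h1
    · rw [h1, zero_add, Affine.Point.some.injEq] at hTQ
      right
      left
      rw [hTQ.1]
      linear_combination -heq
    · rw [h1, tq] at hTQ
      exact Or.inr (Or.inr (key _ _ rfl hTQ))
    · rw [h1, ← tq_neg, tq] at hTQ
      exact Or.inr (Or.inr (key _ _ (neg_sq k) hTQ))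

/-- the map `1 - ω` is injective on its range if the number of the points is `3 n`, `3 ∤ n` -/
theorem inj_of_card (h : IsK W z k) [Finite W.Point] {n : ℕ} (hn : Nat.card W.Point = 3 * n)
    (h3 : ¬ 3 ∣ n) : ∀ P ∈ (mu h).range, mu h P = 0 → P = 0 := by
  intro P hP hP0
  by_contra hne
  have h3T : 3 • tq h = 0 := by
    have e : 3 • tq h = tq h + tq h + tq h := by
      rw [show (3 : ℕ) = 2 + 1 from rfl, add_nsmul, two_nsmul, one_nsmul]
    rw [e, tq_add_self, neg_add_cancel]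
  have hP3 : 3 • P = 0 := by
    rcases mu_ker_all h P hP0 with h1 | h1 | h1
    · exact absurd h1 hne
    · rw [h1, h3T]
    · rw [h1, smul_neg, h3T, neg_zero]
  have : Fact (Nat.Prime 3) := ⟨by norm_num⟩
  have h4 : 3 ∣ Nat.card (mu h).range := by
    have h5 : addOrderOf (⟨P, hP⟩ : (mu h).range) = 3 := addOrderOf_eq_prime
      (Subtype.ext (by simpa using hP3)) (fun h6 => hne (congrArg Subtype.val h6))
    rw [← h5]
    exact addOrderOf_dvd_natCard _
  have h6 : 3 ∣ Nat.card (mu h).ker := by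
    have h5 : addOrderOf (⟨tq h, mu_tq h⟩ : (mu h).ker) = 3 := addOrderOf_eq_prime
      (Subtype.ext (by simpa using h3T)) (fun h6 => tq_ne h (congrArg Subtype.val h6))
    rw [← h5]
    exact addOrderOf_dvd_natCard _
  rw [AddSubgroup.card_eq_card_quotient_mul_card_addSubgroup (mu h).ker,
    Nat.card_congr (QuotientAddGroup.quotientKerEquivRange (mu h)).toEquiv] at hn
  obtain ⟨a, ha⟩ := h4
  obtain ⟨b, hb⟩ := h6
  rw [ha, hb] at hn
  exact h3 ⟨a * b, by nlinarith⟩

include h hinj hl hres in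
/-- **sums of two cubes**: only `D = b³ + b³` -/
theorem cubes_eq [Finite W.Point] (hD : ν (2 * k) = 1) (hD1 : ¬ ν (2 * k - 1) ≤ exp (-3))
    (hD2 : ¬ ν (2 * k + 1) ≤ exp (-3)) {x y : F} (hxy : x ^ 3 + y ^ 3 = 2 * k) :
    x ^ 3 = y ^ 3 := by
  have hk0 := h.hk
  have h2k : (2 * k : F) ≠ 0 := mul_ne_zero two_ne_zero hk0
  have hs : x + y ≠ 0 := by
    intro h0
    apply h2k
    rw [← hxy]
    have : y = -x := by linear_combination h0
    rw [this]
    ring
  have e0 : (-(2 * k) / (x + y)) ≠ 0 := div_ne_zero (neg_ne_zero.2 h2k) hs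
  have e1 : (-((1 + 2 * z) * k * (x - y) / (x + y))) ^ 2 = (-(2 * k) / (x + y)) ^ 3 + k ^ 2 := by
    have hl2 := h.l2
    field_simp
    linear_combination ((x - y) ^ 2 * (x + y)) * hl2 - 4 * hxy
  rcases absc_cases h hinj hl hres hD hD1 hD2 ((h.nons _ _).2 e1) with h1 | h1 | h1
  · exact absurd h1 e0
  · have h2 : 4 * (2 * k) = (x + y) ^ 3 := by
      field_simp at h1
      linear_combination (-1) * h1
    have h3 : 3 * ((x + y) * (x - y) ^ 2) = 0 := by
      linear_combination 4 * hxy + h2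
    have h4 : (x - y) ^ 2 = 0 :=
      (mul_eq_zero.1 ((mul_eq_zero.1 h3).resolve_left three_ne_zero)).resolve_left hs
    have h5 : x = y := sub_eq_zero.1 (pow_eq_zero_iff two_ne_zero |>.1 h4)
    rw [h5]
  · have h2 : -(2 * k) = 2 * (x + y) ^ 3 := by
      field_simp at h1
      linear_combination (1 / 4) * h1
    have h3 : 3 * ((x + y) * (x ^ 2 + x * y + y ^ 2)) = 0 := by
      linear_combination hxy - h2
    have h4 : x ^ 2 + x * y + y ^ 2 = 0 :=
      (mul_eq_zero.1 ((mul_eq_zero.1 h3).resolve_left three_ne_zero)).resolve_left hs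
    linear_combination (x - y) * h4

end

section

open NumberField IsDedekindDomain Pool.Agent.Lib.MP_1a91b9_ntT
open Pool.Agent.Lib.MP_1a91b9_ntH (wO s3 om_quad prime_s3)
open Pool.Agent.Lib.MP_1a91b9_ntH.C (val_one)

/-- **the points of order prime to `3`, over `K = ℚ(√-3)`** -/
theorem tors3_K {D : 𝓞 K} (hD : ¬ s3 ∣ D) (hD1 : ¬ 3 * s3 ∣ D - 1) (hD2 : ¬ 3 * s3 ∣ D + 1)
    {k : K} (hk : 2 * k = (D : K)) {W : WeierstrassCurve K} (hW : W = ck k)
    [Finite W.toAffine.Point] {n : ℕ} (hn : Nat.card W.toAffine.Point = 3 * n) (h3 : ¬ 3 ∣ n) :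
    (∀ x y : K, x ^ 3 + y ^ 3 = (D : K) → x ^ 3 = y ^ 3) ∧
      ((∀ c : K, c ^ 3 ≠ 2 * (D : K) ^ 2) → Nat.card W.toAffine.Point = 3) := by
  have hmem := mem_pw s3 prime_s3
  set v := pw s3 prime_s3 with hv
  have hDv : v.valuation K (D : K) = 1 := val_one fun h1 => hD ((mem_s3 hmem D).1 h1)
  have hk0 : k ≠ 0 := by
    rintro rfl
    rw [mul_zero] at hk
    rw [← hk, map_zero] at hDv
    exact zero_ne_one hDv
  have h : IsK W.toAffine om k := ⟨hW, om_quad, hk0⟩
  have hl : v.valuation K (1 + 2 * om) = exp (-1) := by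
    rw [← lK_eq]
    exact val_l hmem
  have hres := res_three hmem
  have hinj := inj_of_card h hn h3
  have h3l : v.valuation K (3 * lK) = exp (-3) := nu_three_l lK_sq (val_l hmem)
  have e1 : ((D - 1 : 𝓞 K) : K) = 2 * k - 1 := by
    rw [hk]
    push_cast
    rfl
  have e2 : ((D + 1 : 𝓞 K) : K) = 2 * k + 1 := by
    rw [hk]
    push_cast
    rfl
  have g0 : v.valuation K (2 * k) = 1 := by rw [hk, hDv]
  have g1 : ¬ v.valuation K (2 * k - 1) ≤ exp (-3) := by
    rw [← e1, ← h3l, le_three_l_iff hmem]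
    exact hD1
  have g2 : ¬ v.valuation K (2 * k + 1) ≤ exp (-3) := by
    rw [← e2, ← h3l, le_three_l_iff hmem]
    exact hD2
  refine ⟨fun x y hxy => cubes_eq h hinj hl hres g0 g1 g2 (by rw [hk, hxy]), fun hc => ?_⟩
  have key : ∀ P : W.toAffine.Point, P ∈ ({0, tq h, -tq h} : Set W.toAffine.Point) := by
    intro P
    rcases P with _ | ⟨x, y, hxy⟩
    · exact Or.inl rfl
    · rcases absc_cases h hinj hl hres g0 g1 g2 hxy with h1 | h1 | h1
      · have h4 : mu h (.some x y hxy) = 0 := by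
          rw [mu_apply, sub_eq_zero]
          exact ((omP_fixed h hxy).2 h1).symm
        exact mu_ker_all h _ h4
      · exact absurd (by rw [← hk]; linear_combination -8 * h1) (hc (-2 * x))
      · exact absurd (by rw [← hk]; linear_combination h1) (hc x)
  have h5 : Nat.card W.toAffine.Point ≤ 3 := by
    rw [← Set.ncard_univ]
    refine (Set.ncard_le_ncard (fun P _ => key P) (Set.toFinite _)).trans ?_
    refine (Set.ncard_insert_le _ _).trans ?_
    have := Set.ncard_insert_le (tq h) {-tq h}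
    rw [Set.ncard_singleton] at this
    omega
  have h6 : 0 < Nat.card W.toAffine.Point := Nat.card_pos
  omega

/-- **part C**: the points, the Tate-Shafarevich group, the sums of two cubes -/
theorem main3 (S : Finset P3) (i : ℕ) (E : P3 → ℕ) (hE : ∀ q ∈ S, ¬ 3 ∣ E q)
    (hR : Ram3 S i E) (hgood : Good3 S i fun q => (E q : ZMod 3))
    {k : K} (hk : 2 * k = ((mon S i E : 𝓞 K) : K)) {W : WeierstrassCurve K} (hW : W = ck k) :
    Finite W.toAffine.Point ∧ (∃ m : ℕ, ¬ 3 ∣ m ∧ Nat.card W.toAffine.Point = 3 * m) ∧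
      Nat.card (Pool.Agent.Lib.MP_1a91b9_ntT3.S9.ShaP 3 W) = 1 ∧
      ∀ x y : K, x ^ 3 + y ^ 3 = ((mon S i E : 𝓞 K) : K) → x ^ 3 = y ^ 3 := by
  obtain ⟨h1, ⟨m, hm, hm'⟩, h3⟩ := points3 S i E hE hR hgood hk hW
  have hs : ¬ s3 ∣ mon S i E := by
    intro h4
    refine mon_notMem (v := pw s3 prime_s3) (T := S) (fun q _ h5 => ?_) i E
      (Ideal.mem_span_singleton.2 h4)
    exact q.in3.not_s3 (Ideal.mem_span_singleton.1 h5)
  exact ⟨h1, ⟨m, hm, hm'⟩, h3, (tors3_K hs hR.one hR.neg_one hk hW hm' hm).1⟩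

end

end

end Pool.Agent.Lib.MP_1a91b9_ntK.C
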