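import Pool.Agent.Lib.MP_1a91b9_ntK.C.ShaTr
import Pool.Agent.Lib.MP_1a91b9_ntK.C.TamDefs
import Pool.Agent.Lib.MP_1a91b9_ntK.C.Tors3

/-!
# Points and Tate-Shafarevich group of `y² + D y = x³`
-/

set_option autoImplicit false

namespace Pool.Agent.Lib.MP_1a91b9_ntK.C

open NumberField IsDedekindDomain WeierstrassCurve Pool.Agent.Lib.MP_1a91b9_ntT.S9
  Pool.Agent.Lib.MP_1a91b9_ntT3.S9 Pool.Agent.Lib.MP_1a91b9_ntT
open Pool.Agent.Lib.MP_1a91b9_ntK

open scoped Classical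

noncomputable section

/-- The change of variables from `y² = x³ + k²` to `y² + 2 k y = x³`. -/
def ckC {F : Type*} [Field F] (k : F) : VariableChange F := ⟨1, 0, 0, k⟩

theorem ckC_smul {F : Type*} [Field F] {k D : F} (h : 2 * k = D) : ckC k • ck k = wd D := by
  subst h
  ext <;> simp [ckC, ck, wd, variableChange_def]

theorem ck_neg {F : Type*} [Field F] (k : F) : ck (-k) = ck k := by
  simp [ck]

/-- The properties of `ck k` for `wd D`, `D = ± 2 k`. -/
theorem wd_of_ck {N : Type*} [Field N] [NumberField N] {k D : N} (h : D = 2 * k ∨ D = -(2 * k))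
    (p : ℕ) [Fact p.Prime] :
    (Finite (wd D).toAffine.Point ↔ Finite (ck k).toAffine.Point) ∧
    Nat.card (wd D).toAffine.Point = Nat.card (ck k).toAffine.Point ∧
    Nat.card (ShaP p (wd D)) = Nat.card (ShaP p (ck k)) := by
  obtain ⟨C, hC⟩ : ∃ C : VariableChange N, wd D = C • ck k := by
    rcases h with h | h
    · exact ⟨ckC k, (ckC_smul h.symm).symm⟩
    · refine ⟨ckC (-k), ?_⟩
      rw [← ck_neg k]
      exact (ckC_smul (by rw [h]; ring)).symm
  rw [hC]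
  exact ⟨finite_point_smul _ _, card_point_smul _ _, card_sha_smul _ _ p⟩

/-- **part C** for `y² + D y = x³`, `D = ± mon S i E` -/
theorem main3_wd (S : Finset P3) (i : ℕ) (E : P3 → ℕ) (hE : ∀ q ∈ S, ¬ 3 ∣ E q)
    (hR : Ram3 S i E) (hgood : Good3 S i fun q => (E q : ZMod 3)) {D : 𝓞 K}
    (hD : D = mon S i E ∨ D = -mon S i E) :
    Finite (wd (D : K)).toAffine.Point ∧
      (∃ m : ℕ, ¬ 3 ∣ m ∧ Nat.card (wd (D : K)).toAffine.Point = 3 * m) ∧
      Nat.card (ShaP 3 (wd (D : K))) = 1 ∧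
      ∀ x y : K, x ^ 3 + y ^ 3 = (D : K) → x ^ 3 = y ^ 3 := by
  obtain ⟨k, hk⟩ : ∃ k : K, 2 * k = ((mon S i E : 𝓞 K) : K) :=
    ⟨((mon S i E : 𝓞 K) : K) / 2, by ring⟩
  have hDK : (D : K) = 2 * k ∨ (D : K) = -(2 * k) := by
    rcases hD with h | h
    · left
      rw [h, hk]
    · right
      rw [h, hk]
      push_cast
      rfl
  obtain ⟨h1, h2, h3, h4⟩ := main3 S i E hE hR hgood hk (rfl : ck k = ck k)
  obtain ⟨e1, e2, e3⟩ := wd_of_ck hDK 3
  rw [e1, e2, e3]
  refine ⟨h1, h2, h3, fun x y hxy => ?_⟩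
  rcases hDK with h | h
  · exact h4 x y (by rw [hxy, h, hk])
  · have h5 := h4 (-x) (-y) (by
      rw [← hk]
      linear_combination -hxy - h)
    linear_combination -h5

end

end Pool.Agent.Lib.MP_1a91b9_ntK.C
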