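import Pool.Agent.Lib.MP_1a91b9_ntK.A.Val3
import Pool.Agent.Lib.MP_1a91b9_ntK.A.Rat3D
import Pool.Agent.Lib.MP_1a91b9_ntK.C.Per3
import Pool.Agent.Lib.MP_1a91b9_ntK.C.ShaW

/-!
# The 3-part of the conjecture of Birch and Swinnerton-Dyer for `y² + D y = x³`, `D` prime to `3`
-/

set_option autoImplicit false

namespace Pool.Agent.Lib.MP_1a91b9_ntK

open NumberField IsDedekindDomain Pool.Agent.Lib.MP_1a91b9_ntT Pool.Agent.Lib.MP_1a91b9_ntG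
open Pool.Agent.Lib.MP_1a91b9_ntH (wO s3 cp s3_ne)

theorem cq_neg_one (q : P3) : cq q (-1) = 0 := by
  have hG := P3.g3 q
  have h1 : (-1 : 𝓞 K) ∉ Ideal.span {q.1} := by
    rw [Ideal.mem_span_singleton]
    intro h
    exact q.2.1.not_isUnit (isUnit_of_dvd_one ((dvd_neg).1 h))
  have h2 := Pool.Agent.Lib.MP_1a91b9_ntX.R.cs_mul hG h1 h1
  rw [neg_mul_neg, one_mul, Pool.Agent.Lib.MP_1a91b9_ntX.R.cs_one hG] at h2
  have h3 : ∀ a : ZMod 3, 0 = a + a → a = 0 := by decide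
  exact h3 _ h2

theorem cq_neg (q : P3) {x : 𝓞 K} (hx : ¬ q.1 ∣ x) : cq q (-x) = cq q x := by
  have hG := P3.g3 q
  have h1 : (-1 : 𝓞 K) ∉ Ideal.span {q.1} := by
    rw [Ideal.mem_span_singleton]
    intro h
    exact q.2.1.not_isUnit (isUnit_of_dvd_one ((dvd_neg).1 h))
  have h2 : x ∉ Ideal.span {q.1} := by rwa [Ideal.mem_span_singleton]
  have h3 := Pool.Agent.Lib.MP_1a91b9_ntX.R.cs_mul hG h1 h2
  have h4 : cq q (-x) = cq q (-1) + cq q x := by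
    rw [neg_one_mul] at h3
    exact h3
  rw [h4, cq_neg_one, zero_add]

/-- **The L-series of the cubic twist**, both signs. -/
theorem ser3s (k : ZMod 3) (e : P3 → ZMod 3) (S : Finset P3) (he : ∀ q ∈ S, e q ≠ 0) {D : 𝓞 K}
    (hD : D = Dk k e S ∨ D = -Dk k e S) :
    ∃ g : ℂ → ℂ, Differentiable ℂ g ∧
      (∀ s : ℂ, 3 / 2 < s.re → g s = (WD D).LSeries s) ∧
      g 1 = Lk k e S 1 * (starRingEnd ℂ) (Lk k e S 1) := by
  have hdv : ∀ x : 𝓞 K, x ∣ D ↔ x ∣ Dk k e S := by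
    intro x
    rcases hD with rfl | rfl
    · rfl
    · exact dvd_neg
  have hne : D ≠ 0 := by
    rcases hD with rfl | rfl
    · exact Dk_ne k e S
    · exact neg_ne_zero.2 (Dk_ne k e S)
  refine ser3_gen (Xk_chr k e S) hne (fun q hq => ?_) (fun q hq => ?_)
  · rw [hdv] at hq
    rw [hdv]
    exact ⟨Dk_cube k e S q, Xk_bad k e S q (Dk_dvd k e S q hq)⟩
  · have hq' : ¬ q.1 ∣ Dk k e S := by rwa [← hdv]
    rw [Xk_good k e S q fun h => hq' (Dk_of_mem k e S he q h)]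
    congr 1
    rcases hD with rfl | rfl
    · rfl
    · exact (cq_neg q hq').symm

end Pool.Agent.Lib.MP_1a91b9_ntK

namespace Pool.Agent.Lib.MP_1a91b9_ntK.C

open NumberField IsDedekindDomain WeierstrassCurve Pool.Agent.Lib.MP_1a91b9_ntT.S9
  Pool.Agent.Lib.MP_1a91b9_ntT3.S9 Pool.Agent.Lib.MP_1a91b9_ntT
open Pool.Agent.Lib.MP_1a91b9_ntK
open Pool.Agent.Lib.MP_1a91b9_ntH (wO s3 prime_s3)

open scoped Classical

theorem Dk_mon (k : ZMod 3) (e : P3 → ZMod 3) (S : Finset P3) :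
    Dk k e S = mon S k.val fun q => (e q).val := rfl

/-- the first part of **Q2**: all places above `3` -/
theorem part3_of {k : ZMod 3} {e : P3 → ZMod 3} {S : Finset P3} (he : ∀ q ∈ S, e q ≠ 0)
    (hR : Ram3 S k.val fun q => (e q).val) (hgood : Good3 S k e)
    (hν : ∀ A : ValuationSubring ℂ, Three A →
      A.valuation (Lk k e S 1 * 3 / (Om * sq3 ^ S.card)) = 1)
    {D : 𝓞 K} (hD : D = Dk k e S ∨ D = -Dk k e S) (hcube : ∀ p : 𝓞 K, Prime p → ¬ p ^ 3 ∣ D)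
    {t : ℕ} (ht : ¬ 3 ∣ t)
    (hT : (∏ᶠ v : HeightOneSpectrum (𝓞 K), tam (wd (D : K)) v) = 3 ^ S.card * t) :
    PPartQ 3 (wd (D : K)) ∧ Nat.card (ShaP 3 (wd (D : K))) = 1 := by
  have hdv : ∀ x : 𝓞 K, x ∣ D ↔ x ∣ Dk k e S := by
    intro x
    rcases hD with rfl | rfl
    · rfl
    · exact dvd_neg
  have hnD : em D = em (Dk k e S) ∨ em D = -em (Dk k e S) := by
    rcases hD with rfl | rfl
    · exact Or.inl rfl
    · exact Or.inr (rt_em_neg _)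
  have hnn : ‖em D‖ = ‖em (Dk k e S)‖ := by
    rcases hnD with h | h
    · rw [h]
    · rw [h, norm_neg]
  have hne : D ≠ 0 := by
    rcases hD with rfl | rfl
    · exact Dk_ne k e S
    · exact neg_ne_zero.2 (Dk_ne k e S)
  have h3 : ¬ s3 ∣ Dk k e S := by
    rw [Dk_mon]
    intro h4
    refine mon_notMem (v := pw s3 prime_s3) (T := S) (fun q _ h5 => ?_) _ _
      (Ideal.mem_span_singleton.2 h4)
    exact q.in3.not_s3 (Ideal.mem_span_singleton.1 h5)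
  have hE : ∀ q ∈ S, ¬ 3 ∣ (e q).val := by
    intro q hq h
    have h1 := ZMod.val_lt (e q)
    have h2 : (e q).val = 0 := by omega
    exact he q hq ((ZMod.val_eq_zero _).1 h2)
  have hgood' : Good3 S (k.val : ℕ) fun q => ((e q).val : ZMod 3) := by
    simpa only [ZMod.natCast_zmod_val] using hgood
  obtain ⟨f1, ⟨m, hm, hC⟩, f3, -⟩ := main3_wd S k.val (fun q => (e q).val) hE hR hgood'
    (D := D) hD
  obtain ⟨A, hA⟩ := exists_Three
  have hL : Lk k e S 1 ≠ 0 := by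
    intro h0
    have h1 := hν A hA
    rw [h0, zero_mul, zero_div, map_zero] at h1
    exact zero_ne_one h1
  obtain ⟨g, hgd, hgs, hg⟩ := ser3s k e S he hD
  refine ⟨ppartQ3 hne hcube (by rwa [hdv]) hgd hgs hg hν hL f1 hm hC ht hT f3 ?_, f3⟩
  rw [hnn]
  exact crat3 k e S

/-- **Q2**, `k ≠ 0` -/
theorem part3_ne {k : ZMod 3} (hk : k ≠ 0) {e : P3 → ZMod 3} {S : Finset P3}
    (he : ∀ q ∈ S, e q ≠ 0) (h : (NK k e S).det ≠ 0)
    (hR : Ram3 S k.val fun q => (e q).val) (hgood : Good3 S k e)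
    {D : 𝓞 K} (hD : D = Dk k e S ∨ D = -Dk k e S) (hcube : ∀ p : 𝓞 K, Prime p → ¬ p ^ 3 ∣ D)
    {t : ℕ} (ht : ¬ 3 ∣ t)
    (hT : (∏ᶠ v : HeightOneSpectrum (𝓞 K), tam (wd (D : K)) v) = 3 ^ S.card * t) :
    PPartQ 3 (wd (D : K)) ∧ Nat.card (ShaP 3 (wd (D : K))) = 1 :=
  part3_of he hR hgood (fun _ hA => val3 hA hk he h) hD hcube ht hT

/-- **Q2**, `k = 0` -/
theorem part3_zero {e : P3 → ZMod 3} {S : Finset P3} (he : ∀ q ∈ S, e q ≠ 0)
    (hB : ∑ q ∈ S, e q * abar q.1 ≠ 0)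
    (hker : ∀ v : S → ZMod 3, (NK 0 e S).mulVec v = 0 → ∃ c : ZMod 3, ∀ i, v i = c * e i)
    (hR : Ram3 S 0 fun q => (e q).val) (hgood : Good3 S 0 e)
    {D : 𝓞 K} (hD : D = Dk 0 e S ∨ D = -Dk 0 e S) (hcube : ∀ p : 𝓞 K, Prime p → ¬ p ^ 3 ∣ D)
    {t : ℕ} (ht : ¬ 3 ∣ t)
    (hT : (∏ᶠ v : HeightOneSpectrum (𝓞 K), tam (wd (D : K)) v) = 3 ^ S.card * t) :
    PPartQ 3 (wd (D : K)) ∧ Nat.card (ShaP 3 (wd (D : K))) = 1 :=
  part3_of (k := 0) he hR hgood (fun _ hA => val0 hA he hB hker) hD hcube ht hT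

end Pool.Agent.Lib.MP_1a91b9_ntK.C
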