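import Pool.Agent.Lib.MP_1a91b9_ntK.C.Per3

/-!
# MP_1a91b9_nt (cubic twists), part C, block Per: the period and the 3-part, all cube-free `D`

`W_D : y² + D y = x³`, `D` cube-free: the equation is minimal everywhere, also at `√-3` if `√-3`
divides `D`.
-/

set_option autoImplicit false

namespace Pool.Agent.Lib.MP_1a91b9_ntK.C

open NumberField IsDedekindDomain WeierstrassCurve WithZero MeasureTheory
open Pool.Agent.Lib.MP_1a91b9_ntT Pool.Agent.Lib.MP_1a91b9_ntT.Per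
open Pool.Agent.Lib.MP_1a91b9_ntH (wO s3 Nz Nz_eq s3_ne s3_not_isUnit)
open Pool.Agent.Lib.MP_1a91b9_ntH.C (perb_unique perb_sqf perb_one perb_eq perb_int perb_three
  s3_prime om_quad' sqrt_discr_K discr_K)
open Pool.Agent.Lib.MP_1a91b9_ntT.S9 (tam normFactor period minChange minModel minModel_isMinimal)
open Pool.Agent.Lib.MP_1a91b9_ntT3.S9 (UnitAt ShaP PPart PPartQ unitAt_of_val ppartQ_of)
open scoped Classical

/-- The scaling factor of the change to the minimal model is a unit if the equation is integral and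
if there is no change to an integral equation whose scaling factor is not a unit. -/
theorem perj_unique {N : Type*} [Field N] [NumberField N] (W : WeierstrassCurve N)
    (v : HeightOneSpectrum (𝓞 N)) (I : WeierstrassCurve (v.adicCompletionIntegers N))
    (hI : W.baseChange (v.adicCompletion N) = I.baseChange (v.adicCompletion N))
    (hΔ : Valued.v (W.baseChange (v.adicCompletion N)).Δ ≠ 0)
    (hno : ∀ C : VariableChange (v.adicCompletion N),
      WeierstrassCurve.IsIntegral (v.adicCompletionIntegers N)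
        (C • W.baseChange (v.adicCompletion N)) →
      ¬ Valued.v (C.u : v.adicCompletion N) < 1) :
    Valued.v ((minChange W v).u : v.adicCompletion N) = 1 := by
  obtain ⟨C, hC⟩ : ∃ C, C = minChange W v := ⟨_, rfl⟩
  have hm : IsMinimal (v.adicCompletionIntegers N) (C • W.baseChange (v.adicCompletion N)) := by
    rw [hC]
    exact minModel_isMinimal W v
  have h1 := CT.min_le _ I hI C hm
  have h2 := hno C inferInstance
  rw [← hC]
  obtain ⟨a, ha⟩ : ∃ a, a = Valued.v ((C.u⁻¹ : (v.adicCompletion N)ˣ) : v.adicCompletion N) :=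
    ⟨_, rfl⟩
  rw [WeierstrassCurve.variableChange_Δ, map_mul, map_pow, ← ha] at h1
  have h3 : 1 ≤ a ^ 12 := (le_mul_iff_one_le_left (zero_lt_iff.2 hΔ)).1 h1
  have h4 : 1 ≤ a := by
    by_contra h
    rw [not_le] at h
    exact absurd h3 (not_le.2 (pow_lt_one₀ zero_le h (by norm_num)))
  have h5 : Valued.v (C.u : v.adicCompletion N) * a = 1 := by
    have h6 := congrArg Valued.v C.u.mul_inv
    rwa [map_mul, ← ha, map_one] at h6
  refine le_antisymm ?_ (not_lt.1 h2)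
  by_contra h
  rw [not_le] at h
  exact absurd h5 (one_lt_mul_of_lt_of_le h h4).ne'

/-- No change to an integral equation with `|u| < 1`, at a place with `|3| = exp (-2)`. -/
theorem perj_no {F : Type*} [Field F] (V : Valuation F ℤᵐ⁰) {d u r : F}
    (h3 : V 3 = exp (-2 : ℤ)) (hd : exp (-2 : ℤ) ≤ V d) (hd1 : V d ≤ 1) (hu0 : u ≠ 0)
    (hu : V u < 1) (h4 : V (6 * r ^ 2) ≤ V u ^ 4) (h6 : V (d ^ 2 + 4 * r ^ 3) ≤ V u ^ 6) :
    False := by
  have hu1 : V u ≠ 0 := (Valuation.ne_zero_iff V).2 hu0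
  have hd0 : V d ≠ 0 := by
    intro h
    rw [h] at hd
    exact absurd hd (not_le.2 exp_pos)
  have h2 : V (2 : F) = 1 := by
    have e : (2 : F) = -1 + 3 := by norm_num
    have hlt : V (3 : F) < 1 := by
      rw [h3, ← exp_zero, exp_lt_exp]
      norm_num
    rw [e, Valuation.map_add_eq_of_lt_left, Valuation.map_neg, map_one]
    rwa [Valuation.map_neg, map_one]
  have h22 : V (4 : F) = 1 := by
    have e : (4 : F) = 2 * 2 := by norm_num
    rw [e, map_mul, h2, mul_one]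
  have h66 : V (6 : F) = exp (-2 : ℤ) := by
    have e : (6 : F) = 2 * 3 := by norm_num
    rw [e, map_mul, h2, one_mul, h3]
  obtain ⟨a, ha⟩ : ∃ a : ℤ, V u = exp a := ⟨_, (exp_log hu1).symm⟩
  obtain ⟨m, hm⟩ : ∃ m : ℤ, V d = exp m := ⟨_, (exp_log hd0).symm⟩
  rw [ha, ← exp_zero, exp_lt_exp] at hu
  rw [hm, exp_le_exp] at hd
  rw [hm, ← exp_zero, exp_le_exp] at hd1
  rw [map_mul, map_pow, h66, ha, ← exp_nsmul] at h4
  rw [ha, ← exp_nsmul] at h6
  rcases eq_or_ne r 0 with rfl | hr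
  · rw [zero_pow (by norm_num), mul_zero, add_zero, map_pow, hm, ← exp_nsmul, exp_le_exp] at h6
    simp only [nsmul_eq_mul] at h6
    push_cast at h6
    omega
  · obtain ⟨n, hn⟩ : ∃ n : ℤ, V r = exp n := ⟨_, (exp_log ((Valuation.ne_zero_iff V).2 hr)).symm⟩
    rw [hn, ← exp_nsmul, ← exp_add, exp_le_exp] at h4
    simp only [nsmul_eq_mul] at h4
    push_cast at h4
    have e1 : V (d ^ 2) = exp (2 * m) := by
      rw [map_pow, hm, ← exp_nsmul]
      simp
    have e2 : V (4 * r ^ 3) = exp (3 * n) := by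
      rw [map_mul, h22, one_mul, map_pow, hn, ← exp_nsmul]
      simp
    have hne : V (d ^ 2) ≠ V (4 * r ^ 3) := by
      rw [e1, e2]
      intro h
      have := exp_injective h
      omega
    rw [Valuation.map_add_of_distinct_val _ hne, e1, max_le_iff, exp_le_exp] at h6
    have h7 := h6.1
    simp only [nsmul_eq_mul] at h7
    push_cast at h7
    omega

theorem perj_s3 {v : HeightOneSpectrum (𝓞 K)} (h : s3 ∈ v.asIdeal) :
    v.valuation K ((s3 : 𝓞 K) : K) = exp (-1 : ℤ) := by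
  have h1 := perb_sqf s3_prime.squarefree v
  have h2 : v.valuation K ((s3 : 𝓞 K) : K) < 1 :=
    (HeightOneSpectrum.valuation_lt_one_iff_mem v s3).2 h
  have h0 : v.valuation K ((s3 : 𝓞 K) : K) ≠ 0 := by
    rw [Valuation.ne_zero_iff]
    exact fun h => s3_ne (RingOfIntegers.ext h)
  rw [← exp_log h0] at h1 h2 ⊢
  rw [exp_le_exp] at h1
  rw [← exp_zero, exp_lt_exp] at h2
  congr 1
  omega

theorem perj_v3 {v : HeightOneSpectrum (𝓞 K)} (h : s3 ∈ v.asIdeal) :
    v.valuation K (3 : K) = exp (-2 : ℤ) := by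
  have h1 := perb_three
  have h3 : (3 : K) = -((s3 : 𝓞 K) : K) ^ 2 := by linear_combination h1
  rw [h3, Valuation.map_neg, map_pow, perj_s3 h, ← exp_nsmul]
  norm_num

/-- The scaling factor of the change to the minimal model is a unit. -/
theorem perj_u {D : 𝓞 K} (hD0 : D ≠ 0) (hD : ∀ p : 𝓞 K, Prime p → ¬ p ^ 3 ∣ D)
    (v : HeightOneSpectrum (𝓞 K)) :
    Valued.v ((minChange (wd (D : K)) v).u : v.adicCompletion K) = 1 := by
  by_cases h3 : s3 ∈ v.asIdeal
  · obtain ⟨r, hr⟩ := perb_int v D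
    have hbc : (wd (D : K)).baseChange (v.adicCompletion K) =
        wd (algebraMap K (v.adicCompletion K) (D : K)) := wd_map _ _
    have hDK : (D : K) ≠ 0 := fun h => hD0 (RingOfIntegers.ext h)
    have h1 : Valued.v ((minChange (wd (D : K)) v).u : v.adicCompletion K) = 1 := by
      refine perj_unique (wd (D : K)) v ⟨0, 0, r, 0, 0⟩ ?_ ?_ fun C hC hu => ?_
      · rw [hbc, Pool.Agent.Lib.MP_1a91b9_ntH.C.perb_bc, map_zero, hr]
        rfl
      · rw [WeierstrassCurve.baseChange, WeierstrassCurve.map_Δ,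
          MP_1a91b9_nt.valued_algebraMap, per3_disc]
        have h5 : ((s3 : 𝓞 K) : K) ≠ 0 := fun h => s3_ne (RingOfIntegers.ext h)
        exact mul_ne_zero (pow_ne_zero _ ((Valuation.ne_zero_iff _).2 h5))
          (pow_ne_zero _ ((Valuation.ne_zero_iff _).2 hDK))
      · obtain ⟨J, hJ⟩ := hC
        have k4 : Valued.v (C • (wd (D : K)).baseChange (v.adicCompletion K)).b₄ ≤ 1 := by
          rw [hJ, WeierstrassCurve.baseChange, WeierstrassCurve.map_b₄]
          exact J.b₄.2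
        have k6 : Valued.v (C • (wd (D : K)).baseChange (v.adicCompletion K)).b₆ ≤ 1 := by
          rw [hJ, WeierstrassCurve.baseChange, WeierstrassCurve.map_b₆]
          exact J.b₆.2
        obtain ⟨d, hd⟩ : ∃ d, d = algebraMap K (v.adicCompletion K) (D : K) := ⟨_, rfl⟩
        rw [hbc, ← hd] at k4 k6
        have e4 : (wd d).b₄ = 0 := by simp [wd, WeierstrassCurve.b₄]
        have e2 : (wd d).b₂ = 0 := by simp [wd, WeierstrassCurve.b₂]
        have e6 : (wd d).b₆ = d ^ 2 := by simp [wd, WeierstrassCurve.b₆]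
        have hu0 : (C.u : v.adicCompletion K) ≠ 0 := C.u.ne_zero
        have hui : ((C.u⁻¹ : (v.adicCompletion K)ˣ) : v.adicCompletion K) =
          (C.u : v.adicCompletion K)⁻¹ := by simp
        have hVu : 0 < Valued.v (C.u : v.adicCompletion K) :=
          zero_lt_iff.2 ((Valuation.ne_zero_iff _).2 hu0)
        rw [variableChange_b₄, e4, e2, hui, mul_zero, zero_add, zero_add, inv_pow, map_mul,
          map_inv₀, map_pow, inv_mul_le_one₀ (pow_pos hVu 4)] at k4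
        rw [variableChange_b₆, e4, e2, e6, hui, mul_zero, mul_zero, add_zero, add_zero, inv_pow,
          map_mul, map_inv₀, map_pow, inv_mul_le_one₀ (pow_pos hVu 6)] at k6
        refine perj_no Valued.v ?_ ?_ ?_ hu0 hu k4 k6
        · have h7 := MP_1a91b9_nt.valued_algebraMap v (3 : K)
          rw [map_ofNat, perj_v3 h3] at h7
          exact h7
        · rw [hd, MP_1a91b9_nt.valued_algebraMap]
          exact per3_cubefree hD0 hD v
        · rw [hd, MP_1a91b9_nt.valued_algebraMap]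
          exact HeightOneSpectrum.valuation_le_one v D
    exact h1
  · -- the other places
    have hu := perb_unique (wd (D : K)) v 1
    obtain ⟨r, hr⟩ := perb_int v D
    have hbc : (wd (D : K)).baseChange (v.adicCompletion K) =
        wd (algebraMap K (v.adicCompletion K) (D : K)) := wd_map _ _
    have h1 := hu ⟨0, 0, r, 0, 0⟩ (by
      rw [one_smul, hbc, Pool.Agent.Lib.MP_1a91b9_ntH.C.perb_bc, map_zero, hr]
      rfl) (by
      rw [one_smul, WeierstrassCurve.baseChange, WeierstrassCurve.map_Δ,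
        MP_1a91b9_nt.valued_algebraMap, per3_disc, perb_one h3, one_pow, one_mul]
      refine lt_of_lt_of_le (b := exp (-8 : ℤ)) (exp_lt_exp.2 (by norm_num)) ?_
      have h1 := pow_le_pow_left₀ zero_le (per3_cubefree hD0 hD v) 4
      rw [← exp_nsmul] at h1
      simpa using h1)
    have h3 : Valued.v (((1 : VariableChange (v.adicCompletion K)).u : (v.adicCompletion K)ˣ) :
        v.adicCompletion K) = 1 := by
      show Valued.v (((1 : (v.adicCompletion K)ˣ)) : v.adicCompletion K) = 1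
      rw [Units.val_one, map_one]
    rw [h3] at h1
    exact h1

theorem perj_nf {D : 𝓞 K} (hD0 : D ≠ 0) (hD : ∀ p : 𝓞 K, Prime p → ¬ p ^ 3 ∣ D)
    (v : HeightOneSpectrum (𝓞 K)) : normFactor (wd (D : K)) v = 1 := by
  rw [normFactor, perj_u hD0 hD v, log_one, neg_zero, zpow_zero]

/-- **The period**, all cube-free `D`. -/
theorem period_wdj {D : 𝓞 K} (hD0 : D ≠ 0) (hD : ∀ p : 𝓞 K, Prime p → ¬ p ^ 3 ∣ D) :
    period (wd (D : K)) = √3 * (‖Om‖ ^ 2 / ‖em D‖ ^ (2 / 3 : ℝ)) := by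
  have hDK : (D : K) ≠ 0 := fun h => hD0 (RingOfIntegers.ext h)
  rw [period, finprod_congr (fun v => perj_nf hD0 hD v), finprod_one, prod_perAt_wd hDK, one_mul]
  rfl

/-- The 3-part of the formula from the 3-adic value of `L`, all cube-free `D`. -/
theorem formula3j {D : 𝓞 K} (hD0 : D ≠ 0) (hD : ∀ p : 𝓞 K, Prime p → ¬ p ^ 3 ∣ D)
    {r : ℕ} {L g1 : ℂ} (hg : g1 = L * (starRingEnd ℂ) L)
    (hν : ∀ A : ValuationSubring ℂ, Three A →
      A.valuation ((L * 3 / (Om * sq3 ^ r)) ^ 3 * em D) = 1)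
    (hL : L ≠ 0) {m t C T : ℕ} (hm : ¬ 3 ∣ m) (hC : C = 3 * m) (ht : ¬ 3 ∣ t)
    (hT : T = 3 ^ r * t) :
    ∃ x : ℝ, UnitAt 3 x ∧ g1 * (√|(discr K : ℝ)| : ℝ) / (period (wd (D : K)) : ℝ) =
      (x * ((1 : ℝ) * (T : ℝ) / (C : ℝ) ^ 2) : ℝ) := by
  have hDe : em D ≠ 0 := by
    rw [MP_1a91b9_ntH.em, Ne, map_eq_zero]
    exact fun h => hD0 (RingOfIntegers.ext h)
  have hn0 : 0 < ‖em D‖ := norm_pos_iff.2 hDe
  have hOm : 0 < ‖Om‖ := norm_pos_iff.2 Om_ne_zero
  obtain ⟨d, hd⟩ : ∃ d : ℝ, d = ‖em D‖ ^ (2 / 3 : ℝ) := ⟨_, rfl⟩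
  have hd0 : 0 < d := by rw [hd]; exact Real.rpow_pos_of_pos hn0 _
  have hd3 : d ^ 3 = ‖em D‖ ^ 2 := by
    rw [hd, ← Real.rpow_natCast, ← Real.rpow_mul hn0.le]
    norm_num
  obtain ⟨ν, hνd⟩ : ∃ ν, ν = L * 3 / (Om * sq3 ^ r) := ⟨_, rfl⟩
  have hsr : sq3 ^ r ≠ 0 := pow_ne_zero _ sq3_ne
  have hν0 : ν ≠ 0 := by
    rw [hνd]
    exact div_ne_zero (mul_ne_zero hL (by norm_num)) (mul_ne_zero Om_ne_zero hsr)
  have hνn : 0 < ‖ν‖ := norm_pos_iff.2 hν0
  rw [← hνd] at hν
  have hs3 : ‖sq3‖ ^ 2 = 3 := by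
    rw [← norm_pow, sq3_sq]
    norm_num
  have hLn : ‖L‖ ^ 2 = ‖ν‖ ^ 2 * ‖Om‖ ^ 2 * 3 ^ r / 9 := by
    have h1 : L = ν * (Om * sq3 ^ r) / 3 := by
      rw [hνd]
      have := Om_ne_zero
      field_simp
    have h2 : (‖sq3‖ ^ r) ^ 2 = 3 ^ r := by
      rw [← pow_mul, mul_comm r 2, pow_mul, hs3]
    rw [h1, norm_div, norm_mul, norm_mul, norm_pow, div_pow, mul_pow, mul_pow, h2]
    norm_num
    ring
  have hm0 : (m : ℝ) ≠ 0 := by
    intro h
    have : m = 0 := by exact_mod_cast h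
    rw [this] at hm
    exact hm (dvd_zero _)
  have ht0 : (t : ℝ) ≠ 0 := by
    intro h
    have : t = 0 := by exact_mod_cast h
    rw [this] at ht
    exact ht (dvd_zero _)
  refine ⟨‖ν‖ ^ 2 * d * (m : ℝ) ^ 2 / t, ?_, ?_⟩
  · refine unitAt_of_val Nat.prime_three ?_ fun A hA => ?_
    · positivity
    · have hA3 := per3_three hA
      have e1 : A.valuation ((‖ν‖ ^ 2 * d : ℝ) : ℂ) = 1 := by
        refine per3_pow (n := 3) (by norm_num) ?_
        have h4 : ((‖ν‖ ^ 2 * d : ℝ) : ℂ) ^ 3 = ((‖ν ^ 3 * em D‖ ^ 2 : ℝ) : ℂ) := by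
          rw [← Complex.ofReal_pow, mul_pow, hd3, norm_mul, norm_pow]
          congr 1
          ring
        rw [h4]
        exact per3_normsq (hν A hA3) (hν _ (per3_comap hA3))
      have e4 : (((‖ν‖ ^ 2 * d * (m : ℝ) ^ 2 / t : ℝ)) : ℂ) =
          ((‖ν‖ ^ 2 * d : ℝ) : ℂ) * (m : ℂ) ^ 2 / (t : ℂ) := by
        push_cast
        ring
      rw [e4, map_div₀, map_mul, map_pow, e1, per3_nat hA3 hm, per3_nat hA3 ht]
      simp
  · rw [per3_g hg, sqrt_discr_K, period_wdj hD0 hD, ← hd, ← Complex.ofReal_mul,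
      ← Complex.ofReal_div, hLn, hC, hT]
    congr 1
    have h3 : (√3 : ℝ) ≠ 0 := by positivity
    push_cast
    field_simp
    norm_num

/-- **The 3-part, strong form**, for `y² + D y = x³`, all cube-free `D`. -/
theorem ppartQ3j {D : 𝓞 K} (hD0 : D ≠ 0) (hD : ∀ p : 𝓞 K, Prime p → ¬ p ^ 3 ∣ D)
    {r : ℕ} {L : ℂ} {g : ℂ → ℂ} (hgd : Differentiable ℂ g)
    (hgs : ∀ s : ℂ, 3 / 2 < s.re → g s = (wd (D : K)).LSeries s)
    (hg : g 1 = L * (starRingEnd ℂ) L)
    (hν : ∀ A : ValuationSubring ℂ, Three A →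
      A.valuation ((L * 3 / (Om * sq3 ^ r)) ^ 3 * em D) = 1)
    (hfin : Finite (wd (D : K)).toAffine.Point) {m t : ℕ} (hm : ¬ 3 ∣ m)
    (hC : Nat.card (wd (D : K)).toAffine.Point = 3 * m) (ht : ¬ 3 ∣ t)
    (hT : (∏ᶠ v : HeightOneSpectrum (𝓞 K), tam (wd (D : K)) v) = 3 ^ r * t)
    (hsha : Nat.card (ShaP 3 (wd (D : K))) = 1)
    (hrat : ∃ q : ℚ, ‖L‖ ^ 2 * ‖em D‖ ^ (2 / 3 : ℝ) = (q : ℝ) * ‖Om‖ ^ 2) :
    PPartQ 3 (wd (D : K)) := by
  have hL : L ≠ 0 := by
    obtain ⟨A, hA⟩ := exists_Three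
    rintro rfl
    have h1 := hν A hA
    rw [zero_mul, zero_div, zero_pow (by norm_num), zero_mul, map_zero] at h1
    exact zero_ne_one h1
  obtain ⟨x, hx, he⟩ := formula3j hD0 hD hg hν hL hm hC ht hT
  have hg0 : g 1 ≠ 0 := by
    intro h0
    rw [h0] at hg
    exact mul_ne_zero hL ((map_ne_zero _).2 hL) hg.symm
  have hf : Finite (ShaP 3 (wd (D : K))) :=
    Nat.finite_of_card_ne_zero (by rw [hsha]; exact one_ne_zero)
  obtain ⟨q, hq⟩ := rat3 hD0 hg hrat
  refine ppartQ_of ⟨g, x, hgd, hgs, hg0, hfin, hf, hx, ?_⟩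
    ⟨g, q, hgd, fun s hs => hgs s (by linarith), hq⟩
  rw [hsha, Nat.cast_one]
  exact he

end Pool.Agent.Lib.MP_1a91b9_ntK.C
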