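import Pool.Agent.Lib.MP_1a91b9_ntK.C.Tors3

/-!
# MP_1a91b9_nt (cubic twists), part C: the torsion for `√-3 ∣ D` and for `D = ± 1` modulo `3 √-3`

The group of points is the kernel of `1 - ω`, of order `3`, and `D` is not a sum of two cubes.
-/

set_option autoImplicit false
set_option linter.unusedSectionVars false

namespace Pool.Agent.Lib.MP_1a91b9_ntK.C

open WithZero WeierstrassCurve
open scoped Classical

noncomputable section

section

variable {F : Type*} [Field F] [CharZero F] {W : Affine F} {z k : F}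
  (h : IsK W z k) (hinj : ∀ P ∈ (mu h).range, mu h P = 0 → P = 0)
  {ν : Valuation F ℤᵐ⁰} (hl : ν (1 + 2 * z) = exp (-1))
  (hres : ∀ x : F, ν x ≤ 1 → ν x < 1 ∨ ν (x - 1) < 1 ∨ ν (x + 1) < 1)

include hinj hl in
/-- the abscissas, general bound: `ν (4 k²) = exp (-m)` -/
theorem rngj_le [Finite W.Point] {m : ℤ} (hk : ν (4 * k ^ 2) = exp (-m)) {x y : F}
    {hn : W.Nonsingular x y} (hP : Affine.Point.some x y hn ∈ (mu h).range) {n : ℤ}
    (hxn : ν x = exp (-n)) : m ≤ 3 * n := by
  by_contra hc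
  push Not at hc
  obtain ⟨⟨Q, hQR⟩, hQ⟩ := Finite.exists_max (fun P : (mu h).range => ν (abs3 P.1))
  have hQ1 : exp (-n) ≤ ν (abs3 Q) := by
    have := hQ ⟨_, hP⟩
    have e : abs3 (Affine.Point.some x y hn : W.Point) = x := rfl
    dsimp only at this
    rwa [e, hxn] at this
  obtain _ | ⟨x', y', hn'⟩ := Q
  · have e : abs3 (Affine.Point.zero : W.Point) = 0 := rfl
    rw [e, map_zero] at hQ1
    exact absurd hQ1 (not_le.2 exp_pos)
  · have e : abs3 (Affine.Point.some x' y' hn' : W.Point) = x' := rfl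
    rw [e] at hQ1
    have hx := rng_ne h hinj hQR
    obtain ⟨X, Y, hn'', h1, h2⟩ := mu_some3 h hn' hx
    have h3 := hQ ⟨mu h (.some x' y' hn'), ⟨_, rfl⟩⟩
    dsimp only at h3
    rw [h1] at h3
    have e' : abs3 (Affine.Point.some X Y hn'' : W.Point) = X := rfl
    rw [e, e'] at h3
    obtain ⟨n', hn0⟩ := exists_nu ν hx
    have h4 := congrArg ν h2
    rw [hn0, exp_le_exp] at hQ1
    have h6 : ν (x' ^ 3) = exp (3 * n') := by
      rw [map_pow, hn0, ← exp_nsmul, nsmul_eq_mul]
      push_cast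
      rfl
    have h5 : ν (x' ^ 3 + 4 * k ^ 2) = exp (3 * n') := by
      rw [ν.map_add_eq_of_lt_left (by
        rw [hk, h6, exp_lt_exp]
        omega), h6]
    have hX0 : X ≠ 0 := by
      rintro rfl
      rw [mul_zero, map_zero, Valuation.map_neg, h5] at h4
      exact exp_ne_zero h4.symm
    obtain ⟨r, hr⟩ := exists_nu ν hX0
    rw [Valuation.map_neg, h5, map_mul, map_mul, map_mul, nu3 h hl, nuz h, mul_one, map_pow, hn0, hr,
      ← exp_nsmul, ← exp_add, ← exp_add, exp_inj, nsmul_eq_mul] at h4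
    push_cast at h4
    rw [hn0, hr, exp_le_exp] at h3
    omega

include hinj hl in
theorem rngj_eq [Finite W.Point] {m : ℤ} (hk : ν (4 * k ^ 2) = exp (-m)) {x y : F}
    {hn : W.Nonsingular x y} (hP : Affine.Point.some x y hn ∈ (mu h).range) {n : ℤ}
    (hxn : ν x = exp (-n)) : m = 3 * n := by
  have h0 := rngj_le h hinj hl hk hP hxn
  by_contra hne
  have hlt : m < 3 * n := lt_of_le_of_ne h0 hne
  have hx := rng_ne h hinj hP
  obtain ⟨X, Y, hn', h1, h2⟩ := mu_some3 h hn hx
  have h5 := congrArg ν h2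
  have h8 : ν (x ^ 3 + 4 * k ^ 2) = exp (-m) := by
    rw [ν.map_add_eq_of_lt_right, hk]
    rw [hk, map_pow, hxn, ← exp_nsmul, exp_lt_exp, nsmul_eq_mul]
    push_cast
    omega
  have hX0 : X ≠ 0 := by
    rintro rfl
    rw [mul_zero, map_zero, Valuation.map_neg, h8] at h5
    exact exp_ne_zero h5.symm
  obtain ⟨r, hr⟩ := exists_nu ν hX0
  obtain ⟨r, rfl⟩ : ∃ r' : ℤ, r = -r' := ⟨-r, (neg_neg r).symm⟩
  have h3 := rngj_le h hinj hl hk (h1 ▸ ⟨_, rfl⟩ : Affine.Point.some X Y hn' ∈ (mu h).range) hr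
  rw [Valuation.map_neg, h8, map_mul, map_mul, map_mul, nu3 h hl, nuz h, mul_one, map_pow, hxn, hr,
    ← exp_nsmul, ← exp_add, ← exp_add, exp_inj, nsmul_eq_mul] at h5
  push_cast at h5
  omega

include h hinj hl in
/-- `√-3` divides `D`: the range of `1 - ω` is trivial -/
theorem rng_zero_j [Finite W.Point] (hD : ν (2 * k) = exp (-1) ∨ ν (2 * k) = exp (-2)) :
    ∀ P ∈ (mu h).range, P = 0 := by
  intro P hP
  obtain _ | ⟨x, y, hn⟩ := P
  · rfl
  · exfalso
    have hx := rng_ne h hinj hP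
    obtain ⟨n, hn0⟩ := exists_nu ν hx
    obtain ⟨n, rfl⟩ : ∃ r' : ℤ, n = -r' := ⟨-n, (neg_neg n).symm⟩
    have e4 : 4 * k ^ 2 = (2 * k) ^ 2 := by ring
    rcases hD with hD | hD
    · have hk : ν (4 * k ^ 2) = exp (-2) := by
        rw [e4, map_pow, hD, ← exp_nsmul]
        rfl
      have := rngj_eq h hinj hl hk hP hn0
      omega
    · have hk : ν (4 * k ^ 2) = exp (-4) := by
        rw [e4, map_pow, hD, ← exp_nsmul]
        rfl
      have := rngj_eq h hinj hl hk hP hn0
      omega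

include h hinj hl hres in
/-- `D² = 1` modulo `3 √-3`: the range of `1 - ω` is trivial -/
theorem rng_zero_h [Finite W.Point] (hD : ν (2 * k) = 1) (hD1 : ν ((2 * k) ^ 2 - 1) ≤ exp (-3)) :
    ∀ P ∈ (mu h).range, P = 0 := by
  intro P hP
  obtain _ | ⟨x, y, hn⟩ := P
  · rfl
  · exfalso
    have e4 : 4 * k ^ 2 = (2 * k) ^ 2 := by ring
    have hk : ν (4 * k ^ 2) = 1 := by rw [e4, map_pow, hD, one_pow]
    obtain ⟨hx1, hx2⟩ := rng_one h hinj hl hk hP
    have hl2 := h.l2
    have h3 := nu3 h hl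
    have h2v := nu2 h hl
    have hl0 := h.l0
    -- the residue of `x`
    have hx3 : ν (x ^ 3 + 1) ≤ exp (-3) := by
      have e : x ^ 3 + 1 = (x ^ 3 + 4 * k ^ 2) - ((2 * k) ^ 2 - 1) := by ring
      have h0 : ν (x ^ 3 + 1) < 1 := by
        rw [e]
        refine lt_of_le_of_lt (ν.map_sub _ _) (max_lt ?_ ?_)
        · refine lt_of_le_of_lt hx2 ?_
          rw [← exp_zero, exp_lt_exp]
          norm_num
        · refine lt_of_le_of_lt hD1 ?_
          rw [← exp_zero, exp_lt_exp]
          norm_num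
      have hxr : ν (x + 1) < 1 := by
        rcases hres x hx1.le with h4 | h4 | h4
        · rw [hx1] at h4
          exact absurd h4 (lt_irrefl _)
        · exfalso
          have e2 : x ^ 3 + 1 = 2 + (x - 1) * (x ^ 2 + x + 1) := by ring
          have h5 : ν ((x - 1) * (x ^ 2 + x + 1)) < 1 := by
            rw [map_mul]
            have h6 : ν (x ^ 2 + x + 1) ≤ 1 := by
              refine ν.map_add_le (ν.map_add_le ?_ hx1.le) (map_one ν).le
              rw [map_pow, hx1, one_pow]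
            calc ν (x - 1) * ν (x ^ 2 + x + 1) ≤ ν (x - 1) * 1 := by gcongr
              _ < 1 := by rw [mul_one]; exact h4
          rw [e2, ν.map_add_eq_of_lt_left (by rwa [h2v]), h2v] at h0
          exact lt_irrefl _ h0
        · exact h4
      rw [lt_one_iff] at hxr
      have e3 : x ^ 3 + 1 = (x + 1) ^ 3 - 3 * (x * (x + 1)) := by ring
      rw [e3]
      refine ν.map_sub_le ?_ ?_
      · rw [map_pow]
        calc ν (x + 1) ^ 3 ≤ exp (-1) ^ 3 := pow_le_pow_left₀ zero_le hxr 3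
          _ = exp (-3) := by
            rw [← exp_nsmul]
            rfl
      · rw [map_mul, map_mul, h3, hx1, one_mul]
        calc exp (-2) * ν (x + 1) ≤ exp (-2) * exp (-1) := by gcongr
          _ = exp (-3) := by rw [← exp_add]; norm_num
    -- the abscissa of `mu P` is a unit
    have hx := rng_ne h hinj hP
    obtain ⟨X, Y, hn', h1, h2⟩ := mu_some3 h hn hx
    have hX := (rng_one h hinj hl hk
      (h1 ▸ ⟨_, rfl⟩ : Affine.Point.some X Y hn' ∈ (mu h).range)).1
    have h5 := congrArg ν h2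
    rw [Valuation.map_neg, map_mul, map_mul, map_mul, h3, nuz h, mul_one, map_pow, hx1, one_pow,
      mul_one, hX, mul_one] at h5
    have e : x ^ 3 + 4 * k ^ 2 = (x ^ 3 + 1) + ((2 * k) ^ 2 - 1) := by ring
    have h6 : ν (x ^ 3 + 4 * k ^ 2) ≤ exp (-3) := by
      rw [e]
      exact ν.map_add_le hx3 hD1
    rw [← h5, exp_le_exp] at h6
    omega

include h in
/-- all points are in the kernel of `1 - ω` -/
theorem all_ker (hR : ∀ P ∈ (mu h).range, P = 0) (P : W.Point) : P = 0 ∨ P = tq h ∨ P = -tq h :=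
  mu_ker_all h P (hR _ ⟨P, rfl⟩)

include h in
theorem card_all_ker (hR : ∀ P ∈ (mu h).range, P = 0) : Nat.card W.Point = 3 := by
  have hs : (Set.univ : Set W.Point) = {0, tq h, -tq h} := by
    ext P
    simp only [Set.mem_univ, Set.mem_insert_iff, Set.mem_singleton_iff, true_iff]
    exact all_ker h hR P
  rw [← Set.ncard_univ, hs, Set.ncard_eq_toFinset_card']
  simp only [Set.toFinset_insert, Set.toFinset_singleton]
  rw [Finset.card_insert_of_notMem, Finset.card_insert_of_notMem, Finset.card_singleton]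
  · rw [Finset.mem_singleton]
    exact (tq_ne_neg h).symm
  · rw [Finset.mem_insert, Finset.mem_singleton, not_or]
    exact ⟨(tq_ne h).symm, (neg_ne_zero.2 (tq_ne h)).symm⟩

include h in
/-- `D = 2 k` is not a sum of two cubes -/
theorem not_cubes (hR : ∀ P ∈ (mu h).range, P = 0) (x y : F) : x ^ 3 + y ^ 3 ≠ 2 * k := by
  intro hxy
  have hk0 := h.hk
  have h2k : (2 * k : F) ≠ 0 := mul_ne_zero two_ne_zero hk0
  have hs : x + y ≠ 0 := by
    intro h0
    apply h2k
    rw [← hxy]
    have : y = -x := by linear_combination h0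
    rw [this]
    ring
  have e0 : (-(2 * k) / (x + y)) ≠ 0 := div_ne_zero (neg_ne_zero.2 h2k) hs
  have e1 : (-((1 + 2 * z) * k * (x - y) / (x + y))) ^ 2 = (-(2 * k) / (x + y)) ^ 3 + k ^ 2 := by
    have hl2 := h.l2
    field_simp
    linear_combination ((x - y) ^ 2 * (x + y)) * hl2 - 4 * hxy
  rcases all_ker h hR (.some _ _ ((h.nons _ _).2 e1)) with h1 | h1 | h1
  · exact Affine.Point.some_ne_zero _ h1
  · rw [tq, Affine.Point.some.injEq] at h1
    exact e0 h1.1
  · rw [← tq_neg, tq, Affine.Point.some.injEq] at h1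
    exact e0 h1.1

end

end

end Pool.Agent.Lib.MP_1a91b9_ntK.C
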