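import Pool.Agent.Lib.MP_1a91b9_ntK.C.Sel3j
import Pool.Agent.Lib.MP_1a91b9_ntK.C.Tors3j

/-!
# MP_1a91b9_nt (cubic twists), part C: the points for `√-3 ∣ D` and for `D = 1` modulo `3 √-3`

`D = √-3 ^ j * w ^ i * ∏ q ^ E q`; the conditions are in terms of the matrices `NE` of part A and
their bordered forms.
-/

set_option autoImplicit false
set_option linter.unusedSectionVars false

namespace Pool.Agent.Lib.MP_1a91b9_ntK.C

open NumberField IsDedekindDomain WithZero Finset WeierstrassCurve Pool.Agent.Lib.MP_1a91b9_ntT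
open Pool.Agent.Lib.MP_1a91b9_ntT3.S9 (ShaP)
open Pool.Agent.Lib.MP_1a91b9_ntH (wO s3 om_quad prime_s3)
open Pool.Agent.Lib.MP_1a91b9_ntH.C (val_one)
open Pool.Agent.Lib.MP_1a91b9_ntX.R (cs)

noncomputable section

/-! ### the matrices -/

theorem sum_erase_coe {ι M : Type*} [DecidableEq ι] [AddCommMonoid M] {S : Finset ι} (q : S)
    (f : ι → M) : ∑ p ∈ univ.erase q, f p = ∑ p ∈ S.erase q, f p := by
  have h5 : ((univ : Finset S).erase q).map (Function.Embedding.subtype _) = S.erase q := by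
    ext p
    simp only [mem_map, mem_erase, mem_univ, and_true, Function.Embedding.coe_subtype]
    constructor
    · rintro ⟨x, hx, rfl⟩
      exact ⟨fun h => hx (Subtype.ext h), x.2⟩
    · rintro ⟨h1, h2⟩
      exact ⟨⟨p, h2⟩, fun h => h1 (congrArg Subtype.val h), rfl⟩
  rw [← h5, sum_map]
  rfl

/-- a row of the matrix `NE` -/
theorem NE_row {S : Finset P3} (κ e : P3 → ZMod 3) (V : P3 → ZMod 3) (q : S) :
    (NE d3.s κ e S).mulVec (fun p => V p) q =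
      V q * (e q * (κ q + ∑ p ∈ S.erase q, e p * d3.s p q)) -
        ∑ p ∈ S.erase q, V p * d3.s p q := by
  rw [Matrix.mulVec, dotProduct, ← add_sum_erase univ _ (mem_univ q)]
  have h3 : ∑ p ∈ univ.erase q, NE d3.s κ e S q p * V p =
      -∑ p ∈ S.erase (q : P3), V p * d3.s p q := by
    rw [← sum_erase_coe q fun p => V p * d3.s p q, ← sum_neg_distrib]
    refine sum_congr rfl fun p hp => ?_
    have hpq : p ≠ q := (mem_erase.1 hp).1
    have hpq' : (p : P3) ≠ q := fun h => hpq (Subtype.ext h)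
    unfold NE
    rw [if_neg (Ne.symm hpq), d3_symm hpq']
    ring
  have h4 : ∑ p ∈ S.erase (q : P3), d3.s q p * (e q * e p) =
      e q * ∑ p ∈ S.erase (q : P3), e p * d3.s p q := by
    rw [mul_sum]
    refine sum_congr rfl fun p hp => ?_
    rw [d3_symm (mem_erase.1 hp).1]
    ring
  rw [h3]
  unfold NE
  rw [if_pos rfl, h4]
  ring

/-- **`j = 2`** (and any `j`, `α = 0`): an invertible matrix -/
theorem goodG_det {S : Finset P3} {i j γ : ZMod 3} {e κ : P3 → ZMod 3}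
    (hκ : ∀ q ∈ S, κ q = i * d3.a q + j * bq q) (h : (NE d3.s κ e S).det ≠ 0) :
    GoodG S i j e 0 γ := by
  intro V u s hu _ hV
  rw [zero_mul, add_zero] at hu
  subst hu
  have h1 := Matrix.eq_zero_of_mulVec_eq_zero h (v := fun p : S => V p) (by
    ext q
    rw [NE_row, hκ q q.2, Pi.zero_apply, sub_eq_zero, ← hV q q.2]
    ring)
  refine ⟨0, fun q hq => ?_, by ring, by ring⟩
  have h2 : V q = 0 := congrFun h1 ⟨q, hq⟩
  rw [h2, zero_mul]

/-- a solution of the equations is in the kernel of the bordered matrix -/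
theorem ker_NB {S : Finset P3} {i j ρ : ZMod 3} {e κ : P3 → ZMod 3}
    (hκ : ∀ q ∈ S, κ q = i * d3.a q + j * bq q) {c : ZMod 3} (hc : c * c = 1)
    {b₁ : Matrix S Unit (ZMod 3)} {b₂ : Matrix Unit S (ZMod 3)}
    {d : Matrix Unit Unit (ZMod 3)} (h₁ : ∀ (q : S) (x : Unit), b₁ q x = c * d3.a q)
    (h₂ : ∀ (x : Unit) (q : S), b₂ x q = c * d3.a q) (h₃ : ∀ x y, d x y = ρ)
    {V : P3 → ZMod 3} {u s : ZMod 3} (hu : u + 2 * s = 0) (hs : ∑ q ∈ S, V q * d3.a q + s * -ρ = 0)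
    (hV : ∀ q ∈ S, ∑ p ∈ S.erase q, V p * d3.s p q + u * d3.a q =
      V q * (e q * (i * d3.a q + j * bq q + ∑ p ∈ S.erase q, e p * d3.s p q))) :
    (Matrix.fromBlocks (NE d3.s κ e S) b₁ b₂ d).mulVec
      (Sum.elim (fun p : S => V p) fun _ => -(c * u)) = 0 := by
  have h3 : (3 : ZMod 3) = 0 := rfl
  have hsu : s = u := by linear_combination -hu + s * h3
  rw [Matrix.fromBlocks_mulVec]
  funext x
  rcases x with q | x
  · rw [Sum.elim_inl, Pi.zero_apply, Pi.add_apply]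
    simp only [Sum.elim_comp_inl, Sum.elim_comp_inr]
    rw [NE_row, hκ q q.2]
    have h4 : b₁.mulVec (fun _ : Unit => -(c * u)) q = -(u * d3.a q) := by
      rw [Matrix.mulVec, dotProduct, univ_unique, sum_singleton, h₁]
      linear_combination (-(u * d3.a q)) * hc
    rw [h4]
    linear_combination -(hV q q.2)
  · rw [Sum.elim_inr, Pi.zero_apply, Pi.add_apply]
    simp only [Sum.elim_comp_inl, Sum.elim_comp_inr]
    have h4 : b₂.mulVec (fun p : S => V p) x = c * ∑ q ∈ S, V q * d3.a q := by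
      rw [Matrix.mulVec, dotProduct, mul_sum, ← sum_coe_sort S fun q => c * (V q * d3.a q)]
      refine sum_congr rfl fun q _ => ?_
      rw [h₂]
      ring
    have h5 : d.mulVec (fun _ : Unit => -(c * u)) x = -(ρ * (c * u)) := by
      rw [Matrix.mulVec, dotProduct, univ_unique, sum_singleton, h₃]
      ring
    rw [h4, h5]
    rw [hsu] at hs
    linear_combination c * hs

/-- **`j = 1`**: an invertible bordered matrix -/
theorem goodG_NB {S : Finset P3} {i : ZMod 3} {e κ : P3 → ZMod 3}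
    (hκ : ∀ q ∈ S, κ q = i * d3.a q + 1 * bq q) {c : ZMod 3} (hc : c * c = 1)
    {b₁ : Matrix S Unit (ZMod 3)} {b₂ : Matrix Unit S (ZMod 3)}
    {d : Matrix Unit Unit (ZMod 3)} (h₁ : ∀ (q : S) (x : Unit), b₁ q x = c * d3.a q)
    (h₂ : ∀ (x : Unit) (q : S), b₂ x q = c * d3.a q) (h₃ : ∀ x y, d x y = i)
    (h : (Matrix.fromBlocks (NE d3.s κ e S) b₁ b₂ d).det ≠ 0) :
    GoodG S i 1 e 2 (-i) := by
  intro V u s hu hs hV
  have h1 := Matrix.eq_zero_of_mulVec_eq_zero h (ker_NB hκ hc h₁ h₂ h₃ hu hs hV)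
  refine ⟨0, fun q hq => ?_, ?_, by ring⟩
  · have h2 : V q = 0 := congrFun h1 (Sum.inl ⟨q, hq⟩)
    rw [h2, zero_mul]
  · have h2 : -(c * u) = 0 := congrFun h1 (Sum.inr ())
    linear_combination (-c) * h2 - u * hc

/-- **`D = 1` modulo `3 √-3`**: the kernel of the bordered matrix is the line of `(e, 0)` -/
theorem goodG_B0 {S : Finset P3} {ρ : ZMod 3} {e κ : P3 → ZMod 3} (hκ : ∀ q ∈ S, κ q = 0)
    {c : ZMod 3} (hc : c * c = 1)
    {b₁ : Matrix S Unit (ZMod 3)} {b₂ : Matrix Unit S (ZMod 3)}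
    {d : Matrix Unit Unit (ZMod 3)} (h₁ : ∀ (q : S) (x : Unit), b₁ q x = c * d3.a q)
    (h₂ : ∀ (x : Unit) (q : S), b₂ x q = c * d3.a q) (h₃ : ∀ x y, d x y = ρ)
    (h : ∀ v : S ⊕ Unit → ZMod 3, (Matrix.fromBlocks (NE d3.s κ e S) b₁ b₂ d).mulVec v = 0 →
      ∃ t : ZMod 3, (∀ q : S, v (Sum.inl q) = t * e q) ∧ v (Sum.inr ()) = 0) :
    GoodG S 0 0 e 2 (-ρ) := by
  intro V u s hu hs hV
  have hκ' : ∀ q ∈ S, κ q = 0 * d3.a q + 0 * bq q := fun q hq => by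
    rw [hκ q hq]
    ring
  obtain ⟨t, ht, ht'⟩ := h _ (ker_NB hκ' hc h₁ h₂ h₃ hu hs hV)
  refine ⟨t, fun q hq => ht ⟨q, hq⟩, ?_, by ring⟩
  have h2 : -(c * u) = 0 := ht'
  linear_combination (-c) * h2 - u * hc

/-! ### the points -/

open scoped Classical in
/-- the common part -/
theorem points_of {k : K} (hk0 : k ≠ 0) (hS : SelCl om k) {W : WeierstrassCurve K} (hW : W = ck k)
    (hν : (pw s3 prime_s3).valuation K (2 * k) = exp (-1) ∨
      (pw s3 prime_s3).valuation K (2 * k) = exp (-2) ∨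
      ((pw s3 prime_s3).valuation K (2 * k) = 1 ∧
        (pw s3 prime_s3).valuation K ((2 * k) ^ 2 - 1) ≤ exp (-3))) :
    Finite W.toAffine.Point ∧ Nat.card W.toAffine.Point = 3 ∧ Nat.card (ShaP 3 W) = 1 ∧
      ∀ x y : K, x ^ 3 + y ^ 3 ≠ 2 * k := by
  obtain ⟨h1, ⟨m, hm, hm'⟩, h3⟩ := of_selCl hk0 (om_quad : om ^ 2 + om + 1 = 0) hS hW
  have h : IsK W.toAffine om k := ⟨hW, om_quad, hk0⟩
  have hmem := mem_pw s3 prime_s3
  have hl : (pw s3 prime_s3).valuation K (1 + 2 * om) = exp (-1) := by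
    rw [← lK_eq]
    exact val_l hmem
  have hinj := inj_of_card h hm' hm
  have hR : ∀ P ∈ (mu h).range, P = (0 : W.toAffine.Point) := by
    rcases hν with hν | hν | ⟨hν, hν'⟩
    · exact rng_zero_j h hinj hl (Or.inl hν)
    · exact rng_zero_j h hinj hl (Or.inr hν)
    · exact rng_zero_h h hinj hl (res_three hmem) hν hν'
  exact ⟨h1, card_all_ker h hR, h3, not_cubes h hR⟩

theorem two_k_ne {k : K} {D : 𝓞 K} (hD : D ≠ 0) (hk : 2 * k = (D : K)) : k ≠ 0 := by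
  rintro rfl
  rw [mul_zero] at hk
  exact coe_ne hD hk.symm

theorem monj_ne (S : Finset P3) (j i : ℕ) (E : P3 → ℕ) : s3 ^ j * mon S i E ≠ 0 :=
  mul_ne_zero (pow_ne_zero _ prime_s3.ne_zero) (mon_ne S i E)

/-- **`√-3 ^ 2 ∣ D`** -/
theorem points_j2 (S : Finset P3) (i : ℕ) (E : P3 → ℕ) (hE : ∀ q ∈ S, ¬ 3 ∣ E q)
    (hgood : GoodG S i 2 (fun q => (E q : ZMod 3)) 0 1)
    {k : K} (hk : 2 * k = ((s3 ^ 2 * mon S i E : 𝓞 K) : K)) {W : WeierstrassCurve K}
    (hW : W = ck k) :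
    Finite W.toAffine.Point ∧ Nat.card W.toAffine.Point = 3 ∧ Nat.card (ShaP 3 W) = 1 ∧
      ∀ x y : K, x ^ 3 + y ^ 3 ≠ 2 * k := by
  refine points_of (two_k_ne (monj_ne S 2 i E) hk) (selCl_j2 S i E hE hgood hk) hW
    (Or.inr (Or.inl ?_))
  rw [hk, val_pow_mul prime_s3 (mem_pw s3 prime_s3) (s3_not_dvd_mon S i E) 2]
  rfl

/-- **`√-3 ∣ D` exactly** -/
theorem points_j1 (S : Finset P3) (i : ℕ) (E : P3 → ℕ) (hE : ∀ q ∈ S, ¬ 3 ∣ E q)
    (hgood : GoodG S i 1 (fun q => (E q : ZMod 3)) 2 (-(i : ZMod 3)))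
    {k : K} (hk : 2 * k = ((s3 ^ 1 * mon S i E : 𝓞 K) : K)) {W : WeierstrassCurve K}
    (hW : W = ck k) :
    Finite W.toAffine.Point ∧ Nat.card W.toAffine.Point = 3 ∧ Nat.card (ShaP 3 W) = 1 ∧
      ∀ x y : K, x ^ 3 + y ^ 3 ≠ 2 * k := by
  refine points_of (two_k_ne (monj_ne S 1 i E) hk) (selCl_j1 S i E hE hgood hk) hW (Or.inl ?_)
  rw [hk, val_pow_mul prime_s3 (mem_pw s3 prime_s3) (s3_not_dvd_mon S i E) 1]
  rfl

/-- **`D = 1` modulo `3 √-3`** -/
theorem points_hard (S : Finset P3) (E : P3 → ℕ) (hE : ∀ q ∈ S, ¬ 3 ∣ E q)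
    (hA : ∑ q ∈ S, (E q : ZMod 3) * d3.a q = 0)
    (hgood : GoodG S 0 0 (fun q => (E q : ZMod 3)) 2 (-∑ q ∈ S, (E q : ZMod 3) * bq q))
    {k : K} (hk : 2 * k = ((mon S 0 E : 𝓞 K) : K)) {W : WeierstrassCurve K} (hW : W = ck k) :
    Finite W.toAffine.Point ∧ Nat.card W.toAffine.Point = 3 ∧ Nat.card (ShaP 3 W) = 1 ∧
      ∀ x y : K, x ^ 3 + y ^ 3 ≠ 2 * k := by
  refine points_of (two_k_ne (mon_ne S 0 E) hk) (selCl_hard S E hE hA hgood hk) hW
    (Or.inr (Or.inr ⟨?_, ?_⟩))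
  · rw [hk]
    exact val_one fun h1 => s3_not_dvd_mon S 0 E ((mem_s3 (mem_pw s3 prime_s3) _).1 h1)
  · have hmem := mem_pw s3 prime_s3
    obtain ⟨hP, hPa⟩ := prod_in3 S E
    have hmP : mon S 0 E = ∏ q ∈ S, q.1 ^ E q := by
      unfold mon
      rw [pow_zero, one_mul]
    rw [← hmP] at hP hPa
    obtain ⟨t, ht⟩ := cl3_of_zero hP (hPa.trans hA)
    have h3l : (pw s3 prime_s3).valuation K (3 * lK) = exp (-3) :=
      nu_three_l lK_sq (val_l hmem)
    have e : (2 * k) ^ 2 - 1 = ((mon S 0 E ^ 2 - 1 : 𝓞 K) : K) := by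
      rw [hk]
      push_cast
      rfl
    rw [e, ← h3l, le_three_l_iff hmem]
    exact ⟨t * (mon S 0 E + 1), by linear_combination (mon S 0 E + 1) * ht⟩

end

end Pool.Agent.Lib.MP_1a91b9_ntK.C
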