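import Pool.Agent.Lib.MP_1a91b9_ntK.C.ShaW
import Pool.Agent.Lib.MP_1a91b9_ntK.C.PtsJ

/-!
# Points and Tate-Shafarevich group of `y² + D y = x³`, `√-3 ∣ D` or `D = ± 1` modulo `3 √-3`
-/

set_option autoImplicit false

namespace Pool.Agent.Lib.MP_1a91b9_ntK.C

open NumberField IsDedekindDomain WeierstrassCurve Pool.Agent.Lib.MP_1a91b9_ntT.S9
  Pool.Agent.Lib.MP_1a91b9_ntT3.S9 Pool.Agent.Lib.MP_1a91b9_ntT
open Pool.Agent.Lib.MP_1a91b9_ntK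
open Pool.Agent.Lib.MP_1a91b9_ntH (wO s3 om_quad prime_s3)

open scoped Classical

noncomputable section

/-- the properties of the twist by `D` used in the theorem -/
theorem wd_of_points {D D₀ : 𝓞 K} (hD : D = D₀ ∨ D = -D₀)
    (h : ∀ k : K, 2 * k = (D₀ : K) → ∀ W : WeierstrassCurve K, W = ck k →
      Finite W.toAffine.Point ∧ Nat.card W.toAffine.Point = 3 ∧ Nat.card (ShaP 3 W) = 1 ∧
      ∀ x y : K, x ^ 3 + y ^ 3 ≠ 2 * k) :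
    Finite (wd (D : K)).toAffine.Point ∧ Nat.card (wd (D : K)).toAffine.Point = 3 ∧
      Nat.card (ShaP 3 (wd (D : K))) = 1 ∧ ∀ x y : K, x ^ 3 + y ^ 3 ≠ (D : K) := by
  obtain ⟨k, hk⟩ : ∃ k : K, 2 * k = (D₀ : K) := ⟨(D₀ : K) / 2, by ring⟩
  have hDK : (D : K) = 2 * k ∨ (D : K) = -(2 * k) := by
    rcases hD with h | h
    · left
      rw [h, hk]
    · right
      rw [h, hk]
      push_cast
      rfl
  obtain ⟨h1, h2, h3, h4⟩ := h k hk _ rfl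
  obtain ⟨e1, e2, e3⟩ := wd_of_ck hDK 3
  rw [e1, e2, e3]
  refine ⟨h1, h2, h3, fun x y hxy => ?_⟩
  rcases hDK with h | h
  · exact h4 x y (by rw [hxy, h])
  · exact h4 (-x) (-y) (by linear_combination -hxy - h)

/-- **part C**, `√-3 ^ 2 ∣ D` -/
theorem wd_j2 (S : Finset P3) (i : ℕ) (E : P3 → ℕ) (hE : ∀ q ∈ S, ¬ 3 ∣ E q)
    (hgood : GoodG S i 2 (fun q => (E q : ZMod 3)) 0 1) {D : 𝓞 K}
    (hD : D = s3 ^ 2 * mon S i E ∨ D = -(s3 ^ 2 * mon S i E)) :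
    Finite (wd (D : K)).toAffine.Point ∧ Nat.card (wd (D : K)).toAffine.Point = 3 ∧
      Nat.card (ShaP 3 (wd (D : K))) = 1 ∧ ∀ x y : K, x ^ 3 + y ^ 3 ≠ (D : K) :=
  wd_of_points hD fun _ hk _ hW => points_j2 S i E hE hgood hk hW

/-- **part C**, `√-3 ∣ D` exactly -/
theorem wd_j1 (S : Finset P3) (i : ℕ) (E : P3 → ℕ) (hE : ∀ q ∈ S, ¬ 3 ∣ E q)
    (hgood : GoodG S i 1 (fun q => (E q : ZMod 3)) 2 (-(i : ZMod 3))) {D : 𝓞 K}
    (hD : D = s3 ^ 1 * mon S i E ∨ D = -(s3 ^ 1 * mon S i E)) :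
    Finite (wd (D : K)).toAffine.Point ∧ Nat.card (wd (D : K)).toAffine.Point = 3 ∧
      Nat.card (ShaP 3 (wd (D : K))) = 1 ∧ ∀ x y : K, x ^ 3 + y ^ 3 ≠ (D : K) :=
  wd_of_points hD fun _ hk _ hW => points_j1 S i E hE hgood hk hW

/-- **part C**, `D = ± 1` modulo `3 √-3` -/
theorem wd_hard (S : Finset P3) (E : P3 → ℕ) (hE : ∀ q ∈ S, ¬ 3 ∣ E q)
    (hA : ∑ q ∈ S, (E q : ZMod 3) * d3.a q = 0)
    (hgood : GoodG S 0 0 (fun q => (E q : ZMod 3)) 2 (-∑ q ∈ S, (E q : ZMod 3) * bq q)) {D : 𝓞 K}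
    (hD : D = mon S 0 E ∨ D = -mon S 0 E) :
    Finite (wd (D : K)).toAffine.Point ∧ Nat.card (wd (D : K)).toAffine.Point = 3 ∧
      Nat.card (ShaP 3 (wd (D : K))) = 1 ∧ ∀ x y : K, x ^ 3 + y ^ 3 ≠ (D : K) :=
  wd_of_points hD fun _ hk _ hW => points_hard S E hE hA hgood hk hW

end

end Pool.Agent.Lib.MP_1a91b9_ntK.C
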