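import Pool.Agent.Lib.MP_1a91b9_ntK.A.Rat3J
import Pool.Agent.Lib.MP_1a91b9_ntK.A.Ser2
import Pool.Agent.Lib.MP_1a91b9_ntK.C.PerJ
import Pool.Agent.Lib.MP_1a91b9_ntK.C.Part3
import Pool.Agent.Lib.MP_1a91b9_ntK.C.ShaWj

/-!
# The 3-part of the conjecture of Birch and Swinnerton-Dyer for `y² + D y = x³`, all classes
-/

set_option autoImplicit false

namespace Pool.Agent.Lib.MP_1a91b9_ntK

open NumberField IsDedekindDomain Pool.Agent.Lib.MP_1a91b9_ntT Pool.Agent.Lib.MP_1a91b9_ntG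
open Pool.Agent.Lib.MP_1a91b9_ntH (wO s3 cp s3_ne)

/-- **The L-series of the cubic twist**, all classes, both signs. -/
theorem serjs (k j : ZMod 3) (e : P3 → ZMod 3) (S : Finset P3) (he : ∀ q ∈ S, e q ≠ 0) {D : 𝓞 K}
    (hD : D = Dj k j e S ∨ D = -Dj k j e S) :
    ∃ g : ℂ → ℂ, Differentiable ℂ g ∧
      (∀ s : ℂ, 3 / 2 < s.re → g s = (WD D).LSeries s) ∧
      g 1 = Lj k j e S 1 * (starRingEnd ℂ) (Lj k j e S 1) := by
  have hdv : ∀ x : 𝓞 K, x ∣ D ↔ x ∣ Dj k j e S := by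
    intro x
    rcases hD with rfl | rfl
    · rfl
    · exact dvd_neg
  have hne : D ≠ 0 := by
    rcases hD with rfl | rfl
    · exact Dj_ne k j e S
    · exact neg_ne_zero.2 (Dj_ne k j e S)
  refine ser3_gen (Xj_chr k j e S) hne (fun q hq => ?_) (fun q hq => ?_)
  · rw [hdv] at hq
    rw [hdv]
    exact ⟨Dj_cube k j e S q, Xj_bad k j e S q (Dj_dvd k j e S q hq)⟩
  · have hq' : ¬ q.1 ∣ Dj k j e S := by rwa [← hdv]
    rw [Xj_good k j e S q fun h => hq' (Dj_of_mem k j e S he q h)]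
    congr 1
    rcases hD with rfl | rfl
    · rfl
    · exact (cq_neg q hq').symm

theorem r3_P3 (q : P3) : r3 q.1 = 1 := by
  obtain ⟨y, hy⟩ := q.2.2
  have e : q.1 = 1 + 3 * y := by linear_combination hy
  rw [e, map_add, map_one, map_mul, Avg_r3_three, zero_mul, add_zero]

theorem r3_Dk (k : ZMod 3) (e : P3 → ZMod 3) (S : Finset P3) : r3 (Dk k e S) = 1 := by
  have h : ∀ q ∈ S, r3 (q.1 ^ (e q).val) = 1 := fun q _ => by rw [map_pow, r3_P3, one_pow]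
  rw [Dk, map_mul, map_pow, r3_w, one_pow, one_mul, map_prod, Finset.prod_congr rfl h,
    Finset.prod_const_one]

section
variable {A : ValuationSubring ℂ}

theorem v_Dk (hA : Three A) (k : ZMod 3) (e : P3 → ZMod 3) (S : Finset P3) :
    A.valuation (em (Dk k e S)) = 1 :=
  rt_em_unit hA (by
    rw [← r3_eq_zero, r3_Dk]
    decide)

/-- the valuation for `j = 2` -/
theorem valj2 (hA : Three A) (k : ZMod 3) {e : P3 → ZMod 3} {S : Finset P3}
    (he : ∀ q ∈ S, e q ≠ 0) (h : (NJ k 2 e S).det ≠ 0) :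
    A.valuation ((Lj k 2 e S 1 * 3 / (Om * sq3 ^ (S.card + 1))) ^ 3 * em (Dj k 2 e S)) = 1 := by
  have h0 : -((∏ q ∈ S, e q) * (NJ k 2 e S).det) ≠ 0 :=
    neg_ne_zero.2 (mul_ne_zero (Finset.prod_ne_zero_iff.2 he) h)
  have h1 := (nu2_res hA k S he).unit hA h0
  have a1 := Om_ne_zero
  have a2 := kapC_ne
  have a3 := sq3_ne
  have a4 := one_sub_zt_ne
  have a6 : em (DD3 S) ≠ 0 := rt_em_ne (DD3_ne S)
  have a7 : (1 - zt) ^ S.card ≠ 0 := pow_ne_zero _ a4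
  have a8 : sq3 ^ S.card ≠ 0 := pow_ne_zero _ a3
  have e9 : em (9 : 𝓞 K) = 9 := Avg2_em_nine
  have e1 : Lj k 2 e S 1 * 3 / (Om * sq3 ^ (S.card + 1)) =
      nu2 k e S * (kapC * ((1 - zt) / sq3) ^ S.card / (em (DD3 S) * sq3)) := by
    rw [nu2, N2, rt_em_mul, e9, div_pow, pow_succ]
    field_simp
    norm_num
  have e2 : em (Dj k 2 e S) = sq3 ^ 2 * em (Dk k e S) := by
    have hv : (2 : ZMod 3).val = 2 := rfl
    have h3 : em s3 = sq3 := em_s3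
    rw [Dj, hv, rt_em_mul, em_s3_pow, h3]
  have e3 : (Lj k 2 e S 1 * 3 / (Om * sq3 ^ (S.card + 1))) ^ 3 * em (Dj k 2 e S) =
      nu2 k e S ^ 3 * (y0 / 2 * (((1 - zt) / sq3) ^ S.card) ^ 3 * em (Dk k e S) /
        em (DD3 S) ^ 3) * (-1) := by
    rw [e1, e2, mul_pow, div_pow, mul_pow kapC, kapC_cube, eta]
    field_simp
  rw [e3, map_mul, map_mul, map_pow, h1, map_div₀, map_mul, map_mul, map_div₀, map_pow, map_pow,
    map_pow, v_zt_div, v_y0, v_two3 hA, v_Dk hA, v_DD3 hA, Valuation.map_neg, map_one]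
  simp

/-- the valuation for `j = 0`, not hard -/
theorem valj0 (hA : Three A) {k : ZMod 3} {e : P3 → ZMod 3} {S : Finset P3} {r : ℕ}
    (h : A.valuation (Lk k e S 1 * 3 / (Om * sq3 ^ r)) = 1) :
    A.valuation ((Lk k e S 1 * 3 / (Om * sq3 ^ r)) ^ 3 * em (Dk k e S)) = 1 := by
  rw [map_mul, map_pow, h, v_Dk hA, one_pow, one_mul]

end

end Pool.Agent.Lib.MP_1a91b9_ntK

namespace Pool.Agent.Lib.MP_1a91b9_ntK.C

open NumberField IsDedekindDomain WeierstrassCurve Pool.Agent.Lib.MP_1a91b9_ntT.S9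
  Pool.Agent.Lib.MP_1a91b9_ntT3.S9 Pool.Agent.Lib.MP_1a91b9_ntT
open Pool.Agent.Lib.MP_1a91b9_ntK
open Pool.Agent.Lib.MP_1a91b9_ntH (wO s3 prime_s3)

open scoped Classical

/-- **Q2**, general form -/
theorem partj_of {k j : ZMod 3} {e : P3 → ZMod 3} {S : Finset P3} (he : ∀ q ∈ S, e q ≠ 0) {r : ℕ}
    (hν : ∀ A : ValuationSubring ℂ, Three A →
      A.valuation ((Lj k j e S 1 * 3 / (Om * sq3 ^ r)) ^ 3 * em (Dj k j e S)) = 1)
    {D : 𝓞 K} (hD : D = Dj k j e S ∨ D = -Dj k j e S) (hcube : ∀ p : 𝓞 K, Prime p → ¬ p ^ 3 ∣ D)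
    (hfin : Finite (wd (D : K)).toAffine.Point) {m : ℕ} (hm : ¬ 3 ∣ m)
    (hC : Nat.card (wd (D : K)).toAffine.Point = 3 * m)
    (hsha : Nat.card (ShaP 3 (wd (D : K))) = 1) {t : ℕ} (ht : ¬ 3 ∣ t)
    (hT : (∏ᶠ v : HeightOneSpectrum (𝓞 K), tam (wd (D : K)) v) = 3 ^ r * t) :
    PPartQ 3 (wd (D : K)) := by
  have hnD : em D = em (Dj k j e S) ∨ em D = -em (Dj k j e S) := by
    rcases hD with rfl | rfl
    · exact Or.inl rfl
    · exact Or.inr (rt_em_neg _)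
  have hnn : ‖em D‖ = ‖em (Dj k j e S)‖ := by
    rcases hnD with h | h
    · rw [h]
    · rw [h, norm_neg]
  have hne : D ≠ 0 := by
    rcases hD with rfl | rfl
    · exact Dj_ne k j e S
    · exact neg_ne_zero.2 (Dj_ne k j e S)
  obtain ⟨g, hgd, hgs, hg⟩ := serjs k j e S he hD
  refine ppartQ3j hne hcube hgd hgs hg (fun A hA => ?_) hfin hm hC ht hT hsha ?_
  · rcases hnD with h | h
    · rw [h]
      exact hν A hA
    · rw [h, mul_neg, Valuation.map_neg]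
      exact hν A hA
  · rw [hnn]
    exact crat3j k j e S

theorem kapJ_eq (k j : ZMod 3) (q : P3) : kapJ k j q = k * d3.a q + j * bq q := by
  have h1 : d3.a q = -abar q.1 := abar_q q
  have h2 : bq q = bbar q.1 := bbar_q q
  rw [kapJ, h1, h2]
  ring

/-- **Q2**, `j = 2` -/
theorem part_j2 {k : ZMod 3} {e : P3 → ZMod 3} {S : Finset P3} (he : ∀ q ∈ S, e q ≠ 0)
    (h : (NJ k 2 e S).det ≠ 0) {D : 𝓞 K} (hD : D = Dj k 2 e S ∨ D = -Dj k 2 e S)
    (hcube : ∀ p : 𝓞 K, Prime p → ¬ p ^ 3 ∣ D) {t : ℕ} (ht : ¬ 3 ∣ t)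
    (hT : (∏ᶠ v : HeightOneSpectrum (𝓞 K), tam (wd (D : K)) v) = 3 ^ (S.card + 1) * t) :
    PPartQ 3 (wd (D : K)) ∧ Nat.card (ShaP 3 (wd (D : K))) = 1 := by
  have hE : ∀ q ∈ S, ¬ 3 ∣ (e q).val := by
    intro q hq h
    have h1 := ZMod.val_lt (e q)
    have h2 : (e q).val = 0 := by omega
    exact he q hq ((ZMod.val_eq_zero _).1 h2)
  have hgood : GoodG S (k.val : ℕ) 2 (fun q => ((e q).val : ZMod 3)) 0 1 := by
    simp only [ZMod.natCast_zmod_val]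
    exact goodG_det (κ := kapJ k 2) (fun q _ => kapJ_eq k 2 q) h
  obtain ⟨f1, f2, f3, -⟩ := wd_j2 S k.val (fun q => (e q).val) hE hgood hD
  exact ⟨partj_of he (fun A hA => valj2 hA k he h) hD hcube f1 (m := 1) (by norm_num)
    (by rw [f2]) f3 ht hT, f3⟩

end Pool.Agent.Lib.MP_1a91b9_ntK.C
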