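import Pool.Agent.Lib.MP_1a91b9_ntK.A.IndH
import Pool.Agent.Lib.MP_1a91b9_ntK.A.StarH
import Pool.Agent.Lib.MP_1a91b9_ntK.C.PartJ

/-!
# The 3-part of the conjecture of Birch and Swinnerton-Dyer for `y² + D y = x³`: the classes
`D = ± 1` modulo `3 √-3`
-/

set_option autoImplicit false

namespace Pool.Agent.Lib.MP_1a91b9_ntK

open NumberField IsDedekindDomain Pool.Agent.Lib.MP_1a91b9_ntT Pool.Agent.Lib.MP_1a91b9_ntG
open Pool.Agent.Lib.MP_1a91b9_ntH (wO s3 cp s3_ne)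

section
variable {A : ValuationSubring ℂ}

/-- the valuation in the hard class -/
theorem valh (hA : Three A) {e : P3 → ZMod 3} {S : Finset P3} (h : A.valuation (xH e S) = 1) :
    A.valuation (Lk 0 e S 1 * 3 / (Om * sq3 ^ (S.card + 1))) = 1 := by
  have a1 := Om_ne_zero
  have a2 := E13_ne
  have a3 := sq3_ne
  have a4 := one_sub_zt_ne
  have a5 : em s3 ≠ 0 := rt_em_ne s3_ne
  have a6 : em (DD3 S) ≠ 0 := rt_em_ne (DD3_ne S)
  have a7 : (1 - zt) ^ S.card ≠ 0 := pow_ne_zero _ a4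
  have a8 : sq3 ^ S.card ≠ 0 := pow_ne_zero _ a3
  have e1 : Lk 0 e S 1 * 3 / (Om * sq3 ^ (S.card + 1)) =
      xH e S * (E1 (1 / 3) * sq3 / Om * ((1 - zt) / sq3) ^ (S.card + 2) / em (DD3 S)) := by
    rw [xH, muH, N0, rt_em_mul, rt_em_mul, rt_em_three, div_pow, pow_succ sq3,
      show S.card + 2 = S.card + 1 + 1 by ring, pow_succ, pow_succ, pow_succ, pow_succ]
    field_simp
  rw [e1, map_mul, h, one_mul, map_div₀, map_mul, map_pow, v_zt_div, v_E13, v_DD3 hA, one_pow,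
    one_mul, div_one]

end

end Pool.Agent.Lib.MP_1a91b9_ntK

namespace Pool.Agent.Lib.MP_1a91b9_ntK.C

open NumberField IsDedekindDomain WeierstrassCurve Pool.Agent.Lib.MP_1a91b9_ntT.S9
  Pool.Agent.Lib.MP_1a91b9_ntT3.S9 Pool.Agent.Lib.MP_1a91b9_ntT
open Pool.Agent.Lib.MP_1a91b9_ntK
open Pool.Agent.Lib.MP_1a91b9_ntH (wO s3 prime_s3)

open scoped Classical

/-- **Q2**, general form for `j = 0` -/
theorem part0_of {k : ZMod 3} {e : P3 → ZMod 3} {S : Finset P3} (he : ∀ q ∈ S, e q ≠ 0) {r : ℕ}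
    (hν : ∀ A : ValuationSubring ℂ, Three A →
      A.valuation (Lk k e S 1 * 3 / (Om * sq3 ^ r)) = 1)
    {D : 𝓞 K} (hD : D = Dk k e S ∨ D = -Dk k e S) (hcube : ∀ p : 𝓞 K, Prime p → ¬ p ^ 3 ∣ D)
    (hfin : Finite (wd (D : K)).toAffine.Point) {m : ℕ} (hm : ¬ 3 ∣ m)
    (hC : Nat.card (wd (D : K)).toAffine.Point = 3 * m)
    (hsha : Nat.card (ShaP 3 (wd (D : K))) = 1) {t : ℕ} (ht : ¬ 3 ∣ t)
    (hT : (∏ᶠ v : HeightOneSpectrum (𝓞 K), tam (wd (D : K)) v) = 3 ^ r * t) :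
    PPartQ 3 (wd (D : K)) := by
  have hnD : em D = em (Dk k e S) ∨ em D = -em (Dk k e S) := by
    rcases hD with rfl | rfl
    · exact Or.inl rfl
    · exact Or.inr (rt_em_neg _)
  have hnn : ‖em D‖ = ‖em (Dk k e S)‖ := by
    rcases hnD with h | h
    · rw [h]
    · rw [h, norm_neg]
  have hne : D ≠ 0 := by
    rcases hD with rfl | rfl
    · exact Dk_ne k e S
    · exact neg_ne_zero.2 (Dk_ne k e S)
  obtain ⟨g, hgd, hgs, hg⟩ := ser3s k e S he hD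
  refine ppartQ3j hne hcube hgd hgs hg (fun A hA => ?_) hfin hm hC ht hT hsha ?_
  · rcases hnD with h | h
    · rw [h]
      exact valj0 hA (hν A hA)
    · rw [h, mul_neg, Valuation.map_neg]
      exact valj0 hA (hν A hA)
  · rw [hnn]
    exact crat3 k e S

/-- **Q2**, `D = ± 1` modulo `3 √-3` -/
theorem part_hard {e : P3 → ZMod 3} {S : Finset P3} (hS0 : S.Nonempty) (he : ∀ q ∈ S, e q ≠ 0)
    (hS : ∑ q ∈ S, e q * aP q = 0)
    (hker : ∀ v : S ⊕ Unit → ZMod 3, (NH d3.s aP bP e S).mulVec v = 0 →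
      ∃ c : ZMod 3, (∀ i : S, v (Sum.inl i) = c * e i) ∧ v (Sum.inr ()) = 0)
    {D : 𝓞 K} (hD : D = Dk 0 e S ∨ D = -Dk 0 e S)
    (hcube : ∀ p : 𝓞 K, Prime p → ¬ p ^ 3 ∣ D) {t : ℕ} (ht : ¬ 3 ∣ t)
    (hT : (∏ᶠ v : HeightOneSpectrum (𝓞 K), tam (wd (D : K)) v) = 3 ^ (S.card + 1) * t) :
    PPartQ 3 (wd (D : K)) ∧ Nat.card (ShaP 3 (wd (D : K))) = 1 := by
  have hE : ∀ q ∈ S, ¬ 3 ∣ (e q).val := by
    intro q hq h
    have h1 := ZMod.val_lt (e q)
    have h2 : (e q).val = 0 := by omega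
    exact he q hq ((ZMod.val_eq_zero _).1 h2)
  have hc : (-1 : ZMod 3) * -1 = 1 := by decide
  have ha : ∀ q : P3, aP q = -1 * d3.a q := by
    intro q
    have h1 : d3.a q = -abar q.1 := abar_q q
    rw [aP, h1, neg_one_mul, neg_neg]
  have hb : ∀ q : P3, bP q = bq q := fun q => (bbar_q q).symm
  have hgood : GoodG S 0 0 (fun q => ((e q).val : ZMod 3)) 2
      (-∑ q ∈ S, (((e q).val : ℕ) : ZMod 3) * bq q) := by
    simp only [ZMod.natCast_zmod_val]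
    exact goodG_B0 (κ := 0) (fun _ _ => rfl) hc (b₁ := fun i _ => aP i)
      (b₂ := fun _ j => aP j) (d := fun _ _ => ∑ q ∈ S, e q * bP q) (fun q _ => ha q)
      (fun _ q => ha q) (fun _ _ => by simp only [hb]) hker
  have hS' : ∑ q ∈ S, (((e q).val : ℕ) : ZMod 3) * d3.a q = 0 := by
    simp only [ZMod.natCast_zmod_val]
    have h1 : ∑ q ∈ S, e q * d3.a q = -∑ q ∈ S, e q * aP q := by
      rw [← Finset.sum_neg_distrib]
      refine Finset.sum_congr rfl fun q _ => ?_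
      rw [ha]
      ring
    rw [h1, hS, neg_zero]
  obtain ⟨f1, f2, f3, -⟩ := wd_hard S (fun q => (e q).val) hE hS' hgood hD
  have hk : kapH d3.s aP bP e S ≠ 0 := kapH_ne_of_ker d3.s d3_sym aP bP e hS0 he hS hker
  exact ⟨part0_of (k := 0) he (fun A hA => valh hA (xH_val hA hS0 he hS hk)) hD hcube f1 (m := 1) (by norm_num)
    (by rw [f2]) f3 ht hT, f3⟩

end Pool.Agent.Lib.MP_1a91b9_ntK.C
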