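import Pool.Agent.Lib.MP_1a91b9_ntK.A.Ind1
import Pool.Agent.Lib.MP_1a91b9_ntK.C.PartJ

/-!
# The 3-part of the conjecture of Birch and Swinnerton-Dyer for `y² + D y = x³`: `j = 1`
-/

set_option autoImplicit false

namespace Pool.Agent.Lib.MP_1a91b9_ntK

open NumberField IsDedekindDomain Pool.Agent.Lib.MP_1a91b9_ntT Pool.Agent.Lib.MP_1a91b9_ntG
open Pool.Agent.Lib.MP_1a91b9_ntH (wO s3 cp s3_ne)

section
variable {A : ValuationSubring ℂ}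

/-- the valuation for `j = 1` -/
theorem valj1 (hA : Three A) (k : ZMod 3)
    {e : P3 → ZMod 3} {S : Finset P3} (he : ∀ q ∈ S, e q ≠ 0) (h : (NJ1 k e S).det ≠ 0) :
    A.valuation ((Lj k 1 e S 1 * 3 / (Om * sq3 ^ (S.card + 1))) ^ 3 * em (Dj k 1 e S)) = 1 := by
  have hN := v_N1 hA
  have h0 : (∏ q ∈ S, e q) * (NJ1 k e S).det ≠ 0 :=
    mul_ne_zero (Finset.prod_ne_zero_iff.2 he) h
  have h1 := (nu1_res hA k S he).unit hA h0
  have a1 := Om_ne_zero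
  have a2 := N1_ne
  have a3 := sq3_ne
  have a4 := one_sub_zt_ne
  have a6 : em (DD3 S) ≠ 0 := rt_em_ne (DD3_ne S)
  have a7 : (1 - zt) ^ S.card ≠ 0 := pow_ne_zero _ a4
  have a8 : sq3 ^ S.card ≠ 0 := pow_ne_zero _ a3
  have e9 : em (9 : 𝓞 K) = 9 := Avg2_em_nine
  have e1 : Lj k 1 e S 1 * 3 / (Om * sq3 ^ (S.card + 1)) =
      nu1 k e S * (N1 / (3 * Om) * ((1 - zt) / sq3) ^ S.card / (em (DD3 S) * sq3)) := by
    rw [nu1, rt_em_mul, e9, div_pow, pow_succ]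
    field_simp
    norm_num
  have e2 : em (Dj k 1 e S) = sq3 * em (Dk k e S) := by
    have hv : (1 : ZMod 3).val = 1 := rfl
    have h3 : em s3 = sq3 := em_s3
    rw [Dj, hv, rt_em_mul, em_s3_pow, h3, pow_one]
  have e3 : (Lj k 1 e S 1 * 3 / (Om * sq3 ^ (S.card + 1))) ^ 3 * em (Dj k 1 e S) =
      nu1 k e S ^ 3 * ((N1 / (3 * Om)) ^ 3 / 3 * (((1 - zt) / sq3) ^ S.card) ^ 3 *
        em (Dk k e S) / em (DD3 S) ^ 3) * (-1) := by
    have h5 : (3 : ℂ) = -sq3 ^ 2 := by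
      rw [sq3_sq]
      norm_num
    obtain ⟨B, hB⟩ : ∃ B, B = N1 / (3 * Om) := ⟨_, rfl⟩
    rw [e1, e2, ← hB, h5]
    field_simp
  have h33 : A.valuation (3 : ℂ) ≠ 0 := by
    rw [Valuation.ne_zero_iff]
    norm_num
  rw [e3, map_mul, map_mul, map_pow, h1, map_div₀, map_mul, map_mul, map_div₀, hN, map_pow, map_pow,
    map_pow, v_zt_div, v_Dk hA, v_DD3 hA, Valuation.map_neg, map_one, div_self h33]
  simp

end

end Pool.Agent.Lib.MP_1a91b9_ntK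

namespace Pool.Agent.Lib.MP_1a91b9_ntK.C

open NumberField IsDedekindDomain WeierstrassCurve Pool.Agent.Lib.MP_1a91b9_ntT.S9
  Pool.Agent.Lib.MP_1a91b9_ntT3.S9 Pool.Agent.Lib.MP_1a91b9_ntT
open Pool.Agent.Lib.MP_1a91b9_ntK
open Pool.Agent.Lib.MP_1a91b9_ntH (wO s3 prime_s3)

open scoped Classical

/-- **Q2**, `j = 1` -/
theorem part_j1 {k : ZMod 3} {e : P3 → ZMod 3} {S : Finset P3} (he : ∀ q ∈ S, e q ≠ 0)
    (h : (NJ1 k e S).det ≠ 0) {D : 𝓞 K} (hD : D = Dj k 1 e S ∨ D = -Dj k 1 e S)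
    (hcube : ∀ p : 𝓞 K, Prime p → ¬ p ^ 3 ∣ D) {t : ℕ} (ht : ¬ 3 ∣ t)
    (hT : (∏ᶠ v : HeightOneSpectrum (𝓞 K), tam (wd (D : K)) v) = 3 ^ (S.card + 1) * t) :
    PPartQ 3 (wd (D : K)) ∧ Nat.card (ShaP 3 (wd (D : K))) = 1 := by
  have hE : ∀ q ∈ S, ¬ 3 ∣ (e q).val := by
    intro q hq h
    have h1 := ZMod.val_lt (e q)
    have h2 : (e q).val = 0 := by omega
    exact he q hq ((ZMod.val_eq_zero _).1 h2)
  have hc : (-1 : ZMod 3) * -1 = 1 := by decide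
  have ha : ∀ q : P3, aP q = -1 * d3.a q := by
    intro q
    have h1 : d3.a q = -abar q.1 := abar_q q
    rw [aP, h1, neg_one_mul, neg_neg]
  have hgood : GoodG S (k.val : ℕ) 1 (fun q => ((e q).val : ZMod 3)) 2 (-((k.val : ℕ) : ZMod 3)) := by
    simp only [ZMod.natCast_zmod_val]
    exact goodG_NB (κ := kapJ k 1) (fun q _ => kapJ_eq k 1 q) hc (b₁ := fun i _ => aP i)
      (b₂ := fun _ j => aP j) (d := fun _ _ => k) (fun q _ => ha q) (fun _ q => ha q)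
      (fun _ _ => rfl) h
  obtain ⟨f1, f2, f3, -⟩ := wd_j1 S k.val (fun q => (e q).val) hE hgood hD
  exact ⟨partj_of he (fun A hA => valj1 hA k he h) hD hcube f1 (m := 1) (by norm_num)
    (by rw [f2]) f3 ht hT, f3⟩

end Pool.Agent.Lib.MP_1a91b9_ntK.C
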