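import Pool.Agent.Lib.MP_1a91b9_ntK.C.TamJ
import Pool.Agent.Lib.MP_1a91b9_ntK.C.PartJ1

/-!
# Cubic twists: the statement of Q2 for the classes of `D` (without the hard class)
-/

set_option autoImplicit false

namespace Pool.Agent.Lib.MP_1a91b9_ntK.C

open NumberField IsDedekindDomain WeierstrassCurve Pool.Agent.Lib.MP_1a91b9_ntT.S9
  Pool.Agent.Lib.MP_1a91b9_ntT3.S9 Pool.Agent.Lib.MP_1a91b9_ntT
open Pool.Agent.Lib.MP_1a91b9_ntK
open Pool.Agent.Lib.MP_1a91b9_ntH (wO s3 prime_s3)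

open scoped Classical

/-! ### The primes which divide `D` -/

theorem PD.neg {ι : Type} {D : 𝓞 K} {p : ι → 𝓞 K} {S : Finset ι} (h : PD D p S) : PD (-D) p S where
  prime := h.prime
  inj := h.inj
  dvd q hq := (h.dvd q hq).neg_right
  cube q hq h1 := h.cube q hq ((dvd_neg).1 h1)
  all r hr h1 := h.all r hr ((dvd_neg).1 h1)

theorem PD.pm {ι : Type} {D D₀ : 𝓞 K} {p : ι → 𝓞 K} {S : Finset ι} (h : PD D₀ p S)
    (hD : D = D₀ ∨ D = -D₀) : PD D p S := by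
  rcases hD with rfl | rfl
  · exact h
  · exact h.neg

theorem Dk_all (k : ZMod 3) (e : P3 → ZMod 3) (S : Finset P3) {r : 𝓞 K} (hr : Prime r)
    (h : r ∣ Dk k e S) : ∃ q ∈ S, q.1 ∣ r := by
  rcases hr.dvd_or_dvd h with h1 | h1
  · exfalso
    have h2 := hr.dvd_of_dvd_pow h1
    have h3 : wO * wO ^ 2 = 1 := by
      have := Pool.Agent.Lib.MP_1a91b9_ntH.wO_quad
      linear_combination (wO - 1) * this
    exact hr.not_isUnit (isUnit_of_dvd_one (h2.trans ⟨wO ^ 2, h3.symm⟩))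
  · obtain ⟨q, hq, h2⟩ := (hr.dvd_finsetProd_iff _).1 h1
    have h3 := hr.dvd_of_dvd_pow h2
    exact ⟨q, hq, ((hr.dvd_prime_iff_associated q.2.1).1 h3).symm.dvd⟩

theorem PD_Dk (k : ZMod 3) {e : P3 → ZMod 3} {S : Finset P3} (he : ∀ q ∈ S, e q ≠ 0) :
    PD (Dk k e S) (fun q : P3 => q.1) S where
  prime q _ := q.2.1
  inj q _ r _ h := by
    by_contra hne
    exact P3.not_dvd hne h
  dvd q hq := Dk_of_mem k e S he q hq
  cube q _ := Dk_cube k e S q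
  all r hr h := Dk_all k e S hr h

theorem PD_Dj (k : ZMod 3) {j : ZMod 3} (hj : j ≠ 0) {e : P3 → ZMod 3} {S : Finset P3}
    (he : ∀ q ∈ S, e q ≠ 0) :
    PD (Dj k j e S) (fun o : Option P3 => o.elim s3 fun q => q.1) (Finset.insertNone S) where
  prime o _ := by
    rcases o with _ | q
    · exact prime_s3
    · exact q.2.1
  inj o _ o' _ h := by
    rcases o with _ | q <;> rcases o' with _ | q'
    · rfl
    · exact absurd h (not_s3_dvd q'.2.2)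
    · exact absurd h (Ser2_s3 q)
    · by_contra hne
      exact P3.not_dvd (fun h' => hne (by rw [h'])) h
  dvd o ho := by
    rcases o with _ | q
    · refine Dvd.dvd.mul_right (dvd_pow_self s3 ?_) _
      intro h
      exact hj ((ZMod.val_eq_zero _).1 h)
    · exact Dj_of_mem k j e S he q (Finset.some_mem_insertNone.1 ho)
  cube o _ := by
    rcases o with _ | q
    · intro h
      change s3 ^ 3 ∣ s3 ^ j.val * Dk k e S at h
      have hv : j.val ≤ 2 := by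
        have := ZMod.val_lt j
        omega
      have h1 : ¬ s3 ∣ Dk k e S := by
        rw [← r3_eq_zero, r3_Dk]
        decide
      have h2 : s3 ^ j.val * s3 ^ (3 - j.val) ∣ s3 ^ j.val * Dk k e S := by
        rw [← pow_add, Nat.add_sub_cancel' (by omega)]
        exact h
      have h3 := (mul_dvd_mul_iff_left (pow_ne_zero _ prime_s3.ne_zero)).1 h2
      exact h1 ((dvd_pow_self s3 (by omega)).trans h3)
    · exact Dj_cube k j e S q
  all r hr h := by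
    rcases hr.dvd_or_dvd h with h1 | h1
    · exact ⟨none, Finset.none_mem_insertNone,
        ((hr.dvd_prime_iff_associated prime_s3).1 (hr.dvd_of_dvd_pow h1)).symm.dvd⟩
    · obtain ⟨q, hq, h2⟩ := Dk_all k e S hr h1
      exact ⟨some q, Finset.some_mem_insertNone.2 hq, h2⟩

theorem exists_w3 : ∃ v : HeightOneSpectrum (𝓞 K), s3 ∈ v.asIdeal :=
  ⟨⟨Ideal.span {s3}, (Ideal.span_singleton_prime prime_s3.ne_zero).2 prime_s3, by
    rw [Ne, Ideal.span_singleton_eq_bot]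
    exact prime_s3.ne_zero⟩, Ideal.mem_span_singleton_self _⟩

theorem pm_ne {D D₀ : 𝓞 K} (h : D₀ ≠ 0) (hD : D = D₀ ∨ D = -D₀) : D ≠ 0 := by
  rcases hD with rfl | rfl
  · exact h
  · exact neg_ne_zero.2 h

theorem pm_dvd {D D₀ : 𝓞 K} (hD : D = D₀ ∨ D = -D₀) (x : 𝓞 K) : x ∣ D ↔ x ∣ D₀ := by
  rcases hD with rfl | rfl
  · rfl
  · exact dvd_neg

/-- the product of the Tamagawa numbers, `√-3 ∣ D` -/
theorem finprod_Dj {k j : ZMod 3} (hj : j ≠ 0) {e : P3 → ZMod 3} {S : Finset P3}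
    (he : ∀ q ∈ S, e q ≠ 0) {D : 𝓞 K} (hD : D = Dj k j e S ∨ D = -Dj k j e S)
    (hcube : ∀ p : 𝓞 K, Prime p → ¬ p ^ 3 ∣ D) :
    ∏ᶠ v : HeightOneSpectrum (𝓞 K), tam (wd (D : K)) v = 3 ^ (S.card + 1) := by
  obtain ⟨w3, hw3⟩ := exists_w3
  have h3 : s3 ∣ D := by
    rw [pm_dvd hD]
    refine Dvd.dvd.mul_right (dvd_pow_self s3 ?_) _
    intro h
    exact hj ((ZMod.val_eq_zero _).1 h)
  rw [finprod_tam_wd ((PD_Dj k hj he).pm hD) (pm_ne (Dj_ne k j e S) hD) hcube hw3, if_pos h3,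
    mul_one, Finset.card_insertNone]

/-- the product of the Tamagawa numbers, `D` prime to `√-3` -/
theorem finprod_Dk {k : ZMod 3} {e : P3 → ZMod 3} {S : Finset P3}
    (he : ∀ q ∈ S, e q ≠ 0) {D : 𝓞 K} (hD : D = Dk k e S ∨ D = -Dk k e S)
    (hcube : ∀ p : 𝓞 K, Prime p → ¬ p ^ 3 ∣ D) {w3 : HeightOneSpectrum (𝓞 K)}
    (hw3 : s3 ∈ w3.asIdeal) :
    ∏ᶠ v : HeightOneSpectrum (𝓞 K), tam (wd (D : K)) v = 3 ^ S.card * tam (wd (D : K)) w3 := by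
  have h3 : ¬ s3 ∣ D := by
    rw [pm_dvd hD, ← r3_eq_zero, r3_Dk]
    decide
  rw [finprod_tam_wd ((PD_Dk k he).pm hD) (pm_ne (Dk_ne k e S) hD) hcube hw3, if_neg h3]

/-! ### The statements -/

/-- The statement of **Q2** for one `D`. -/
def Q2 (D : 𝓞 K) : Prop :=
  PPartQ 3 (wd (D : K)) ∧ Nat.card (ShaP 3 (wd (D : K))) = 1 ∧
    ∀ v : HeightOneSpectrum (𝓞 K), D ∈ v.asIdeal → tam (wd (D : K)) v = 3

/-- **Q2**, `√-3 ^ 2 ∣ D` -/
theorem q2_j2 {k : ZMod 3} {e : P3 → ZMod 3} {S : Finset P3} (he : ∀ q ∈ S, e q ≠ 0)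
    (h : (NJ k 2 e S).det ≠ 0) {D : 𝓞 K} (hD : D = Dj k 2 e S ∨ D = -Dj k 2 e S)
    (hcube : ∀ p : 𝓞 K, Prime p → ¬ p ^ 3 ∣ D) : Q2 D := by
  obtain ⟨h1, h2⟩ := part_j2 he h hD hcube (t := 1) (by norm_num)
    (by rw [finprod_Dj (by decide) he hD hcube, mul_one])
  exact ⟨h1, h2, fun v hv => tam_three (pm_ne (Dj_ne k 2 e S) hD) hcube hv⟩

/-- **Q2**, `√-3 ∣ D` exactly -/
theorem q2_j1 {k : ZMod 3} {e : P3 → ZMod 3} {S : Finset P3} (he : ∀ q ∈ S, e q ≠ 0)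
    (h : (NJ1 k e S).det ≠ 0) {D : 𝓞 K} (hD : D = Dj k 1 e S ∨ D = -Dj k 1 e S)
    (hcube : ∀ p : 𝓞 K, Prime p → ¬ p ^ 3 ∣ D) : Q2 D := by
  obtain ⟨h1, h2⟩ := part_j1 he h hD hcube (t := 1) (by norm_num)
    (by rw [finprod_Dj (by decide) he hD hcube, mul_one])
  exact ⟨h1, h2, fun v hv => tam_three (pm_ne (Dj_ne k 1 e S) hD) hcube hv⟩

theorem ram3_pm {k : ZMod 3} {e : P3 → ZMod 3} {S : Finset P3}
    (hR : Ram3 S k.val fun q => (e q).val) {D : 𝓞 K} (hD : D = Dk k e S ∨ D = -Dk k e S) :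
    ¬ 3 * s3 ∣ D - 1 ∧ ¬ 3 * s3 ∣ D + 1 := by
  have h1 : ¬ 3 * s3 ∣ Dk k e S - 1 := hR.one
  have h2 : ¬ 3 * s3 ∣ Dk k e S + 1 := hR.neg_one
  rcases hD with rfl | rfl
  · exact ⟨h1, h2⟩
  · constructor
    · intro h
      apply h2
      have e : Dk k e S + 1 = -(-Dk k e S - 1) := by ring
      rw [e]
      exact h.neg_right
    · intro h
      apply h1
      have e : Dk k e S - 1 = -(-Dk k e S + 1) := by ring
      rw [e]
      exact h.neg_right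

theorem tam_la_easy {k : ZMod 3} {e : P3 → ZMod 3} {S : Finset P3}
    (hR : Ram3 S k.val fun q => (e q).val) {D : 𝓞 K} (hD : D = Dk k e S ∨ D = -Dk k e S)
    {v : HeightOneSpectrum (𝓞 K)} (hv : s3 ∈ v.asIdeal) : ¬ 3 ∣ tam (wd (D : K)) v := by
  have h3 : ¬ s3 ∣ D := by
    rw [pm_dvd hD, ← r3_eq_zero, r3_Dk]
    decide
  obtain ⟨h1, h2⟩ := ram3_pm hR hD
  exact tamK_la h3 h1 h2 hv

/-- **Q2**, `D` prime to `√-3`, `k ≠ 0` -/
theorem q2_ne {k : ZMod 3} (hk : k ≠ 0) {e : P3 → ZMod 3} {S : Finset P3}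
    (he : ∀ q ∈ S, e q ≠ 0) (h : (NK k e S).det ≠ 0)
    (hR : Ram3 S k.val fun q => (e q).val) (hgood : Good3 S k e)
    {D : 𝓞 K} (hD : D = Dk k e S ∨ D = -Dk k e S)
    (hcube : ∀ p : 𝓞 K, Prime p → ¬ p ^ 3 ∣ D) : Q2 D := by
  obtain ⟨w3, hw3⟩ := exists_w3
  obtain ⟨h1, h2⟩ := part3_ne hk he h hR hgood hD hcube (tam_la_easy hR hD hw3)
    (finprod_Dk he hD hcube hw3)
  exact ⟨h1, h2, fun v hv => tam_three (pm_ne (Dk_ne k e S) hD) hcube hv⟩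

/-- **Q2**, `D` prime to `√-3`, `k = 0`, not `± 1` modulo `3 √-3` -/
theorem q2_zero {e : P3 → ZMod 3} {S : Finset P3} (he : ∀ q ∈ S, e q ≠ 0)
    (hB : ∑ q ∈ S, e q * abar q.1 ≠ 0)
    (hker : ∀ v : S → ZMod 3, (NK 0 e S).mulVec v = 0 → ∃ c : ZMod 3, ∀ i, v i = c * e i)
    (hR : Ram3 S 0 fun q => (e q).val) (hgood : Good3 S 0 e)
    {D : 𝓞 K} (hD : D = Dk 0 e S ∨ D = -Dk 0 e S)
    (hcube : ∀ p : 𝓞 K, Prime p → ¬ p ^ 3 ∣ D) : Q2 D := by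
  obtain ⟨w3, hw3⟩ := exists_w3
  obtain ⟨h1, h2⟩ := part3_zero he hB hker hR hgood hD hcube (tam_la_easy (k := 0) hR hD hw3)
    (finprod_Dk he hD hcube hw3)
  exact ⟨h1, h2, fun v hv => tam_three (pm_ne (Dk_ne 0 e S) hD) hcube hv⟩

end Pool.Agent.Lib.MP_1a91b9_ntK.C
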