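import Pool.Agent.Lib.MP_1a91b9_ntH.C.TamT
import Pool.Agent.Lib.MP_1a91b9_ntT.CT.Lb

/-!
# MP_1a91b9_nt (cubic twists), block K-tam: transport from the minimal model, any integral equation

If `W` is integral at `v` and its discriminant has value `> exp (-12)` then the Tamagawa number is
the index computed on the equation `W`; it is `1` if the discriminant is a unit.
-/

set_option autoImplicit false

namespace Pool.Agent.Lib.MP_1a91b9_ntK.C

open NumberField IsDedekindDomain WithZero WeierstrassCurve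
open Pool.Agent.Lib.MP_1a91b9_ntT.S9 (tam nonsing minModel minChange minModel_isMinimal)
open Pool.Agent.Lib.MP_1a91b9_ntT.CT (min_int min_le ns_unit ns)
open Pool.Agent.Lib.MP_1a91b9_ntH.C (nsSet nsG tam_def)
open Pool.Agent.Lib.MP_1a91b9_ntH.C.TamT (Itg index_smul Itg_bc unit)
open scoped Classical

/-- The coefficients `r`, `s` of a change between integral equations with unit `u`. -/
theorem coef_gen {L : Type*} [Field L] (V : Valuation L ℤᵐ⁰) {W : WeierstrassCurve L}
    {C : VariableChange L} (hW : Itg V W) (hW' : Itg V (C • W)) (hu : V (C.u : L) = 1) :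
    V C.r ≤ 1 ∧ V C.s ≤ 1 := by
  have hmem : ∀ z : L, z ∈ V.integer ↔ V z ≤ 1 := fun z => Valuation.mem_integer_iff _ _
  have nn : ∀ n : ℕ, (n : L) ∈ V.integer := fun n => natCast_mem _ n
  have n2 : (2 : L) ∈ V.integer := by exact_mod_cast nn 2
  have n3 : (3 : L) ∈ V.integer := by exact_mod_cast nn 3
  have n4 : (4 : L) ∈ V.integer := by exact_mod_cast nn 4
  have mu : (C.u : L) ∈ V.integer := (hmem _).2 hu.le
  have hu0 : (C.u : L) ≠ 0 := C.u.ne_zero
  have hui : ((C.u⁻¹ : Lˣ) : L) = (C.u : L)⁻¹ := by simp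
  have hb : ∀ W : WeierstrassCurve L, Itg V W →
      W.b₂ ∈ V.integer ∧ W.b₄ ∈ V.integer ∧ W.b₆ ∈ V.integer ∧ W.b₈ ∈ V.integer := by
    intro W hW
    have m1 := (hmem _).2 hW.a1
    have m2 := (hmem _).2 hW.a2
    have m3 := (hmem _).2 hW.a3
    have m4 := (hmem _).2 hW.a4
    have m6 := (hmem _).2 hW.a6
    refine ⟨?_, ?_, ?_, ?_⟩
    · rw [WeierstrassCurve.b₂]
      exact add_mem (pow_mem m1 2) (mul_mem n4 m2)
    · rw [WeierstrassCurve.b₄]
      exact add_mem (mul_mem n2 m4) (mul_mem m1 m3)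
    · rw [WeierstrassCurve.b₆]
      exact add_mem (pow_mem m3 2) (mul_mem n4 m6)
    · rw [WeierstrassCurve.b₈]
      exact sub_mem (add_mem (sub_mem (add_mem (mul_mem (pow_mem m1 2) m6)
        (mul_mem (mul_mem n4 m2) m6)) (mul_mem (mul_mem m1 m3) m4)) (mul_mem m2 (pow_mem m3 2)))
        (pow_mem m4 2)
  obtain ⟨-, h4, h6, h8⟩ := hb W hW
  obtain ⟨-, -, h6', h8'⟩ := hb _ hW'
  have e6 : W.b₆ + 2 * C.r * W.b₄ + C.r ^ 2 * W.b₂ + 4 * C.r ^ 3 = (C.u : L) ^ 6 * (C • W).b₆ := by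
    rw [variableChange_b₆, hui]
    field_simp
  have e8 : W.b₈ + 3 * C.r * W.b₆ + 3 * C.r ^ 2 * W.b₄ + C.r ^ 3 * W.b₂ + 3 * C.r ^ 4 =
      (C.u : L) ^ 8 * (C • W).b₈ := by
    rw [variableChange_b₈, hui]
    field_simp
  have m6' : (C.u : L) ^ 6 * (C • W).b₆ ∈ V.integer := mul_mem (pow_mem mu 6) h6'
  have m8' : (C.u : L) ^ 8 * (C • W).b₈ ∈ V.integer := mul_mem (pow_mem mu 8) h8'
  have hr : C.r ∈ V.integer := by
    by_contra hc
    rw [hmem, not_le] at hc
    have hr0 : C.r ≠ 0 := by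
      intro h
      rw [h, map_zero] at hc
      exact absurd hc (not_lt.2 zero_le_one)
    have hri : C.r⁻¹ ∈ V.integer := by
      rw [hmem, map_inv₀]
      exact inv_le_one_of_one_le₀ hc.le
    have e : C.r = W.b₄ * C.r⁻¹ + (2 * W.b₆ + (C.u : L) ^ 6 * (C • W).b₆) * C.r⁻¹ ^ 2 +
        (W.b₈ - (C.u : L) ^ 8 * (C • W).b₈) * C.r⁻¹ ^ 3 := by
      rw [← e6, ← e8]
      field_simp
      ring
    apply absurd hc
    rw [not_lt, ← hmem, e]
    exact add_mem (add_mem (mul_mem h4 hri) (mul_mem (add_mem (mul_mem n2 h6) m6') (pow_mem hri 2)))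
      (mul_mem (sub_mem h8 m8') (pow_mem hri 3))
  refine ⟨(hmem _).1 hr, ?_⟩
  have m1 := (hmem _).2 hW.a1
  have m2 := (hmem _).2 hW.a2
  have m2' : (C.u : L) ^ 2 * (C • W).a₂ ∈ V.integer := mul_mem (pow_mem mu 2) ((hmem _).2 hW'.a2)
  have e2 : W.a₂ - C.s * W.a₁ + 3 * C.r - C.s ^ 2 = (C.u : L) ^ 2 * (C • W).a₂ := by
    rw [variableChange_a₂, hui]
    field_simp
  by_contra hc
  rw [not_le] at hc
  have hs0 : C.s ≠ 0 := by
    intro h
    rw [h, map_zero] at hc
    exact absurd hc (not_lt.2 zero_le_one)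
  have hsi : C.s⁻¹ ∈ V.integer := by
    rw [hmem, map_inv₀]
    exact inv_le_one_of_one_le₀ hc.le
  have e : C.s = (W.a₂ + 3 * C.r - (C.u : L) ^ 2 * (C • W).a₂) * C.s⁻¹ - W.a₁ := by
    rw [← e2]
    field_simp
    ring
  apply absurd hc
  rw [not_lt, ← hmem, e]
  exact sub_mem (mul_mem (sub_mem (add_mem m2 (mul_mem n3 hr)) m2') hsi) m1

variable {N : Type*} [Field N] [NumberField N] (v : HeightOneSpectrum (𝓞 N))

/-- The Tamagawa number on any integral equation with discriminant of value `> exp (-12)`. -/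
theorem tam_eq (W : WeierstrassCurve N)
    (hI : ∃ I : WeierstrassCurve (v.adicCompletionIntegers N),
      W.baseChange (v.adicCompletion N) = I.baseChange (v.adicCompletion N))
    (hD : exp (-12 : ℤ) < Valued.v (W.baseChange (v.adicCompletion N)).Δ) :
    tam W v = (nsG (Valued.v : Valuation (v.adicCompletion N) ℤᵐ⁰)
      (W.baseChange (v.adicCompletion N))).index := by
  rw [tam_def]
  have hm := minModel_isMinimal W v
  unfold minModel at hm ⊢
  generalize W.baseChange (v.adicCompletion N) = W₀ at *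
  generalize minChange W v = C at *
  have hu := unit W₀ hI hD C hm
  have hM := Itg_bc (min_int (C • W₀) hm)
  obtain ⟨hr, hs⟩ := coef_gen (Valued.v : Valuation (v.adicCompletion N) ℤᵐ⁰) (Itg_bc hI) hM hu
  exact index_smul hM hu hr hs

/-- Good reduction. -/
theorem tam_one (W : WeierstrassCurve N)
    (hI : ∃ I : WeierstrassCurve (v.adicCompletionIntegers N),
      W.baseChange (v.adicCompletion N) = I.baseChange (v.adicCompletion N))
    (hD : Valued.v (W.baseChange (v.adicCompletion N)).Δ = 1) : tam W v = 1 := by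
  rw [tam_eq v W hI (by rw [hD, ← WithZero.exp_zero, WithZero.exp_lt_exp]; norm_num)]
  obtain ⟨I, hI⟩ := hI
  have h4 := ns_unit (W.baseChange (v.adicCompletion N)) I hI hD
  have h5 : nsG Valued.v (W.baseChange (v.adicCompletion N)) =
    ns (W.baseChange (v.adicCompletion N)) := rfl
  rw [h5, h4, AddSubgroup.index_top]

end Pool.Agent.Lib.MP_1a91b9_ntK.C
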