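import Pool.Agent.Lib.MP_1a91b9_ntK.C.TamDefs

/-!
# MP_1a91b9_nt (cubic twists), block K-TAM: the place above `3`

`W : y² + D y = x³` over a field `L` with a valuation `V` (in the application the completion of `ℚ(√-3)` at `√-3`), `D` a unit,
`D` not congruent to `± 1` modulo `3 √-3`: the index of the subgroup of the points with nonsingular reduction is finite and prime
to `3`.

PROOF. Put `Y = 2 y + D`, `Y² = 4 x³ + D²`. A point with singular reduction has `x = - 1` modulo `√-3`, hence `x³ = - 1` modulo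
`9`; if `Y / √-3` were a unit then `D² = 4 + Y² = 1` modulo `3 √-3`; so `3 ∣ Y`. Twice such a point is nonsingular
(`x(2P) = x (9 x³ - 2 Y²) / Y²` is not integral or `0` modulo `√-3`), and if `x₁ = x₂` modulo `3` then `P + Q` or `P - Q` is
nonsingular (the product of the two slopes has value `≥ 1`). So the quotient has at most four elements and exponent `2`.
-/

set_option autoImplicit false

namespace Pool.Agent.Lib.MP_1a91b9_ntK.C

open WithZero WeierstrassCurve
open Pool.Agent.Lib.MP_1a91b9_ntH.C (nsSet nsG)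
open scoped Classical

namespace TamLa

section alg
variable {L : Type*} [Field L] {D : L}

theorem eqn {x y : L} (h : (wd D).toAffine.Nonsingular x y) :
    (2 * y + D) ^ 2 = 4 * x ^ 3 + D ^ 2 := by
  have h1 := h.1
  rw [Affine.equation_iff] at h1
  simp only [wd] at h1
  linear_combination 4 * h1

theorem negY_eq (x y : L) : (wd D).toAffine.negY x y = -y - D := by
  simp [Affine.negY, wd]

theorem nons_neg {x y : L} (h : (wd D).toAffine.Nonsingular x y) :
    (wd D).toAffine.Nonsingular x (-y - D) := by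
  rw [← negY_eq x y]
  exact (Affine.nonsingular_neg ..).2 h

theorem neg_some' {x y : L} (h : (wd D).toAffine.Nonsingular x y) :
    -Affine.Point.some x y h = Affine.Point.some x (-y - D) (nons_neg h) := by
  rw [Affine.Point.neg_some, Affine.Point.some.injEq]
  exact ⟨rfl, negY_eq x y⟩

theorem third {x₁ x₂ y₁ y₂ : L} (h₁ : (wd D).toAffine.Nonsingular x₁ y₁)
    (h₂ : (wd D).toAffine.Nonsingular x₂ y₂) (hx : x₁ ≠ x₂) :
    ∃ (x₃ y₃ : L) (h₃ : (wd D).toAffine.Nonsingular x₃ y₃),
      Affine.Point.some x₁ y₁ h₁ + Affine.Point.some x₂ y₂ h₂ = Affine.Point.some x₃ y₃ h₃ ∧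
      x₃ = ((y₁ - y₂) / (x₁ - x₂)) ^ 2 - x₁ - x₂ := by
  have hxy : ¬ (x₁ = x₂ ∧ y₁ = (wd D).toAffine.negY x₂ y₂) := fun h => hx h.1
  refine ⟨_, _, Affine.nonsingular_add h₁ h₂ hxy, Affine.Point.add_some hxy (h₁ := h₁) (h₂ := h₂), ?_⟩
  rw [Affine.slope_of_X_ne hx]
  simp only [Affine.addX, wd]
  ring

theorem dbl {x y : L} (h : (wd D).toAffine.Nonsingular x y) (hY : 2 * y + D ≠ 0) :
    ∃ (x₃ y₃ : L) (h₃ : (wd D).toAffine.Nonsingular x₃ y₃),
      Affine.Point.some x y h + Affine.Point.some x y h = Affine.Point.some x₃ y₃ h₃ ∧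
      x₃ = (3 * x ^ 2 / (2 * y + D)) ^ 2 - 2 * x := by
  have hne : y ≠ (wd D).toAffine.negY x y := by
    rw [negY_eq]
    intro h0
    apply hY
    linear_combination h0
  have hxy : ¬ (x = x ∧ y = (wd D).toAffine.negY x y) := fun h => hne h.2
  refine ⟨_, _, Affine.nonsingular_add h h hxy, Affine.Point.add_some hxy (h₁ := h) (h₂ := h), ?_⟩
  rw [Affine.slope_of_Y_ne rfl hne, negY_eq]
  have e : y - (-y - D) = 2 * y + D := by ring
  rw [e]
  simp only [Affine.addX, wd]
  ring

end alg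

theorem le_of_lt {γ : ℤᵐ⁰} (n : ℤ) (h : γ < exp (-n)) : γ ≤ exp (-(n + 1)) := by
  rcases eq_or_ne γ 0 with rfl | h0
  · exact zero_le
  · rw [← exp_log h0] at h ⊢
    rw [exp_lt_exp] at h
    rw [exp_le_exp]
    omega

theorem le_one {γ : ℤᵐ⁰} (h : γ < 1) : γ ≤ exp (-1 : ℤ) := le_of_lt 0 (by simpa using h)

section
variable {L : Type*} [Field L] (V : Valuation L ℤᵐ⁰)

/-- the data -/
structure Hyp (l D : L) : Prop where
  sq : l ^ 2 = -3
  v : V l = exp (-1 : ℤ)
  res : ∀ x : L, V x ≤ 1 → V x < 1 ∨ V (x - 1) < 1 ∨ V (x + 1) < 1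
  D1 : V D = 1
  ne : exp (-3 : ℤ) < V (D ^ 2 - 1)

/-- singular reduction -/
def Sg (D : L) (x y : L) : Prop := V x ≤ 1 ∧ V (2 * y + D) < 1

variable {V} {l D : L} (H : Hyp V l D)
include H

theorem v3 : V (3 : L) = exp (-2 : ℤ) := by
  have h := congrArg V H.sq
  rw [map_pow, H.v, Valuation.map_neg, ← exp_nsmul] at h
  rw [← h]
  norm_num

theorem v3lt : V (3 : L) < 1 := by
  rw [v3 H, ← exp_zero, exp_lt_exp]
  norm_num

theorem v2 : V (2 : L) = 1 := by
  have e : (2 : L) = -1 + 3 := by norm_num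
  rw [e, Valuation.map_add_eq_of_lt_left, Valuation.map_neg, map_one]
  rw [Valuation.map_neg, map_one]
  exact v3lt H

theorem v4 : V (4 : L) = 1 := by
  have e : (4 : L) = 2 * 2 := by norm_num
  rw [e, map_mul, v2 H, one_mul]

/-- squares of units -/
theorem sq_unit {s : L} (hs : V s = 1) : V (s ^ 2 - 1) < 1 := by
  have e : s ^ 2 - 1 = (s - 1) * (s + 1) := by ring
  have h1 : V (s - 1) ≤ 1 := (Valuation.map_sub _ _ _).trans (max_le hs.le (map_one V).le)
  have h2 : V (s + 1) ≤ 1 := (Valuation.map_add _ _ _).trans (max_le hs.le (map_one V).le)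
  rw [e, map_mul]
  rcases H.res s hs.le with h | h | h
  · exact absurd hs h.ne
  · exact mul_lt_one_of_lt_of_le h h2
  · rw [mul_comm]
    exact mul_lt_one_of_lt_of_le h h1

theorem vD4 : V (D ^ 2 - 4) < 1 := by
  have e : D ^ 2 - 4 = (D ^ 2 - 1) - 3 := by ring
  rw [e]
  exact Valuation.map_sub_lt _ (sq_unit H H.D1) (v3lt H)

/-- the abscissa of a point with singular reduction -/
theorem x_eq {x y : L} (h : (wd D).toAffine.Nonsingular x y) (hs : Sg V D x y) : V (x + 1) < 1 := by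
  obtain ⟨hx, hY⟩ := hs
  have he := eqn h
  have h1 : V (x ^ 3 + 1) < 1 := by
    have e : 4 * (x ^ 3 + 1) = (2 * y + D) ^ 2 - (D ^ 2 - 4) := by linear_combination -he
    have h2 : V (4 * (x ^ 3 + 1)) < 1 := by
      rw [e]
      refine Valuation.map_sub_lt _ ?_ (vD4 H)
      rw [map_pow]
      exact pow_lt_one₀ zero_le hY (by norm_num)
    rwa [map_mul, v4 H, one_mul] at h2
  rcases H.res x hx with h2 | h2 | h2
  · exfalso
    have h3 : V (x ^ 3) < 1 := by
      rw [map_pow]
      exact pow_lt_one₀ zero_le h2 (by norm_num)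
    have h4 := Valuation.map_sub_lt _ h1 h3
    rw [add_sub_cancel_left, map_one] at h4
    exact lt_irrefl _ h4
  · exfalso
    have h3 : V ((x - 1) * (x ^ 2 + x + 1)) < 1 := by
      rw [map_mul]
      refine mul_lt_one_of_lt_of_le h2 ?_
      refine (Valuation.map_add _ _ _).trans (max_le ((Valuation.map_add _ _ _).trans (max_le ?_ hx))
        (map_one V).le)
      rw [map_pow]
      exact pow_le_one₀ zero_le hx
    have h4 := Valuation.map_sub_lt _ h1 h3
    have e : x ^ 3 + 1 - (x - 1) * (x ^ 2 + x + 1) = 2 := by ring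
    rw [e, v2 H] at h4
    exact lt_irrefl _ h4
  · exact h2

theorem vx {x : L} (h : V (x + 1) < 1) : V x = 1 := by
  have e : x = (x + 1) - 1 := by ring
  rw [e, Valuation.map_sub_eq_of_lt_right, map_one]
  rwa [map_one]

theorem l_ne : l ≠ 0 := by
  rintro rfl
  have := H.v
  rw [map_zero] at this
  exact exp_ne_zero this.symm

/-- the parameter `u = (x + 1) / √-3` -/
theorem vu {x : L} (h : V (x + 1) < 1) : V ((x + 1) / l) ≤ 1 := by
  rw [map_div₀, H.v, div_le_one₀ exp_pos]
  exact le_one h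

theorem x3 {x : L} (h : V (x + 1) < 1) : V (x ^ 3 + 1) ≤ exp (-4 : ℤ) := by
  have hl := l_ne H
  have hu := vu H h
  obtain ⟨u, hu'⟩ : ∃ u, u = (x + 1) / l := ⟨_, rfl⟩
  rw [← hu'] at hu
  have hx : x = -1 + l * u := by
    rw [hu']
    field_simp
    ring
  have h1 : V (u - u ^ 3) < 1 := by
    have e : u - u ^ 3 = -(u * (u - 1) * (u + 1)) := by ring
    have g1 : V (u - 1) ≤ 1 := (Valuation.map_sub _ _ _).trans (max_le hu (map_one V).le)
    have g2 : V (u + 1) ≤ 1 := (Valuation.map_add _ _ _).trans (max_le hu (map_one V).le)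
    rw [e, Valuation.map_neg, map_mul, map_mul]
    rcases H.res u hu with h | h | h
    · exact mul_lt_one_of_lt_of_le (mul_lt_one_of_lt_of_le h g1) g2
    · refine mul_lt_one_of_lt_of_le ?_ g2
      rw [mul_comm]
      exact mul_lt_one_of_lt_of_le h hu
    · rw [mul_comm]
      exact mul_lt_one_of_lt_of_le h (mul_le_one' hu g1)
  have e : x ^ 3 + 1 = 3 * (l * (u - u ^ 3)) + 3 * 3 * u ^ 2 := by
    rw [hx]
    linear_combination (l * u ^ 3 - 3 * u ^ 2) * H.sq
  rw [e]
  refine (Valuation.map_add _ _ _).trans (max_le ?_ ?_)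
  · rw [map_mul, map_mul, v3 H, H.v]
    calc exp (-2 : ℤ) * (exp (-1 : ℤ) * V (u - u ^ 3)) ≤ exp (-2 : ℤ) * (exp (-1 : ℤ) * exp (-1 : ℤ)) := by
          gcongr
          exact le_one h1
      _ = exp (-4 : ℤ) := by
          rw [← exp_add, ← exp_add]
          norm_num
  · rw [map_mul, map_mul, v3 H, map_pow]
    calc exp (-2 : ℤ) * exp (-2 : ℤ) * V u ^ 2 ≤ exp (-2 : ℤ) * exp (-2 : ℤ) * 1 := by
          gcongr
          exact pow_le_one₀ zero_le hu
      _ = exp (-4 : ℤ) := by
          rw [mul_one, ← exp_add]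
          norm_num

/-- `3` divides `2 y + D` -/
theorem vY {x y : L} (h : (wd D).toAffine.Nonsingular x y) (hs : Sg V D x y) :
    V (2 * y + D) ≤ exp (-2 : ℤ) := by
  have hx := x_eq H h hs
  have hx3 := x3 H hx
  have he := eqn h
  have hl := l_ne H
  have h1 := le_one hs.2
  rcases h1.lt_or_eq with h2 | h2
  · exact le_of_lt 1 h2
  · exfalso
    obtain ⟨s, hs'⟩ : ∃ s, s = (2 * y + D) / l := ⟨_, rfl⟩
    have hY : 2 * y + D = l * s := by
      rw [hs']
      field_simp
    have hvs : V s = 1 := by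
      rw [hs', map_div₀, h2, H.v, div_self exp_ne_zero]
    have h3 := sq_unit H hvs
    have e : D ^ 2 - 1 = -(3 * (s ^ 2 - 1)) - 4 * (x ^ 3 + 1) := by
      rw [hY] at he
      linear_combination -he + s ^ 2 * H.sq
    have h4 : V (D ^ 2 - 1) ≤ exp (-3 : ℤ) := by
      rw [e]
      refine (Valuation.map_sub _ _ _).trans (max_le ?_ ?_)
      · rw [Valuation.map_neg, map_mul, v3 H]
        calc exp (-2 : ℤ) * V (s ^ 2 - 1) ≤ exp (-2 : ℤ) * exp (-1 : ℤ) := by
              gcongr
              exact le_one h3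
          _ = exp (-3 : ℤ) := by
              rw [← exp_add]
              norm_num
      · rw [map_mul, v4 H, one_mul]
        refine hx3.trans ?_
        rw [exp_le_exp]
        norm_num
    exact absurd H.ne (not_lt.2 h4)

/-- the points with nonsingular reduction -/
theorem mem_of_x {x y : L} (h : (wd D).toAffine.Nonsingular x y) (hx : V x < 1 ∨ 1 < V x) :
    Affine.Point.some x y h ∈ nsSet V (wd D) := by
  refine Or.inr ⟨x, y, h, rfl, ?_⟩
  rcases hx with hx | hx
  · right; left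
    have he := congrArg V (eqn h)
    have h1 : V (4 * x ^ 3) < 1 := by
      rw [map_mul, v4 H, one_mul, map_pow]
      exact pow_lt_one₀ zero_le hx (by norm_num)
    have h2 : V (D ^ 2) = 1 := by rw [map_pow, H.D1, one_pow]
    rw [Valuation.map_add_eq_of_lt_right _ (by rwa [h2]), h2, map_pow] at he
    have e : 2 * y + (wd D).a₁ * x + (wd D).a₃ = 2 * y + D := by
      simp only [wd]
      ring
    rw [e]
    exact (pow_eq_one_iff.mp he).resolve_right (by norm_num)
  · exact Or.inl hx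

theorem mem_or {x y : L} (h : (wd D).toAffine.Nonsingular x y) :
    Affine.Point.some x y h ∈ nsSet V (wd D) ∨ Sg V D x y := by
  by_cases hx : V x ≤ 1
  · have he := eqn h
    have h1 : V (2 * y + D) ≤ 1 := by
      have h2 : V ((2 * y + D) ^ 2) ≤ 1 := by
        rw [he]
        refine (Valuation.map_add _ _ _).trans (max_le ?_ ?_)
        · rw [map_mul, v4 H, one_mul, map_pow]
          exact pow_le_one₀ zero_le hx
        · rw [map_pow, H.D1, one_pow]
      rw [map_pow] at h2
      exact (pow_le_one_iff_of_nonneg zero_le two_ne_zero).1 h2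
    rcases h1.lt_or_eq with h3 | h3
    · exact Or.inr ⟨hx, h3⟩
    · left
      refine Or.inr ⟨x, y, h, rfl, Or.inr (Or.inl ?_)⟩
      have e : 2 * y + (wd D).a₁ * x + (wd D).a₃ = 2 * y + D := by
        simp only [wd]
        ring
      rw [e]
      exact h3
  · exact Or.inl (mem_of_x H h (Or.inr (not_le.1 hx)))

/-- twice a point with singular reduction -/
theorem two_mem {x y : L} (h : (wd D).toAffine.Nonsingular x y) (hs : Sg V D x y) :
    Affine.Point.some x y h + Affine.Point.some x y h ∈ nsSet V (wd D) := by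
  have hx := x_eq H h hs
  have hvx := vx H hx
  by_cases hY : 2 * y + D = 0
  · left
    refine Affine.Point.add_of_Y_eq rfl ?_
    rw [negY_eq]
    linear_combination hY
  obtain ⟨x₃, y₃, h₃, hadd, hx₃⟩ := dbl h hY
  rw [hadd]
  refine mem_of_x H h₃ ?_
  have e : x₃ * (2 * y + D) ^ 2 = x * (9 * x ^ 3 - 2 * (2 * y + D) ^ 2) := by
    rw [hx₃]
    field_simp
    ring
  have hvY := vY H h hs
  have hvY0 : V (2 * y + D) ≠ 0 := (Valuation.ne_zero_iff _).2 hY
  have h9 : V (9 * x ^ 3) = exp (-4 : ℤ) := by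
    have e9 : (9 : L) = 3 * 3 := by norm_num
    rw [map_mul, map_pow, hvx, one_pow, mul_one, e9, map_mul, v3 H, ← exp_add]
    norm_num
  rcases hvY.lt_or_eq with h1 | h1
  · right
    have h2 : V (2 * (2 * y + D) ^ 2) < V (9 * x ^ 3) := by
      rw [map_mul, v2 H, one_mul, map_pow, h9]
      have h3 := le_of_lt 2 h1
      calc V (2 * y + D) ^ 2 ≤ exp (-(2 + 1) : ℤ) ^ 2 := pow_le_pow_left₀ zero_le h3 2
        _ < exp (-4 : ℤ) := by
          rw [← exp_nsmul, exp_lt_exp]
          norm_num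
    have h3 := congrArg V e
    rw [map_mul, map_mul, Valuation.map_sub_eq_of_lt_left _ h2, h9, hvx, one_mul, map_pow] at h3
    by_contra hc
    rw [not_lt] at hc
    have h4 : V x₃ * V (2 * y + D) ^ 2 < exp (-4 : ℤ) := by
      calc V x₃ * V (2 * y + D) ^ 2 ≤ 1 * V (2 * y + D) ^ 2 := by gcongr
        _ = V (2 * y + D) ^ 2 := one_mul _
        _ ≤ exp (-(2 + 1) : ℤ) ^ 2 := pow_le_pow_left₀ zero_le (le_of_lt 2 h1) 2
        _ < exp (-4 : ℤ) := by
          rw [← exp_nsmul, exp_lt_exp]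
          norm_num
    exact absurd h3 h4.ne
  · left
    have h30 : (3 : L) ≠ 0 := by
      intro h0
      have := v3 H
      rw [h0, map_zero] at this
      exact exp_ne_zero this.symm
    obtain ⟨z, hz⟩ : ∃ z, z = (2 * y + D) / 3 := ⟨_, rfl⟩
    have hYz : 2 * y + D = 3 * z := by
      rw [hz]
      field_simp
    have hvz : V z = 1 := by
      rw [hz, map_div₀, h1, v3 H, div_self exp_ne_zero]
    have e2 : x₃ * z ^ 2 = x * (x ^ 3 - 2 * z ^ 2) := by
      rw [hYz] at e
      have h9' : (9 : L) ≠ 0 := by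
        have : (9 : L) = 3 * 3 := by norm_num
        rw [this]
        exact mul_ne_zero h30 h30
      apply mul_left_cancel₀ h9'
      linear_combination e
    have h4 : V (x ^ 3 - 2 * z ^ 2) < 1 := by
      have e3 : x ^ 3 - 2 * z ^ 2 = (x + 1) * (x ^ 2 - x + 1) - 2 * (z ^ 2 - 1) - 3 := by ring
      rw [e3]
      refine Valuation.map_sub_lt _ (Valuation.map_sub_lt _ ?_ ?_) (v3lt H)
      · rw [map_mul]
        refine mul_lt_one_of_lt_of_le hx ?_
        refine (Valuation.map_add _ _ _).trans (max_le ((Valuation.map_sub _ _ _).trans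
          (max_le ?_ hvx.le)) (map_one V).le)
        rw [map_pow, hvx, one_pow]
      · rw [map_mul, v2 H, one_mul]
        exact sq_unit H hvz
    have h5 := congrArg V e2
    rw [map_mul, map_mul, map_pow, hvz, one_pow, mul_one, hvx, one_mul] at h5
    rw [h5]
    exact h4

/-- the sum of two points whose slope has value at least `1` -/
theorem add_mem' {x₁ x₂ y₁ y₂ : L} (h₁ : (wd D).toAffine.Nonsingular x₁ y₁)
    (h₂ : (wd D).toAffine.Nonsingular x₂ y₂) (g₁ : V (x₁ + 1) < 1) (g₂ : V (x₂ + 1) < 1)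
    (hx : x₁ ≠ x₂) (hl : 1 ≤ V (((2 * y₁ + D) - (2 * y₂ + D)) / (x₁ - x₂))) :
    Affine.Point.some x₁ y₁ h₁ + Affine.Point.some x₂ y₂ h₂ ∈ nsSet V (wd D) := by
  obtain ⟨x₃, y₃, h₃, hadd, hx₃⟩ := third h₁ h₂ hx
  rw [hadd]
  refine mem_of_x H h₃ ?_
  obtain ⟨m, hm⟩ : ∃ m, m = ((2 * y₁ + D) - (2 * y₂ + D)) / (x₁ - x₂) := ⟨_, rfl⟩
  rw [← hm] at hl
  have hx12 : x₁ - x₂ ≠ 0 := sub_ne_zero.2 hx
  have hm2 : 2 * ((y₁ - y₂) / (x₁ - x₂)) = m := by
    rw [hm]
    field_simp
    ring
  have e : 4 * x₃ = m ^ 2 - 4 * x₁ - 4 * x₂ := by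
    rw [hx₃, ← hm2]
    ring
  have hv : V x₃ = V (m ^ 2 - 4 * x₁ - 4 * x₂) := by
    rw [← e, map_mul, v4 H, one_mul]
  have hv1 := vx H g₁
  have hv2 := vx H g₂
  rcases hl.lt_or_eq with h1 | h1
  · right
    have e2 : m ^ 2 - 4 * x₁ - 4 * x₂ = m ^ 2 - (4 * x₁ + 4 * x₂) := by ring
    have h2 : V (4 * x₁ + 4 * x₂) ≤ 1 := by
      refine (Valuation.map_add _ _ _).trans (max_le ?_ ?_)
      · rw [map_mul, v4 H, one_mul, hv1]
      · rw [map_mul, v4 H, one_mul, hv2]
    have h3 : 1 < V (m ^ 2) := by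
      rw [map_pow]
      exact one_lt_pow₀ h1 (by norm_num)
    rw [hv, e2, Valuation.map_sub_eq_of_lt_left _ (h2.trans_lt h3)]
    exact h3
  · left
    have h2 := sq_unit H h1.symm
    have e2 : m ^ 2 - 4 * x₁ - 4 * x₂ = (m ^ 2 - 1) - 4 * (x₁ + 1) - 4 * (x₂ + 1) + 3 * 3 := by ring
    rw [hv, e2]
    refine Valuation.map_add_lt _ (Valuation.map_sub_lt _ (Valuation.map_sub_lt _ h2 ?_) ?_) ?_
    · rw [map_mul, v4 H, one_mul]
      exact g₁
    · rw [map_mul, v4 H, one_mul]
      exact g₂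
    · rw [map_mul]
      exact mul_lt_one_of_lt_of_le (v3lt H) (v3lt H).le

theorem pair {x₁ x₂ y₁ y₂ : L} (h₁ : (wd D).toAffine.Nonsingular x₁ y₁)
    (h₂ : (wd D).toAffine.Nonsingular x₂ y₂) (s₁ : Sg V D x₁ y₁) (s₂ : Sg V D x₂ y₂)
    (hx : V (x₁ - x₂) ≤ exp (-2 : ℤ)) :
    Affine.Point.some x₁ y₁ h₁ - Affine.Point.some x₂ y₂ h₂ ∈ nsG V (wd D) := by
  have g₁ := x_eq H h₁ s₁
  have g₂ := x_eq H h₂ s₂
  have hv1 := vx H g₁
  have hv2 := vx H g₂
  have e1 := eqn h₁
  have e2 := eqn h₂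
  -- it is enough to have one of the sum and the difference
  have key : Affine.Point.some x₁ y₁ h₁ - Affine.Point.some x₂ y₂ h₂ ∈ nsSet V (wd D) ∨
      Affine.Point.some x₁ y₁ h₁ + Affine.Point.some x₂ y₂ h₂ ∈ nsSet V (wd D) := by
    by_cases h12 : x₁ = x₂
    · subst h12
      have h5 : ((2 * y₁ + D) - (2 * y₂ + D)) * ((2 * y₁ + D) + (2 * y₂ + D)) = 0 := by
        linear_combination e1 - e2
      have h20 : (2 : L) ≠ 0 := by
        intro h0
        have := v2 H
        rw [h0, map_zero] at this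
        exact zero_ne_one this
      rcases mul_eq_zero.1 h5 with h6 | h6
      · left
        have h7 : y₁ = y₂ := by
          apply mul_left_cancel₀ h20
          linear_combination h6
        subst h7
        rw [sub_self]
        exact Or.inl rfl
      · right
        left
        refine Affine.Point.add_of_Y_eq rfl ?_
        rw [negY_eq]
        apply mul_left_cancel₀ h20
        linear_combination h6
    · have hx12 : x₁ - x₂ ≠ 0 := sub_ne_zero.2 h12
      have h3 : V (x₁ ^ 2 + x₁ * x₂ + x₂ ^ 2) = exp (-2 : ℤ) := by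
        have e : x₁ ^ 2 + x₁ * x₂ + x₂ ^ 2 = 3 * (x₁ * x₂) + (x₁ - x₂) ^ 2 := by ring
        have h4 : V (3 * (x₁ * x₂)) = exp (-2 : ℤ) := by
          rw [map_mul, map_mul, hv1, hv2, one_mul, mul_one, v3 H]
        rw [e, Valuation.map_add_eq_of_lt_left, h4]
        rw [h4, map_pow]
        calc V (x₁ - x₂) ^ 2 ≤ exp (-2 : ℤ) ^ 2 := pow_le_pow_left₀ zero_le hx 2
          _ < exp (-2 : ℤ) := by
            rw [← exp_nsmul, exp_lt_exp]
            norm_num
      have e3 : ((2 * y₁ + D) - (2 * y₂ + D)) / (x₁ - x₂) * (((2 * y₁ + D) + (2 * y₂ + D)) / (x₁ - x₂)) *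
          (x₁ - x₂) = 4 * (x₁ ^ 2 + x₁ * x₂ + x₂ ^ 2) := by
        have e4 : ((2 * y₁ + D) - (2 * y₂ + D)) * ((2 * y₁ + D) + (2 * y₂ + D)) =
            (x₁ - x₂) * (4 * (x₁ ^ 2 + x₁ * x₂ + x₂ ^ 2)) := by
          linear_combination e1 - e2
        rw [div_mul_div_comm, e4]
        field_simp
      have h4 := congrArg V e3
      rw [map_mul, map_mul, map_mul, v4 H, h3, one_mul] at h4
      have h5 : 1 ≤ V (((2 * y₁ + D) - (2 * y₂ + D)) / (x₁ - x₂)) ∨
          1 ≤ V (((2 * y₁ + D) + (2 * y₂ + D)) / (x₁ - x₂)) := by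
        by_contra hc
        rw [not_or, not_le, not_le] at hc
        have h6 : V (((2 * y₁ + D) - (2 * y₂ + D)) / (x₁ - x₂)) *
            V (((2 * y₁ + D) + (2 * y₂ + D)) / (x₁ - x₂)) < 1 :=
          mul_lt_one_of_lt_of_le hc.1 hc.2.le
        have h7 : V (((2 * y₁ + D) - (2 * y₂ + D)) / (x₁ - x₂)) *
            V (((2 * y₁ + D) + (2 * y₂ + D)) / (x₁ - x₂)) * V (x₁ - x₂) < exp (-2 : ℤ) := by
          have h8 : (0 : ℤᵐ⁰) < V (x₁ - x₂) := zero_lt_iff.2 ((Valuation.ne_zero_iff _).2 hx12)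
          calc _ < 1 * V (x₁ - x₂) := mul_lt_mul_of_pos_right h6 h8
            _ = V (x₁ - x₂) := one_mul _
            _ ≤ exp (-2 : ℤ) := hx
        exact absurd h4 h7.ne
      rcases h5 with h6 | h6
      · exact Or.inr (add_mem' H h₁ h₂ g₁ g₂ h12 h6)
      · left
        rw [sub_eq_add_neg, neg_some']
        refine add_mem' H h₁ (nons_neg h₂) g₁ g₂ h12 ?_
        have e5 : 2 * y₁ + D - (2 * (-y₂ - D) + D) = (2 * y₁ + D) + (2 * y₂ + D) := by ring
        rw [e5]
        exact h6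
  rcases key with h | h
  · exact AddSubgroup.subset_closure h
  · have h2 := AddSubgroup.subset_closure (two_mem H h₂ s₂)
    have h1 := AddSubgroup.subset_closure h
    have e : Affine.Point.some x₁ y₁ h₁ - Affine.Point.some x₂ y₂ h₂ =
        (Affine.Point.some x₁ y₁ h₁ + Affine.Point.some x₂ y₂ h₂) -
          (Affine.Point.some x₂ y₂ h₂ + Affine.Point.some x₂ y₂ h₂) := by abel
    rw [e]
    exact sub_mem h1 h2

theorem double (P : (wd D).toAffine.Point) : P + P ∈ nsG V (wd D) := by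
  rcases P with _ | ⟨x, y, h⟩
  · exact (nsG V (wd D)).add_mem (zero_mem _) (zero_mem _)
  · rcases mem_or H h with h1 | h1
    · exact add_mem (AddSubgroup.subset_closure h1) (AddSubgroup.subset_closure h1)
    · exact AddSubgroup.subset_closure (two_mem H h h1)

omit H in
/-- the class of a point -/
noncomputable def cl (V : Valuation L ℤᵐ⁰) (l D : L) : (wd D).toAffine.Point → Fin 4
  | .zero => 0
  | .some x y _ => if Sg V D x y then (if V ((x + 1) / l) < 1 then 1 else
      if V ((x + 1) / l - 1) < 1 then 2 else 3) else 0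

theorem cl_zero {P : (wd D).toAffine.Point} (h : cl V l D P = 0) : P ∈ nsG V (wd D) := by
  rcases P with _ | ⟨x, y, hxy⟩
  · exact zero_mem _
  · rcases mem_or H hxy with h1 | h1
    · exact AddSubgroup.subset_closure h1
    · exfalso
      simp only [cl, if_pos h1] at h
      split_ifs at h <;> exact absurd h (by decide)

theorem cl_eq {P Q : (wd D).toAffine.Point} (h : cl V l D P = cl V l D Q) :
    P - Q ∈ nsG V (wd D) := by
  by_cases h0 : cl V l D Q = 0
  · exact sub_mem (cl_zero H (h.trans h0)) (cl_zero H h0)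
  · have hP0 : cl V l D P ≠ 0 := by rwa [h]
    rcases P with _ | ⟨x₁, y₁, h₁⟩
    · exact absurd rfl hP0
    rcases Q with _ | ⟨x₂, y₂, h₂⟩
    · exact absurd rfl h0
    have s₁ : Sg V D x₁ y₁ := by
      by_contra hc
      exact hP0 (by simp only [cl, if_neg hc])
    have s₂ : Sg V D x₂ y₂ := by
      by_contra hc
      exact h0 (by simp only [cl, if_neg hc])
    refine pair H h₁ h₂ s₁ s₂ ?_
    have g₁ := x_eq H h₁ s₁
    have g₂ := x_eq H h₂ s₂
    have u₁ := vu H g₁
    have u₂ := vu H g₂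
    have hl := l_ne H
    have h3 : V ((x₁ + 1) / l - (x₂ + 1) / l) < 1 := by
      simp only [cl, if_pos s₁, if_pos s₂] at h
      have r₁ := H.res _ u₁
      have r₂ := H.res _ u₂
      obtain ⟨a, ha⟩ : ∃ a, a = (x₁ + 1) / l := ⟨_, rfl⟩
      obtain ⟨b, hb⟩ : ∃ b, b = (x₂ + 1) / l := ⟨_, rfl⟩
      rw [← ha, ← hb] at h ⊢
      rw [← ha] at r₁
      rw [← hb] at r₂
      split_ifs at h with c1 c2 c3 c4 c5 c6 c7 c8
      · exact Valuation.map_sub_lt _ c1 c2
      · exact absurd h (by decide)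
      · exact absurd h (by decide)
      · exact absurd h (by decide)
      · have e : a - b = (a - 1) - (b - 1) := by ring
        rw [e]
        exact Valuation.map_sub_lt _ c4 c6
      · exact absurd h (by decide)
      · exact absurd h (by decide)
      · exact absurd h (by decide)
      · have q1 : V (a + 1) < 1 := (r₁.resolve_left c1).resolve_left c4
        have q2 : V (b + 1) < 1 := (r₂.resolve_left c7).resolve_left c8
        have e : a - b = (a + 1) - (b + 1) := by ring
        rw [e]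
        exact Valuation.map_sub_lt _ q1 q2
    have e : x₁ - x₂ = l * ((x₁ + 1) / l - (x₂ + 1) / l) := by
      field_simp
      ring
    rw [e, map_mul, H.v]
    calc exp (-1 : ℤ) * V ((x₁ + 1) / l - (x₂ + 1) / l) ≤ exp (-1 : ℤ) * exp (-1 : ℤ) := by
          gcongr
          exact le_one h3
      _ = exp (-2 : ℤ) := by
          rw [← exp_add]
          norm_num

/-- **The index is finite and prime to `3`.** -/
theorem index : (nsG V (wd D)).index ≠ 0 ∧ ¬ 3 ∣ (nsG V (wd D)).index := by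
  have hfin : Finite ((wd D).toAffine.Point ⧸ nsG V (wd D)) := by
    refine Finite.of_injective (fun x => cl V l D x.out) fun x y hxy => ?_
    have h := cl_eq H hxy
    rw [← QuotientAddGroup.out_eq' x, ← QuotientAddGroup.out_eq' y]
    rw [eq_comm, QuotientAddGroup.eq]
    have e : -(y.out) + x.out = x.out - y.out := by abel
    rw [e]
    exact h
  refine ⟨AddSubgroup.index_ne_zero_of_finite, fun h3 => ?_⟩
  have : Fact (Nat.Prime 3) := ⟨Nat.prime_three⟩
  have h4 : 3 ∣ Nat.card ((wd D).toAffine.Point ⧸ nsG V (wd D)) := h3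
  obtain ⟨x, hx⟩ := exists_prime_addOrderOf_dvd_card' 3 h4
  have h5 : (2 : ℕ) • x = 0 := by
    rw [← QuotientAddGroup.out_eq' x, two_nsmul, ← QuotientAddGroup.mk_add]
    exact (QuotientAddGroup.eq_zero_iff _).2 (double H _)
  have h6 := addOrderOf_dvd_of_nsmul_eq_zero h5
  rw [hx] at h6
  norm_num at h6

end

end TamLa

/-- **The place above `3`.** -/
theorem index_la {L : Type*} [Field L] [CharZero L] (V : Valuation L ℤᵐ⁰) {l D : L}
    (hl : l ^ 2 = -3) (hvl : V l = exp (-1 : ℤ))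
    (hres : ∀ x, V x ≤ 1 → V x < 1 ∨ V (x - 1) < 1 ∨ V (x + 1) < 1) (hD : V D = 1)
    (h1 : exp (-3 : ℤ) < V (D - 1)) (h2 : exp (-3 : ℤ) < V (D + 1)) :
    ¬ 3 ∣ (nsG V (wd D)).index := by
  refine (TamLa.index (V := V) (l := l) (D := D) ⟨hl, hvl, hres, hD, ?_⟩).2
  have hv3 : V (3 : L) < 1 := by
    have h := congrArg V hl
    rw [map_pow, hvl, Valuation.map_neg, ← exp_nsmul] at h
    rw [← h, ← exp_zero, exp_lt_exp]
    norm_num
  have hv2 : V (2 : L) = 1 := by
    have e : (2 : L) = -1 + 3 := by norm_num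
    rw [e, Valuation.map_add_eq_of_lt_left, Valuation.map_neg, map_one]
    rwa [Valuation.map_neg, map_one]
  have e : D ^ 2 - 1 = (D - 1) * (D + 1) := by ring
  rw [e, map_mul]
  rcases hres D hD.le with h | h | h
  · exact absurd hD h.ne
  · have h3 : V (D + 1) = 1 := by
      have e2 : D + 1 = 2 + (D - 1) := by ring
      rw [e2, Valuation.map_add_eq_of_lt_left, hv2]
      rwa [hv2]
    rw [h3, mul_one]
    exact h1
  · have h3 : V (D - 1) = 1 := by
      have e2 : D - 1 = (D + 1) - 2 := by ring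
      rw [e2, Valuation.map_sub_eq_of_lt_right, hv2]
      rwa [hv2]
    rw [h3, one_mul]
    exact h2

end Pool.Agent.Lib.MP_1a91b9_ntK.C
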