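import Pool.Agent.Lib.MP_1a91b9_ntK.C.TamDefs

/-!
# MP_1a91b9_nt (cubic twists), block K-tam: index three

`y² + D y = x³`, `D` of value `exp (-1)` or `exp (-2)`, `3` or `2` a unit: the group of the points with
non-singular reduction has index three (`(0, 0)` and `(0, -D)` represent the other cosets).
-/

set_option autoImplicit false

namespace Pool.Agent.Lib.MP_1a91b9_ntK.C

open NumberField IsDedekindDomain WithZero WeierstrassCurve
open Pool.Agent.Lib.MP_1a91b9_ntH.C (nsSet nsG)
open scoped Classical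

namespace TamQ

/-- cube values -/
def CubV (t : ℤᵐ⁰) : Prop := ∃ a : ℤᵐ⁰, t = a ^ 3

theorem cub_mul {a b : ℤᵐ⁰} (ha : CubV a) (hb : CubV b) : CubV (a * b) := by
  obtain ⟨x, rfl⟩ := ha
  obtain ⟨y, rfl⟩ := hb
  exact ⟨x * y, by rw [mul_pow]⟩

theorem cub_of_mul {a b : ℤᵐ⁰} (h0 : a ≠ 0) (ha : CubV a) (hb : CubV (a * b)) : CubV b := by
  obtain ⟨x, rfl⟩ := ha
  obtain ⟨y, hy⟩ := hb
  refine ⟨x⁻¹ * y, ?_⟩
  rw [mul_pow, ← hy, inv_pow, inv_mul_cancel_left₀ h0]

theorem cub_exp {n : ℤ} (h : CubV (exp n)) : (3 : ℤ) ∣ n := by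
  obtain ⟨a, ha⟩ := h
  have ha0 : a ≠ 0 := by
    rintro rfl
    rw [zero_pow three_ne_zero] at ha
    exact exp_ne_zero ha
  obtain ⟨m, rfl⟩ : ∃ m : ℤ, a = exp m := ⟨WithZero.log a, (WithZero.exp_log ha0).symm⟩
  rw [← WithZero.exp_nsmul, WithZero.exp_inj] at ha
  exact ⟨m, by rw [ha]; simp⟩

section

variable {L : Type*} [Field L] [CharZero L] {D : L}

theorem neg_one_lt {e : ℤ} (he : 0 < e) : exp (-e) < (1 : ℤᵐ⁰) := by
  rw [← WithZero.exp_zero, WithZero.exp_lt_exp]
  omega

/-- values on the curve -/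
theorem cub_add {x y : L} (V : Valuation L ℤᵐ⁰) (h : y ^ 2 + D * y = x ^ 3) (hy : y ≠ 0)
    (hc : CubV (V y)) : CubV (V (y + D)) := by
  refine cub_of_mul (a := V y) ((Valuation.ne_zero_iff V).2 hy) hc ⟨V x, ?_⟩
  rw [← map_mul, ← map_pow, ← h]
  congr 1
  ring

/-- The group of the points for which `y` has a cube value. -/
noncomputable def G3 (V : Valuation L ℤᵐ⁰) (hD : ¬ CubV (V D ^ 2)) :
    AddSubgroup (wd D).toAffine.Point where
  carrier := {P | P = 0 ∨ ∃ (x y : L) (h : (wd D).toAffine.Nonsingular x y),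
    P = Affine.Point.some x y h ∧ y ≠ 0 ∧ y + D ≠ 0 ∧ CubV (V y)}
  zero_mem' := Or.inl rfl
  add_mem' := by
    rintro P Q hP hQ
    rcases hP with rfl | ⟨x₁, y₁, h₁, rfl, hy₁, hz₁, hP⟩
    · rw [zero_add]; exact hQ
    rcases hQ with rfl | ⟨x₂, y₂, h₂, rfl, hy₂, hz₂, hQ⟩
    · rw [add_zero]; exact Or.inr ⟨x₁, y₁, h₁, rfl, hy₁, hz₁, hP⟩
    by_cases hxy : x₁ = x₂ ∧ y₁ = (wd D).toAffine.negY x₂ y₂
    · left
      exact Affine.Point.add_of_Y_eq hxy.1 hxy.2
    right
    obtain ⟨l, n, x₃, y₃, hx3, hy3, e1, e2, e3, hl⟩ := wd_line h₁.1 h₂.1 hxy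
    obtain ⟨hp, hp'⟩ := wd_prod hl
    rw [← e1, ← e2, ← e3] at hp hp'
    have hP' := cub_add V ((wd_eqn _ _).1 h₁.1) hy₁ hP
    have hQ' := cub_add V ((wd_eqn _ _).1 h₂.1) hy₂ hQ
    have hD0 : D ≠ 0 := by
      rintro rfl
      apply hD
      rw [map_zero]
      exact ⟨0, by simp⟩
    have hy₃ : y₃ ≠ 0 := by
      rintro rfl
      rw [mul_zero] at hp
      have hn : n = 0 := pow_eq_zero_iff (three_ne_zero) |>.1 hp.symm
      rw [hn, zero_add] at hp'
      apply hD
      have h5 : (y₁ + D) * (y₂ + D) = D ^ 2 := by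
        have h6 : ((y₁ + D) * (y₂ + D) - D ^ 2) * D = 0 := by linear_combination hp'
        exact sub_eq_zero.1 ((mul_eq_zero.1 h6).resolve_right hD0)
      rw [← map_pow, ← h5, map_mul]
      exact cub_mul hP' hQ'
    have hz₃ : y₃ + D ≠ 0 := by
      intro h0
      rw [h0, mul_zero] at hp'
      have hn : n + D = 0 := pow_eq_zero_iff (three_ne_zero) |>.1 hp'.symm
      have hn' : n = -D := by linear_combination hn
      have h7 : y₃ = -D := by linear_combination h0
      rw [hn', h7] at hp
      apply hD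
      have h5 : y₁ * y₂ = D ^ 2 := by
        have h6 : (y₁ * y₂ - D ^ 2) * D = 0 := by linear_combination -hp
        exact sub_eq_zero.1 ((mul_eq_zero.1 h6).resolve_right hD0)
      rw [← map_pow, ← h5, map_mul]
      exact cub_mul hP hQ
    refine ⟨_, _, _, Affine.Point.add_some hxy, ?_, ?_, ?_⟩
    · rw [hy3]
      intro h0
      apply hz₃
      linear_combination -h0
    · rw [hy3]
      intro h0
      apply hy₃
      linear_combination -h0
    · rw [hy3]
      have h8 : -y₃ - D = -(y₃ + D) := by ring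
      rw [h8, Valuation.map_neg]
      refine cub_of_mul (a := V ((y₁ + D) * (y₂ + D))) ?_ ?_ ⟨V (n + D), ?_⟩
      · rw [Valuation.ne_zero_iff]
        exact mul_ne_zero hz₁ hz₂
      · rw [map_mul]
        exact cub_mul hP' hQ'
      · rw [← map_mul, hp', map_pow]
  neg_mem' := by
    rintro P (rfl | ⟨x, y, h, rfl, hy, hz, hP⟩)
    · left; exact neg_zero
    · right
      have e : (wd D).toAffine.negY x y = -(y + D) := by
        rw [Affine.negY]
        simp [wd]
        ring
      refine ⟨_, _, _, Affine.Point.neg_some h, ?_, ?_, ?_⟩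
      · rw [e]; exact neg_ne_zero.2 hz
      · rw [e]
        intro h0
        apply hy
        linear_combination -h0
      · rw [e, Valuation.map_neg]
        exact cub_add V ((wd_eqn _ _).1 h.1) hy hP

end

end TamQ

open TamQ in
/-- The index is three at the places which divide `D` (once or twice). -/
theorem index_three {L : Type*} [Field L] [CharZero L] {D : L} (V : Valuation L ℤᵐ⁰) {e : ℤ} (he : e = 1 ∨ e = 2) (hD : V D = exp (-e))
    (h3 : V 3 = 1 ∨ V 2 = 1) : (nsG V (wd D)).index = 3 := by
  have hD0 : D ≠ 0 := by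
    rintro rfl
    rw [map_zero] at hD
    exact exp_ne_zero hD.symm
  have hD1 : V D < 1 := by
    rw [hD]
    exact neg_one_lt (by omega)
  have hcub : ¬ CubV (V D ^ 2) := by
    rw [hD, ← WithZero.exp_nsmul]
    intro h
    have := cub_exp h
    simp at this
    omega
  -- the generating set
  have hset : ∀ (x y : L) (h : (wd D).toAffine.Nonsingular x y), 1 ≤ V x →
      Affine.Point.some x y h ∈ nsSet V (wd D) := by
    intro x y h hx
    refine Or.inr ⟨x, y, h, rfl, ?_⟩
    rcases hx.lt_or_eq with hx1 | hx1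
    · exact Or.inl hx1
    · rcases h3 with h3 | h2
      · right; right
        have e1 : 3 * x ^ 2 + 2 * (wd D).a₂ * x + (wd D).a₄ - (wd D).a₁ * y = 3 * x ^ 2 := by
          simp [wd]
        rw [e1, map_mul, map_pow, h3, ← hx1, one_pow, one_mul]
      · right; left
        have heq := congrArg V ((wd_eqn _ _).1 h.1)
        have e0 : y ^ 2 + D * y = y * (y + D) := by ring
        rw [e0, map_mul, map_pow, ← hx1, one_pow] at heq
        have hy1 : V y = 1 := by
          rcases lt_trichotomy (V y) 1 with h4 | h4 | h4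
          · have h5 : V (y + D) < 1 := (Valuation.map_add _ _ _).trans_lt (max_lt h4 hD1)
            have h6 : V y * V (y + D) < 1 :=
              mul_lt_one_of_nonneg_of_lt_one_left zero_le h4 h5.le
            rw [heq] at h6
            exact absurd h6 (lt_irrefl _)
          · exact h4
          · have h5 : V (y + D) = V y := Valuation.map_add_eq_of_lt_left V (hD1.trans h4)
            rw [h5] at heq
            have h6 : 1 < V y * V y := one_lt_mul_of_lt_of_le h4 h4.le
            rw [heq] at h6
            exact absurd h6 (lt_irrefl _)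
        have e1 : 2 * y + (wd D).a₁ * x + (wd D).a₃ = 2 * y + D := by simp [wd]
        rw [e1, Valuation.map_add_eq_of_lt_left V (by rw [map_mul, h2, hy1, one_mul]; exact hD1),
          map_mul, h2, hy1, one_mul]
  have hyx : ∀ x y : L, y ^ 2 + D * y = x ^ 3 → V x < 1 → V y < 1 := by
    intro x y h hx
    by_contra hc
    push Not at hc
    have h1 : V (D * y) < V (y ^ 2) := by
      rw [map_mul, pow_two, map_mul]
      exact mul_lt_mul_of_pos_right (hD1.trans_le hc) (zero_lt_one.trans_le hc)
    have h2 : V (y ^ 2 + D * y) = V (y ^ 2) := Valuation.map_add_eq_of_lt_left V h1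
    rw [h, map_pow, map_pow] at h2
    have h4 : V x ^ 3 < 1 := pow_lt_one₀ zero_le hx (by norm_num)
    rw [h2] at h4
    exact absurd h4 (not_lt.2 (one_le_pow₀ hc))
  have hset' : ∀ (x y : L) (h : (wd D).toAffine.Nonsingular x y),
      Affine.Point.some x y h ∈ nsSet V (wd D) → 1 ≤ V x := by
    intro x y h hP
    rcases hP with h0 | ⟨x', y', h', hxy, hcase⟩
    · exact absurd h0 (Affine.Point.some_ne_zero _)
    obtain ⟨rfl, rfl⟩ := (Affine.Point.some.injEq ..).mp hxy
    by_contra hlt
    push Not at hlt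
    have hy1 := hyx x y ((wd_eqn _ _).1 h.1) hlt
    rcases hcase with h1 | h1 | h1
    · exact absurd h1 (not_lt.2 hlt.le)
    · have e1 : 2 * y + (wd D).a₁ * x + (wd D).a₃ = y + y + D := by simp [wd]; ring
      rw [e1] at h1
      have h4 : V (y + y + D) < 1 :=
        (Valuation.map_add _ _ _).trans_lt (max_lt ((Valuation.map_add _ _ _).trans_lt
          (max_lt hy1 hy1)) hD1)
      rw [h1] at h4
      exact lt_irrefl _ h4
    · have e1 : 3 * x ^ 2 + 2 * (wd D).a₂ * x + (wd D).a₄ - (wd D).a₁ * y = 3 * x ^ 2 := by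
        simp [wd]
      have h31 : V (3 : L) ≤ 1 := by
        have e3 : (3 : L) = 1 + 1 + 1 := by norm_num
        rw [e3]
        exact (Valuation.map_add _ _ _).trans (max_le ((Valuation.map_add _ _ _).trans
          (max_le (map_one V).le (map_one V).le)) (map_one V).le)
      rw [e1, map_mul, map_pow] at h1
      have h4 : V (3 : L) * V x ^ 2 < 1 :=
        mul_lt_one_of_nonneg_of_lt_one_right h31 zero_le (pow_lt_one₀ zero_le hlt (by norm_num))
      rw [h1] at h4
      exact lt_irrefl _ h4
  -- contained in the group G3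
  have hG : nsG V (wd D) ≤ G3 V hcub := by
    rw [nsG, AddSubgroup.closure_le]
    intro P hP
    rcases P with _ | ⟨x, y, h⟩
    · exact Or.inl rfl
    have h1 := hset' x y h hP
    have heq := (wd_eqn _ _).1 h.1
    have hVx : V x ≠ 0 := (zero_lt_one.trans_le h1).ne'
    have hyD : V D < V y := by
      by_contra hc
      push Not at hc
      have h4 : V (y ^ 2 + D * y) < 1 := by
        have e1 : y ^ 2 + D * y = (y + D) * y := by ring
        have h5 : V (y + D) < 1 := (Valuation.map_add _ _ _).trans_lt (max_lt (hc.trans_lt hD1) hD1)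
        rw [e1, map_mul]
        exact mul_lt_one_of_nonneg_of_lt_one_left zero_le h5 (hc.trans hD1.le)
      rw [heq, map_pow] at h4
      exact absurd h4 (not_lt.2 (one_le_pow₀ h1))
    have hy0 : y ≠ 0 := by
      rintro rfl
      rw [map_zero] at hyD
      exact absurd hyD (not_lt.2 zero_le)
    have hyD' : V (y + D) = V y := Valuation.map_add_eq_of_lt_left V hyD
    have hz0 : y + D ≠ 0 := by
      intro h0
      rw [h0, map_zero] at hyD'
      exact hy0 ((map_eq_zero V).1 hyD'.symm)
    refine Or.inr ⟨x, y, h, rfl, hy0, hz0, ?_⟩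
    have h6 : V y ^ 2 = V x ^ 3 := by
      rw [← map_pow, ← map_pow, ← heq]
      have e1 : y ^ 2 + D * y = (y + D) * y := by ring
      rw [e1, map_mul, hyD', map_pow, pow_two]
    have hVy : V y ≠ 0 := (Valuation.ne_zero_iff V).2 hy0
    refine cub_of_mul (a := V y ^ 2) (pow_ne_zero 2 hVy) ⟨V x, h6⟩ ⟨V y, ?_⟩
    rw [← pow_succ]
  -- the three points
  have n0 : (wd D).toAffine.Nonsingular 0 0 := (wd_nons hD0 _ _).2 (by ring)
  have n1 : (wd D).toAffine.Nonsingular 0 (-D) := (wd_nons hD0 _ _).2 (by ring)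
  obtain ⟨A, hA⟩ : ∃ A : (wd D).toAffine.Point, A = Affine.Point.some 0 0 n0 := ⟨_, rfl⟩
  obtain ⟨B, hB⟩ : ∃ B : (wd D).toAffine.Point, B = Affine.Point.some 0 (-D) n1 := ⟨_, rfl⟩
  have hneg0 : (wd D).toAffine.negY 0 0 = -D := by
    rw [Affine.negY]
    simp [wd]
  have hnA : -A = B := by
    rw [hA, hB, Affine.Point.neg_some, Affine.Point.some.injEq]
    exact ⟨rfl, hneg0⟩
  have hnB : -B = A := by rw [← hnA, neg_neg]
  have hAA : A + A = B := by
    have hne : (0 : L) ≠ (wd D).toAffine.negY 0 0 := by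
      rw [hneg0]
      intro h0
      apply hD0
      linear_combination h0
    rw [hA, hB, Affine.Point.add_self_of_Y_ne hne, Affine.Point.some.injEq]
    have hs : (wd D).toAffine.slope 0 0 0 0 = 0 := by
      rw [Affine.slope_of_Y_ne rfl hne]
      simp [wd]
    rw [hs]
    constructor
    · simp [Affine.addX, wd]
    · simp [Affine.addY, Affine.negAddY, Affine.negY, Affine.addX, wd]
  have hAn : A ∉ nsG V (wd D) := by
    intro hm
    rcases hG hm with h0 | ⟨x, y, h, hxy, hy, hz, -⟩
    · rw [hA] at h0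
      exact Affine.Point.some_ne_zero _ h0
    · rw [hA] at hxy
      obtain ⟨-, h5⟩ := (Affine.Point.some.injEq ..).mp hxy
      exact hy h5.symm
  have hBn : B ∉ nsG V (wd D) := by
    intro hm
    apply hAn
    rw [← hnB]
    exact (nsG V (wd D)).neg_mem hm
  have hAB : A + -B = B := by rw [hnB]; exact hAA
  have hBB : B + B = A := by
    rw [← hnA, ← neg_add, hAA, hnB]
  have hinj : Function.Injective (fun i : Fin 3 =>
      (QuotientAddGroup.mk (![0, A, B] i) : (wd D).toAffine.Point ⧸ nsG V (wd D))) := by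
    intro i j hij
    have hij' : -(![0, A, B] i) + ![0, A, B] j ∈ nsG V (wd D) := QuotientAddGroup.eq.1 hij
    fin_cases i <;> fin_cases j <;> simp [hnA, hnB, hAA, hBB, hAn, hBn] at hij' ⊢
  have hsurj : Function.Surjective (fun i : Fin 3 =>
      (QuotientAddGroup.mk (![0, A, B] i) : (wd D).toAffine.Point ⧸ nsG V (wd D))) := by
    intro q
    obtain ⟨P, rfl⟩ := QuotientAddGroup.mk_surjective q
    have hred : ∀ i : Fin 3, -(![0, A, B] i) + P ∈ nsSet V (wd D) → ∃ i : Fin 3,
        (QuotientAddGroup.mk (![0, A, B] i) : (wd D).toAffine.Point ⧸ nsG V (wd D)) =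
          QuotientAddGroup.mk P := fun i hi =>
      ⟨i, QuotientAddGroup.eq.2 (AddSubgroup.subset_closure hi)⟩
    have hredA : P + A ∈ nsSet V (wd D) → ∃ i : Fin 3,
        (QuotientAddGroup.mk (![0, A, B] i) : (wd D).toAffine.Point ⧸ nsG V (wd D)) =
          QuotientAddGroup.mk P := by
      intro h
      refine hred 2 ?_
      change -B + P ∈ _
      rw [hnB, add_comm]
      exact h
    have hredB : P + B ∈ nsSet V (wd D) → ∃ i : Fin 3,
        (QuotientAddGroup.mk (![0, A, B] i) : (wd D).toAffine.Point ⧸ nsG V (wd D)) =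
          QuotientAddGroup.mk P := by
      intro h
      refine hred 1 ?_
      change -A + P ∈ _
      rw [hnA, add_comm]
      exact h
    rcases P with _ | ⟨x, y, h⟩
    · refine hred 0 ?_
      change -0 + 0 ∈ _
      rw [neg_zero, zero_add]
      exact Or.inl rfl
    by_cases hx : 1 ≤ V x
    · refine hred 0 ?_
      change -0 + _ ∈ _
      rw [neg_zero, zero_add]
      exact hset x y h hx
    push Not at hx
    have heq := (wd_eqn _ _).1 h.1
    by_cases hx0 : x = 0
    · subst hx0
      have hy : y * (y + D) = 0 := by linear_combination heq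
      rcases mul_eq_zero.1 hy with rfl | hy
      · apply hredB
        left
        rw [← hnA, hA]
        exact add_neg_cancel _
      · have hy' : y = -D := by linear_combination hy
        subst hy'
        apply hredA
        left
        rw [← hnB, hB]
        exact add_neg_cancel _
    have hy0 : y ≠ 0 := by
      rintro rfl
      apply hx0
      have : x ^ 3 = 0 := by linear_combination -heq
      exact pow_eq_zero_iff (three_ne_zero) |>.1 this
    have hz0 : y + D ≠ 0 := by
      intro h0
      apply hx0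
      have : x ^ 3 = 0 := by linear_combination y * h0 - heq
      exact pow_eq_zero_iff (three_ne_zero) |>.1 this
    have hprod : V y * V (y + D) = V x ^ 3 := by
      rw [← map_mul, ← map_pow, ← heq]
      congr 1
      ring
    obtain ⟨a, ha⟩ : ∃ a : ℤ, V x = exp a :=
      ⟨WithZero.log (V x), (WithZero.exp_log ((Valuation.ne_zero_iff V).2 hx0)).symm⟩
    obtain ⟨b, hb⟩ : ∃ b : ℤ, V y = exp b :=
      ⟨WithZero.log (V y), (WithZero.exp_log ((Valuation.ne_zero_iff V).2 hy0)).symm⟩
    obtain ⟨c, hc⟩ : ∃ c : ℤ, V (y + D) = exp c :=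
      ⟨WithZero.log (V (y + D)), (WithZero.exp_log ((Valuation.ne_zero_iff V).2 hz0)).symm⟩
    have ha1 : a < 0 := by
      rw [ha, ← WithZero.exp_zero, WithZero.exp_lt_exp] at hx
      exact hx
    have hbc : b + c = 3 * a := by
      rw [ha, hb, hc, ← WithZero.exp_add, ← WithZero.exp_nsmul, WithZero.exp_inj] at hprod
      simpa using hprod
    -- ultrametric relations
    have u1 : c ≤ max b (-e) := by
      have h5 := Valuation.map_add V y D
      rw [hb, hc, hD] at h5
      rcases le_max_iff.1 h5 with h6 | h6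
      · exact le_max_of_le_left (WithZero.exp_le_exp.1 h6)
      · exact le_max_of_le_right (WithZero.exp_le_exp.1 h6)
    have u2 : b ≤ max c (-e) := by
      have h5 := Valuation.map_sub V (y + D) D
      rw [add_sub_cancel_right, hb, hc, hD] at h5
      rcases le_max_iff.1 h5 with h6 | h6
      · exact le_max_of_le_left (WithZero.exp_le_exp.1 h6)
      · exact le_max_of_le_right (WithZero.exp_le_exp.1 h6)
    have u3 : -e ≤ max b c := by
      have h5 := Valuation.map_sub V (y + D) y
      rw [add_sub_cancel_left, hb, hc, hD] at h5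
      rcases le_max_iff.1 h5 with h6 | h6
      · exact le_max_of_le_right (WithZero.exp_le_exp.1 h6)
      · exact le_max_of_le_left (WithZero.exp_le_exp.1 h6)
    have hcase : (b < -e ∧ c = -e) ∨ (c < -e ∧ b = -e) := by
      rcases he with rfl | rfl <;> omega
    rcases hcase with ⟨hb1, hc1⟩ | ⟨hc1, hb1⟩
    · -- add `(0, -D)`
      apply hredB
      rw [hB, Affine.Point.add_of_X_ne hx0]
      refine hset _ _ _ ?_
      have hs : (wd D).toAffine.slope x 0 y (-D) = (y + D) / x := by
        rw [Affine.slope_of_X_ne hx0, sub_zero, sub_neg_eq_add]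
      have hX : (wd D).toAffine.addX x 0 ((wd D).toAffine.slope x 0 y (-D)) =
          D * (y + D) / x ^ 2 := by
        rw [hs]
        simp only [Affine.addX, wd]
        field_simp
        linear_combination heq
      rw [hX, map_div₀, map_mul, map_pow, hc, hD, ha, hc1, ← WithZero.exp_add,
        ← WithZero.exp_nsmul, ← WithZero.exp_sub, ← WithZero.exp_zero, WithZero.exp_le_exp]
      simp
      omega
    · -- add `(0, 0)`
      apply hredA
      rw [hA, Affine.Point.add_of_X_ne hx0]
      refine hset _ _ _ ?_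
      have hs : (wd D).toAffine.slope x 0 y 0 = y / x := by
        rw [Affine.slope_of_X_ne hx0, sub_zero, sub_zero]
      have hX : (wd D).toAffine.addX x 0 ((wd D).toAffine.slope x 0 y 0) =
          -(D * y / x ^ 2) := by
        rw [hs]
        simp only [Affine.addX, wd]
        field_simp
        linear_combination heq
      rw [hX, Valuation.map_neg, map_div₀, map_mul, map_pow, hb, hD, ha, hb1, ← WithZero.exp_add,
        ← WithZero.exp_nsmul, ← WithZero.exp_sub, ← WithZero.exp_zero, WithZero.exp_le_exp]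
      simp
      omega
  have hcard : Nat.card (Fin 3) = Nat.card ((wd D).toAffine.Point ⧸ nsG V (wd D)) :=
    Nat.card_congr (Equiv.ofBijective _ ⟨hinj, hsurj⟩)
  rw [AddSubgroup.index, ← hcard, Nat.card_eq_fintype_card, Fintype.card_fin]

end Pool.Agent.Lib.MP_1a91b9_ntK.C
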