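import Pool.Agent.Lib.MP_1a91b9_ntK.A.LocDef
import Pool.Agent.Lib.MP_1a91b9_ntK.C.TamG
import Pool.Agent.Lib.MP_1a91b9_ntK.C.TamQ
import Pool.Agent.Lib.MP_1a91b9_ntK.C.TamL
import Pool.Agent.Lib.MP_1a91b9_ntK.C.Hyp3

/-!
# MP_1a91b9_nt (cubic twists), block K-tam: the product of the Tamagawa numbers of `y² + D y = x³`

`D` in `𝓞 K`, cube-free, prime to `√-3`, not `± 1` modulo `3 √-3`: `tam = 3` at the primes which
divide `D`, prime to three at `√-3`, and `1` at the other places.
-/

set_option autoImplicit false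
set_option linter.unusedSectionVars false

namespace Pool.Agent.Lib.MP_1a91b9_ntK.C

open NumberField IsDedekindDomain WithZero WeierstrassCurve Finset Pool.Agent.Lib.MP_1a91b9_ntT
  Pool.Agent.Lib.MP_1a91b9_ntK
open Pool.Agent.Lib.MP_1a91b9_ntH (s3 wO)
open Pool.Agent.Lib.MP_1a91b9_ntH.C (nsSet nsG ideal_eq val_prime val_one val_lt val_le val_le_sq
  s3_prime coe_s3)
open Pool.Agent.Lib.MP_1a91b9_ntT.S9 (tam)
open scoped Classical

/-- `p q`, `q` in `S`, are the primes which divide `D`, with exponents one or two. -/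
structure PD {ι : Type} (D : 𝓞 K) (p : ι → 𝓞 K) (S : Finset ι) : Prop where
  prime : ∀ q ∈ S, Prime (p q)
  inj : ∀ q ∈ S, ∀ r ∈ S, p q ∣ p r → q = r
  dvd : ∀ q ∈ S, p q ∣ D
  cube : ∀ q ∈ S, ¬ p q ^ 3 ∣ D
  all : ∀ r : 𝓞 K, Prime r → r ∣ D → ∃ q ∈ S, p q ∣ r

section

variable {D : 𝓞 K}

theorem tam_hval (v : HeightOneSpectrum (𝓞 K)) (x : K) :
    (Valued.v : Valuation (v.adicCompletion K) ℤᵐ⁰) (algebraMap K (v.adicCompletion K) x) =
      v.valuation K x :=
  HeightOneSpectrum.valuedAdicCompletion_eq_valuation' v x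

theorem dense_one (v : HeightOneSpectrum (𝓞 K)) (x : v.adicCompletion K) :
    ∃ X : K, Valued.v (x - algebraMap K (v.adicCompletion K) X) < (1 : ℤᵐ⁰) := by
  have hn1 : exp (-(1 : ℤ)) < (1 : ℤᵐ⁰) := by
    rw [← exp_zero, exp_lt_exp]
    omega
  obtain ⟨c, hc⟩ := HeightOneSpectrum.valuedAdicCompletion_surjective K v (exp (-(1 : ℤ)))
  have hcr : Valued.v.restrict c ≠ 0 := by
    rw [Ne, Valuation.restrict_eq_zero_iff, hc]
    exact exp_ne_zero
  have hO : IsOpen ((fun y : v.adicCompletion K => x - y) ⁻¹'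
      {z : v.adicCompletion K | Valued.v.restrict z ≤ Valued.v.restrict c}) :=
    (Valued.isOpen_closedBall _ hcr).preimage (continuous_const.sub continuous_id)
  obtain ⟨z, hz⟩ := (HeightOneSpectrum.denseRange_algebraMap K v).exists_mem_open hO
    ⟨x, by
      rw [Set.mem_preimage, sub_self, Set.mem_ofPred_eq, map_zero]
      exact zero_le⟩
  rw [Set.mem_preimage, Set.mem_ofPred_eq, Valuation.restrict_le_iff, hc] at hz
  exact ⟨z, hz.trans_lt hn1⟩

/-- the residue field at `√-3` has three elements -/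
theorem res_three' {v : HeightOneSpectrum (𝓞 K)} (h : s3 ∈ v.asIdeal) (x : v.adicCompletion K)
    (hx : Valued.v x ≤ (1 : ℤᵐ⁰)) : Valued.v x < (1 : ℤᵐ⁰) ∨ Valued.v (x - 1) < (1 : ℤᵐ⁰) ∨
      Valued.v (x + 1) < (1 : ℤᵐ⁰) := by
  obtain ⟨X, hX⟩ := dense_one v x
  have key : ∀ z : K, v.valuation K (X - z) < 1 →
      Valued.v (x - algebraMap K (v.adicCompletion K) z) < (1 : ℤᵐ⁰) := by
    intro z hz
    have e : x - algebraMap K (v.adicCompletion K) z = (x - algebraMap K (v.adicCompletion K) X) +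
        algebraMap K (v.adicCompletion K) (X - z) := by
      rw [map_sub]
      ring
    rw [e]
    refine (Valuation.map_add _ _ _).trans_lt (max_lt hX ?_)
    rw [tam_hval]
    exact hz
  have hX1 : v.valuation K X ≤ 1 := by
    rw [← tam_hval]
    have e : algebraMap K (v.adicCompletion K) X =
        x - (x - algebraMap K (v.adicCompletion K) X) := by ring
    rw [e]
    exact (Valuation.map_sub _ _ _).trans (max_le hx hX.le)
  rcases res_three h X hX1 with h1 | h1 | h1
  · left
    have := key 0 (by rwa [sub_zero])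
    rwa [map_zero, sub_zero] at this
  · right; left
    have := key 1 h1
    rwa [map_one] at this
  · right; right
    have := key (-1) (by rwa [sub_neg_eq_add])
    rwa [map_neg, map_one, sub_neg_eq_add] at this

theorem wd_bc (D : 𝓞 K) (v : HeightOneSpectrum (𝓞 K)) :
    (WD D).baseChange (v.adicCompletion K) =
      wd (algebraMap K (v.adicCompletion K) (D : K)) := by
  rw [WeierstrassCurve.baseChange]
  ext <;> simp [WD, wd, WeierstrassCurve.map]

theorem wd_int (D : 𝓞 K) (v : HeightOneSpectrum (𝓞 K)) :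
    ∃ I : WeierstrassCurve (v.adicCompletionIntegers K),
      (WD D).baseChange (v.adicCompletion K) = I.baseChange (v.adicCompletion K) := by
  have hD : Valued.v (algebraMap K (v.adicCompletion K) (D : K)) ≤ (1 : ℤᵐ⁰) := by
    rw [tam_hval]
    exact val_le v D
  refine ⟨⟨0, 0, ⟨algebraMap K (v.adicCompletion K) (D : K), hD⟩, 0, 0⟩, ?_⟩
  rw [wd_bc]
  ext <;> simp [wd, WeierstrassCurve.map, WeierstrassCurve.baseChange]

theorem wd_val (D : 𝓞 K) (v : HeightOneSpectrum (𝓞 K)) :
    Valued.v ((WD D).baseChange (v.adicCompletion K)).Δ =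
      v.valuation K 3 ^ 3 * v.valuation K (D : K) ^ 4 := by
  have e : (wd (algebraMap K (v.adicCompletion K) (D : K))).Δ =
      -(algebraMap K (v.adicCompletion K) (3 ^ 3 * (D : K) ^ 4)) := by
    rw [wd_disc, map_mul, map_pow, map_pow, map_ofNat]
    norm_num
  rw [wd_bc, e, Valuation.map_neg, tam_hval, map_mul, map_pow, map_pow]

theorem val_three (v : HeightOneSpectrum (𝓞 K)) :
    v.valuation K (3 : K) = v.valuation K (s3 : K) ^ 2 := by
  have e : (3 : K) = -(((s3 : 𝓞 K) : K) ^ 2) := by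
    rw [coe_s3]
    linear_combination 4 * Pool.Agent.Lib.MP_1a91b9_ntH.om_quad
  rw [e, Valuation.map_neg, map_pow]

/-- The places which divide `D`. -/
theorem tamK_q {ι : Type} {p : ι → 𝓞 K} {S : Finset ι} (h : PD D p S) (h3 : ¬ s3 ∣ D)
    {v : HeightOneSpectrum (𝓞 K)} {q : ι} (hq : q ∈ S) (hv : p q ∈ v.asIdeal) :
    tam (WD D) v = 3 := by
  have hs : s3 ∉ v.asIdeal := by
    intro hm
    have h1 : p q ∈ Ideal.span {s3} := by
      rw [← ideal_eq s3_prime hm]
      exact hv
    rw [Ideal.mem_span_singleton] at h1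
    have h2 := (s3_prime.dvd_prime_iff_associated (h.prime q hq)).1 h1
    exact h3 (h2.dvd.trans (h.dvd q hq))
  have hs3 : v.valuation K (s3 : K) = 1 := val_one hs
  have h31 : v.valuation K (3 : K) = 1 := by rw [val_three, hs3, one_pow]
  have hle : v.valuation K (D : K) ≤ exp (-1 : ℤ) := by
    have := (val_le_sq (h.prime q hq) hv (x := D) 1).2 (by rw [pow_one]; exact h.dvd q hq)
    simpa using this
  have hgt : exp (-3 : ℤ) < v.valuation K (D : K) := by
    rw [← not_le]
    intro h1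
    exact h.cube q hq ((val_le_sq (h.prime q hq) hv (x := D) 3).1 (by simpa using h1))
  obtain ⟨e, he, hD⟩ : ∃ e : ℤ, (e = 1 ∨ e = 2) ∧ v.valuation K (D : K) = exp (-e) := by
    have h0 : v.valuation K (D : K) ≠ 0 := (zero_le.trans_lt hgt).ne'
    obtain ⟨n, hn⟩ : ∃ n : ℤ, v.valuation K (D : K) = exp n :=
      ⟨WithZero.log _, (WithZero.exp_log h0).symm⟩
    rw [hn, exp_le_exp] at hle
    rw [hn, exp_lt_exp] at hgt
    refine ⟨-n, ?_, ?_⟩
    · omega
    · rw [hn, neg_neg]
  have hc0 : CharZero (v.adicCompletion K) :=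
    charZero_of_injective_algebraMap (algebraMap K (v.adicCompletion K)).injective
  rw [tam_eq v (WD D) (wd_int D v)]
  · rw [wd_bc]
    refine index_three _ he ?_ ?_
    · rw [tam_hval]; exact hD
    · left
      rw [← map_ofNat (algebraMap K (v.adicCompletion K)) 3, tam_hval]; exact h31
  · rw [wd_val, h31, hD, one_pow, one_mul, ← exp_nsmul, exp_lt_exp]
    simp
    omega

/-- The place `√-3`. -/
theorem tamK_la (h3 : ¬ s3 ∣ D) (h1 : ¬ 3 * s3 ∣ D - 1) (h2 : ¬ 3 * s3 ∣ D + 1)
    {v : HeightOneSpectrum (𝓞 K)} (hv : s3 ∈ v.asIdeal) : ¬ 3 ∣ tam (WD D) v := by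
  have hs3 : v.valuation K (s3 : K) = exp (-1 : ℤ) := val_prime s3_prime hv
  have hD : v.valuation K (D : K) = 1 := by
    apply val_one
    intro hm
    exact h3 ((mem_s3 hv D).1 hm)
  have h3l : v.valuation K (3 * lK) = exp (-3 : ℤ) := by
    have e : v.valuation K lK = exp (-1 : ℤ) := val_l hv
    rw [map_mul, val_three, hs3, e, ← exp_nsmul, ← exp_add]
    norm_num
  have key : ∀ x : 𝓞 K, ¬ 3 * s3 ∣ x → exp (-3 : ℤ) < v.valuation K (x : K) := by
    intro x hx
    rw [← h3l, ← not_le]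
    intro h4
    exact hx ((le_three_l_iff hv x).1 h4)
  have hc0 : CharZero (v.adicCompletion K) :=
    charZero_of_injective_algebraMap (algebraMap K (v.adicCompletion K)).injective
  rw [tam_eq v (WD D) (wd_int D v)]
  · rw [wd_bc]
    refine index_la (l := algebraMap K (v.adicCompletion K) lK) _ ?_ ?_
      (fun x hx => res_three' hv x hx) ?_ ?_ ?_
    · rw [← map_pow, lK_sq, map_neg, map_ofNat]
    · rw [tam_hval]; exact val_l hv
    · rw [tam_hval]; exact hD
    · have := key _ h1
      rw [← map_one (algebraMap K (v.adicCompletion K)), ← map_sub, tam_hval]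
      have e : ((D - 1 : 𝓞 K) : K) = (D : K) - 1 := by
        push_cast
        rfl
      rwa [e] at this
    · have := key _ h2
      rw [← map_one (algebraMap K (v.adicCompletion K)), ← map_add, tam_hval]
      have e : ((D + 1 : 𝓞 K) : K) = (D : K) + 1 := by
        push_cast
        rfl
      rwa [e] at this
  · rw [wd_val, val_three, hs3, hD, one_pow, mul_one, ← pow_mul, ← exp_nsmul, exp_lt_exp]
    norm_num

/-- The other places. -/
theorem tamK_good {v : HeightOneSpectrum (𝓞 K)} (hs : s3 ∉ v.asIdeal) (hD : D ∉ v.asIdeal) :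
    tam (WD D) v = 1 := by
  refine tam_one v (WD D) (wd_int D v) ?_
  rw [wd_val, val_three, val_one hs, val_one hD]
  simp

/-- **The product of the Tamagawa numbers of `y² + D y = x³`.** -/
theorem finprod_tamK {ι : Type} {p : ι → 𝓞 K} {S : Finset ι} (h : PD D p S) (h3 : ¬ s3 ∣ D)
    (h1 : ¬ 3 * s3 ∣ D - 1) (h2 : ¬ 3 * s3 ∣ D + 1) : ∃ t : ℕ, ¬ 3 ∣ t ∧
      ∏ᶠ v : HeightOneSpectrum (𝓞 K), tam (WD D) v = 3 ^ S.card * t := by
  have hpid : IsPrincipalIdealRing (𝓞 K) := IsCyclotomicExtension.Rat.three_pid K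
  obtain ⟨w3, hw3⟩ : ∃ v : HeightOneSpectrum (𝓞 K), s3 ∈ v.asIdeal :=
    ⟨⟨Ideal.span {s3}, (Ideal.span_singleton_prime s3_prime.ne_zero).2 s3_prime, by
      rw [Ne, Ideal.span_singleton_eq_bot]
      exact s3_prime.ne_zero⟩, Ideal.mem_span_singleton_self _⟩
  have hex : ∀ q : ι, ∃ v : HeightOneSpectrum (𝓞 K), q ∈ S → v.asIdeal = Ideal.span {p q} := by
    intro q
    by_cases hq : q ∈ S
    · exact ⟨⟨Ideal.span {p q}, (Ideal.span_singleton_prime (h.prime q hq).ne_zero).2 (h.prime q hq),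
        by
          rw [Ne, Ideal.span_singleton_eq_bot]
          exact (h.prime q hq).ne_zero⟩, fun _ => rfl⟩
    · exact ⟨w3, fun h4 => absurd h4 hq⟩
  choose P hP using hex
  have hmem : ∀ q ∈ S, p q ∈ (P q).asIdeal := by
    intro q hq
    rw [hP q hq]
    exact Ideal.mem_span_singleton_self _
  have hinj : Set.InjOn P S := by
    intro q hq r hr hqr
    apply h.inj q hq r hr
    rw [← Ideal.mem_span_singleton, ← hP q hq, hqr]
    exact hmem r hr
  have hDP : ∀ q ∈ S, D ∈ (P q).asIdeal := by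
    intro q hq
    rw [hP q hq, Ideal.mem_span_singleton]
    exact h.dvd q hq
  have h3S : w3 ∉ S.image P := by
    intro hm
    obtain ⟨q, hq, rfl⟩ := Finset.mem_image.1 hm
    exact h3 ((mem_s3 hw3 D).1 (hDP q hq))
  have hsupp : (Function.mulSupport fun v : HeightOneSpectrum (𝓞 K) => tam (WD D) v) ⊆
      ((insert w3 (S.image P) : Finset (HeightOneSpectrum (𝓞 K))) :
        Set (HeightOneSpectrum (𝓞 K))) := by
    intro v hv
    rw [Function.mem_mulSupport] at hv
    rw [Finset.mem_coe, Finset.mem_insert, Finset.mem_image]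
    by_contra hcon
    push Not at hcon
    obtain ⟨n3, nS⟩ := hcon
    apply hv
    apply tamK_good
    · intro hm
      apply n3
      apply HeightOneSpectrum.ext
      rw [ideal_eq s3_prime hm, ideal_eq s3_prime hw3]
    · intro hm
      obtain ⟨r, hr⟩ := (hpid.principal v.asIdeal).principal
      have hr' : v.asIdeal = Ideal.span {r} := hr
      have hr0 : r ≠ 0 := by
        rintro rfl
        apply v.ne_bot
        rw [hr', Ideal.span_singleton_eq_bot.2 rfl]
      have hrp : Prime r := by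
        rw [← Ideal.span_singleton_prime hr0, ← hr']
        exact v.isPrime
      rw [hr', Ideal.mem_span_singleton] at hm
      obtain ⟨q, hq, hqr⟩ := h.all r hrp hm
      apply nS q hq
      apply HeightOneSpectrum.ext
      rw [hP q hq, hr', Ideal.span_singleton_eq_span_singleton]
      exact ((h.prime q hq).dvd_prime_iff_associated hrp).1 hqr
  rw [finprod_eq_prod_of_mulSupport_subset _ hsupp, Finset.prod_insert h3S,
    Finset.prod_image hinj, Finset.prod_congr rfl (fun q hq => tamK_q h h3 hq (hmem q hq)),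
    Finset.prod_const]
  exact ⟨tam (WD D) w3, tamK_la h3 h1 h2 hw3, mul_comm _ _⟩

end

end Pool.Agent.Lib.MP_1a91b9_ntK.C
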