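import Pool.Agent.Lib.MP_1a91b9_ntK.C.TamHd
import Pool.Agent.Lib.MP_1a91b9_ntK.C.Tam
import Pool.Agent.Lib.MP_1a91b9_ntT.S9.QD

/-!
# MP_1a91b9_nt (cubic twists), block K-TAM: the place above `3`, the hard class, the Tamagawa number

`D` congruent to `± 1` modulo `3 √-3`: `tam = 3` at `√-3`. The point with singular reduction in the
completion: `D = ε + l³ a`, `2 y + D = l (1 + ε l a)`, `x³ = - (1 - 9 a²)`, a cube by Hensel's lemma.
-/

set_option autoImplicit false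

namespace Pool.Agent.Lib.MP_1a91b9_ntK.C

open NumberField IsDedekindDomain WithZero WeierstrassCurve Finset Pool.Agent.Lib.MP_1a91b9_ntT
  Pool.Agent.Lib.MP_1a91b9_ntK
open Pool.Agent.Lib.MP_1a91b9_ntH (s3 wO)
open Pool.Agent.Lib.MP_1a91b9_ntH.C (nsSet nsG ideal_eq val_prime val_one val_lt val_le val_le_sq
  s3_prime coe_s3)
open Pool.Agent.Lib.MP_1a91b9_ntT.S9 (tam hensel_small)
open scoped Classical

/-- The point with singular reduction. -/
theorem exists_sg {N : Type*} [Field N] [NumberField N] (v : HeightOneSpectrum (𝓞 N))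
    {l D : v.adicCompletion N} (h2 : (2 : v.adicCompletion N) ≠ 0) (hl : l ^ 2 = -3)
    (hv : Valued.v l = exp (-1 : ℤ)) (hD0 : D ≠ 0) (hchar : CharZero (v.adicCompletion N))
    (h : Valued.v (D - 1) ≤ exp (-3 : ℤ) ∨ Valued.v (D + 1) ≤ exp (-3 : ℤ)) :
    ∃ (x y : v.adicCompletion N) (_ : (wd D).toAffine.Nonsingular x y),
      TamLa.Sg Valued.v D x y := by
  have hn1 : exp (-1 : ℤ) < (1 : ℤᵐ⁰) := by
    rw [← exp_zero, exp_lt_exp]
    norm_num
  have hl0 : l ≠ 0 := by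
    rintro rfl
    rw [map_zero] at hv
    exact exp_ne_zero hv.symm
  have hv3 : Valued.v (3 : v.adicCompletion N) < (1 : ℤᵐ⁰) := by
    have h3 := congrArg (Valued.v : Valuation (v.adicCompletion N) ℤᵐ⁰) hl
    rw [map_pow, hv, Valuation.map_neg] at h3
    rw [← h3]
    exact pow_lt_one₀ zero_le hn1 (by norm_num)
  -- the sign
  obtain ⟨e, he2, heD⟩ : ∃ e : v.adicCompletion N, e ^ 2 = 1 ∧ Valued.v (D - e) ≤ exp (-3 : ℤ) := by
    rcases h with h | h
    · exact ⟨1, one_pow 2, h⟩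
    · exact ⟨-1, by ring, by rwa [sub_neg_eq_add]⟩
  have hve : Valued.v e = (1 : ℤᵐ⁰) := by
    have h3 := congrArg (Valued.v : Valuation (v.adicCompletion N) ℤᵐ⁰) he2
    rw [map_pow, map_one] at h3
    exact (pow_eq_one_iff_of_nonneg zero_le (by norm_num)).1 h3
  obtain ⟨a, ha⟩ : ∃ a, a = (D - e) / l ^ 3 := ⟨_, rfl⟩
  have hva : Valued.v a ≤ (1 : ℤᵐ⁰) := by
    rw [ha, map_div₀, map_pow, hv, ← exp_nsmul]
    have h3 : exp (3 • (-1 : ℤ)) = exp (-3 : ℤ) := by norm_num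
    rw [h3]
    exact (div_le_one₀ exp_pos).2 heD
  have hDa : D = e + l ^ 3 * a := by
    rw [ha]
    field_simp
    ring
  -- Hensel
  have i1 : Valued.v (1 : v.adicCompletion N) ≤ (1 : ℤᵐ⁰) := (map_one _).le
  have hva2 : ∀ n : ℕ, Valued.v (a ^ n) ≤ (1 : ℤᵐ⁰) := fun n => by
    rw [map_pow]
    exact pow_le_one₀ zero_le hva
  have m3 : ∀ z : v.adicCompletion N, Valued.v z ≤ (1 : ℤᵐ⁰) → Valued.v (3 * z) < (1 : ℤᵐ⁰) := by
    intro z hz
    rw [map_mul]
    exact mul_lt_one_of_lt_of_le hv3 hz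
  have hA : Valued.v (3 * (a ^ 6 - a ^ 4)) < (1 : ℤᵐ⁰) :=
    m3 _ ((Valuation.map_sub _ _ _).trans (max_le (hva2 6) (hva2 4)))
  have hs : Valued.v (3 * a ^ 2) < (1 : ℤᵐ⁰) := m3 _ (hva2 2)
  have hB1 : Valued.v (1 - 3 * a ^ 2) = (1 : ℤᵐ⁰) := by
    rw [Valuation.map_sub_eq_of_lt_left, map_one]
    rwa [map_one]
  have hB : Valued.v ((1 - 3 * a ^ 2) ^ 2) = (1 : ℤᵐ⁰) := by rw [map_pow, hB1, one_pow]
  have hC : Valued.v (3 * (3 * a ^ 2 - 1)) ≤ (1 : ℤᵐ⁰) :=
    (m3 _ ((Valuation.map_sub _ _ _).trans (max_le hs.le i1))).le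
  have hE : Valued.v (0 : v.adicCompletion N) ≤ (1 : ℤᵐ⁰) := by
    rw [map_zero]
    exact zero_le
  obtain ⟨m, hm1, hm⟩ := hensel_small v (3 * (a ^ 6 - a ^ 4)) ((1 - 3 * a ^ 2) ^ 2)
    (3 * (3 * a ^ 2 - 1)) 3 0 hA hB hC hv3.le hE
  obtain ⟨t, ht⟩ : ∃ t, t = a ^ 2 + m := ⟨_, rfl⟩
  have htv : Valued.v t ≤ (1 : ℤᵐ⁰) := by
    rw [ht]
    exact (Valuation.map_add _ _ _).trans (max_le (hva2 2) hm1.le)
  have ht1 : t - 3 * t ^ 2 + 3 * t ^ 3 = a ^ 2 := by
    rw [ht]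
    linear_combination hm
  obtain ⟨x, hx⟩ : ∃ x, x = -(1 - 3 * t) := ⟨_, rfl⟩
  obtain ⟨Y, hY⟩ : ∃ Y, Y = l * (1 + e * l * a) := ⟨_, rfl⟩
  have hx3 : x ^ 3 = -(1 - 9 * a ^ 2) := by
    rw [hx]
    linear_combination 9 * ht1
  have hYe : Y ^ 2 = 4 * x ^ 3 + D ^ 2 := by
    rw [hx3, hY, hDa]
    have e4 : l ^ 4 = 9 := by
      have : l ^ 4 = (l ^ 2) ^ 2 := by ring
      rw [this, hl]
      norm_num
    have e3 : l ^ 3 = -3 * l := by
      have : l ^ 3 = l ^ 2 * l := by ring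
      rw [this, hl]
    have e6 : l ^ 6 = -27 := by
      have : l ^ 6 = (l ^ 2) ^ 3 := by ring
      rw [this, hl]
      norm_num
    have lhs : (l * (1 + e * l * a)) ^ 2 = l ^ 2 + 2 * e * a * l ^ 3 + e ^ 2 * a ^ 2 * l ^ 4 := by
      ring
    have rhs : 4 * -(1 - 9 * a ^ 2) + (e + l ^ 3 * a) ^ 2 =
        4 * -(1 - 9 * a ^ 2) + e ^ 2 + 2 * e * a * l ^ 3 + a ^ 2 * l ^ 6 := by ring
    rw [lhs, rhs, e4, e6, he2, hl]
    ring
  have hVY : Valued.v Y < (1 : ℤᵐ⁰) := by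
    rw [hY, map_mul, hv]
    refine mul_lt_one_of_lt_of_le hn1 ?_
    refine (Valuation.map_add _ _ _).trans (max_le i1 ?_)
    rw [map_mul, map_mul, hve, one_mul, hv]
    exact mul_le_one' hn1.le hva
  have hVx : Valued.v x ≤ (1 : ℤᵐ⁰) := by
    rw [hx, Valuation.map_neg]
    exact (Valuation.map_sub _ _ _).trans (max_le i1 (m3 _ htv).le)
  have hy : 2 * ((Y - D) / 2) + D = Y := by
    field_simp
    ring
  have hns : (wd D).toAffine.Nonsingular x ((Y - D) / 2) := by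
    rw [wd_nons hD0]
    have e1 : ((Y - D) / 2) ^ 2 + D * ((Y - D) / 2) = (Y ^ 2 - D ^ 2) / 4 := by
      have h4 : (4 : v.adicCompletion N) = 2 * 2 := by norm_num
      rw [h4]
      field_simp
      ring
    rw [e1, hYe]
    have h4 : (4 : v.adicCompletion N) ≠ 0 := by
      have h4 : (4 : v.adicCompletion N) = 2 * 2 := by norm_num
      rw [h4]
      exact mul_ne_zero h2 h2
    field_simp
    ring
  refine ⟨x, (Y - D) / 2, hns, hVx, ?_⟩
  rw [hy]
  exact hVY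

/-- **The hard class: the Tamagawa number at `√-3` is three.** -/
theorem tam_hard {D : 𝓞 K} (h3 : ¬ s3 ∣ D) (h : 3 * s3 ∣ D - 1 ∨ 3 * s3 ∣ D + 1)
    {v : HeightOneSpectrum (𝓞 K)} (hv : s3 ∈ v.asIdeal) : tam (WD D) v = 3 := by
  have hs3 : v.valuation K (s3 : K) = exp (-1 : ℤ) := val_prime s3_prime hv
  have hD : v.valuation K (D : K) = 1 := by
    apply val_one
    intro hm
    exact h3 ((mem_s3 hv D).1 hm)
  have h3l : v.valuation K (3 * lK) = exp (-3 : ℤ) := by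
    have e : v.valuation K lK = exp (-1 : ℤ) := val_l hv
    rw [map_mul, val_three, hs3, e, ← exp_nsmul, ← exp_add]
    norm_num
  have key : ∀ x : 𝓞 K, 3 * s3 ∣ x → v.valuation K (x : K) ≤ exp (-3 : ℤ) := by
    intro x hx
    rw [← h3l]
    exact (le_three_l_iff hv x).2 hx
  have hc0 : CharZero (v.adicCompletion K) :=
    charZero_of_injective_algebraMap (algebraMap K (v.adicCompletion K)).injective
  have hl2 : (algebraMap K (v.adicCompletion K) lK) ^ 2 = -3 := by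
    rw [← map_pow, lK_sq, map_neg, map_ofNat]
  have hvl : Valued.v (algebraMap K (v.adicCompletion K) lK) = exp (-1 : ℤ) := by
    rw [tam_hval]; exact val_l hv
  have hD' : Valued.v (algebraMap K (v.adicCompletion K) (D : K)) = (1 : ℤᵐ⁰) := by
    rw [tam_hval]; exact hD
  have hpm : Valued.v (algebraMap K (v.adicCompletion K) (D : K) - 1) ≤ exp (-3 : ℤ) ∨
      Valued.v (algebraMap K (v.adicCompletion K) (D : K) + 1) ≤ exp (-3 : ℤ) := by
    rcases h with h | h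
    · left
      have := key _ h
      rw [← map_one (algebraMap K (v.adicCompletion K)), ← map_sub, tam_hval]
      have e : ((D - 1 : 𝓞 K) : K) = (D : K) - 1 := by
        push_cast
        rfl
      rwa [e] at this
    · right
      have := key _ h
      rw [← map_one (algebraMap K (v.adicCompletion K)), ← map_add, tam_hval]
      have e : ((D + 1 : 𝓞 K) : K) = (D : K) + 1 := by
        push_cast
        rfl
      rwa [e] at this
  have hle : Valued.v (algebraMap K (v.adicCompletion K) (D : K) ^ 2 - 1) ≤ exp (-3 : ℤ) := by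
    have e : algebraMap K (v.adicCompletion K) (D : K) ^ 2 - 1 =
        (algebraMap K (v.adicCompletion K) (D : K) - 1) *
          (algebraMap K (v.adicCompletion K) (D : K) + 1) := by ring
    have i1 : Valued.v (1 : v.adicCompletion K) ≤ (1 : ℤᵐ⁰) := (map_one _).le
    rw [e, map_mul]
    rcases hpm with h5 | h5
    · calc _ ≤ exp (-3 : ℤ) * 1 := mul_le_mul' h5 ((Valuation.map_add _ _ _).trans
            (max_le hD'.le i1))
        _ = exp (-3 : ℤ) := mul_one _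
    · calc _ ≤ 1 * exp (-3 : ℤ) := mul_le_mul' ((Valuation.map_sub _ _ _).trans
            (max_le hD'.le i1)) h5
        _ = exp (-3 : ℤ) := one_mul _
  rw [tam_eq v (WD D) (wd_int D v)]
  · rw [wd_bc]
    refine TamHd.index (l := algebraMap K (v.adicCompletion K) lK)
      ⟨hl2, hvl, fun x hx => res_three' hv x hx, hD', hle⟩ ?_
    refine exists_sg v two_ne_zero hl2 hvl ?_ hc0 hpm
    intro h0
    rw [h0, map_zero] at hD'
    exact zero_ne_one hD'
  · rw [wd_val, val_three, hs3, hD, one_pow, mul_one, ← pow_mul, ← exp_nsmul, exp_lt_exp]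
    norm_num

/-- The hard class, for `wd (D : K)`. -/
theorem tam_hard' {D : 𝓞 K} (h3 : ¬ s3 ∣ D) (h : 3 * s3 ∣ D - 1 ∨ 3 * s3 ∣ D + 1)
    {v : HeightOneSpectrum (𝓞 K)} (hv : s3 ∈ v.asIdeal) : tam (wd (D : K)) v = 3 :=
  tam_hard h3 h hv

end Pool.Agent.Lib.MP_1a91b9_ntK.C
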