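import Pool.Agent.Lib.MP_1a91b9_ntK.C.PartH
import Pool.Agent.Lib.MP_1a91b9_ntK.C.Q2J
import Pool.Agent.Lib.MP_1a91b9_ntK.C.TamHe

/-!
# Cubic twists: the statement of Q2 for the classes `D = ± 1` modulo `3 √-3`
-/

set_option autoImplicit false

namespace Pool.Agent.Lib.MP_1a91b9_ntK.C

open NumberField IsDedekindDomain WeierstrassCurve Pool.Agent.Lib.MP_1a91b9_ntT.S9
  Pool.Agent.Lib.MP_1a91b9_ntT3.S9 Pool.Agent.Lib.MP_1a91b9_ntT
open Pool.Agent.Lib.MP_1a91b9_ntK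
open Pool.Agent.Lib.MP_1a91b9_ntH (wO s3 prime_s3)

open scoped Classical

/-- **Q2**, `D = ± 1` modulo `3 √-3`, from the Tamagawa number at `√-3` -/
theorem q2_hard_of {e : P3 → ZMod 3} {S : Finset P3} (hS0 : S.Nonempty) (he : ∀ q ∈ S, e q ≠ 0)
    (hS : ∑ q ∈ S, e q * aP q = 0)
    (hker : ∀ v : S ⊕ Unit → ZMod 3, (NH d3.s aP bP e S).mulVec v = 0 →
      ∃ c : ZMod 3, (∀ i : S, v (Sum.inl i) = c * e i) ∧ v (Sum.inr ()) = 0)
    {D : 𝓞 K} (hD : D = Dk 0 e S ∨ D = -Dk 0 e S)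
    (hcube : ∀ p : 𝓞 K, Prime p → ¬ p ^ 3 ∣ D)
    (hla : ∀ v : HeightOneSpectrum (𝓞 K), s3 ∈ v.asIdeal →
      ∃ t : ℕ, ¬ 3 ∣ t ∧ tam (wd (D : K)) v = 3 * t) : Q2 D := by
  obtain ⟨w3, hw3⟩ := exists_w3
  obtain ⟨t, ht, ht'⟩ := hla w3 hw3
  obtain ⟨h1, h2⟩ := part_hard hS0 he hS hker hD hcube ht
    (by rw [finprod_Dk he hD hcube hw3, ht', pow_succ, mul_assoc])
  exact ⟨h1, h2, fun v hv => tam_three (pm_ne (Dk_ne 0 e S) hD) hcube hv⟩

/-- the class of a product of powers -/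
theorem abar_prod (e : P3 → ZMod 3) (S : Finset P3) :
    (3 : 𝓞 K) ∣ (∏ q ∈ S, q.1 ^ (e q).val) - 1 ∧
      abar (∏ q ∈ S, q.1 ^ (e q).val) = ∑ q ∈ S, e q * abar q.1 := by
  classical
  have hp : ∀ (x : 𝓞 K), (3 : 𝓞 K) ∣ x - 1 → ∀ n : ℕ, (3 : 𝓞 K) ∣ x ^ n - 1 ∧
      abar (x ^ n) = n * abar x := by
    intro x hx n
    induction n with
    | zero => exact ⟨by rw [pow_zero, sub_self]; exact dvd_zero _, by
        rw [pow_zero, abar_one, Nat.cast_zero, zero_mul]⟩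
    | succ n ih =>
      refine ⟨?_, ?_⟩
      · have e1 : x ^ (n + 1) - 1 = (x ^ n - 1) * x + (x - 1) := by ring
        rw [e1]
        exact dvd_add (ih.1.mul_right _) hx
      · rw [pow_succ, abar_mul ih.1 hx, ih.2, Nat.cast_succ]
        ring
  induction S using Finset.induction_on with
  | empty => exact ⟨by rw [Finset.prod_empty, sub_self]; exact dvd_zero _, by
      rw [Finset.prod_empty, Finset.sum_empty, abar_one]⟩
  | insert q S hq ih =>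
    have h1 := hp q.1 q.2.2 (e q).val
    rw [Finset.prod_insert hq, Finset.sum_insert hq]
    refine ⟨?_, ?_⟩
    · have e1 : q.1 ^ (e q).val * (∏ q ∈ S, q.1 ^ (e q).val) - 1 =
          (q.1 ^ (e q).val - 1) * (∏ q ∈ S, q.1 ^ (e q).val) +
            ((∏ q ∈ S, q.1 ^ (e q).val) - 1) := by ring
      rw [e1]
      exact dvd_add (h1.1.mul_right _) ih.1
    · rw [abar_mul h1.1 ih.1, h1.2, ih.2, ZMod.natCast_zmod_val]

/-- the hard class consists of elements congruent to `1` modulo `3 √-3` -/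
theorem Dk_hard {e : P3 → ZMod 3} {S : Finset P3} (hS : ∑ q ∈ S, e q * aP q = 0) :
    3 * s3 ∣ Dk 0 e S - 1 := by
  obtain ⟨⟨y, hy⟩, h2⟩ := abar_prod e S
  have h3 : Dk 0 e S = ∏ q ∈ S, q.1 ^ (e q).val := by
    rw [Dk, ZMod.val_zero, pow_zero, one_mul]
  have h4 : Dk 0 e S = 1 + 3 * y := by
    rw [h3]
    linear_combination hy
  have h5 : abar (1 + 3 * y) = 0 := by
    rw [← h4, h3, h2]
    exact hS
  rw [abar_eq, r3_eq_zero] at h5
  obtain ⟨t, ht⟩ := h5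
  exact ⟨t, by rw [h4, ht]; ring⟩

/-- **Q2**, `D = ± 1` modulo `3 √-3` -/
theorem q2_hard {e : P3 → ZMod 3} {S : Finset P3} (hS0 : S.Nonempty) (he : ∀ q ∈ S, e q ≠ 0)
    (hS : ∑ q ∈ S, e q * aP q = 0)
    (hker : ∀ v : S ⊕ Unit → ZMod 3, (NH d3.s aP bP e S).mulVec v = 0 →
      ∃ c : ZMod 3, (∀ i : S, v (Sum.inl i) = c * e i) ∧ v (Sum.inr ()) = 0)
    {D : 𝓞 K} (hD : D = Dk 0 e S ∨ D = -Dk 0 e S)
    (hcube : ∀ p : 𝓞 K, Prime p → ¬ p ^ 3 ∣ D) : Q2 D := by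
  have h0 := Dk_hard hS
  have h1 : 3 * s3 ∣ D - 1 ∨ 3 * s3 ∣ D + 1 := by
    rcases hD with rfl | rfl
    · exact Or.inl h0
    · right
      have e1 : -Dk 0 e S + 1 = -(Dk 0 e S - 1) := by ring
      rw [e1, dvd_neg]
      exact h0
  have h3 : ¬ s3 ∣ D := by
    intro hd
    apply prime_s3.not_isUnit
    apply isUnit_of_dvd_one
    rcases h1 with h2 | h2
    · have h4 := dvd_sub hd ((Dvd.intro_left _ rfl).trans h2)
      rwa [sub_sub_cancel] at h4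
    · have h4 := dvd_sub ((Dvd.intro_left _ rfl).trans h2) hd
      rwa [add_sub_cancel_left] at h4
  refine q2_hard_of hS0 he hS hker hD hcube fun v hv => ⟨1, by norm_num, ?_⟩
  rw [mul_one]
  exact tam_hard' h3 h1 hv

end Pool.Agent.Lib.MP_1a91b9_ntK.C
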