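import Pool.Agent.Lib.MP_1a91b9_ntK.C.V3

/-!
# MP_1a91b9_nt (cubic twists), part C: the place above `3` when `D = ± 1` modulo `3 √-3`

`D = 1 + 3 l c` modulo `9`: the image of the local points is generated by the units `= 1` modulo `3 l`
and by `z² (1 + 3 c)`.
-/

set_option autoImplicit false
set_option linter.unusedSectionVars false
set_option linter.unusedVariables false

namespace Pool.Agent.Lib.MP_1a91b9_ntK.C

open WithZero

variable {L : Type*} [Field L] [CharZero L] {ν : Valuation L ℤᵐ⁰} {l : L}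

section

variable (hl2 : l ^ 2 = -3) (hl1 : ν l = exp (-1))
  (hres : ∀ x : L, ν x ≤ 1 → ν x < 1 ∨ ν (x - 1) < 1 ∨ ν (x + 1) < 1)

include hres in
theorem V3h_cube {u : L} (hu : ν u ≤ 1) : ν (u ^ 3 - u) ≤ exp (-1) := by
  rw [← lt_one_iff]
  have e : u ^ 3 - u = u * ((u - 1) * (u + 1)) := by ring
  have h1 : ν (u - 1) ≤ 1 := (ν.map_sub _ _).trans (max_le hu (map_one ν).le)
  have h2 : ν (u + 1) ≤ 1 := ν.map_add_le hu (map_one ν).le
  rw [e, map_mul, map_mul]
  rcases hres u hu with h3 | h3 | h3
  · calc ν u * (ν (u - 1) * ν (u + 1)) ≤ ν u * (1 * 1) := by gcongr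
      _ < 1 := by rw [one_mul, mul_one]; exact h3
  · calc ν u * (ν (u - 1) * ν (u + 1)) ≤ 1 * (ν (u - 1) * 1) := by gcongr
      _ < 1 := by rw [one_mul, mul_one]; exact h3
  · calc ν u * (ν (u - 1) * ν (u + 1)) ≤ 1 * (1 * ν (u + 1)) := by gcongr
      _ < 1 := by rw [one_mul, one_mul]; exact h3

include hl2 hl1 hres in
/-- a unit which is a cube is `± 1` modulo `9` -/
theorem Cu.pm4 {u : L} (hu : ν u = 1) (h : Cu ν l u) : ν (u - 1) ≤ exp (-4) ∨ ν (u + 1) ≤ exp (-4) := by
  have hlt := nu_three_l_lt (ν := ν) hl2 hl1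
  have h3l := nu_three_l (ν := ν) hl2 hl1
  have h3 := nu_three (ν := ν) hl2 hl1
  have hl0 : l ≠ 0 := by
    rintro rfl
    rw [map_zero] at hl1
    exact exp_ne_zero hl1.symm
  obtain ⟨b, hb, h⟩ := h
  have h1 := nu_one hlt.le h
  have hbv : ν b = 1 := by
    rw [map_div₀, hu, one_div, inv_eq_one, map_pow] at h1
    exact (pow_eq_one_iff_of_nonneg zero_le (by norm_num)).1 h1
  rw [h3l, lt_iff_le] at h
  have h' : ν (u / b ^ 3 - 1) ≤ exp (-4) := by
    have e : (-3 : ℤ) - 1 = -4 := by norm_num
    rwa [e] at h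
  have key : ∀ s : L, s ^ 3 = s → s ^ 2 = 1 → ν s = 1 → ν (b - s) < 1 → ν (u - s) ≤ exp (-4) := by
    intro s hs hs2 hs1 hbs
    obtain ⟨w, hw⟩ : ∃ w : L, w = (b - s) / l := ⟨_, rfl⟩
    have hbw : b = s + l * w := by rw [hw]; field_simp; ring
    have hwv : ν w ≤ 1 := by
      rw [hw, map_div₀, hl1]
      exact (div_le_one₀ exp_pos).2 (lt_one_iff.1 hbs)
    have e : u - s = b ^ 3 * (u / b ^ 3 - 1) - (3 * (l * (w ^ 3 - w)) + 9 * (s * w ^ 2)) := by
      have e1 : b ^ 3 * (u / b ^ 3 - 1) = u - b ^ 3 := by field_simp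
      rw [e1, hbw]
      linear_combination (l * w ^ 3 + 3 * s * w ^ 2) * hl2 + hs + 3 * l * w * hs2
    rw [e]
    refine ν.map_sub_le ?_ (ν.map_add_le ?_ ?_)
    · rw [map_mul, map_pow, hbv, one_pow, one_mul]
      exact h'
    · rw [map_mul, map_mul, h3, hl1]
      calc exp (-2) * (exp (-1) * ν (w ^ 3 - w)) ≤ exp (-2) * (exp (-1) * exp (-1)) := by
            gcongr
            exact V3h_cube hres hwv
        _ = exp (-4) := by rw [← exp_add, ← exp_add]; norm_num
    · have e9 : (9 : L) = 3 * 3 := by norm_num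
      rw [map_mul, map_mul, hs1, one_mul, e9, map_mul, h3, map_pow]
      calc exp (-2) * exp (-2) * ν w ^ 2 ≤ exp (-2) * exp (-2) * 1 := by
            gcongr
            exact pow_le_one₀ zero_le hwv
        _ = exp (-4) := by rw [mul_one, ← exp_add]; norm_num
  rcases hres b hbv.le with h4 | h4 | h4
  · rw [hbv] at h4
    exact absurd h4 (lt_irrefl _)
  · exact Or.inl (key 1 (by norm_num) (by norm_num) (map_one ν) h4)
  · right
    have := key (-1) (by norm_num) (by norm_num) (by rw [Valuation.map_neg, map_one])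
      (by rwa [sub_neg_eq_add])
    rwa [sub_neg_eq_add] at this

/-- the residue of `s` from the congruence of the cube -/
theorem V3h_alg {l s c r ε z : L} (hl2 : l ^ 2 = -3) (hz : l = 1 + 2 * z) (hε : ε ^ 2 = 1)
    (hs : s = ε + l * r) :
    3 * (s ^ 2 - 1) + 3 * (l * (2 * c - s)) =
      3 * (l * (2 * ε * r + 2 * c - ε)) + 9 * (-r ^ 2 + r) := by
  rw [hs]
  linear_combination (3 * r ^ 2 - 3 * r) * hl2 + 3 * hε

include hl2 hl1 hres in
/-- **the place above `3`, `D = 2 k = 1 + 3 l c` modulo `9`** -/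
theorem loc_three_hard {z c k a : L} (hz : z ^ 2 + z + 1 = 0) (hlz : l = 1 + 2 * z) (hc : ν c ≤ 1)
    (hD : ν (2 * k - 1 - 3 * (l * c)) ≤ exp (-4)) (h : GLoc ν l k a) :
    ∃ t : ℕ, t < 3 ∧ Cb ν l (a * (z ^ 2 * (1 + 3 * c)) ^ t) := by
  have hlt := nu_three_l_lt (ν := ν) hl2 hl1
  have h3l := nu_three_l (ν := ν) hl2 hl1
  have h3 := nu_three (ν := ν) hl2 hl1
  have hl0 : l ≠ 0 := by
    rintro rfl
    rw [map_zero] at hl1
    exact exp_ne_zero hl1.symm
  have hnu2 : ν 2 = 1 := by
    have e : (2 : L) = -1 + 3 := by norm_num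
    rw [e, ν.map_add_eq_of_lt_left (by
      rw [Valuation.map_neg, map_one, h3, ← exp_zero, exp_lt_exp]
      norm_num), Valuation.map_neg, map_one]
  obtain ⟨D, hDe⟩ : ∃ D : L, D = 2 * k := ⟨_, rfl⟩
  rw [← hDe] at hD
  have h3lc : ν (3 * (l * c)) ≤ exp (-3) := by
    rw [← mul_assoc, map_mul, h3l]
    calc exp (-3) * ν c ≤ exp (-3) * 1 := by gcongr
      _ = exp (-3) := mul_one _
  have hD1 : ν (D - 1) ≤ exp (-3) := by
    have e : D - 1 = (D - 1 - 3 * (l * c)) + 3 * (l * c) := by ring
    rw [e]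
    exact ν.map_add_le (hD.trans (by rw [exp_le_exp]; norm_num)) h3lc
  have hDv : ν D = 1 := by
    have e : D = 1 + (D - 1) := by ring
    rw [e, ν.map_add_eq_of_lt_left (by
      rw [map_one]
      exact lt_of_le_of_lt hD1 (by rw [← exp_zero, exp_lt_exp]; norm_num)), map_one]
  have hDcb : Cb ν l D := Cb.one (by rw [h3l]; exact hD1)
  have hzero : Cb ν l a → ∃ t : ℕ, t < 3 ∧ Cb ν l (a * (z ^ 2 * (1 + 3 * c)) ^ t) :=
    fun h0 => ⟨0, by norm_num, by rwa [pow_zero, mul_one]⟩
  have h2k : (2 * k : L) ≠ 0 := fun h' => by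
    rw [hDe, h', map_zero] at hDv
    exact zero_ne_one hDv
  have hk : k ≠ 0 := right_ne_zero_of_mul h2k
  rcases h with h | h | h | ⟨y, hy, h⟩
  · exact hzero h.cb
  · rw [← hDe] at h
    exact hzero (h.cb.cancel hlt hDcb)
  · rw [← hDe] at h
    refine hzero (Cb.cancel hlt (Cb.cancel hlt (x := D) ?_ hDcb) hDcb)
    have e : a * D * D = a * D ^ 2 := by ring
    rw [e]
    exact h.cb
  have hy0 := hy.ne hlt.le
  have e : y ^ 2 - k ^ 2 = (y - k) * (y + k) := by ring
  rw [e] at hy hy0
  obtain ⟨Y, hYe⟩ : ∃ Y : L, Y = y - k := ⟨_, rfl⟩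
  have hZe : y + k = Y + D := by rw [hDe, hYe]; ring
  have htwo := two ν y k hk
  rw [hZe, ← hYe, ← hDe] at htwo
  rw [hZe, ← hYe] at hy hy0
  rw [← hYe] at h
  rw [← hDe] at h2k
  have h1 : Y ≠ 0 := left_ne_zero_of_mul hy0
  have h2 : Y + D ≠ 0 := right_ne_zero_of_mul hy0
  have hval := hy.val hlt.le
  obtain ⟨n, hn⟩ := exists_nu ν h1
  obtain ⟨n', hn'⟩ := exists_nu ν h2
  rw [map_mul, hn, hn', ← exp_add, cv_exp] at hval
  rw [hn, hn', hDv, ← exp_zero, exp_inj, exp_inj, exp_inj, exp_le_exp, exp_lt_exp, exp_lt_exp]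
    at htwo
  rcases htwo with ⟨h4, h5⟩ | ⟨h4, h5⟩ | ⟨h4, h5⟩
  · by_cases hn0 : n = 0
    · -- both factors are units
      subst hn0
      rw [exp_zero] at hn
      have hn'1 : ν (Y + D) = 1 := by rw [hn', ← h4, exp_zero]
      obtain ⟨t, ht⟩ : ∃ t : L, t = Y / D := ⟨_, rfl⟩
      have hYt : Y = D * t := by rw [ht]; field_simp
      have htv : ν t = 1 := by rw [ht, map_div₀, hn, hDv, div_one]
      have ht1v : ν (t + 1) = 1 := by
        have e2 : Y + D = D * (t + 1) := by rw [hYt]; ring
        rw [e2, map_mul, hDv, one_mul] at hn'1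
        exact hn'1
      have ht1 : ν (t - 1) ≤ exp (-1) := by
        rcases hres t htv.le with h6 | h6 | h6
        · rw [htv] at h6
          exact absurd h6 (lt_irrefl _)
        · exact lt_one_iff.1 h6
        · rw [ht1v] at h6
          exact absurd h6 (lt_irrefl _)
      -- `s = (t - 1) / l`
      obtain ⟨s, hs⟩ : ∃ s : L, s = (t - 1) / l := ⟨_, rfl⟩
      have hts : t = 1 + l * s := by rw [hs]; field_simp; ring
      have hsv : ν s ≤ 1 := by
        rw [hs, map_div₀, hl1]
        exact (div_le_one₀ exp_pos).2 ht1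
      -- `u = - D² t (t + 1)` is a cube
      have hu : Cu ν l (-(Y * (Y + D))) := by
        refine Cu.neg ?_
        rw [neg_neg]
        exact hy
      have huv : ν (-(Y * (Y + D))) = 1 := by
        rw [Valuation.map_neg, map_mul, hn, hn'1, mul_one]
      have hpm := Cu.pm4 hl2 hl1 hres huv hu
      obtain ⟨δ, hδ⟩ : ∃ δ : L, δ = D - 1 - 3 * (l * c) := ⟨_, rfl⟩
      have hDδ : D = 1 + 3 * (l * c) + δ := by rw [hδ]; ring
      rw [← hδ] at hD
      have hsq1 : ν (s ^ 2 - 1) ≤ 1 := by
        refine (ν.map_sub _ _).trans ?_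
        rw [map_one, map_pow]
        exact max_le (pow_le_one₀ zero_le hsv) le_rfl
      have hT : ν (1 + 3 * (s ^ 2 - 1) - 3 * (l * s)) ≤ 1 := by
        refine ν.map_sub_le (ν.map_add_le (map_one ν).le ?_) ?_
        · rw [map_mul, h3]
          calc exp (-2) * ν (s ^ 2 - 1) ≤ exp 0 * 1 := by
                gcongr
                exact exp_le_exp.2 (by norm_num)
            _ = 1 := by rw [mul_one, exp_zero]
        · rw [← mul_assoc, map_mul, h3l]
          calc exp (-3) * ν s ≤ exp 0 * 1 := by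
                gcongr
                exact exp_le_exp.2 (by norm_num)
            _ = 1 := by rw [mul_one, exp_zero]
      have hDq : ν (D ^ 2 - 1 - 6 * (l * c)) ≤ exp (-4) := by
        have e2 : D ^ 2 - 1 - 6 * (l * c) = δ * (2 + 6 * (l * c) + δ) - 3 * (9 * c ^ 2) := by
          rw [hDδ]
          linear_combination 9 * c ^ 2 * hl2
        have hδ1 : ν δ ≤ 1 := hD.trans (by rw [← exp_zero, exp_le_exp]; norm_num)
        have h9 : ν 9 ≤ exp (-4) := by
          have e9 : (9 : L) = 3 * 3 := by norm_num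
          rw [e9, map_mul, h3, ← exp_add, exp_le_exp]
          norm_num
        rw [e2]
        refine ν.map_sub_le ?_ ?_
        · rw [map_mul]
          have h6 : ν (2 + 6 * (l * c) + δ) ≤ 1 := by
            refine ν.map_add_le (ν.map_add_le hnu2.le ?_) hδ1
            have e6 : 6 * (l * c) = 2 * (3 * (l * c)) := by ring
            rw [e6, map_mul, hnu2, one_mul]
            exact h3lc.trans (by rw [← exp_zero, exp_le_exp]; norm_num)
          calc ν δ * ν (2 + 6 * (l * c) + δ) ≤ exp (-4) * 1 := by gcongr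
            _ = exp (-4) := mul_one _
        · rw [map_mul, map_mul, h3, map_pow]
          calc exp (-2) * (ν 9 * ν c ^ 2) ≤ exp 0 * (exp (-4) * 1) := by
                gcongr
                · exact exp_le_exp.2 (by norm_num)
                · exact pow_le_one₀ zero_le hc
            _ = exp (-4) := by rw [mul_one, exp_zero, one_mul]
      -- the key quantity
      have eE : 3 * (s ^ 2 - 1) + 3 * (l * (2 * c - s)) = (-(Y * (Y + D)) - 1) -
          (D ^ 2 - 1 - 6 * (l * c)) * (1 + 3 * (s ^ 2 - 1) - 3 * (l * s)) -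
          9 * (2 * (l * c * ((s ^ 2 - 1) - l * s))) := by
        rw [hYt, hts]
        linear_combination (D ^ 2 * s ^ 2) * hl2
      have hEs : ν (9 * (2 * (l * c * ((s ^ 2 - 1) - l * s)))) ≤ exp (-4) := by
        have e9 : (9 : L) = 3 * 3 := by norm_num
        have h6 : ν ((s ^ 2 - 1) - l * s) ≤ 1 := by
          refine ν.map_sub_le hsq1 ?_
          rw [map_mul, hl1]
          calc exp (-1) * ν s ≤ exp 0 * 1 := by
                gcongr
                exact exp_le_exp.2 (by norm_num)
            _ = 1 := by rw [mul_one, exp_zero]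
        rw [map_mul, map_mul, map_mul, map_mul, e9, map_mul, h3, hnu2, hl1, one_mul]
        calc exp (-2) * exp (-2) * (exp (-1) * ν c * ν ((s ^ 2 - 1) - l * s)) ≤
            exp (-2) * exp (-2) * (exp 0 * 1 * 1) := by
              gcongr
              exact exp_le_exp.2 (by norm_num)
          _ = exp (-4) := by rw [mul_one, mul_one, exp_zero, mul_one, ← exp_add]; norm_num
      have hpart : ν ((D ^ 2 - 1 - 6 * (l * c)) * (1 + 3 * (s ^ 2 - 1) - 3 * (l * s))) ≤ exp (-4) := by
        rw [map_mul]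
        calc _ ≤ exp (-4) * 1 := by gcongr
          _ = exp (-4) := mul_one _
      have hE3 : ν (3 * (s ^ 2 - 1)) ≤ exp (-2) := by
        rw [map_mul, h3]
        calc exp (-2) * ν (s ^ 2 - 1) ≤ exp (-2) * 1 := by gcongr
          _ = exp (-2) := mul_one _
      have h2cs : ν (3 * (l * (2 * c - s))) ≤ exp (-3) := by
        have h6 : ν (2 * c - s) ≤ 1 := by
          refine ν.map_sub_le ?_ hsv
          rw [map_mul, hnu2, one_mul]
          exact hc
        rw [← mul_assoc, map_mul, h3l]
        calc exp (-3) * ν (2 * c - s) ≤ exp (-3) * 1 := by gcongr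
          _ = exp (-3) := mul_one _
      have hEle : ν (-(Y * (Y + D)) - 1) ≤ exp (-4) := by
        rcases hpm with h6 | h6
        · exact h6
        · exfalso
          have e2 : (2 : L) = (-(Y * (Y + D)) + 1) - ((3 * (s ^ 2 - 1) + 3 * (l * (2 * c - s))) +
              (D ^ 2 - 1 - 6 * (l * c)) * (1 + 3 * (s ^ 2 - 1) - 3 * (l * s)) +
              9 * (2 * (l * c * ((s ^ 2 - 1) - l * s)))) := by
            rw [eE]
            ring
          have h7 : ν 2 ≤ exp (-2) := by
            rw [e2]
            refine ν.map_sub_le (h6.trans (by rw [exp_le_exp]; norm_num))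
              (ν.map_add_le (ν.map_add_le (ν.map_add_le hE3 ?_) ?_) ?_)
            · exact h2cs.trans (by rw [exp_le_exp]; norm_num)
            · exact hpart.trans (by rw [exp_le_exp]; norm_num)
            · exact hEs.trans (by rw [exp_le_exp]; norm_num)
          rw [hnu2, ← exp_zero, exp_le_exp] at h7
          norm_num at h7
      have hE : ν (3 * (s ^ 2 - 1) + 3 * (l * (2 * c - s))) ≤ exp (-4) := by
        rw [eE]
        exact ν.map_sub_le (ν.map_sub_le hEle hpart) hEs
      have hs21 : ν (s ^ 2 - 1) ≤ exp (-1) := by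
        have h6 : ν (3 * (s ^ 2 - 1)) ≤ exp (-3) := by
          have e2 : 3 * (s ^ 2 - 1) = (3 * (s ^ 2 - 1) + 3 * (l * (2 * c - s))) -
              3 * (l * (2 * c - s)) := by ring
          rw [e2]
          exact ν.map_sub_le (hE.trans (by rw [exp_le_exp]; norm_num)) h2cs
        rw [map_mul, h3] at h6
        have h7 : exp (-3) = exp (-2) * exp (-1 : ℤ) := by rw [← exp_add]; norm_num
        rw [h7] at h6
        exact (mul_le_mul_iff_right₀ exp_pos).1 h6
      have hz3 : z ^ 3 = 1 := by linear_combination (z - 1) * hz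
      have hzv : ν z = 1 := by
        have h6 := congrArg ν hz3
        rw [map_pow, map_one] at h6
        exact (pow_eq_one_iff_of_nonneg zero_le (by norm_num)).1 h6
      have hz1 : ν (z - 1) ≤ exp (-1) := by
        have e2 : z - 1 = l * (z + 1) := by
          rw [hlz]
          linear_combination -2 * hz
        rw [e2, map_mul, hl1]
        have h6 : ν (z + 1) ≤ 1 := ν.map_add_le hzv.le (map_one ν).le
        calc exp (-1) * ν (z + 1) ≤ exp (-1) * 1 := by gcongr
          _ = exp (-1) := mul_one _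
      have hDt : ν ((D - 1) * t) ≤ exp (-3) := by
        rw [map_mul, htv, mul_one]
        exact hD1
      -- `r = (s - ε) / l`
      have key : ∀ ε : L, ε ^ 2 = 1 → ν ε = 1 → ν (s - ε) < 1 →
          ∃ r : L, s = ε + l * r ∧ ν r ≤ 1 ∧ ν (r + 1 + c * ε) ≤ exp (-1) := by
        intro ε hε hεv hsε
        obtain ⟨r, hr⟩ : ∃ r : L, r = (s - ε) / l := ⟨_, rfl⟩
        have hsr : s = ε + l * r := by rw [hr]; field_simp; ring
        have hrv : ν r ≤ 1 := by
          rw [hr, map_div₀, hl1]
          exact (div_le_one₀ exp_pos).2 (lt_one_iff.1 hsε)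
        refine ⟨r, hsr, hrv, ?_⟩
        rw [V3h_alg (l := l) (c := c) hl2 hlz hε hsr] at hE
        have h6 : ν (9 * (-r ^ 2 + r)) ≤ exp (-4) := by
          have e9 : (9 : L) = 3 * 3 := by norm_num
          have h7 : ν (-r ^ 2 + r) ≤ 1 := by
            refine ν.map_add_le ?_ hrv
            rw [Valuation.map_neg, map_pow]
            exact pow_le_one₀ zero_le hrv
          rw [map_mul, e9, map_mul, h3]
          calc exp (-2) * exp (-2) * ν (-r ^ 2 + r) ≤ exp (-2) * exp (-2) * 1 := by gcongr
            _ = exp (-4) := by rw [mul_one, ← exp_add]; norm_num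
        have h7 : ν (3 * (l * (2 * ε * r + 2 * c - ε))) ≤ exp (-4) := by
          have e2 : 3 * (l * (2 * ε * r + 2 * c - ε)) = (3 * (l * (2 * ε * r + 2 * c - ε)) +
              9 * (-r ^ 2 + r)) - 9 * (-r ^ 2 + r) := by ring
          rw [e2]
          exact ν.map_sub_le hE h6
        have h8 : ν (2 * ε * r + 2 * c - ε) ≤ exp (-1) := by
          rw [← mul_assoc, map_mul, h3l] at h7
          have h9 : exp (-4) = exp (-3) * exp (-1 : ℤ) := by rw [← exp_add]; norm_num
          rw [h9] at h7
          exact (mul_le_mul_iff_right₀ exp_pos).1 h7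
        have e2 : r + 1 + c * ε = 3 * (r + c * ε) - ε * (2 * ε * r + 2 * c - ε) := by
          linear_combination (2 * r - 1) * hε
        rw [e2]
        refine ν.map_sub_le ?_ ?_
        · rw [map_mul, h3]
          have h9 : ν (r + c * ε) ≤ 1 := by
            refine ν.map_add_le hrv ?_
            rw [map_mul, hεv, mul_one]
            exact hc
          calc exp (-2) * ν (r + c * ε) ≤ exp (-1) * 1 := by
                gcongr
                exact exp_le_exp.2 (by norm_num)
            _ = exp (-1) := mul_one _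
        · rw [map_mul, hεv, one_mul]
          exact h8
      rcases hres s hsv with h6 | h6 | h6
      · exfalso
        have h7 : ν (s ^ 2 - 1) = 1 := by
          rw [ν.map_sub_eq_of_lt_right (by
            rw [map_pow, map_one]
            exact pow_lt_one₀ zero_le h6 (by norm_num)), map_one]
        rw [h7, ← exp_zero, exp_le_exp] at hs21
        norm_num at hs21
      · -- `ε = 1`
        obtain ⟨r, hsr, hrv, hr1⟩ := key 1 (by norm_num) (map_one ν) h6
        refine ⟨1, by norm_num, ?_⟩
        rw [pow_one]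
        refine h.cb.near hlt ?_
        have e2 : z ^ 2 * (1 + 3 * c) / Y - 1 = (3 * (z ^ 2 * ((r + 1 + c * 1) + r * (z - 1))) -
            (D - 1) * t) / Y := by
          rw [div_sub_one h1]
          congr 1
          rw [hYt, hts, hsr, hlz]
          linear_combination (-2 - r * (3 * z + 1)) * hz
        rw [e2, map_div₀, hn, div_one, h3l]
        refine ν.map_sub_le ?_ hDt
        rw [map_mul, map_mul, h3, map_pow, hzv, one_pow, one_mul]
        have h7 : ν (r + 1 + c * 1 + r * (z - 1)) ≤ exp (-1) := by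
          refine ν.map_add_le hr1 ?_
          rw [map_mul]
          calc ν r * ν (z - 1) ≤ 1 * exp (-1) := by gcongr
            _ = exp (-1) := one_mul _
        calc exp (-2) * ν (r + 1 + c * 1 + r * (z - 1)) ≤ exp (-2) * exp (-1) := by gcongr
          _ = exp (-3) := by rw [← exp_add]; norm_num
      · -- `ε = -1`
        obtain ⟨r, hsr, hrv, hr1⟩ := key (-1) (by norm_num)
          (by rw [Valuation.map_neg, map_one]) (by rwa [sub_neg_eq_add])
        refine ⟨2, by norm_num, ?_⟩
        refine h.cb.near hlt ?_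
        have e2 : (z ^ 2 * (1 + 3 * c)) ^ 2 / Y - 1 =
            (3 * (z * ((r + 1 + c * -1) + r * ((z - 1) * (z + 1)))) + 3 * (3 * (z * (c * (1 + c)))) -
            (D - 1) * t) / Y := by
          rw [div_sub_one h1]
          congr 1
          rw [hYt, hts, hsr, hlz]
          linear_combination ((z ^ 2 - z) * (1 + 3 * c) ^ 2 - r * (3 * z + 1)) * hz
        rw [e2, map_div₀, hn, div_one, h3l]
        refine ν.map_sub_le (ν.map_add_le ?_ ?_) hDt
        · rw [map_mul, map_mul, h3, hzv, one_mul]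
          have h7 : ν (r + 1 + c * -1 + r * ((z - 1) * (z + 1))) ≤ exp (-1) := by
            refine ν.map_add_le hr1 ?_
            rw [map_mul, map_mul]
            have h8 : ν (z + 1) ≤ 1 := ν.map_add_le hzv.le (map_one ν).le
            calc ν r * (ν (z - 1) * ν (z + 1)) ≤ 1 * (exp (-1) * 1) := by gcongr
              _ = exp (-1) := by rw [one_mul, mul_one]
          calc exp (-2) * ν (r + 1 + c * -1 + r * ((z - 1) * (z + 1))) ≤
              exp (-2) * exp (-1) := by gcongr
            _ = exp (-3) := by rw [← exp_add]; norm_num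
        · rw [map_mul, map_mul, map_mul, map_mul, h3, hzv, one_mul]
          have h8 : ν (1 + c) ≤ 1 := ν.map_add_le (map_one ν).le hc
          calc exp (-2) * (exp (-2) * (ν c * ν (1 + c))) ≤ exp (-2) * (exp (-2) * (1 * 1)) := by gcongr
            _ ≤ exp (-3) := by
              rw [mul_one, mul_one, ← exp_add, exp_le_exp]
              norm_num
    · -- `Y` is not integral
      have hn3 : 3 ≤ n := by omega
      have h6 : Cb ν l (Y * Y) := by
        refine hy.cb.near hlt ?_
        have e2 : Y / (Y + D) - 1 = -(D / (Y + D)) := by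
          rw [div_sub_one h2, ← neg_div]
          congr 1
          ring
        rw [e2, Valuation.map_neg, map_div₀, hDv, hn', one_div, ← exp_neg, h3l, exp_le_exp]
        omega
      refine hzero (h.cb.cancel hlt (Cb.of_sq hlt ?_))
      rwa [sq]
  · -- `Y` divisible by `3 l`
    have hn3 : n ≤ -3 := by omega
    have h6 : Cb ν l (Y * D) := by
      refine hy.cb.near hlt ?_
      have e2 : D / (Y + D) - 1 = -(Y / (Y + D)) := by
        rw [div_sub_one h2, ← neg_div]
        congr 1
        ring
      rw [e2, Valuation.map_neg, map_div₀, hn, hn', h4, exp_zero, div_one, h3l, exp_le_exp]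
      omega
    exact hzero (h.cb.cancel hlt (h6.cancel hlt hDcb))
  · -- `Y + D` divisible by `3 l`
    have hn3 : n' ≤ -3 := by omega
    have h6 : Cb ν l (a * (-D)) := by
      refine h.cb.near hlt ?_
      have e2 : -D / Y - 1 = -((Y + D) / Y) := by
        rw [div_sub_one h1, ← neg_div]
        congr 1
        ring
      rw [e2, Valuation.map_neg, map_div₀, hn, hn', h4, exp_zero, div_one, h3l, exp_le_exp]
      omega
    refine hzero (Cb.cancel hlt (x := D) (Cb.neg ?_) hDcb)
    have e3 : -(a * D) = a * (-D) := by ring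
    rwa [e3]

end

end Pool.Agent.Lib.MP_1a91b9_ntK.C
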