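import Pool.Agent.Lib.MP_1a91b9_ntK.C.V3

/-!
# MP_1a91b9_nt (cubic twists), part C: the local condition at the place above 3, for `D = 2 k` divisible by
`l = √-3` once or twice

The local image is contained in the group generated by `D` and `1 + 4 D - D²` modulo cubes.
-/

set_option autoImplicit false
set_option linter.unusedSectionVars false

namespace Pool.Agent.Lib.MP_1a91b9_ntK.C

open WithZero

variable {L : Type*} [Field L] [CharZero L] {ν : Valuation L ℤᵐ⁰} {l : L}

/-- the class of the point with `Y (Y + D) = 1` -/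
def ff {R : Type*} [CommRing R] (D : R) : R := 1 + 4 * D - D ^ 2

section

variable (hl2 : l ^ 2 = -3) (hl1 : ν l = exp (-1))
  (hres : ∀ x : L, ν x ≤ 1 → ν x < 1 ∨ ν (x - 1) < 1 ∨ ν (x + 1) < 1)

include hl2 hl1 hres

/-- a unit which is a cube in the completion is `± 1` modulo `9` -/
theorem Cu.pm {u : L} (hu : ν u = 1) (h : Cu ν l u) : ν (u - 1) ≤ exp (-4) ∨ ν (u + 1) ≤ exp (-4) := by
  have hlt := (nu_three_l_lt (ν := ν) hl2 hl1)
  have h3 := nu_three (ν := ν) hl2 hl1
  obtain ⟨b, hb, h⟩ := h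
  have h1 := nu_one hlt.le h
  have hbv : ν b = 1 := by
    rw [map_div₀, hu, one_div, inv_eq_one, map_pow] at h1
    exact (pow_eq_one_iff_of_nonneg zero_le (by norm_num)).1 h1
  rw [nu_three_l hl2 hl1, lt_iff_le] at h
  have h' : ν (u / b ^ 3 - 1) ≤ exp (-4) := by
    refine h.trans_eq ?_
    norm_num
  have hl0 : l ≠ 0 := by
    rintro rfl
    rw [map_zero] at hl1
    exact exp_ne_zero hl1.symm
  have key : ∀ s : L, s ^ 3 = s → s ^ 2 = 1 → ν s = 1 → ν (b - s) < 1 → ν (u - s) ≤ exp (-4) := by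
    intro s hs hs2 hs1 hbs
    rw [lt_one_iff] at hbs
    -- `b = s + l x`
    obtain ⟨x, hx⟩ : ∃ x : L, x = (b - s) / l := ⟨_, rfl⟩
    have hbx : b = s + l * x := by
      rw [hx]
      field_simp
      ring
    have hxv : ν x ≤ 1 := by
      rw [hx, map_div₀, hl1]
      exact (div_le_one₀ exp_pos).2 hbs
    have hx3 : ν (x - x ^ 3) ≤ exp (-1) := by
      have e2 : x - x ^ 3 = -(x * ((x - 1) * (x + 1))) := by ring
      rw [e2, Valuation.map_neg, map_mul, map_mul]
      have h7 : ν (x + 1) ≤ 1 := ν.map_add_le hxv (map_one ν).le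
      have h8 : ν (x - 1) ≤ 1 := (ν.map_sub _ _).trans (by rw [map_one]; exact max_le hxv le_rfl)
      rcases hres x hxv with h6 | h6 | h6 <;> rw [lt_one_iff] at h6
      · calc ν x * (ν (x - 1) * ν (x + 1)) ≤ exp (-1) * (1 * 1) := by gcongr
          _ = exp (-1) := by rw [mul_one, mul_one]
      · calc ν x * (ν (x - 1) * ν (x + 1)) ≤ 1 * (exp (-1) * 1) := by gcongr
          _ = exp (-1) := by rw [mul_one, one_mul]
      · calc ν x * (ν (x - 1) * ν (x + 1)) ≤ 1 * (1 * exp (-1)) := by gcongr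
          _ = exp (-1) := by rw [one_mul, one_mul]
    have e : u - s = b ^ 3 * (u / b ^ 3 - 1) + (3 * (l * (x - x ^ 3)) + -(9 * (s * x ^ 2))) := by
      have e3 : b ^ 3 * (u / b ^ 3 - 1) = u - b ^ 3 := by
        field_simp
      rw [e3, hbx]
      linear_combination hs + (3 * s * x ^ 2 + l * x ^ 3) * hl2 + 3 * l * x * hs2
    rw [e]
    refine ν.map_add_le ?_ (ν.map_add_le ?_ ?_)
    · rw [map_mul, map_pow, hbv, one_pow, one_mul]
      exact h'
    · rw [map_mul, map_mul, h3, hl1]
      calc exp (-2) * (exp (-1) * ν (x - x ^ 3)) ≤ exp (-2) * (exp (-1) * exp (-1)) := by gcongr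
        _ = exp (-4) := by
          rw [← exp_add, ← exp_add]
          norm_num
    · have e9 : (9 : L) = 3 * 3 := by norm_num
      rw [Valuation.map_neg, map_mul, map_mul, hs1, one_mul, map_pow, e9, map_mul, h3]
      calc exp (-2) * exp (-2) * ν x ^ 2 ≤ exp (-2) * exp (-2) * 1 ^ 2 := by gcongr
        _ = exp (-4) := by
          rw [one_pow, mul_one, ← exp_add]
          norm_num
  rcases hres b hbv.le with h4 | h4 | h4
  · rw [hbv] at h4
    exact absurd h4 (lt_irrefl _)
  · exact Or.inl (key 1 (by norm_num) (by norm_num) (map_one ν) h4)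
  · right
    have := key (-1) (by norm_num) (by norm_num) (by rw [Valuation.map_neg, map_one])
      (by rwa [sub_neg_eq_add])
    rwa [sub_neg_eq_add] at this

section

variable {D : L} (hD : ν D = exp (-1) ∨ ν D = exp (-2))

include hD

private theorem vD : ν D ≤ exp (-1) := by
  rcases hD with h | h <;> rw [h]
  rw [exp_le_exp]
  norm_num

private theorem v3D : ν (3 * D) ≤ exp (-3) := by
  rw [map_mul, nu_three hl2 hl1]
  have := vD hl2 hl1 hres hD
  calc exp (-2) * ν D ≤ exp (-2) * exp (-1) := by gcongr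
    _ = exp (-3) := by
      rw [← exp_add]
      norm_num

/-- `D (3 - 8 D²)` and `2 D (3 - 5 D²)` are divisible by `9`: both are `3 D (1 - u²)` modulo `9` -/
private theorem v3D3 (m : ℤ) : ν (D * (3 + (1 + 9 * m) * D ^ 2)) ≤ exp (-4) := by
  have h3 := nu_three (ν := ν) hl2 hl1
  have hl0 : l ≠ 0 := by
    rintro rfl
    rw [map_zero] at hl1
    exact exp_ne_zero hl1.symm
  have hm : ν ((m : ℤ) : L) ≤ 1 := by
    have h1 : ∀ n : ℕ, ν (n : L) ≤ 1 := by
      intro n
      induction n with
      | zero => simp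
      | succ n ih =>
        rw [Nat.cast_succ]
        exact ν.map_add_le ih (map_one ν).le
    rcases m with n | n
    · simpa using h1 n
    · rw [Int.cast_negSucc, Valuation.map_neg]
      exact h1 _
  obtain ⟨x, hx⟩ : ∃ x : L, x = D / l := ⟨_, rfl⟩
  have hDx : D = l * x := by
    rw [hx]
    field_simp
  have hxv : ν x ≤ 1 := by
    rw [hx, map_div₀, hl1]
    exact (div_le_one₀ exp_pos).2 (vD hl2 hl1 hres hD)
  have hx3 : ν (x - x ^ 3) ≤ exp (-1) := by
    have e2 : x - x ^ 3 = -(x * ((x - 1) * (x + 1))) := by ring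
    rw [e2, Valuation.map_neg, map_mul, map_mul]
    have h7 : ν (x + 1) ≤ 1 := ν.map_add_le hxv (map_one ν).le
    have h8 : ν (x - 1) ≤ 1 := (ν.map_sub _ _).trans (by rw [map_one]; exact max_le hxv le_rfl)
    rcases hres x hxv with h6 | h6 | h6 <;> rw [lt_one_iff] at h6
    · calc ν x * (ν (x - 1) * ν (x + 1)) ≤ exp (-1) * (1 * 1) := by gcongr
        _ = exp (-1) := by rw [mul_one, mul_one]
    · calc ν x * (ν (x - 1) * ν (x + 1)) ≤ 1 * (exp (-1) * 1) := by gcongr
        _ = exp (-1) := by rw [mul_one, one_mul]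
    · calc ν x * (ν (x - 1) * ν (x + 1)) ≤ 1 * (1 * exp (-1)) := by gcongr
        _ = exp (-1) := by rw [one_mul, one_mul]
  have e : D * (3 + (1 + 9 * m) * D ^ 2) = 3 * (l * (x - x ^ 3)) + 3 * (3 * (3 * (-(l * (x ^ 3 * m))))) := by
    rw [hDx]
    linear_combination (l * x ^ 3 * (1 + 9 * m)) * hl2
  rw [e]
  refine ν.map_add_le ?_ ?_
  · rw [map_mul, map_mul, h3, hl1]
    calc exp (-2) * (exp (-1) * ν (x - x ^ 3)) ≤ exp (-2) * (exp (-1) * exp (-1)) := by gcongr
      _ = exp (-4) := by
        rw [← exp_add, ← exp_add]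
        norm_num
  · rw [map_mul, map_mul, map_mul, Valuation.map_neg, map_mul, map_mul, map_pow, h3, hl1]
    calc exp (-2) * (exp (-2) * (exp (-2) * (exp (-1) * (ν x ^ 3 * ν ((m : ℤ) : L))))) ≤
        exp (-2) * (exp (-2) * (exp (-2) * (exp (-1) * (1 ^ 3 * 1)))) := by gcongr
      _ ≤ exp (-4) := by
        rw [one_pow, mul_one, mul_one, ← exp_add, ← exp_add, ← exp_add, exp_le_exp]
        norm_num

private theorem vD2 : ν (9 * D) ≤ exp (-4) ∧ ν (D ^ 4) ≤ exp (-4) ∧ ν (3 * D ^ 2) ≤ exp (-4) := by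
  have h3 := nu_three (ν := ν) hl2 hl1
  have h := vD hl2 hl1 hres hD
  refine ⟨?_, ?_, ?_⟩
  · have e9 : (9 : L) = 3 * 3 := by norm_num
    rw [map_mul, e9, map_mul, h3]
    calc exp (-2) * exp (-2) * ν D ≤ exp (-2) * exp (-2) * exp (-1) := by gcongr
      _ ≤ exp (-4) := by
        rw [← exp_add, ← exp_add, exp_le_exp]
        norm_num
  · rw [map_pow]
    calc ν D ^ 4 ≤ exp (-1) ^ 4 := by gcongr
      _ = exp (-4) := by
        rw [← exp_nsmul]
        norm_num
  · rw [map_mul, map_pow, h3]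
    calc exp (-2) * ν D ^ 2 ≤ exp (-2) * exp (-1) ^ 2 := by gcongr
      _ = exp (-4) := by
        rw [← exp_nsmul, ← exp_add]
        norm_num

private theorem nu_int (m : ℤ) : ν ((m : ℤ) : L) ≤ 1 := by
  have h1 : ∀ n : ℕ, ν (n : L) ≤ 1 := by
    intro n
    induction n with
    | zero => simp
    | succ n ih =>
      rw [Nat.cast_succ]
      exact ν.map_add_le ih (map_one ν).le
  rcases m with n | n
  · simpa using h1 n
  · rw [Int.cast_negSucc, Valuation.map_neg]
    exact h1 _

/-- `f (f + D) = 1` modulo `9` -/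
theorem ff_mul : ν (ff D * (ff D + D) - 1) ≤ exp (-4) := by
  obtain ⟨h1, h2, h3⟩ := vD2 hl2 hl1 hres hD
  have h4 := vD hl2 hl1 hres hD
  have e : ff D * (ff D + D) - 1 = 9 * D * (1 - D ^ 2) + (3 * D ^ 2 * 6 + D ^ 4) := by
    rw [ff]
    ring
  have h6 : ν (6 : L) ≤ 1 := by
    have := nu_int (ν := ν) hl2 hl1 hres hD 6
    simpa using this
  rw [e]
  refine ν.map_add_le ?_ (ν.map_add_le ?_ h2)
  · rw [map_mul]
    have h5 : ν (1 - D ^ 2) ≤ 1 := by
      refine (ν.map_sub _ _).trans (max_le (map_one ν).le ?_)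
      rw [map_pow]
      exact pow_le_one₀ zero_le (h4.trans (by rw [← exp_zero, exp_le_exp]; norm_num))
    calc ν (9 * D) * ν (1 - D ^ 2) ≤ exp (-4) * 1 := by gcongr
      _ = exp (-4) := mul_one _
  · rw [map_mul]
    calc ν (3 * D ^ 2) * ν 6 ≤ exp (-4) * 1 := by gcongr
      _ = exp (-4) := mul_one _

theorem ff_one : ν (ff D - 1) < 1 := by
  rw [lt_one_iff]
  have h4 := vD hl2 hl1 hres hD
  have e : ff D - 1 = D * (4 - D) := by
    rw [ff]
    ring
  have h5 : ν (4 - D) ≤ 1 := by
    refine (ν.map_sub _ _).trans (max_le ?_ ?_)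
    · have := nu_int (ν := ν) hl2 hl1 hres hD 4
      simpa using this
    · exact h4.trans (by rw [← exp_zero, exp_le_exp]; norm_num)
  rw [e, map_mul]
  calc ν D * ν (4 - D) ≤ exp (-1) * 1 := by gcongr
    _ = exp (-1) := mul_one _

theorem ff_val : ν (ff D) = 1 := by
  have h := ν.map_one_add_of_lt (ff_one hl2 hl1 hres hD)
  rwa [add_sub_cancel] at h

theorem ff_val' : ν (ff D + D) = 1 := by
  have h : ν (ff D + D - 1) < 1 := by
    have e : ff D + D - 1 = (ff D - 1) + D := by ring
    rw [e]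
    exact ν.map_add_lt (ff_one hl2 hl1 hres hD) (lt_one_iff.2 (vD hl2 hl1 hres hD))
  have h1 := ν.map_one_add_of_lt h
  rwa [add_sub_cancel] at h1

/-- replace `f + D` by the inverse of `f` -/
theorem ff_inv {a : L} (h : Cu ν l (a * (ff D + D))) : Cu ν l (a * ff D ^ 2) := by
  have hlt := (nu_three_l_lt (ν := ν) hl2 hl1)
  have h1 := ff_val hl2 hl1 hres hD
  have h0 : ff D ≠ 0 := by
    intro h0
    rw [h0, map_zero] at h1
    exact zero_ne_one h1
  have h2 := ff_val' hl2 hl1 hres hD
  have h0' : ff D + D ≠ 0 := by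
    intro h0
    rw [h0, map_zero] at h2
    exact zero_ne_one h2
  refine Cu.of_mul_cube (s := (ff D)⁻¹) (inv_ne_zero h0) ?_
  have e : a * ff D ^ 2 * (ff D)⁻¹ ^ 3 = a * (ff D)⁻¹ := by
    field_simp
  rw [e]
  refine h.near hlt.le ?_
  have e2 : (ff D)⁻¹ / (ff D + D) - 1 = -(ff D * (ff D + D) - 1) / (ff D * (ff D + D)) := by
    field_simp
    ring
  rw [e2, map_div₀, Valuation.map_neg, map_mul, h1, h2, mul_one, div_one, nu_three_l hl2 hl1]
  refine lt_of_le_of_lt (ff_mul hl2 hl1 hres hD) ?_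
  rw [exp_lt_exp]
  norm_num

/-- the solutions of `g (g - 1) = ± D`, `g = 1` modulo `l` -/
theorem gg {g a : L} (hg : ν (g - 1) < 1)
    (h : ν (g * (g - 1) - D) ≤ exp (-4) ∨ ν (g * (g - 1) + D) ≤ exp (-4)) (ha : Cu ν l (a * g)) :
    Cu ν l (a * ff D) ∨ Cu ν l (a * ff D ^ 2) := by
  have hlt := (nu_three_l_lt (ν := ν) hl2 hl1)
  obtain ⟨k1, k2, k3⟩ := vD2 hl2 hl1 hres hD
  have h3D := v3D3 hl2 hl1 hres hD (-1)
  have hgv : ν g = 1 := by
    have h1 := ν.map_one_add_of_lt hg
    rwa [add_sub_cancel] at h1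
  have hg0 : g ≠ 0 := by
    rintro rfl
    rw [map_zero] at hgv
    exact zero_ne_one hgv
  have hnear : ∀ x : L, ν (x - g) ≤ exp (-4) → Cu ν l (a * x) := by
    intro x hx
    refine ha.near hlt.le ?_
    have e : x / g - 1 = (x - g) / g := by field_simp
    rw [e, map_div₀, hgv, div_one, nu_three_l hl2 hl1]
    refine lt_of_le_of_lt hx ?_
    rw [exp_lt_exp]
    norm_num
  have hfac : ∀ x : L, ν (x - 1) < 1 → ν (x * (x - 1) - g * (g - 1)) ≤ exp (-4) →
      ν (x - g) ≤ exp (-4) := by
    intro x hx hxg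
    have h1 : ν (x + g - 1) = 1 := by
      have h2 : ν ((x - 1) + (g - 1)) < 1 := ν.map_add_lt hx hg
      have h3 := ν.map_one_add_of_lt h2
      have e : 1 + ((x - 1) + (g - 1)) = x + g - 1 := by ring
      rwa [e] at h3
    have e : x * (x - 1) - g * (g - 1) = (x - g) * (x + g - 1) := by ring
    rw [e, map_mul, h1, mul_one] at hxg
    exact hxg
  have h15 : ν (5 : L) ≤ 1 := by
    have := nu_int (ν := ν) hl2 hl1 hres hD 5
    simpa using this
  have h8 : ν (8 : L) ≤ 1 := by
    have := nu_int (ν := ν) hl2 hl1 hres hD 8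
    simpa using this
  have h2 : ν (2 : L) ≤ 1 := by
    have := nu_int (ν := ν) hl2 hl1 hres hD 2
    simpa using this
  have hm : ∀ {x y : L}, ν x ≤ exp (-4) → ν y ≤ 1 → ν (x * y) ≤ exp (-4) := by
    intro x y hx hy
    rw [map_mul]
    calc ν x * ν y ≤ exp (-4) * 1 := by gcongr
      _ = exp (-4) := mul_one _
  rcases h with h | h
  · left
    refine hnear _ (hfac _ (ff_one hl2 hl1 hres hD) ?_)
    have e : ff D * (ff D - 1) - g * (g - 1) = -(g * (g - 1) - D) +
        (D * (3 + (1 + 9 * (-1 : ℤ)) * D ^ 2) + (3 * D ^ 2 * 5 + D ^ 4)) := by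
      rw [ff]
      push_cast
      ring
    rw [e]
    refine ν.map_add_le (by rwa [Valuation.map_neg]) (ν.map_add_le h3D (ν.map_add_le (hm k3 h15) k2))
  · right
    refine ff_inv hl2 hl1 hres hD (hnear _ (hfac _ ?_ ?_))
    · have e : ff D + D - 1 = (ff D - 1) + D := by ring
      rw [e]
      exact ν.map_add_lt (ff_one hl2 hl1 hres hD) (lt_one_iff.2 (vD hl2 hl1 hres hD))
    have h28 : ν (8 + 2 * D) ≤ 1 := by
      refine ν.map_add_le h8 ?_
      rw [map_mul]
      exact mul_le_one' h2 ((vD hl2 hl1 hres hD).trans (by rw [← exp_zero, exp_le_exp]; norm_num))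
    have e : (ff D + D) * (ff D + D - 1) - g * (g - 1) = -(g * (g - 1) + D) +
        (D * (3 + (1 + 9 * (-1 : ℤ)) * D ^ 2) * 2 + (3 * D ^ 2 * (8 + 2 * D) + D ^ 4)) := by
      rw [ff]
      push_cast
      ring
    rw [e]
    refine ν.map_add_le (by rwa [Valuation.map_neg]) (ν.map_add_le (hm h3D h2)
      (ν.map_add_le (hm k3 h28) k2))

end

/-- the local condition at the place above `3`, for `D = 2 k` divisible by `l` once or twice -/
theorem loc_three_j {k a : L} (hD : ν (2 * k) = exp (-1) ∨ ν (2 * k) = exp (-2))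
    (h : GLoc ν l k a) :
    ∃ t s : ℕ, t < 3 ∧ s < 3 ∧ Cu ν l (a * (2 * k) ^ t * ff (2 * k) ^ s) := by
  have hlt := nu_three_l_lt (ν := ν) hl2 hl1
  have h3l := nu_three_l (ν := ν) hl2 hl1
  have hl0 : l ≠ 0 := by
    rintro rfl
    rw [map_zero] at hl1
    exact exp_ne_zero hl1.symm
  have h2k : (2 * k : L) ≠ 0 := fun h' => by
    rw [h', map_zero] at hD
    rcases hD with hD | hD <;> exact exp_ne_zero hD.symm
  have hk : k ≠ 0 := right_ne_zero_of_mul h2k
  rcases h with h | h | h | ⟨y, hy, h⟩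
  · exact ⟨0, 0, by norm_num, by norm_num, by simpa using h⟩
  · exact ⟨1, 0, by norm_num, by norm_num, by simpa using h⟩
  · exact ⟨2, 0, by norm_num, by norm_num, by simpa using h⟩
  have hy0 := hy.ne hlt.le
  have e : y ^ 2 - k ^ 2 = (y - k) * (y + k) := by ring
  rw [e] at hy hy0
  obtain ⟨D, hDe⟩ : ∃ D : L, D = 2 * k := ⟨_, rfl⟩
  obtain ⟨Y, hYe⟩ : ∃ Y : L, Y = y - k := ⟨_, rfl⟩
  have hZe : y + k = Y + D := by rw [hDe, hYe]; ring
  have htwo := two ν y k hk
  rw [hZe, ← hYe, ← hDe] at htwo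
  rw [hZe, ← hYe] at hy hy0
  rw [← hYe] at h
  rw [← hDe] at hD h2k ⊢
  have h1 : Y ≠ 0 := left_ne_zero_of_mul hy0
  have h2 : Y + D ≠ 0 := right_ne_zero_of_mul hy0
  have hval := hy.val hlt.le
  obtain ⟨n, hn⟩ := exists_nu ν h1
  obtain ⟨n', hn'⟩ := exists_nu ν h2
  obtain ⟨j, hj, hj2⟩ : ∃ j : ℤ, (j = 1 ∨ j = 2) ∧ ν D = exp (-j) := by
    rcases hD with h5 | h5
    · exact ⟨1, Or.inl rfl, h5⟩
    · exact ⟨2, Or.inr rfl, h5⟩
  rw [map_mul, hn, hn', ← exp_add, cv_exp] at hval
  rw [hn, hn', hj2, exp_inj, exp_inj, exp_inj, exp_le_exp, exp_lt_exp, exp_lt_exp] at htwo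
  have h9 : (exp (-4) : ℤᵐ⁰) < exp (-3) := by
    rw [exp_lt_exp]
    norm_num
  -- the cases of the two points with one small factor: `g = 1 + small`, `D² g (g - 1)` is a cube
  have key : ∀ g : L, ∀ b : L, ν (g - 1) ≤ exp (-j) → (ν (g - 1) = exp (-j) ∨ ν (g - 1) ≤ exp (-4)) →
      Cu ν l (D ^ 2 * (g * (g - 1))) → Cu ν l (b * g) → ∃ s : ℕ, s < 3 ∧ Cu ν l (b * ff D ^ s) := by
    intro g b hg hg' hc hb
    have hg1 : ν (g - 1) < 1 := by
      refine lt_of_le_of_lt hg ?_
      rw [← exp_zero, exp_lt_exp]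
      rcases hj with hj | hj <;> rw [hj] <;> norm_num
    have hgv : ν g = 1 := by
      have h1 := ν.map_one_add_of_lt hg1
      rwa [add_sub_cancel] at h1
    have hg0 : g ≠ 0 := by
      rintro rfl
      rw [map_zero] at hgv
      exact zero_ne_one hgv
    rcases hg' with hg' | hg'
    · have hg10 : g - 1 ≠ 0 := by
        intro h0
        rw [h0, map_zero] at hg'
        exact exp_ne_zero hg'.symm
      have hu : ν (g * (g - 1) / D) = 1 := by
        rw [map_div₀, map_mul, hgv, one_mul, hg', hj2, div_self exp_ne_zero]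
      have hc' : Cu ν l (g * (g - 1) / D) := by
        refine Cu.of_mul_cube (s := D) h2k ?_
        have e : g * (g - 1) / D * D ^ 3 = D ^ 2 * (g * (g - 1)) := by field_simp
        rwa [e]
      have hpm := Cu.pm hl2 hl1 hres hu hc'
      have hmul : ∀ x : L, ν x ≤ exp (-4) → ν (D * x) ≤ exp (-4) := by
        intro x hx
        have h5 := vD hl2 hl1 hres hD
        rw [map_mul]
        calc ν D * ν x ≤ 1 * exp (-4) := by
              gcongr
              exact h5.trans (by rw [← exp_zero, exp_le_exp]; norm_num)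
          _ = exp (-4) := one_mul _
      have hgg := gg hl2 hl1 hres hD hg1 (a := b) (by
        rcases hpm with h5 | h5
        · left
          have e : g * (g - 1) - D = D * (g * (g - 1) / D - 1) := by field_simp
          rw [e]
          exact hmul _ h5
        · right
          have e : g * (g - 1) + D = D * (g * (g - 1) / D + 1) := by field_simp
          rw [e]
          exact hmul _ h5) hb
      rcases hgg with h5 | h5
      · exact ⟨1, by norm_num, by rwa [pow_one]⟩
      · exact ⟨2, by norm_num, h5⟩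
    · refine ⟨0, by norm_num, ?_⟩
      rw [pow_zero]
      refine hb.near hlt.le ?_
      have e : 1 / g - 1 = -((g - 1) / g) := by
        field_simp
        ring
      rw [e, Valuation.map_neg, map_div₀, hgv, div_one, h3l]
      exact lt_of_le_of_lt hg' h9
  rcases htwo with ⟨h4, h5⟩ | ⟨h4, h5⟩ | ⟨h4, h5⟩
  · -- equal values
    have h6 : Cu ν l (a * (1 + D / Y)) := by
      have h7 := h.mul hlt.le hy
      refine Cu.of_mul_cube h1 ?_
      have e : a * (1 + D / Y) * Y ^ 3 = a * Y * (Y * (Y + D)) := by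
        field_simp
      rwa [e]
    by_cases hn0 : n = 0
    · subst hn0
      rw [exp_zero] at hn
      have hn'1 : ν (Y + D) = 1 := by rw [hn', ← h4, exp_zero]
      have hu : ν (Y * (Y + D)) = 1 := by rw [map_mul, hn, hn'1, mul_one]
      have hpm := Cu.pm hl2 hl1 hres hu hy
      have hDv := vD hl2 hl1 hres hD
      -- the sign
      have hpm1 : ν (Y * (Y + D) - 1) ≤ exp (-4) := by
        rcases hpm with h7 | h7
        · exact h7
        · exfalso
          have hY2 : ν (Y ^ 2 - 1) ≤ exp (-1) := by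
            have e : Y ^ 2 - 1 = (Y - 1) * (Y + 1) := by ring
            rw [e, map_mul]
            have h8 : ν (Y + 1) ≤ 1 := ν.map_add_le hn.le (map_one ν).le
            have h10 : ν (Y - 1) ≤ 1 := (ν.map_sub _ _).trans (by rw [map_one]; exact max_le hn.le le_rfl)
            rcases hres Y hn.le with h6 | h6 | h6
            · rw [hn] at h6
              exact absurd h6 (lt_irrefl _)
            · rw [lt_one_iff] at h6
              calc ν (Y - 1) * ν (Y + 1) ≤ exp (-1) * 1 := by gcongr
                _ = exp (-1) := mul_one _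
            · rw [lt_one_iff] at h6
              calc ν (Y - 1) * ν (Y + 1) ≤ 1 * exp (-1) := by gcongr
                _ = exp (-1) := one_mul _
          have e : (2 : L) = (Y * (Y + D) + 1) - ((Y ^ 2 - 1) + D * Y) := by ring
          have h7' : ν 2 ≤ exp (-1) := by
            rw [e]
            refine ν.map_sub_le (h7.trans (by rw [exp_le_exp]; norm_num)) (ν.map_add_le hY2 ?_)
            rw [map_mul, hn, mul_one]
            exact hDv
          have h3 := nu_three (ν := ν) hl2 hl1
          have hnu2 : ν 2 = 1 := by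
            have e : (2 : L) = -1 + 3 := by norm_num
            rw [e, ν.map_add_eq_of_lt_left (by
              rw [Valuation.map_neg, map_one, h3, ← exp_zero, exp_lt_exp]
              norm_num), Valuation.map_neg, map_one]
          rw [hnu2, ← exp_zero, exp_le_exp] at h7'
          norm_num at h7'
      -- `(Y - f) (Y + f + D)` is small
      have hff := ff_mul hl2 hl1 hres hD
      have hprod : ν ((Y - ff D) * (Y + (ff D + D))) ≤ exp (-4) := by
        have e : (Y - ff D) * (Y + (ff D + D)) = (Y * (Y + D) - 1) - (ff D * (ff D + D) - 1) := by ring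
        rw [e]
        exact ν.map_sub_le hpm1 hff
      have hf1 := ff_one hl2 hl1 hres hD
      rcases hres Y hn.le with h6' | h6' | h6'
      · rw [hn] at h6'
        exact absurd h6' (lt_irrefl _)
      · -- `Y = f`
        have h7 : ν (Y + (ff D + D)) = 1 := by
          have e : Y + (ff D + D) = -1 + ((Y - 1) + (ff D - 1) + D + 3) := by ring
          have h8 : ν ((Y - 1) + (ff D - 1) + D + 3) < 1 := by
            refine ν.map_add_lt (ν.map_add_lt (ν.map_add_lt h6' hf1) (lt_one_iff.2 hDv)) ?_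
            rw [nu_three hl2 hl1, ← exp_zero, exp_lt_exp]
            norm_num
          rw [e, ν.map_add_eq_of_lt_left (by rwa [Valuation.map_neg, map_one]), Valuation.map_neg,
            map_one]
        rw [map_mul, h7, mul_one] at hprod
        refine ⟨0, 1, by norm_num, by norm_num, ?_⟩
        rw [pow_zero, mul_one, pow_one]
        refine h.near hlt.le ?_
        have e : ff D / Y - 1 = -((Y - ff D) / Y) := by
          field_simp
          ring
        rw [e, Valuation.map_neg, map_div₀, hn, div_one, h3l]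
        exact lt_of_le_of_lt hprod h9
      · -- `Y = - (f + D)`
        have h7 : ν (Y - ff D) = 1 := by
          have e : Y - ff D = 1 + ((Y + 1) - (ff D - 1) - 3) := by ring
          have h8 : ν ((Y + 1) - (ff D - 1) - 3) < 1 := by
            refine ν.map_sub_lt (ν.map_sub_lt h6' hf1) ?_
            rw [nu_three hl2 hl1, ← exp_zero, exp_lt_exp]
            norm_num
          rw [e]
          exact ν.map_one_add_of_lt h8
        rw [map_mul, h7, one_mul] at hprod
        refine ⟨0, 2, by norm_num, by norm_num, ?_⟩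
        rw [pow_zero, mul_one]
        refine ff_inv hl2 hl1 hres hD (Cu.neg ?_)
        have e0 : -(a * (ff D + D)) = a * -(ff D + D) := by ring
        rw [e0]
        refine h.near hlt.le ?_
        have e : -(ff D + D) / Y - 1 = -((Y + (ff D + D)) / Y) := by
          field_simp
          ring
        rw [e, Valuation.map_neg, map_div₀, hn, div_one, h3l]
        exact lt_of_le_of_lt hprod h9
    · -- large values: trivial class
      refine ⟨0, 0, by norm_num, by norm_num, ?_⟩
      rw [pow_zero, pow_zero, mul_one]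
      have hn3 : 3 ≤ n := by
        rcases hj with hj | hj <;> omega
      have h7 : ν (D / Y) ≤ exp (-4) := by
        rw [map_div₀, hj2, hn, ← exp_sub, exp_le_exp]
        rcases hj with hj | hj <;> omega
      have h8 : ν (1 + D / Y) = 1 := ν.map_one_add_of_lt (lt_of_le_of_lt h7 (by
        rw [← exp_zero, exp_lt_exp]
        norm_num))
      have h80 : 1 + D / Y ≠ 0 := by
        intro h0
        rw [h0, map_zero] at h8
        exact zero_ne_one h8
      refine h6.near hlt.le ?_
      have e : 1 / (1 + D / Y) - 1 = -(D / Y / (1 + D / Y)) := by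
        rw [div_sub_one h80, ← neg_div]
        congr 1
        ring
      rw [e, Valuation.map_neg, map_div₀ ν (D / Y), h8, div_one, h3l]
      exact lt_of_le_of_lt h7 h9
  · -- `Y` small: `g = 1 + Y / D`
    obtain ⟨g, hg⟩ : ∃ g : L, g = 1 + Y / D := ⟨_, rfl⟩
    have hgD : Y + D = D * g := by
      rw [hg]
      field_simp
      ring
    have hg1 : g - 1 = Y / D := by rw [hg]; ring
    have hgv : ν (g - 1) = exp (n + j) := by
      rw [hg1, map_div₀, hn, hj2, ← exp_sub]
      congr 1
      ring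
    have hc : Cu ν l (D ^ 2 * (g * (g - 1))) := by
      have e : D ^ 2 * (g * (g - 1)) = Y * (Y + D) := by
        rw [hg1, hgD]
        field_simp
      rwa [e]
    -- `a (Y + D)²` is a cube
    have h6 : Cu ν l (a * D ^ 2 * g * g) := by
      have h7 := (h.mul hlt.le hy).mul hlt.le hy
      refine Cu.of_mul_cube h1 ?_
      have e : a * D ^ 2 * g * g * Y ^ 3 = a * Y * (Y * (Y + D)) * (Y * (Y + D)) := by
        rw [hgD]
        ring
      rwa [e]
    have hle : ν (g - 1) ≤ exp (-j) := by
      rw [hgv, exp_le_exp]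
      rcases hj with hj | hj <;> omega
    have hor : ν (g - 1) = exp (-j) ∨ ν (g - 1) ≤ exp (-4) := by
      rw [hgv, exp_inj, exp_le_exp]
      rcases hj with hj | hj <;> omega
    obtain ⟨s, hs, h7⟩ := key g (a * D ^ 2 * g) hle hor hc h6
    have h8 : Cu ν l (a * D ^ 2 * ff D ^ s * g) := by
      have e : a * D ^ 2 * ff D ^ s * g = a * D ^ 2 * g * ff D ^ s := by ring
      rwa [e]
    obtain ⟨s', hs', h10⟩ := key g (a * D ^ 2 * ff D ^ s) hle hor hc h8
    have hf0 : ff D ≠ 0 := by
      intro h0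
      have h11 := ff_val hl2 hl1 hres hD
      rw [h0, map_zero] at h11
      exact zero_ne_one h11
    by_cases hss : s + s' < 3
    · refine ⟨2, s + s', by norm_num, hss, ?_⟩
      rw [pow_add, ← mul_assoc]
      exact h10
    · obtain ⟨r, hr⟩ : ∃ r : ℕ, s + s' = r + 3 := ⟨s + s' - 3, by omega⟩
      refine ⟨2, r, by norm_num, by omega, ?_⟩
      refine Cu.of_mul_cube hf0 ?_
      have e : a * D ^ 2 * ff D ^ r * ff D ^ 3 = a * D ^ 2 * ff D ^ s * ff D ^ s' := by
        have e2 : ff D ^ s * ff D ^ s' = ff D ^ r * ff D ^ 3 := by rw [← pow_add, hr, pow_add]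
        linear_combination -(a * D ^ 2) * e2
      rwa [e]
  · -- `Y + D` small: `g = 1 - (Y + D) / D`
    obtain ⟨g, hg⟩ : ∃ g : L, g = 1 - (Y + D) / D := ⟨_, rfl⟩
    have hgD : Y = -(D * g) := by
      rw [hg]
      field_simp
      ring
    have hg1 : g - 1 = -((Y + D) / D) := by rw [hg]; ring
    have hgv : ν (g - 1) = exp (n' + j) := by
      rw [hg1, Valuation.map_neg, map_div₀, hn', hj2, ← exp_sub]
      congr 1
      ring
    have hc : Cu ν l (D ^ 2 * (g * (g - 1))) := by
      have e : D ^ 2 * (g * (g - 1)) = Y * (Y + D) := by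
        rw [hgD]
        ring
      rwa [e]
    have h6 : Cu ν l (a * D * g) := by
      refine Cu.neg ?_
      have e : -(a * D * g) = a * Y := by
        rw [hgD]
        ring
      rwa [e]
    have hle : ν (g - 1) ≤ exp (-j) := by
      rw [hgv, exp_le_exp]
      rcases hj with hj | hj <;> omega
    have hor : ν (g - 1) = exp (-j) ∨ ν (g - 1) ≤ exp (-4) := by
      rw [hgv, exp_inj, exp_le_exp]
      rcases hj with hj | hj <;> omega
    obtain ⟨s, hs, h7⟩ := key g (a * D) hle hor hc h6
    exact ⟨1, s, by norm_num, hs, by rwa [pow_one]⟩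

end

end Pool.Agent.Lib.MP_1a91b9_ntK.C
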