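import Pool.Agent.Lib.MP_1a91b9_ntK.C.SelG
import Pool.Agent.Lib.MP_1a91b9_ntK.C.V3j
import Pool.Agent.Lib.MP_1a91b9_ntK.C.V3h

/-!
# MP_1a91b9_nt (cubic twists), part C: the Selmer classes for `√-3 ∣ D` and for `D = ± 1` modulo `3 √-3`
-/

set_option autoImplicit false
set_option linter.unusedSectionVars false

namespace Pool.Agent.Lib.MP_1a91b9_ntK.C

open NumberField IsDedekindDomain WithZero Finset WeierstrassCurve Pool.Agent.Lib.MP_1a91b9_ntT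
open Pool.Agent.Lib.MP_1a91b9_ntT3.S9 (ShaP)
open Pool.Agent.Lib.MP_1a91b9_ntH (wO s3 wO_quad coe_wO prime_s3 s3_sq om_quad cp eq_cp cp_coords
  coords_inj)
open Pool.Agent.Lib.MP_1a91b9_ntH.C (ideal_eq val_one val_lt val_le val_prime val_le_sq s3_prime
  coe_s3)
open Pool.Agent.Lib.MP_1a91b9_ntX.R (cs G3 cs_mul cs_pow cs_one)

noncomputable section

theorem Cb.pow {L : Type*} [Field L] [CharZero L] {ν : Valuation L ℤᵐ⁰} {l u : L}
    (hlt : ν (3 * l) < 1) (h : Cb ν l u) (s : ℕ) : Cb ν l (u ^ s) := by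
  induction s with
  | zero =>
    rw [pow_zero]
    exact Cb.one (by rw [sub_self, map_zero]; exact zero_le)
  | succ s ih =>
    rw [pow_succ]
    exact ih.mul hlt h

theorem Cb.repl {L : Type*} [Field L] [CharZero L] {ν : Valuation L ℤᵐ⁰} {l x g g' : L}
    (hlt : ν (3 * l) < 1) (hg0 : g ≠ 0) (hg : ν (g' / g - 1) ≤ ν (3 * l)) (s : ℕ)
    (h : Cb ν l (x * g ^ s)) : Cb ν l (x * g' ^ s) := by
  have e : x * g ^ s * (g' / g) ^ s = x * g' ^ s := by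
    rw [div_pow]
    field_simp
  rw [← e]
  exact h.mul hlt ((Cb.one hg).pow hlt s)

/-- replacement of an element of `𝓞 K` modulo `3 √-3` -/
theorem repl_K {v : HeightOneSpectrum (𝓞 K)} (h : s3 ∈ v.asIdeal) {x : K} {g g' : 𝓞 K}
    (hg : ¬ s3 ∣ g) (hgg : 3 * s3 ∣ g' - g) (s : ℕ)
    (hx : Cb (v.valuation K) lK (x * (g : K) ^ s)) : Cb (v.valuation K) lK (x * (g' : K) ^ s) := by
  have hlt := nu_three_l_lt (ν := v.valuation K) lK_sq (val_l h)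
  have hg0 : (g : K) ≠ 0 := coe_ne fun h0 => hg (by rw [h0]; exact dvd_zero _)
  have hgv : v.valuation K (g : K) = 1 := val_one fun h1 => hg ((mem_s3 h g).1 h1)
  refine Cb.repl hlt hg0 ?_ s hx
  have e : (g' : K) / (g : K) - 1 = ((g' - g : 𝓞 K) : K) / (g : K) := by
    rw [div_sub_one hg0]
    push_cast
    rfl
  rw [e, map_div₀, hgv, div_one, le_three_l_iff h]
  exact hgg

/-- from the power of `2 k` to the three cases -/
theorem cases3 {k a : K} (h : ∃ (t : ℕ) (b : K), t < 3 ∧ a * (2 * k) ^ t = b ^ 3) :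
    (∃ r, r ^ 3 = a) ∨ (∃ r, r ^ 3 = a * (2 * k)) ∨ ∃ r, r ^ 3 = a * (2 * k) ^ 2 := by
  obtain ⟨t, b, ht, hb⟩ := h
  interval_cases t
  · exact Or.inl ⟨b, by rw [← hb, pow_zero, mul_one]⟩
  · exact Or.inr (Or.inl ⟨b, by rw [← hb, pow_one]⟩)
  · exact Or.inr (Or.inr ⟨b, hb.symm⟩)

theorem wO_mod (i : ℕ) : s3 ∣ wO ^ i - 1 := by
  have h1 : s3 ∣ wO - 1 := ⟨-(wO ^ 2), by
    unfold s3
    linear_combination (2 * wO - 1) * wO_quad⟩
  exact h1.trans (sub_one_dvd_pow_sub_one _ _)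

theorem mon_mod3 (S : Finset P3) (i : ℕ) (E : P3 → ℕ) : (3 : 𝓞 K) ∣ mon S i E - wO ^ i := by
  obtain ⟨⟨t, ht⟩, -⟩ := prod_in3 S E
  refine ⟨wO ^ i * t, ?_⟩
  unfold mon
  linear_combination wO ^ i * ht

theorem cl3_int (n : ℤ) : In3 (1 + 3 * (n : 𝓞 K)) ∧ cl3 (1 + 3 * (n : 𝓞 K)) = -(n : ZMod 3) := by
  refine ⟨⟨n, by ring⟩, ?_⟩
  have h := cl3_of n 0
  rw [Int.cast_zero, zero_mul, add_zero] at h
  rw [h, Int.cast_zero, add_zero]

/-! ### `√-3 ^ 2` divides `D` -/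

theorem ff_two (S : Finset P3) (i : ℕ) (E : P3 → ℕ) :
    3 * s3 ∣ wO ^ 0 * (1 + 3 * ((-1 : ℤ) : 𝓞 K)) - ff (s3 ^ 2 * mon S i E) := by
  obtain ⟨t, ht⟩ := mon_mod3 S i E
  obtain ⟨u, hu⟩ := wO_mod i
  have hs := s3_sq
  have e : mon S i E = 1 + s3 * u + 3 * t := by linear_combination ht + hu
  rw [e, ff]
  refine ⟨-s3 + 4 * u - 4 * s3 * t - s3 * (1 + s3 * u + 3 * t) ^ 2, ?_⟩
  push_cast
  linear_combination (-4 * (1 + s3 * u + 3 * t) + s3 ^ 2 * (1 + s3 * u + 3 * t) ^ 2 + 3 + 12 * t) * hs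

/-! ### `√-3` divides `D` exactly once -/

theorem ff_one' (S : Finset P3) (i : ℕ) (E : P3 → ℕ) :
    3 * s3 ∣ wO ^ 2 * (1 + 3 * ((i : ℤ) : 𝓞 K)) - ff (s3 ^ 1 * mon S i E) := by
  obtain ⟨t, ht⟩ := mon_mod3 S i E
  have hw := wO_quad
  obtain ⟨m, hm⟩ : ∃ m : ℕ, m = i / 3 := ⟨_, rfl⟩
  have e0 : wO ^ i = wO ^ (i % 3) := by
    conv_lhs => rw [← Nat.div_add_mod i 3, pow_add, pow_mul, wO_cube, one_pow, one_mul]
  have e1 : ((i : ℤ) : 𝓞 K) = 3 * (m : 𝓞 K) + ((i % 3 : ℕ) : 𝓞 K) := by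
    have h : i = 3 * m + i % 3 := by omega
    have h2 := congrArg (fun n : ℕ => (n : 𝓞 K)) h
    push_cast at h2 ⊢
    exact h2
  have e : mon S i E = wO ^ (i % 3) + 3 * t := by rw [← e0]; linear_combination ht
  rw [e, e1, ff, pow_one]
  have hlt : i % 3 < 3 := Nat.mod_lt _ (by norm_num)
  generalize (m : 𝓞 K) = m'
  interval_cases hi3 : i % 3
  · refine ⟨-s3 * wO ^ 2 - s3 * m' * wO ^ 2 - 4 * t + 2 * s3 * t * wO ^ 0 + 3 * s3 * t ^ 2, ?_⟩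
    unfold s3
    push_cast
    linear_combination (12 * wO ^ 2 * m' + 12 * wO ^ 2 - 4) * hw
  · refine ⟨-wO ^ 2 - s3 - s3 * m' * wO ^ 2 - 4 * t + 2 * s3 * t * wO ^ 1 + 3 * s3 * t ^ 2, ?_⟩
    unfold s3
    push_cast
    linear_combination (12 * wO ^ 2 * m' + 4 * wO ^ 2 + 6 * wO + 2) * hw
  · refine ⟨-1 + s3 - s3 * m' * wO ^ 2 - 4 * t + 2 * s3 * t * wO ^ 2 + 3 * s3 * t ^ 2, ?_⟩
    unfold s3
    push_cast
    linear_combination (4 * wO ^ 4 + 12 * wO ^ 2 * m' - 3 * wO ^ 2 - 5 * wO - 1) * hw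

theorem ff_not_dvd {j : ℕ} (hj : j ≠ 0) (x : 𝓞 K) : ¬ s3 ∣ ff (s3 ^ j * x) := by
  intro h
  have h1 : s3 ∣ s3 ^ j * x := (dvd_pow_self s3 hj).mul_right x
  have h2 : s3 ∣ 1 := by
    have e : (1 : 𝓞 K) = ff (s3 ^ j * x) - (s3 ^ j * x) * (4 - s3 ^ j * x) := by
      rw [ff]
      ring
    rw [e]
    exact dvd_sub h (h1.mul_right _)
  exact prime_s3.not_isUnit (isUnit_of_dvd_one h2)

theorem ff_coe (x : 𝓞 K) : ff (x : K) = ((ff x : 𝓞 K) : K) := by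
  unfold ff
  push_cast
  rfl

/-- the common part of the two cases -/
theorem sel_j (S : Finset P3) {j : ℕ} (hj : j = 1 ∨ j = 2) (i : ℕ) (E : P3 → ℕ)
    (hE : ∀ q ∈ S, ¬ 3 ∣ E q) (α : ℕ) (n : ℤ)
    (hf : 3 * s3 ∣ wO ^ α * (1 + 3 * (n : 𝓞 K)) - ff (s3 ^ j * mon S i E))
    (hgood : GoodG S i j (fun q => (E q : ZMod 3)) α (-(n : ZMod 3)))
    {k : K} (hk : 2 * k = ((s3 ^ j * mon S i E : 𝓞 K) : K)) : SelCl om k := by
  intro a ha hl
  have hj0 : j ≠ 0 := by omega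
  obtain ⟨h1, h2⟩ := cl3_int n
  rw [← h2] at hgood
  refine cases3 (selG S j i E hE α h1 hgood hk ha (by rw [lK_eq]; exact hl) ?_)
  have hmem := mem_pw s3 prime_s3
  have hν : (pw s3 prime_s3).valuation K (2 * k) = exp (-1) ∨
      (pw s3 prime_s3).valuation K (2 * k) = exp (-2) := by
    rw [hk, val_pow_mul prime_s3 hmem (s3_not_dvd_mon S i E) j]
    rcases hj with rfl | rfl
    · left
      rfl
    · right
      rfl
  have hloc := hl (pw s3 prime_s3)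
  rw [← lK_eq] at hloc
  obtain ⟨t, s, -, -, hts⟩ := loc_three_j lK_sq (val_l hmem) (res_three hmem) hν hloc
  refine ⟨t, s, repl_K hmem (ff_not_dvd hj0 (mon S i E)) hf s ?_⟩
  rw [← ff_coe, ← hk]
  exact hts.cb

/-- **`√-3 ^ 2 ∣ D`** -/
theorem selCl_j2 (S : Finset P3) (i : ℕ) (E : P3 → ℕ) (hE : ∀ q ∈ S, ¬ 3 ∣ E q)
    (hgood : GoodG S i 2 (fun q => (E q : ZMod 3)) 0 1)
    {k : K} (hk : 2 * k = ((s3 ^ 2 * mon S i E : 𝓞 K) : K)) : SelCl om k := by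
  refine sel_j S (Or.inr rfl) i E hE 0 (-1) (ff_two S i E) ?_ hk
  have e : (-((-1 : ℤ) : ZMod 3)) = 1 := by push_cast; ring
  rw [e]
  exact_mod_cast hgood

/-- **`√-3 ∣ D` exactly** -/
theorem selCl_j1 (S : Finset P3) (i : ℕ) (E : P3 → ℕ) (hE : ∀ q ∈ S, ¬ 3 ∣ E q)
    (hgood : GoodG S i 1 (fun q => (E q : ZMod 3)) 2 (-(i : ZMod 3)))
    {k : K} (hk : 2 * k = ((s3 ^ 1 * mon S i E : 𝓞 K) : K)) : SelCl om k := by
  refine sel_j S (Or.inl rfl) i E hE 2 i (ff_one' S i E) ?_ hk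
  exact_mod_cast hgood

/-! ### `D = 1` modulo `3 √-3` -/

/-- the second coordinate of the class modulo `9` -/
def clb (x : 𝓞 K) : ZMod 3 := ((-((cp x).2 / 3) : ℤ) : ZMod 3)

theorem clb_of (m n : ℤ) : clb (1 + 3 * ((m : 𝓞 K) + n * wO)) = -(n : ZMod 3) := by
  have e : (1 : 𝓞 K) + 3 * ((m : 𝓞 K) + n * wO) =
      ((1 + 3 * m : ℤ) : 𝓞 K) + ((3 * n : ℤ) : 𝓞 K) * wO := by
    push_cast
    ring
  have h : cp (1 + 3 * ((m : 𝓞 K) + n * wO)) = (1 + 3 * m, 3 * n) := by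
    rw [e]
    exact cp_coords _ _
  unfold clb
  rw [h]
  dsimp only
  have h2 : 3 * n / 3 = n := by omega
  rw [h2]
  push_cast
  rfl

theorem clb_one : clb 1 = 0 := by
  have h := clb_of 0 0
  simpa using h

theorem clb_mul {x y : 𝓞 K} (hx : In3 x) (hy : In3 y) : clb (x * y) = clb x + clb y := by
  obtain ⟨a, b, rfl⟩ := in3_form hx
  obtain ⟨c, d, rfl⟩ := in3_form hy
  have e : (1 + 3 * ((a : 𝓞 K) + b * wO)) * (1 + 3 * ((c : 𝓞 K) + d * wO)) =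
      1 + 3 * (((a + c + 3 * (a * c - b * d) : ℤ) : 𝓞 K) +
        ((b + d + 3 * (a * d + b * c - b * d) : ℤ) : 𝓞 K) * wO) := by
    push_cast
    linear_combination 9 * (b : 𝓞 K) * d * wO_quad
  rw [e, clb_of, clb_of, clb_of]
  push_cast
  have h3 : (3 : ZMod 3) = 0 := rfl
  rw [h3]
  ring

theorem clb_q (q : P3) : clb q.1 = bq q := by
  obtain ⟨m, n, h⟩ := in3_form q.in3
  have h1 : clb q.1 = -(n : ZMod 3) := by rw [h, clb_of]
  rw [h1]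
  exact (cs_s3 q.prime m n h).symm

theorem clb_prod (S : Finset P3) (V : P3 → ℕ) :
    clb (∏ q ∈ S, q.1 ^ V q) = ∑ q ∈ S, (V q : ZMod 3) * bq q := by
  have hp : ∀ (q : P3) (n : ℕ), In3 (q.1 ^ n) ∧ clb (q.1 ^ n) = (n : ZMod 3) * bq q := by
    intro q n
    induction n with
    | zero =>
      rw [pow_zero, Nat.cast_zero, zero_mul]
      exact ⟨in3_one, clb_one⟩
    | succ n ih =>
      rw [pow_succ]
      refine ⟨ih.1.mul q.in3, ?_⟩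
      rw [clb_mul ih.1 q.in3, ih.2, clb_q]
      push_cast
      ring
  induction S using Finset.induction_on with
  | empty =>
    rw [prod_empty, sum_empty]
    exact clb_one
  | insert q S hq ih =>
    rw [prod_insert hq, sum_insert hq, clb_mul (hp q _).1 (prod_in3 S V).1, (hp q _).2, ih]

/-- `x = 1 + 3 √-3 c` modulo `9` -/
theorem hard_mod {x : 𝓞 K} (hx : In3 x) (h : cl3 x = 0) {c : ℤ} (hc : (c : ZMod 3) = clb x) :
    (9 : 𝓞 K) ∣ x - 1 - 3 * (s3 * c) := by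
  obtain ⟨m, n, rfl⟩ := in3_form hx
  rw [cl3_of, neg_eq_zero] at h
  rw [clb_of] at hc
  have h1 : ((m + n : ℤ) : ZMod 3) = 0 := by
    push_cast
    exact h
  obtain ⟨u, hu⟩ := (ZMod.intCast_zmod_eq_zero_iff_dvd (m + n) 3).1 h1
  have h2 : ((c + n : ℤ) : ZMod 3) = 0 := by
    push_cast
    rw [hc]
    ring
  obtain ⟨v, hv⟩ := (ZMod.intCast_zmod_eq_zero_iff_dvd (c + n) 3).1 h2
  push_cast at hu hv
  have hm : m = 3 * u - n := by linarith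
  have hcn : c = 3 * v - n := by linarith
  refine ⟨(u : 𝓞 K) + n * wO - s3 * v, ?_⟩
  rw [hm, hcn]
  unfold s3
  push_cast
  ring

/-- **`D = 1` modulo `3 √-3`** -/
theorem selCl_hard (S : Finset P3) (E : P3 → ℕ) (hE : ∀ q ∈ S, ¬ 3 ∣ E q)
    (hA : ∑ q ∈ S, (E q : ZMod 3) * d3.a q = 0)
    (hgood : GoodG S 0 0 (fun q => (E q : ZMod 3)) 2 (-∑ q ∈ S, (E q : ZMod 3) * bq q))
    {k : K} (hk : 2 * k = ((mon S 0 E : 𝓞 K) : K)) : SelCl om k := by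
  intro a ha hl
  obtain ⟨hP, hPa⟩ := prod_in3 S E
  have hPb := clb_prod S E
  have hmP : mon S 0 E = ∏ q ∈ S, q.1 ^ E q := by
    unfold mon
    rw [pow_zero, one_mul]
  rw [← hmP] at hP hPa hPb
  obtain ⟨n, hn⟩ : ∃ n : ℤ, (n : ZMod 3) = clb (mon S 0 E) := ⟨((clb (mon S 0 E)).val : ℤ), by
    rw [Int.cast_natCast, ZMod.natCast_zmod_val]⟩
  obtain ⟨h1, h2⟩ := cl3_int n
  rw [← hPb, ← hn, ← h2] at hgood
  have hk' : 2 * k = ((s3 ^ 0 * mon S 0 E : 𝓞 K) : K) := by rw [pow_zero, one_mul]; exact hk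
  have hgood' : GoodG S ((0 : ℕ) : ZMod 3) ((0 : ℕ) : ZMod 3) (fun q => (E q : ZMod 3))
      ((2 : ℕ) : ZMod 3) (cl3 (1 + 3 * (n : 𝓞 K))) := by
    exact_mod_cast hgood
  refine cases3 (selG S 0 0 E hE 2 h1 hgood' hk' ha (by rw [lK_eq]; exact hl) ?_)
  have hmem := mem_pw s3 prime_s3
  have hloc := hl (pw s3 prime_s3)
  rw [← lK_eq] at hloc
  have h9 := hard_mod hP (by rw [hPa]; exact hA) hn
  have hν : (pw s3 prime_s3).valuation K (2 * k - 1 - 3 * (lK * (n : K))) ≤ exp (-4) := by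
    have e : 2 * k - 1 - 3 * (lK * (n : K)) =
        ((mon S 0 E - 1 - 3 * (s3 * (n : 𝓞 K)) : 𝓞 K) : K) := by
      rw [hk]
      push_cast
      rfl
    have h4 := val_le_sq prime_s3 hmem (x := mon S 0 E - 1 - 3 * (s3 * (n : 𝓞 K))) 4
    have e4 : s3 ^ 4 = 9 := by linear_combination (s3 ^ 2 - 3) * s3_sq
    rw [e4] at h4
    rw [e]
    exact h4.2 h9
  have hnv : (pw s3 prime_s3).valuation K (n : K) ≤ 1 := by
    have := val_le (pw s3 prime_s3) (n : 𝓞 K)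
    have e : (((n : 𝓞 K)) : K) = (n : K) := map_intCast (algebraMap (𝓞 K) K) n
    rwa [e] at this
  obtain ⟨t, -, ht⟩ := loc_three_hard lK_sq (val_l hmem) (res_three hmem) om_quad lK_eq hnv hν hloc
  refine ⟨0, t, ?_⟩
  rw [pow_zero, mul_one]
  have e : ((wO ^ 2 * (1 + 3 * (n : 𝓞 K)) : 𝓞 K) : K) = om ^ 2 * (1 + 3 * (n : K)) := by
    have e1 : algebraMap (𝓞 K) K wO = om := rfl
    have e2 : algebraMap (𝓞 K) K (wO ^ 2 * (1 + 3 * (n : 𝓞 K))) = om ^ 2 * (1 + 3 * (n : K)) := by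
      rw [map_mul, map_pow, e1, map_add, map_one, map_mul, map_ofNat, map_intCast]
    exact e2
  rw [e]
  exact ht

end

end Pool.Agent.Lib.MP_1a91b9_ntK.C
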