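import Pool.Agent.Lib.MP_1a91b9_ntK.C.Main3

/-!
# MP_1a91b9_nt (cubic twists), part C: the Selmer classes for `D = √-3 ^ j * w ^ i * ∏ q ^ E q`

The local condition at `√-3` is that the class is in the group generated by `D`, an element `g` and the
cubes modulo `3 √-3`.
-/

set_option autoImplicit false
set_option linter.unusedSectionVars false

namespace Pool.Agent.Lib.MP_1a91b9_ntK.C

open NumberField IsDedekindDomain WithZero Finset Pool.Agent.Lib.MP_1a91b9_ntT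
open Pool.Agent.Lib.MP_1a91b9_ntH (wO s3 wO_quad coe_wO prime_s3 s3_sq)
open Pool.Agent.Lib.MP_1a91b9_ntH.C (ideal_eq val_one val_lt val_le val_prime val_le_sq s3_prime
  coe_s3)
open Pool.Agent.Lib.MP_1a91b9_ntX.R (cs G3 cs_mul cs_pow cs_one)

noncomputable section

/-- the symbol of `√-3` -/
def bq (q : P3) : ZMod 3 := cq q s3

theorem cl3_pow {x : 𝓞 K} (hx : In3 x) (n : ℕ) : In3 (x ^ n) ∧ cl3 (x ^ n) = n * cl3 x := by
  induction n with
  | zero =>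
    rw [pow_zero, Nat.cast_zero, zero_mul]
    exact ⟨in3_one, cl3_one⟩
  | succ n ih =>
    rw [pow_succ]
    refine ⟨ih.1.mul hx, ?_⟩
    rw [cl3_mul ih.1 hx, ih.2]
    push_cast
    ring

/-- `w ^ n x`, `x = 1` modulo `3`, is `± 1` modulo `3 √-3` only if `3 ∣ n` and the class of `x` is `0` -/
theorem pm_of {n : ℕ} {x : 𝓞 K} (hx : In3 x)
    (h : 3 * s3 ∣ wO ^ n * x - 1 ∨ 3 * s3 ∣ wO ^ n * x + 1) : 3 ∣ n ∧ cl3 x = 0 := by
  have hw := wO_quad
  have h30 : ∀ c : 𝓞 K, 3 * s3 ∣ c → (3 : 𝓞 K) ∣ c := fun c hc => (dvd_mul_right _ _).trans hc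
  obtain ⟨t, ht⟩ := hx
  have h3 : (3 : 𝓞 K) ∣ wO ^ n * x - wO ^ n := ⟨wO ^ n * t, by linear_combination wO ^ n * ht⟩
  have h4 : (3 : 𝓞 K) ∣ wO ^ n - 1 ∨ (3 : 𝓞 K) ∣ wO ^ n + 1 := by
    rcases h with h | h
    · left
      have := dvd_sub (h30 _ h) h3
      rwa [show wO ^ n * x - 1 - (wO ^ n * x - wO ^ n) = wO ^ n - 1 by ring] at this
    · right
      have := dvd_sub (h30 _ h) h3
      rwa [show wO ^ n * x + 1 - (wO ^ n * x - wO ^ n) = wO ^ n + 1 by ring] at this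
  have e0 : wO ^ n = wO ^ (n % 3) := by
    conv_lhs => rw [← Nat.div_add_mod n 3, pow_add, pow_mul, wO_cube, one_pow, one_mul]
  have hi : n % 3 = 0 := by
    have hlt : n % 3 < 3 := Nat.mod_lt _ (by norm_num)
    rw [e0] at h4
    interval_cases hi3 : n % 3
    · rfl
    · exfalso
      rcases h4 with h4 | h4
      · refine three_not_dvd (-1) 1 (by norm_num) ?_
        have e : (((-1 : ℤ) : 𝓞 K) + (1 : ℤ) * wO) = wO ^ 1 - 1 := by push_cast; ring
        rw [e]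
        exact h4
      · refine three_not_dvd 1 1 (by norm_num) ?_
        have e : (((1 : ℤ) : 𝓞 K) + (1 : ℤ) * wO) = wO ^ 1 + 1 := by push_cast; ring
        rw [e]
        exact h4
    · exfalso
      rcases h4 with h4 | h4
      · refine three_not_dvd (-2) (-1) (by norm_num) ?_
        have e : (((-2 : ℤ) : 𝓞 K) + (-1 : ℤ) * wO) = wO ^ 2 - 1 := by
          push_cast
          linear_combination -hw
        rw [e]
        exact h4
      · refine three_not_dvd 0 (-1) (by norm_num) ?_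
        have e : (((0 : ℤ) : 𝓞 K) + (-1 : ℤ) * wO) = wO ^ 2 + 1 := by
          push_cast
          linear_combination -hw
        rw [e]
        exact h4
  refine ⟨Nat.dvd_of_mod_eq_zero hi, cl3_eq_zero ⟨t, ht⟩ ?_⟩
  rw [e0, hi, pow_zero, one_mul] at h
  rcases h with h | h
  · exact h
  · exfalso
    have h5 := dvd_sub (h30 _ h) ⟨t, ht⟩
    refine three_not_dvd 2 0 (by norm_num) ?_
    have e : (((2 : ℤ) : 𝓞 K) + (0 : ℤ) * wO) = x + 1 - (x - 1) := by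
      push_cast
      ring
    rw [e]
    exact h5

theorem s3_notMem_P3 {q : P3} (h : q.1 ∣ s3) : False :=
  q.in3.not_s3 (dvd_symm' q.prime prime_s3 h)

/-- The Selmer condition on the exponents. -/
def GoodG (S : Finset P3) (i j : ZMod 3) (E : P3 → ZMod 3) (α γ : ZMod 3) : Prop :=
  ∀ (V : P3 → ZMod 3) (u s : ZMod 3), u + α * s = 0 → ∑ q ∈ S, V q * d3.a q + s * γ = 0 →
    (∀ q ∈ S, ∑ p ∈ S.erase q, V p * d3.s p q + u * d3.a q =
      V q * (E q * (i * d3.a q + j * bq q + ∑ p ∈ S.erase q, E p * d3.s p q))) →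
    ∃ c, (∀ q ∈ S, V q = c * E q) ∧ u = c * i ∧ c * j = 0

/-- the symbol of a monomial with a power of `√-3` -/
theorem cs_monj {q : P3} {T : Finset P3} (h : q ∉ T) (j i : ℕ) (V : P3 → ℕ) :
    cs (Ideal.span {q.1}) (s3 ^ j * mon T i V) =
      j * bq q + (i * d3.a q + ∑ p ∈ T, (V p : ZMod 3) * d3.s p q) := by
  have h1 : s3 ∉ Ideal.span {q.1} := fun h1 => s3_notMem_P3 (Ideal.mem_span_singleton.1 h1)
  have h2 : s3 ^ j ∉ Ideal.span {q.1} := fun h2 => h1 (q.g3.pr.mem_of_pow_mem _ h2)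
  have h3 : mon T i V ∉ Ideal.span {q.1} := P3.not_mem.2 (not_dvd_mon h i V)
  rw [cs_mul q.g3 h2 h3, cs_pow q.g3 h1, cs_mon h]
  rfl

theorem not_dvd_monj {q : P3} {T : Finset P3} (h : q ∉ T) (j i : ℕ) (V : P3 → ℕ) :
    ¬ q.1 ∣ s3 ^ j * mon T i V := by
  intro h1
  rcases q.prime.dvd_or_dvd h1 with h2 | h2
  · exact s3_notMem_P3 (q.prime.dvd_of_dvd_pow h2)
  · exact not_dvd_mon h i V h2

theorem s3_not_dvd_mon (S : Finset P3) (i : ℕ) (V : P3 → ℕ) : ¬ s3 ∣ mon S i V := by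
  intro h4
  refine mon_notMem (v := pw s3 prime_s3) (T := S) (fun q _ h5 => ?_) i V
    (Ideal.mem_span_singleton.2 h4)
  exact q.in3.not_s3 (Ideal.mem_span_singleton.1 h5)

/-- **the Selmer group**, general form -/
theorem selG (S : Finset P3) (j i : ℕ) (E : P3 → ℕ) (hE : ∀ q ∈ S, ¬ 3 ∣ E q) (α : ℕ) {h₀ : 𝓞 K}
    (hh : In3 h₀) (hgood : GoodG S i j (fun q => (E q : ZMod 3)) α (cl3 h₀))
    {k a : K} (hk : 2 * k = ((s3 ^ j * mon S i E : 𝓞 K) : K)) (ha : a ≠ 0)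
    (hl : ∀ v : HeightOneSpectrum (𝓞 K), GLoc (v.valuation K) lK k a)
    (hl3 : ∃ t s : ℕ, Cb ((pw s3 prime_s3).valuation K) lK
      (a * (2 * k) ^ t * ((wO ^ α * h₀ : 𝓞 K) : K) ^ s)) :
    ∃ (t : ℕ) (b : K), t < 3 ∧ a * (2 * k) ^ t = b ^ 3 := by
  have hmem3 := mem_pw s3 prime_s3
  obtain ⟨t, s, ht⟩ := hl3
  obtain ⟨D, hD⟩ : ∃ D : 𝓞 K, D = s3 ^ j * mon S i E := ⟨_, rfl⟩
  have hD0 : D ≠ 0 := by
    rw [hD]
    exact mul_ne_zero (pow_ne_zero _ prime_s3.ne_zero) (mon_ne S i E)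
  have hDK : (D : K) ≠ 0 := coe_ne hD0
  rw [← hD] at hk
  rw [hk] at ht ⊢
  have hlt3 := nu_three_l_lt (ν := (pw s3 prime_s3).valuation K) lK_sq (val_l hmem3)
  have hG : ¬ s3 ∣ wO ^ α * h₀ := by
    intro h1
    rcases prime_s3.dvd_or_dvd h1 with h2 | h2
    · exact isUnit_notMem (v := pw s3 prime_s3) (wO_unit.pow α) (Ideal.mem_span_singleton.2 h2)
    · exact hh.not_s3 h2
  have hGv : (pw s3 prime_s3).valuation K ((wO ^ α * h₀ : 𝓞 K) : K) = 1 :=
    val_one fun h1 => hG ((mem_s3 hmem3 _).1 h1)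
  have hcv3 : Cv ((pw s3 prime_s3).valuation K (a * (D : K) ^ t)) := by
    have h1 := ht.val hlt3
    rw [map_mul _ _ (((wO ^ α * h₀ : 𝓞 K) : K) ^ s), map_pow _ ((wO ^ α * h₀ : 𝓞 K) : K), hGv,
      one_pow, mul_one] at h1
    exact h1
  -- the decomposition
  obtain ⟨i₀, V₀, b₀, hb₀, hab₀⟩ := dec3 S (mul_ne_zero ha (pow_ne_zero t hDK)) (by
    intro v hv
    by_cases hs : s3 ∈ v.asIdeal
    · have e := eq_pw prime_s3 hs
      subst e
      exact hcv3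
    · have hDv : D ∉ v.asIdeal := by
        rw [hD]
        intro h1
        rcases v.isPrime.mem_or_mem h1 with h2 | h2
        · exact hs (v.isPrime.mem_of_pow_mem _ h2)
        · exact mon_notMem hv i E h2
      rw [map_mul, map_pow, val_one hDv, one_pow, mul_one]
      exact loc_unr_K hDv hk (hl v))
  rw [hab₀] at ht
  -- the congruence at `√-3`
  obtain ⟨P, hP⟩ : ∃ P : 𝓞 K, P = ∏ q ∈ S, q.1 ^ V₀ q := ⟨_, rfl⟩
  obtain ⟨hP3, hPc⟩ := prod_in3 S V₀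
  rw [← hP] at hP3 hPc
  obtain ⟨hs3, hsc⟩ := cl3_pow hh s
  have e1 : ((mon S i₀ V₀ : 𝓞 K) : K) * b₀ ^ 3 * ((wO ^ α * h₀ : 𝓞 K) : K) ^ s =
      ((wO ^ (i₀ + α * s) * (P * h₀ ^ s) : 𝓞 K) : K) * b₀ ^ 3 := by
    have e2 : mon S i₀ V₀ = wO ^ i₀ * P := by rw [hP]; rfl
    rw [e2]
    push_cast
    ring
  rw [e1] at ht
  have hns : ¬ s3 ∣ wO ^ (i₀ + α * s) * (P * h₀ ^ s) := by
    intro h1
    rcases prime_s3.dvd_or_dvd h1 with h2 | h2
    · exact isUnit_notMem (v := pw s3 prime_s3) (wO_unit.pow _) (Ideal.mem_span_singleton.2 h2)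
    · exact (hP3.mul hs3).not_s3 h2
  obtain ⟨hu3, hcl⟩ := pm_of (hP3.mul hs3) ((cb_iff hmem3 hns).1 (Cb.of_mul_cube hb₀ ht))
  rw [cl3_mul hP3 hs3, hPc, hsc] at hcl
  have hu : (i₀ : ZMod 3) + (α : ZMod 3) * (s : ZMod 3) = 0 := by
    have := (ZMod.natCast_eq_zero_iff _ 3).2 hu3
    push_cast at this
    exact this
  -- the places of `S`
  have hrow : ∀ q ∈ S, ∑ p ∈ S.erase q, (V₀ p : ZMod 3) * d3.s p q + (i₀ : ZMod 3) * d3.a q =
      (V₀ q : ZMod 3) * ((E q : ZMod 3) * ((i : ZMod 3) * d3.a q + (j : ZMod 3) * bq q +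
        ∑ p ∈ S.erase q, (E p : ZMod 3) * d3.s p q)) := by
    intro q hq
    have hmem := mem_pw q.1 q.prime
    have hqs : ¬ s3 ∣ q.1 := q.in3.not_s3
    have hl3 := val_three_l_le (pw q.1 q.prime)
    have hDq : D = q.1 ^ E q * (s3 ^ j * mon (S.erase q) i E) := by
      rw [hD, mon_erase hq i E]
      ring
    obtain ⟨r, hr⟩ : ∃ r : ℕ, Cu ((pw q.1 q.prime).valuation K) lK (a * (D : K) ^ r) := by
      rw [hDq]
      rw [hDq] at hk
      rcases loc_tame_K q.prime hqs hmem (not_dvd_monj (notMem_erase q S) j i E) (hE q hq) hk (hl _)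
        with h | h | h
      · exact ⟨0, by rwa [pow_zero, mul_one]⟩
      · exact ⟨1, by rwa [pow_one]⟩
      · exact ⟨2, h⟩
    obtain ⟨m, hm⟩ : ∃ m : ℕ, m = r + 2 * t := ⟨_, rfl⟩
    have h1 : Cu ((pw q.1 q.prime).valuation K) lK
        ((((mon S i₀ V₀ : 𝓞 K) : K) * (D : K) ^ m) * b₀ ^ 3) := by
      have h2 := hr.mul hl3 (Cu.cube (ν := (pw q.1 q.prime).valuation K) lK_ne
        (pow_ne_zero t hDK))
      have e : a * (D : K) ^ r * ((D : K) ^ t) ^ 3 =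
          (((mon S i₀ V₀ : 𝓞 K) : K) * (D : K) ^ m) * b₀ ^ 3 := by
        rw [hm]
        linear_combination ((D : K) ^ (r + 2 * t)) * hab₀
      rwa [e] at h2
    have h2 := Cu.of_mul_cube hb₀ h1
    obtain ⟨J, hJ⟩ : ∃ J : ℕ, J = i₀ + i * m := ⟨_, rfl⟩
    obtain ⟨W, hW⟩ : ∃ W : P3 → ℕ, W = fun p => V₀ p + E p * m := ⟨_, rfl⟩
    have e2 : mon S i₀ V₀ * D ^ m = q.1 ^ W q * (s3 ^ (j * m) * mon (S.erase q) J W) := by
      have e3 : mon S i₀ V₀ * D ^ m = s3 ^ (j * m) * mon S J W := by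
        rw [hD, mul_pow, mon_pow, hJ, hW, ← mon_mul, ← pow_mul]
        ring
      rw [e3, mon_erase hq]
      ring
    have e4 : ((mon S i₀ V₀ : 𝓞 K) : K) * (D : K) ^ m =
        ((q.1 ^ W q * (s3 ^ (j * m) * mon (S.erase q) J W) : 𝓞 K) : K) := by
      rw [← e2]
      push_cast
      rfl
    rw [e4] at h2
    have hnd := not_dvd_monj (notMem_erase q S) (j * m) J W
    have h3 := h2.val hl3
    rw [val_pow_mul q.prime hmem hnd, cv_exp] at h3
    have h4 : 3 ∣ W q := by omega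
    obtain ⟨c, hc⟩ := h4
    have h5 : Cu ((pw q.1 q.prime).valuation K) lK
        ((s3 ^ (j * m) * mon (S.erase q) J W : 𝓞 K) : K) := by
      refine Cu.of_mul_cube (s := (q.1 : K) ^ c) (pow_ne_zero c (coe_ne q.ne_zero)) ?_
      have e5 : ((s3 ^ (j * m) * mon (S.erase q) J W : 𝓞 K) : K) * ((q.1 : K) ^ c) ^ 3 =
          ((q.1 ^ W q * (s3 ^ (j * m) * mon (S.erase q) J W) : 𝓞 K) : K) := by
        rw [hc]
        push_cast
        ring
      rwa [e5]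
    rw [cu_iff q.prime hqs hmem hnd, cs_monj (notMem_erase q S)] at h5
    have h6 : (V₀ q : ZMod 3) + (m : ZMod 3) * (E q : ZMod 3) = 0 := by
      have h7 : ((W q : ℕ) : ZMod 3) = 0 := (ZMod.natCast_eq_zero_iff _ 3).2 ⟨c, hc⟩
      rw [hW] at h7
      push_cast at h7
      linear_combination h7
    have hEq : (E q : ZMod 3) ≠ 0 := fun h => hE q hq ((ZMod.natCast_eq_zero_iff _ 3).1 h)
    have h8 := aux_row (V₀ q) m (E q) ((i : ZMod 3) * d3.a q + (j : ZMod 3) * bq q +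
        ∑ p ∈ S.erase q, (E p : ZMod 3) * d3.s p q) hEq h6
    have h9 : ∑ p ∈ S.erase q, ((W p : ℕ) : ZMod 3) * d3.s p q =
        ∑ p ∈ S.erase q, (V₀ p : ZMod 3) * d3.s p q +
          m * ∑ p ∈ S.erase q, (E p : ZMod 3) * d3.s p q := by
      rw [mul_sum, ← sum_add_distrib]
      refine sum_congr rfl fun p _ => ?_
      rw [hW]
      push_cast
      ring
    rw [h9, hJ] at h5
    push_cast at h5
    linear_combination h5 - h8
  obtain ⟨c, hcV, hcu, hcj⟩ := hgood (fun q => (V₀ q : ZMod 3)) i₀ s hu hcl hrow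
  have hc : ((c.val : ℕ) : ZMod 3) = c := ZMod.natCast_zmod_val c
  have h3 : (3 : ZMod 3) = 0 := rfl
  obtain ⟨c₁, hc₁⟩ := mon_cube (S := S) (i := i₀ + i * (2 * c.val))
    (V := fun q => V₀ q + E q * (2 * c.val)) (by
      rw [← ZMod.natCast_eq_zero_iff]
      push_cast
      rw [hc]
      linear_combination hcu + c * i * h3) (fun q hq => by
      rw [← ZMod.natCast_eq_zero_iff]
      push_cast
      rw [hc]
      have := hcV q hq
      linear_combination this + c * (E q : ZMod 3) * h3)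
  obtain ⟨d, hd⟩ : 3 ∣ j * (2 * c.val) := by
    rw [← ZMod.natCast_eq_zero_iff]
    push_cast
    rw [hc]
    linear_combination 2 * hcj
  have h10 : a * (D : K) ^ (t + 2 * c.val) = ((s3 ^ d * c₁ : 𝓞 K) : K) ^ 3 * b₀ ^ 3 := by
    have e6 : mon S i₀ V₀ * D ^ (2 * c.val) = (s3 ^ d * c₁) ^ 3 := by
      rw [hD, mul_pow, mon_pow, ← pow_mul, hd, mul_pow, ← hc₁, ← mon_mul, pow_mul]
      ring
    have e7 : a * (D : K) ^ (t + 2 * c.val) =
        ((mon S i₀ V₀ * D ^ (2 * c.val) : 𝓞 K) : K) * b₀ ^ 3 := by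
      push_cast
      linear_combination ((D : K) ^ (2 * c.val)) * hab₀
    rw [e7, e6]
    push_cast
    rfl
  refine ⟨(t + 2 * c.val) % 3, ((s3 ^ d * c₁ : 𝓞 K) : K) * b₀ / (D : K) ^ ((t + 2 * c.val) / 3),
    Nat.mod_lt _ (by norm_num), ?_⟩
  have e8 : (D : K) ^ (t + 2 * c.val) = ((D : K) ^ ((t + 2 * c.val) / 3)) ^ 3 *
      (D : K) ^ ((t + 2 * c.val) % 3) := by
    rw [← pow_mul, ← pow_add]
    congr 1
    omega
  have hD3 : (D : K) ^ ((t + 2 * c.val) / 3) ≠ 0 := pow_ne_zero _ hDK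
  rw [div_pow, eq_div_iff (pow_ne_zero 3 hD3), mul_pow, ← h10, e8]
  ring

end

end Pool.Agent.Lib.MP_1a91b9_ntK.C
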