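import Pool.Agent.Lib.MP_1a91b9_nt.VcPoint
import Pool.Agent.Lib.MP_1a91b9_ntT3.S9.Defs

/-!
# The Tate-Shafarevich group under a change of variables over the base field
-/

set_option autoImplicit false

namespace Pool.Agent.Lib.MP_1a91b9_ntK.C

open NumberField IsDedekindDomain WeierstrassCurve Pool.Agent.Lib.MP_1a91b9_ntT.S9
  Pool.Agent.Lib.MP_1a91b9_ntT3.S9 Pool.Agent.Lib.MP_1a91b9_nt

open scoped Classical

noncomputable section

section Point

variable {F : Type*} [Field F]

/-- `vcFun` for a curve which is equal to `C • W`. -/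
def vcE {W' W : WeierstrassCurve F} {C : VariableChange F} (h : W' = C • W) :
    W'.toAffine.Point → W.toAffine.Point
  | .zero => .zero
  | .some x y hn => .some (vcX C x) (vcY C x y)
      (by subst h; exact (nonsingular_variableChange W C x y).1 hn)

theorem vcE_rfl (W : WeierstrassCurve F) (C : VariableChange F) :
    vcE (rfl : C • W = C • W) = vcFun W C := by
  funext P
  rcases P with _ | ⟨x, y, hn⟩ <;> rfl

theorem vcE_add {W' W : WeierstrassCurve F} {C : VariableChange F} (h : W' = C • W)
    (P Q : W'.toAffine.Point) : vcE h (P + Q) = vcE h P + vcE h Q := by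
  subst h
  rw [vcE_rfl]
  exact vcFun_add W C P Q

theorem vcE_bij {W' W : WeierstrassCurve F} {C : VariableChange F} (h : W' = C • W) :
    Function.Bijective (vcE h) := by
  subst h
  rw [vcE_rfl]
  exact vcFun_bijective W C

end Point

section Tr

variable {k : Type*} [Field k] (W : WeierstrassCurve k) (C : VariableChange k)

theorem bc_eq (F : Type*) [Field F] [Algebra k F] :
    (C • W).map (algebraMap k F) = C.map (algebraMap k F) • W.map (algebraMap k F) :=
  (W.map_variableChange C (algebraMap k F)).symm

/-- The isomorphism of the groups of points over an extension. -/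
def trE (F : Type*) [Field F] [Algebra k F] : Pts (C • W) F ≃+ Pts W F :=
  AddEquiv.ofBijective (AddMonoidHom.mk' (vcE (bc_eq W C F)) (vcE_add (bc_eq W C F)))
    (vcE_bij (bc_eq W C F))

theorem trE_apply (F : Type*) [Field F] [Algebra k F] (P : Pts (C • W) F) :
    trE W C F P = vcE (bc_eq W C F) P := rfl

theorem trE_nat {F L : Type*} [Field F] [Algebra k F] [Field L] [Algebra k L] (f : F →ₐ[k] L)
    (P : Pts (C • W) F) :
    Affine.Point.map f (trE W C F P) = trE W C L (Affine.Point.map f P) := by
  rcases P with _ | ⟨x, y, hn⟩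
  · rfl
  · change Affine.Point.some _ _ _ = Affine.Point.some _ _ _
    simp only [Affine.Point.some.injEq]
    simp only [vcX, vcY, VariableChange.map, Units.coe_map, MonoidHom.coe_coe, map_add, map_mul,
      map_pow, AlgHom.commutes, and_self]

/-- The isomorphism of the groups of maps to the points over the algebraic closure. -/
def trC : (Gal k → Pts (C • W) (AlgebraicClosure k)) ≃+ (Gal k → Pts W (AlgebraicClosure k)) :=
  AddEquiv.piCongrRight fun _ => trE W C (AlgebraicClosure k)

theorem trC_apply (c : Gal k → Pts (C • W) (AlgebraicClosure k)) (σ : Gal k) :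
    trC W C c σ = trE W C (AlgebraicClosure k) (c σ) := rfl

theorem coc_iff (c : Gal k → Pts (C • W) (AlgebraicClosure k)) :
    c ∈ coc (C • W) ↔ trC W C c ∈ coc W := by
  have h1 : IsLocallyConstant c ↔ IsLocallyConstant (trC W C c) := by
    constructor
    · intro h
      exact h.comp (trE W C (AlgebraicClosure k))
    · intro h
      have h2 := h.comp (trE W C (AlgebraicClosure k)).symm
      convert h2 using 1
      funext σ
      simp [trC_apply]
  have h3 : (∀ σ τ : Gal k, c (σ * τ) = c σ + Affine.Point.map
        (σ : AlgebraicClosure k →ₐ[k] AlgebraicClosure k) (c τ)) ↔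
      ∀ σ τ : Gal k, trC W C c (σ * τ) = trC W C c σ + Affine.Point.map
        (σ : AlgebraicClosure k →ₐ[k] AlgebraicClosure k) (trC W C c τ) := by
    refine forall_congr' fun σ => forall_congr' fun τ => ?_
    rw [trC_apply, trC_apply, trC_apply, trE_nat, ← map_add]
    exact (trE W C (AlgebraicClosure k)).injective.eq_iff.symm
  exact and_congr h1 h3

theorem cob_iff (c : Gal k → Pts (C • W) (AlgebraicClosure k)) :
    c ∈ cob (C • W) ↔ trC W C c ∈ cob W := by
  constructor
  · rintro ⟨P, hP⟩
    refine ⟨trE W C _ P, fun σ => ?_⟩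
    rw [trC_apply, hP σ, map_sub, trE_nat]
  · rintro ⟨P, hP⟩
    refine ⟨(trE W C _).symm P, fun σ => ?_⟩
    have h := hP σ
    rw [trC_apply] at h
    apply (trE W C (AlgebraicClosure k)).injective
    rw [h, map_sub, ← trE_nat, AddEquiv.apply_symm_apply]

theorem triv_iff (L : Type*) [Field L] [Algebra k L]
    (c : Gal k → Pts (C • W) (AlgebraicClosure k)) :
    c ∈ trivOver (C • W) L ↔ trC W C c ∈ trivOver W L := by
  refine forall_congr' fun i => ?_
  constructor
  · rintro ⟨P, hP⟩
    refine ⟨trE W C _ P, fun σ τ hst => ?_⟩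
    rw [trC_apply, trE_nat, hP σ τ hst, map_sub, ← trE_nat]
  · rintro ⟨P, hP⟩
    refine ⟨(trE W C _).symm P, fun σ τ hst => ?_⟩
    have h := hP σ τ hst
    rw [trC_apply, trE_nat] at h
    apply (trE W C (AlgebraicClosure L)).injective
    rw [h, map_sub, ← trE_nat, AddEquiv.apply_symm_apply]

end Tr

section Quo

variable {A B : Type*} [AddCommGroup A] [AddCommGroup B] (e : A ≃+ B)

/-- Restriction of an isomorphism to subgroups. -/
def subE {S : AddSubgroup A} {T : AddSubgroup B} (h : ∀ a, a ∈ S ↔ e a ∈ T) : S ≃+ T where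
  toFun a := ⟨e a, (h a).1 a.2⟩
  invFun b := ⟨e.symm b, (h _).2 (by simp)⟩
  left_inv a := by simp
  right_inv b := by simp
  map_add' a b := by ext; simp

/-- The isomorphism of the quotients. -/
def quoE {S S' : AddSubgroup A} {T T' : AddSubgroup B} (h : ∀ a, a ∈ S ↔ e a ∈ T)
    (h' : ∀ a, a ∈ S' ↔ e a ∈ T') :
    (S ⧸ S'.addSubgroupOf S) ≃+ (T ⧸ T'.addSubgroupOf T) :=
  QuotientAddGroup.congr _ _ (subE e h) (by
    ext b
    constructor
    · rintro ⟨a, ha, rfl⟩
      exact (h' _).1 ha
    · intro hb
      refine ⟨(subE e h).symm b, ?_, by simp⟩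
      refine (h' _).2 ?_
      have h1 : e (S.subtype ((subE e h).symm b)) = (b : B) := e.apply_symm_apply _
      rw [h1]
      exact hb)

/-- The primary components of isomorphic groups. -/
def primE (p : ℕ) [Fact p.Prime] :
    AddCommGroup.primaryComponent A p ≃+ AddCommGroup.primaryComponent B p :=
  subE e fun a => by
    rw [AddCommGroup.mem_primaryComponent, AddCommGroup.mem_primaryComponent]
    refine exists_congr fun n => ?_
    rw [← map_nsmul, EmbeddingLike.map_eq_zero_iff]

end Quo

variable {N : Type*} [Field N] [NumberField N] (W : WeierstrassCurve N) (C : VariableChange N)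

theorem shaCoc_iff (c : Gal N → Pts (C • W) (AlgebraicClosure N)) :
    c ∈ shaCoc (C • W) ↔ trC W C c ∈ shaCoc W := by
  simp only [shaCoc, AddSubgroup.mem_inf, AddSubgroup.mem_iInf, coc_iff, triv_iff]

/-- The Tate-Shafarevich groups of isomorphic curves are isomorphic. -/
def shaE : Sha (C • W) ≃+ Sha W := quoE (trC W C) (shaCoc_iff W C) (cob_iff W C)

theorem card_sha_smul (p : ℕ) [Fact p.Prime] :
    Nat.card (ShaP p (C • W)) = Nat.card (ShaP p W) :=
  Nat.card_congr (primE (shaE W C) p).toEquiv

omit [NumberField N] in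
theorem card_point_smul : Nat.card (C • W).toAffine.Point = Nat.card W.toAffine.Point := by
  obtain ⟨e, -⟩ := exists_point_equiv W C
  exact Nat.card_congr e.toEquiv

omit [NumberField N] in
theorem finite_point_smul : Finite (C • W).toAffine.Point ↔ Finite W.toAffine.Point := by
  obtain ⟨e, -⟩ := exists_point_equiv W C
  exact ⟨fun _ => Finite.of_equiv _ e.toEquiv, fun _ => Finite.of_equiv _ e.symm.toEquiv⟩

end

end Pool.Agent.Lib.MP_1a91b9_ntK.C
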