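import Pool.Agent.Lib.MP_1a91b9_ntK.C.TamL

/-!
# MP_1a91b9_nt (cubic twists), block K-TAM: the place above `3`, the hard class

`W : y² + D y = x³` over a field `L` with a valuation `V` (in the application the completion of
`ℚ(√-3)` at `√-3`), `D` congruent to `± 1` modulo `3 √-3`: the index of the subgroup of the points
with nonsingular reduction is three as soon as there is a point with singular reduction.

PROOF. Put `Y = 2 y + D`, `Y² = 4 x³ + D²`. A point with singular reduction has `x = - 1` modulo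
`√-3`, hence `Y² = - 3` modulo `3 √-3` and `V Y = exp (-1)`. The points `y` of which is, if it is not
zero, a cube times an element congruent to `1` modulo `3`, and the same for `y + D`, are a subgroup
which contains the points with nonsingular reduction and no point with singular reduction. Twice a
point with singular reduction has singular reduction, and if `V (Y₁ - Y₂) < exp (-1)` then `P₁ - P₂`
has nonsingular reduction.
-/

set_option autoImplicit false

namespace Pool.Agent.Lib.MP_1a91b9_ntK.C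

open WithZero WeierstrassCurve
open Pool.Agent.Lib.MP_1a91b9_ntH.C (nsSet nsG)
open scoped Classical

namespace TamHd

open TamLa (eqn negY_eq nons_neg neg_some' third dbl le_of_lt le_one Sg)

section
variable {L : Type*} [Field L] (V : Valuation L ℤᵐ⁰)

/-- the data -/
structure HypH (l D : L) : Prop where
  sq : l ^ 2 = -3
  v : V l = exp (-1 : ℤ)
  res : ∀ x : L, V x ≤ 1 → V x < 1 ∨ V (x - 1) < 1 ∨ V (x + 1) < 1
  D1 : V D = 1
  le : V (D ^ 2 - 1) ≤ exp (-3 : ℤ)

variable {V} {l D : L} (H : HypH V l D)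
include H

theorem v3 : V (3 : L) = exp (-2 : ℤ) := by
  have h := congrArg V H.sq
  rw [map_pow, H.v, Valuation.map_neg, ← exp_nsmul] at h
  rw [← h]
  norm_num

theorem v3lt : V (3 : L) < 1 := by
  rw [v3 H, ← exp_zero, exp_lt_exp]
  norm_num

theorem v2 : V (2 : L) = 1 := by
  have e : (2 : L) = -1 + 3 := by norm_num
  rw [e, Valuation.map_add_eq_of_lt_left, Valuation.map_neg, map_one]
  rw [Valuation.map_neg, map_one]
  exact v3lt H

theorem v4 : V (4 : L) = 1 := by
  have e : (4 : L) = 2 * 2 := by norm_num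
  rw [e, map_mul, v2 H, one_mul]

/-- squares of units -/
theorem sq_unit {s : L} (hs : V s = 1) : V (s ^ 2 - 1) < 1 := by
  have e : s ^ 2 - 1 = (s - 1) * (s + 1) := by ring
  have h1 : V (s - 1) ≤ 1 := (Valuation.map_sub _ _ _).trans (max_le hs.le (map_one V).le)
  have h2 : V (s + 1) ≤ 1 := (Valuation.map_add _ _ _).trans (max_le hs.le (map_one V).le)
  rw [e, map_mul]
  rcases H.res s hs.le with h | h | h
  · exact absurd hs h.ne
  · exact mul_lt_one_of_lt_of_le h h2
  · rw [mul_comm]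
    exact mul_lt_one_of_lt_of_le h h1

theorem vD4 : V (D ^ 2 - 4) < 1 := by
  have e : D ^ 2 - 4 = (D ^ 2 - 1) - 3 := by ring
  rw [e]
  exact Valuation.map_sub_lt _ (sq_unit H H.D1) (v3lt H)

/-- the abscissa of a point with singular reduction -/
theorem x_eq {x y : L} (h : (wd D).toAffine.Nonsingular x y) (hs : Sg V D x y) : V (x + 1) < 1 := by
  obtain ⟨hx, hY⟩ := hs
  have he := eqn h
  have h1 : V (x ^ 3 + 1) < 1 := by
    have e : 4 * (x ^ 3 + 1) = (2 * y + D) ^ 2 - (D ^ 2 - 4) := by linear_combination -he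
    have h2 : V (4 * (x ^ 3 + 1)) < 1 := by
      rw [e]
      refine Valuation.map_sub_lt _ ?_ (vD4 H)
      rw [map_pow]
      exact pow_lt_one₀ zero_le hY (by norm_num)
    rwa [map_mul, v4 H, one_mul] at h2
  rcases H.res x hx with h2 | h2 | h2
  · exfalso
    have h3 : V (x ^ 3) < 1 := by
      rw [map_pow]
      exact pow_lt_one₀ zero_le h2 (by norm_num)
    have h4 := Valuation.map_sub_lt _ h1 h3
    rw [add_sub_cancel_left, map_one] at h4
    exact lt_irrefl _ h4
  · exfalso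
    have h3 : V ((x - 1) * (x ^ 2 + x + 1)) < 1 := by
      rw [map_mul]
      refine mul_lt_one_of_lt_of_le h2 ?_
      refine (Valuation.map_add _ _ _).trans (max_le ((Valuation.map_add _ _ _).trans (max_le ?_ hx))
        (map_one V).le)
      rw [map_pow]
      exact pow_le_one₀ zero_le hx
    have h4 := Valuation.map_sub_lt _ h1 h3
    have e : x ^ 3 + 1 - (x - 1) * (x ^ 2 + x + 1) = 2 := by ring
    rw [e, v2 H] at h4
    exact lt_irrefl _ h4
  · exact h2

theorem vx {x : L} (h : V (x + 1) < 1) : V x = 1 := by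
  have e : x = (x + 1) - 1 := by ring
  rw [e, Valuation.map_sub_eq_of_lt_right, map_one]
  rwa [map_one]

theorem l_ne : l ≠ 0 := by
  rintro rfl
  have := H.v
  rw [map_zero] at this
  exact exp_ne_zero this.symm

/-- the parameter `u = (x + 1) / √-3` -/
theorem vu {x : L} (h : V (x + 1) < 1) : V ((x + 1) / l) ≤ 1 := by
  rw [map_div₀, H.v, div_le_one₀ exp_pos]
  exact le_one h

theorem x3 {x : L} (h : V (x + 1) < 1) : V (x ^ 3 + 1) ≤ exp (-4 : ℤ) := by
  have hl := l_ne H
  have hu := vu H h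
  obtain ⟨u, hu'⟩ : ∃ u, u = (x + 1) / l := ⟨_, rfl⟩
  rw [← hu'] at hu
  have hx : x = -1 + l * u := by
    rw [hu']
    field_simp
    ring
  have h1 : V (u - u ^ 3) < 1 := by
    have e : u - u ^ 3 = -(u * (u - 1) * (u + 1)) := by ring
    have g1 : V (u - 1) ≤ 1 := (Valuation.map_sub _ _ _).trans (max_le hu (map_one V).le)
    have g2 : V (u + 1) ≤ 1 := (Valuation.map_add _ _ _).trans (max_le hu (map_one V).le)
    rw [e, Valuation.map_neg, map_mul, map_mul]
    rcases H.res u hu with h | h | h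
    · exact mul_lt_one_of_lt_of_le (mul_lt_one_of_lt_of_le h g1) g2
    · refine mul_lt_one_of_lt_of_le ?_ g2
      rw [mul_comm]
      exact mul_lt_one_of_lt_of_le h hu
    · rw [mul_comm]
      exact mul_lt_one_of_lt_of_le h (mul_le_one' hu g1)
  have e : x ^ 3 + 1 = 3 * (l * (u - u ^ 3)) + 3 * 3 * u ^ 2 := by
    rw [hx]
    linear_combination (l * u ^ 3 - 3 * u ^ 2) * H.sq
  rw [e]
  refine (Valuation.map_add _ _ _).trans (max_le ?_ ?_)
  · rw [map_mul, map_mul, v3 H, H.v]
    calc exp (-2 : ℤ) * (exp (-1 : ℤ) * V (u - u ^ 3)) ≤ exp (-2 : ℤ) * (exp (-1 : ℤ) * exp (-1 : ℤ)) := by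
          gcongr
          exact le_one h1
      _ = exp (-4 : ℤ) := by
          rw [← exp_add, ← exp_add]
          norm_num
  · rw [map_mul, map_mul, v3 H, map_pow]
    calc exp (-2 : ℤ) * exp (-2 : ℤ) * V u ^ 2 ≤ exp (-2 : ℤ) * exp (-2 : ℤ) * 1 := by
          gcongr
          exact pow_le_one₀ zero_le hu
      _ = exp (-4 : ℤ) := by
          rw [mul_one, ← exp_add]
          norm_num

/-- the points with nonsingular reduction -/
theorem mem_of_x {x y : L} (h : (wd D).toAffine.Nonsingular x y) (hx : V x < 1 ∨ 1 < V x) :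
    Affine.Point.some x y h ∈ nsSet V (wd D) := by
  refine Or.inr ⟨x, y, h, rfl, ?_⟩
  rcases hx with hx | hx
  · right; left
    have he := congrArg V (eqn h)
    have h1 : V (4 * x ^ 3) < 1 := by
      rw [map_mul, v4 H, one_mul, map_pow]
      exact pow_lt_one₀ zero_le hx (by norm_num)
    have h2 : V (D ^ 2) = 1 := by rw [map_pow, H.D1, one_pow]
    rw [Valuation.map_add_eq_of_lt_right _ (by rwa [h2]), h2, map_pow] at he
    have e : 2 * y + (wd D).a₁ * x + (wd D).a₃ = 2 * y + D := by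
      simp only [wd]
      ring
    rw [e]
    exact (pow_eq_one_iff.mp he).resolve_right (by norm_num)
  · exact Or.inl hx

theorem mem_or {x y : L} (h : (wd D).toAffine.Nonsingular x y) :
    Affine.Point.some x y h ∈ nsSet V (wd D) ∨ Sg V D x y := by
  by_cases hx : V x ≤ 1
  · have he := eqn h
    have h1 : V (2 * y + D) ≤ 1 := by
      have h2 : V ((2 * y + D) ^ 2) ≤ 1 := by
        rw [he]
        refine (Valuation.map_add _ _ _).trans (max_le ?_ ?_)
        · rw [map_mul, v4 H, one_mul, map_pow]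
          exact pow_le_one₀ zero_le hx
        · rw [map_pow, H.D1, one_pow]
      rw [map_pow] at h2
      exact (pow_le_one_iff_of_nonneg zero_le two_ne_zero).1 h2
    rcases h1.lt_or_eq with h3 | h3
    · exact Or.inr ⟨hx, h3⟩
    · left
      refine Or.inr ⟨x, y, h, rfl, Or.inr (Or.inl ?_)⟩
      have e : 2 * y + (wd D).a₁ * x + (wd D).a₃ = 2 * y + D := by
        simp only [wd]
        ring
      rw [e]
      exact h3
  · exact Or.inl (mem_of_x H h (Or.inr (not_le.1 hx)))

/-- the sum of two points whose slope has value at least `1` -/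
theorem add_mem' {x₁ x₂ y₁ y₂ : L} (h₁ : (wd D).toAffine.Nonsingular x₁ y₁)
    (h₂ : (wd D).toAffine.Nonsingular x₂ y₂) (g₁ : V (x₁ + 1) < 1) (g₂ : V (x₂ + 1) < 1)
    (hx : x₁ ≠ x₂) (hl : 1 ≤ V (((2 * y₁ + D) - (2 * y₂ + D)) / (x₁ - x₂))) :
    Affine.Point.some x₁ y₁ h₁ + Affine.Point.some x₂ y₂ h₂ ∈ nsSet V (wd D) := by
  obtain ⟨x₃, y₃, h₃, hadd, hx₃⟩ := third h₁ h₂ hx
  rw [hadd]
  refine mem_of_x H h₃ ?_
  obtain ⟨m, hm⟩ : ∃ m, m = ((2 * y₁ + D) - (2 * y₂ + D)) / (x₁ - x₂) := ⟨_, rfl⟩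
  rw [← hm] at hl
  have hx12 : x₁ - x₂ ≠ 0 := sub_ne_zero.2 hx
  have hm2 : 2 * ((y₁ - y₂) / (x₁ - x₂)) = m := by
    rw [hm]
    field_simp
    ring
  have e : 4 * x₃ = m ^ 2 - 4 * x₁ - 4 * x₂ := by
    rw [hx₃, ← hm2]
    ring
  have hv : V x₃ = V (m ^ 2 - 4 * x₁ - 4 * x₂) := by
    rw [← e, map_mul, v4 H, one_mul]
  have hv1 := vx H g₁
  have hv2 := vx H g₂
  rcases hl.lt_or_eq with h1 | h1
  · right
    have e2 : m ^ 2 - 4 * x₁ - 4 * x₂ = m ^ 2 - (4 * x₁ + 4 * x₂) := by ring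
    have h2 : V (4 * x₁ + 4 * x₂) ≤ 1 := by
      refine (Valuation.map_add _ _ _).trans (max_le ?_ ?_)
      · rw [map_mul, v4 H, one_mul, hv1]
      · rw [map_mul, v4 H, one_mul, hv2]
    have h3 : 1 < V (m ^ 2) := by
      rw [map_pow]
      exact one_lt_pow₀ h1 (by norm_num)
    rw [hv, e2, Valuation.map_sub_eq_of_lt_left _ (h2.trans_lt h3)]
    exact h3
  · left
    have h2 := sq_unit H h1.symm
    have e2 : m ^ 2 - 4 * x₁ - 4 * x₂ = (m ^ 2 - 1) - 4 * (x₁ + 1) - 4 * (x₂ + 1) + 3 * 3 := by ring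
    rw [hv, e2]
    refine Valuation.map_add_lt _ (Valuation.map_sub_lt _ (Valuation.map_sub_lt _ h2 ?_) ?_) ?_
    · rw [map_mul, v4 H, one_mul]
      exact g₁
    · rw [map_mul, v4 H, one_mul]
      exact g₂
    · rw [map_mul]
      exact mul_lt_one_of_lt_of_le (v3lt H) (v3lt H).le

/-- the value of `2 y + D` -/
theorem vY {x y : L} (h : (wd D).toAffine.Nonsingular x y) (hs : Sg V D x y) :
    V (2 * y + D) = exp (-1 : ℤ) := by
  have hx3 := x3 H (x_eq H h hs)
  have he := eqn h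
  have e : (2 * y + D) ^ 2 = -3 + (4 * (x ^ 3 + 1) + (D ^ 2 - 1)) := by linear_combination he
  have h1 : V (4 * (x ^ 3 + 1) + (D ^ 2 - 1)) ≤ exp (-3 : ℤ) := by
    refine (Valuation.map_add _ _ _).trans (max_le ?_ H.le)
    rw [map_mul, v4 H, one_mul]
    refine hx3.trans ?_
    rw [exp_le_exp]
    norm_num
  have h2 : V ((2 * y + D) ^ 2) = exp (-2 : ℤ) := by
    rw [e, Valuation.map_add_eq_of_lt_left, Valuation.map_neg, v3 H]
    rw [Valuation.map_neg, v3 H]
    refine h1.trans_lt ?_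
    rw [exp_lt_exp]
    norm_num
  have h3 : exp (-2 : ℤ) = exp (-1 : ℤ) ^ 2 := by
    rw [← exp_nsmul]
    norm_num
  rw [map_pow, h3] at h2
  exact (pow_left_inj₀ zero_le zero_le two_ne_zero).1 h2

/-- the difference of two points with singular reduction of the same sign -/
theorem pair {x₁ x₂ y₁ y₂ : L} (h₁ : (wd D).toAffine.Nonsingular x₁ y₁)
    (h₂ : (wd D).toAffine.Nonsingular x₂ y₂) (s₁ : Sg V D x₁ y₁) (s₂ : Sg V D x₂ y₂)
    (hY : V ((2 * y₁ + D) - (2 * y₂ + D)) ≤ exp (-2 : ℤ)) :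
    Affine.Point.some x₁ y₁ h₁ - Affine.Point.some x₂ y₂ h₂ ∈ nsSet V (wd D) := by
  have g₁ := x_eq H h₁ s₁
  have g₂ := x_eq H h₂ s₂
  have e1 := eqn h₁
  have e2 := eqn h₂
  have w₁ := vY H h₁ s₁
  have h3 : V ((2 * y₁ + D) + (2 * y₂ + D)) = exp (-1 : ℤ) := by
    have e : (2 * y₁ + D) + (2 * y₂ + D) =
      2 * (2 * y₁ + D) - ((2 * y₁ + D) - (2 * y₂ + D)) := by ring
    have h4 : V (2 * (2 * y₁ + D)) = exp (-1 : ℤ) := by rw [map_mul, v2 H, one_mul, w₁]
    rw [e, Valuation.map_sub_eq_of_lt_left, h4]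
    rw [h4]
    refine hY.trans_lt ?_
    rw [exp_lt_exp]
    norm_num
  by_cases h12 : x₁ = x₂
  · subst h12
    have h5 : ((2 * y₁ + D) - (2 * y₂ + D)) * ((2 * y₁ + D) + (2 * y₂ + D)) = 0 := by
      linear_combination e1 - e2
    have h6 : (2 * y₁ + D) + (2 * y₂ + D) ≠ 0 := by
      intro h0
      rw [h0, map_zero] at h3
      exact exp_ne_zero h3.symm
    have h7 := (mul_eq_zero.1 h5).resolve_right h6
    have h20 : (2 : L) ≠ 0 := by
      intro h0
      have := v2 H
      rw [h0, map_zero] at this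
      exact zero_ne_one this
    have h8 : y₁ = y₂ := by
      apply mul_left_cancel₀ h20
      linear_combination h7
    subst h8
    rw [sub_self]
    exact Or.inl rfl
  · have hx12 : x₁ - x₂ ≠ 0 := sub_ne_zero.2 h12
    rw [sub_eq_add_neg, neg_some']
    refine add_mem' H h₁ (nons_neg h₂) g₁ g₂ h12 ?_
    have e5 : 2 * y₁ + D - (2 * (-y₂ - D) + D) = (2 * y₁ + D) + (2 * y₂ + D) := by ring
    rw [e5, map_div₀, h3]
    have h6 : V (x₁ - x₂) ≤ exp (-1 : ℤ) := by
      apply le_one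
      have e6 : x₁ - x₂ = (x₁ + 1) - (x₂ + 1) := by ring
      rw [e6]
      exact Valuation.map_sub_lt _ g₁ g₂
    rw [one_le_div₀ (zero_lt_iff.2 ((Valuation.ne_zero_iff _).2 hx12))]
    exact h6

/-- two points with singular reduction have the same or opposite signs -/
theorem dich {x₁ x₂ y₁ y₂ : L} (h₁ : (wd D).toAffine.Nonsingular x₁ y₁)
    (h₂ : (wd D).toAffine.Nonsingular x₂ y₂) (s₁ : Sg V D x₁ y₁) (s₂ : Sg V D x₂ y₂) :
    V ((2 * y₁ + D) - (2 * y₂ + D)) ≤ exp (-2 : ℤ) ∨
      V ((2 * y₁ + D) + (2 * y₂ + D)) ≤ exp (-2 : ℤ) := by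
  by_contra hc
  rw [not_or, not_le, not_le] at hc
  have g₁ := x_eq H h₁ s₁
  have g₂ := x_eq H h₂ s₂
  have e1 := eqn h₁
  have e2 := eqn h₂
  have e : ((2 * y₁ + D) - (2 * y₂ + D)) * ((2 * y₁ + D) + (2 * y₂ + D)) =
      4 * ((x₁ ^ 3 + 1) - (x₂ ^ 3 + 1)) := by linear_combination e1 - e2
  have h := congrArg V e
  rw [map_mul, map_mul, v4 H, one_mul] at h
  have h2 : V ((x₁ ^ 3 + 1) - (x₂ ^ 3 + 1)) ≤ exp (-4 : ℤ) :=
    (Valuation.map_sub _ _ _).trans (max_le (x3 H g₁) (x3 H g₂))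
  have h3 : exp (-2 : ℤ) * exp (-2 : ℤ) <
      V ((2 * y₁ + D) - (2 * y₂ + D)) * V ((2 * y₁ + D) + (2 * y₂ + D)) :=
    mul_lt_mul'' hc.1 hc.2 zero_le zero_le
  rw [h, ← exp_add] at h3
  have h4 := h3.trans_le h2
  rw [exp_lt_exp] at h4
  norm_num at h4

/-- twice a point with singular reduction -/
theorem two_sg {x y : L} (h : (wd D).toAffine.Nonsingular x y) (hs : Sg V D x y) :
    ∃ (x₃ y₃ : L) (h₃ : (wd D).toAffine.Nonsingular x₃ y₃),
      Affine.Point.some x y h + Affine.Point.some x y h = Affine.Point.some x₃ y₃ h₃ ∧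
      Sg V D x₃ y₃ := by
  have w := vY H h hs
  have hY : 2 * y + D ≠ 0 := by
    intro h0
    rw [h0, map_zero] at w
    exact exp_ne_zero w.symm
  obtain ⟨x₃, y₃, h₃, hadd, hx₃⟩ := dbl h hY
  refine ⟨x₃, y₃, h₃, hadd, ?_⟩
  have g := x_eq H h hs
  have hn1 : exp (-1 : ℤ) < 1 := by
    rw [← exp_zero, exp_lt_exp]
    norm_num
  have e : x₃ + 1 = (3 * x ^ 2 / (2 * y + D)) ^ 2 - 2 * (x + 1) + 3 := by
    rw [hx₃]
    ring
  have h1 : V (3 * x ^ 2 / (2 * y + D)) = exp (-1 : ℤ) := by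
    rw [map_div₀, map_mul, v3 H, map_pow, vx H g, one_pow, mul_one, w, ← exp_sub]
    norm_num
  have h2 : V (x₃ + 1) < 1 := by
    rw [e]
    refine Valuation.map_add_lt _ (Valuation.map_sub_lt _ ?_ ?_) (v3lt H)
    · rw [map_pow, h1]
      exact pow_lt_one₀ zero_le hn1 (by norm_num)
    · rw [map_mul, v2 H, one_mul]
      exact g
  refine ⟨(vx H h2).le, ?_⟩
  have e3 := eqn h₃
  have h3 : V ((2 * y₃ + D) ^ 2) < 1 := by
    have e4 : (2 * y₃ + D) ^ 2 = -3 + (4 * (x₃ ^ 3 + 1) + (D ^ 2 - 1)) := by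
      linear_combination e3
    rw [e4]
    refine Valuation.map_add_lt _ ?_ (Valuation.map_add_lt _ ?_ ?_)
    · rw [Valuation.map_neg]
      exact v3lt H
    · rw [map_mul, v4 H, one_mul]
      refine (x3 H h2).trans_lt ?_
      rw [← exp_zero, exp_lt_exp]
      norm_num
    · refine H.le.trans_lt ?_
      rw [← exp_zero, exp_lt_exp]
      norm_num
  rw [map_pow] at h3
  by_contra hc
  exact absurd h3 (not_lt.2 (one_le_pow₀ (not_lt.1 hc)))

omit H in
/-- the elements which are a cube times an element congruent to `1` modulo `3` -/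
def HH (V : Valuation L ℤᵐ⁰) (z : L) : Prop := ∃ c : L, V (z * c ^ 3 - 1) ≤ exp (-2 : ℤ)

omit H in
theorem e2lt : exp (-2 : ℤ) < (1 : ℤᵐ⁰) := by
  rw [← exp_zero, exp_lt_exp]
  norm_num

omit H in
theorem one_of {u : L} (h : V (u - 1) ≤ exp (-2 : ℤ)) : V u = 1 := by
  have e : u = (u - 1) + 1 := by ring
  rw [e, Valuation.map_add_eq_of_lt_right, map_one]
  rw [map_one]
  exact h.trans_lt e2lt

omit H in
theorem HH.mul {z w : L} (hz : HH V z) (hw : HH V w) : HH V (z * w) := by
  obtain ⟨c, hc⟩ := hz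
  obtain ⟨d, hd⟩ := hw
  refine ⟨c * d, ?_⟩
  have e : z * w * (c * d) ^ 3 - 1 = (z * c ^ 3 - 1) * (w * d ^ 3) + (w * d ^ 3 - 1) := by ring
  rw [e]
  refine (Valuation.map_add _ _ _).trans (max_le ?_ hd)
  rw [map_mul, one_of hd, mul_one]
  exact hc

omit H in
theorem HH.neg {z : L} (hz : HH V z) : HH V (-z) := by
  obtain ⟨c, hc⟩ := hz
  refine ⟨-c, ?_⟩
  have e : -z * (-c) ^ 3 - 1 = z * c ^ 3 - 1 := by ring
  rw [e]
  exact hc

omit H in
theorem HH.ne {z : L} (hz : HH V z) : z ≠ 0 := by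
  rintro rfl
  obtain ⟨c, hc⟩ := hz
  rw [zero_mul, zero_sub, Valuation.map_neg, map_one] at hc
  exact absurd hc (not_le.2 e2lt)

omit H in
theorem HH.cube {z w a : L} (hz : HH V z) (h : z * w = a ^ 3) (ha : a ≠ 0) : HH V w := by
  obtain ⟨c, hc⟩ := hz
  have h1 := one_of hc
  have h2 : z * c ^ 3 ≠ 0 := by
    intro h0
    rw [h0, map_zero] at h1
    exact zero_ne_one h1
  have hz0 : z ≠ 0 := left_ne_zero_of_mul h2
  have hc0 : c ≠ 0 := by
    intro h0
    apply right_ne_zero_of_mul h2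
    rw [h0]
    ring
  refine ⟨(a * c)⁻¹, ?_⟩
  have hw : w = a ^ 3 / z := by
    rw [← h]
    field_simp
  have e : w * (a * c)⁻¹ ^ 3 - 1 = -(z * c ^ 3 - 1) / (z * c ^ 3) := by
    rw [hw]
    field_simp
    ring
  rw [e, map_div₀, Valuation.map_neg, h1, div_one]
  exact hc

/-- units congruent to a cube modulo `3` are `± 1` modulo `3` -/
theorem HH.pm {z : L} (hz : HH V z) (h1 : V z = 1) :
    V (z - 1) ≤ exp (-2 : ℤ) ∨ V (z + 1) ≤ exp (-2 : ℤ) := by
  obtain ⟨c, hc⟩ := hz
  have h2 := one_of hc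
  rw [map_mul, h1, one_mul, map_pow] at h2
  have hvc : V c = 1 := (pow_eq_one_iff_of_nonneg zero_le (by norm_num)).1 h2
  rcases H.res c hvc.le with h3 | h3 | h3
  · exact absurd hvc h3.ne
  · left
    have e : z - 1 = (z * c ^ 3 - 1) - z * ((c - 1) ^ 3 + 3 * (c * (c - 1))) := by ring
    rw [e]
    refine (Valuation.map_sub _ _ _).trans (max_le hc ?_)
    rw [map_mul, h1, one_mul]
    refine (Valuation.map_add _ _ _).trans (max_le ?_ ?_)
    · rw [map_pow]
      calc V (c - 1) ^ 3 ≤ exp (-1 : ℤ) ^ 3 := pow_le_pow_left₀ zero_le (le_one h3) 3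
        _ ≤ exp (-2 : ℤ) := by
          rw [← exp_nsmul, exp_le_exp]
          norm_num
    · rw [map_mul, v3 H, map_mul, hvc, one_mul]
      calc exp (-2 : ℤ) * V (c - 1) ≤ exp (-2 : ℤ) * 1 := by gcongr
        _ = exp (-2 : ℤ) := mul_one _
  · right
    have e : z + 1 = z * ((c + 1) ^ 3 - 3 * (c * (c + 1))) - (z * c ^ 3 - 1) := by ring
    rw [e]
    refine (Valuation.map_sub _ _ _).trans (max_le ?_ hc)
    rw [map_mul, h1, one_mul]
    refine (Valuation.map_sub _ _ _).trans (max_le ?_ ?_)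
    · rw [map_pow]
      calc V (c + 1) ^ 3 ≤ exp (-1 : ℤ) ^ 3 := pow_le_pow_left₀ zero_le (le_one h3) 3
        _ ≤ exp (-2 : ℤ) := by
          rw [← exp_nsmul, exp_le_exp]
          norm_num
    · rw [map_mul, v3 H, map_mul, hvc, one_mul]
      calc exp (-2 : ℤ) * V (c + 1) ≤ exp (-2 : ℤ) * 1 := by gcongr
        _ = exp (-2 : ℤ) := mul_one _

omit H in
theorem HH.add {z w : L} (hz : HH V z) (h1 : V z = 1) (hw : V w ≤ exp (-2 : ℤ)) :
    HH V (z + w) := by
  obtain ⟨c, hc⟩ := hz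
  have h2 := one_of hc
  rw [map_mul, h1, one_mul] at h2
  refine ⟨c, ?_⟩
  have e : (z + w) * c ^ 3 - 1 = (z * c ^ 3 - 1) + w * c ^ 3 := by ring
  rw [e]
  refine (Valuation.map_add _ _ _).trans (max_le hc ?_)
  rw [map_mul, h2, mul_one]
  exact hw

/-- `D` is `± 1` modulo `3 √-3` -/
theorem D_pm : V (D - 1) ≤ exp (-3 : ℤ) ∨ V (D + 1) ≤ exp (-3 : ℤ) := by
  have e : D ^ 2 - 1 = (D - 1) * (D + 1) := by ring
  have h := H.le
  rw [e, map_mul] at h
  rcases H.res D H.D1.le with h1 | h1 | h1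
  · exact absurd H.D1 h1.ne
  · left
    have h3 : V (D + 1) = 1 := by
      have e2 : D + 1 = 2 + (D - 1) := by ring
      rw [e2, Valuation.map_add_eq_of_lt_left, v2 H]
      rwa [v2 H]
    rwa [h3, mul_one] at h
  · right
    have h3 : V (D - 1) = 1 := by
      have e2 : D - 1 = (D + 1) - 2 := by ring
      rw [e2, Valuation.map_sub_eq_of_lt_right, v2 H]
      rwa [v2 H]
    rwa [h3, one_mul] at h

theorem HH_D : HH V D := by
  have h23 : exp (-3 : ℤ) ≤ exp (-2 : ℤ) := by
    rw [exp_le_exp]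
    norm_num
  rcases D_pm H with h | h
  · refine ⟨1, ?_⟩
    rw [one_pow, mul_one]
    exact h.trans h23
  · refine ⟨-1, ?_⟩
    have e : D * (-1) ^ 3 - 1 = -(D + 1) := by ring
    rw [e, Valuation.map_neg]
    exact h.trans h23

theorem D_ne : D ≠ 0 := by
  rintro rfl
  have := H.D1
  rw [map_zero] at this
  exact zero_ne_one this

omit H in
/-- the condition on a point -/
def Cd (V : Valuation L ℤᵐ⁰) (D y : L) : Prop := (y ≠ 0 → HH V y) ∧ (y + D ≠ 0 → HH V (y + D))

omit H in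
theorem Cd.neg {y : L} (h : Cd V D y) : Cd V D (-y - D) := by
  refine ⟨fun h0 => ?_, fun h0 => ?_⟩
  · have e : -y - D = -(y + D) := by ring
    rw [e] at h0 ⊢
    exact (h.2 (neg_ne_zero.1 h0)).neg
  · have e : -y - D + D = -y := by ring
    rw [e] at h0 ⊢
    exact (h.1 (neg_ne_zero.1 h0)).neg

/-- The subgroup. -/
noncomputable def GG : AddSubgroup (wd D).toAffine.Point where
  carrier := {P | P = 0 ∨ ∃ (x y : L) (h : (wd D).toAffine.Nonsingular x y),
    P = Affine.Point.some x y h ∧ Cd V D y}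
  zero_mem' := Or.inl rfl
  add_mem' := by
    rintro P Q hP hQ
    rcases hP with rfl | ⟨x₁, y₁, h₁, rfl, hP⟩
    · rw [zero_add]; exact hQ
    rcases hQ with rfl | ⟨x₂, y₂, h₂, rfl, hQ⟩
    · rw [add_zero]; exact Or.inr ⟨x₁, y₁, h₁, rfl, hP⟩
    by_cases hxy : x₁ = x₂ ∧ y₁ = (wd D).toAffine.negY x₂ y₂
    · left
      exact Affine.Point.add_of_Y_eq hxy.1 hxy.2
    right
    obtain ⟨l', n, x₃, y₃, hx3, hy3, e1, e2, e3, hl⟩ := wd_line h₁.1 h₂.1 hxy
    obtain ⟨hp, hp'⟩ := wd_prod hl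
    rw [← e1, ← e2, ← e3] at hp hp'
    have hc3 : y₃ * (y₃ + D) = x₃ ^ 3 := by
      have := hl x₃
      rw [← e3] at this
      linear_combination this
    refine ⟨_, _, _, Affine.Point.add_some hxy, ?_⟩
    rw [hy3]
    apply Cd.neg
    by_cases hn : n = 0
    · have hD : n + D ≠ 0 := by
        rw [hn, zero_add]
        exact D_ne H
      have hne : (y₁ + D) * (y₂ + D) * (y₃ + D) ≠ 0 := by
        rw [hp']
        exact pow_ne_zero 3 hD
      have k3 : y₃ + D ≠ 0 := right_ne_zero_of_mul hne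
      have k1 : y₁ + D ≠ 0 := left_ne_zero_of_mul (left_ne_zero_of_mul hne)
      have k2 : y₂ + D ≠ 0 := right_ne_zero_of_mul (left_ne_zero_of_mul hne)
      have h3 : HH V (y₃ + D) := ((hP.2 k1).mul (hQ.2 k2)).cube hp' hD
      refine ⟨fun h0 => ?_, fun _ => h3⟩
      refine h3.cube (a := x₃) (by rw [mul_comm]; exact hc3) ?_
      intro hx0
      rw [hx0, zero_pow three_ne_zero] at hc3
      exact (mul_ne_zero h0 k3) hc3
    · have hne : y₁ * y₂ * y₃ ≠ 0 := by
        rw [hp]
        exact pow_ne_zero 3 hn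
      have k3 : y₃ ≠ 0 := right_ne_zero_of_mul hne
      have k1 : y₁ ≠ 0 := left_ne_zero_of_mul (left_ne_zero_of_mul hne)
      have k2 : y₂ ≠ 0 := right_ne_zero_of_mul (left_ne_zero_of_mul hne)
      have h3 : HH V y₃ := ((hP.1 k1).mul (hQ.1 k2)).cube hp hn
      refine ⟨fun _ => h3, fun h0 => ?_⟩
      refine h3.cube (a := x₃) hc3 ?_
      intro hx0
      rw [hx0, zero_pow three_ne_zero] at hc3
      exact (mul_ne_zero k3 h0) hc3
  neg_mem' := by
    rintro P (rfl | ⟨x, y, h, rfl, hP⟩)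
    · left; exact neg_zero
    · right
      refine ⟨_, _, _, Affine.Point.neg_some h, ?_⟩
      rw [negY_eq]
      exact hP.neg

/-- the points with nonsingular reduction are in the subgroup -/
theorem ns_not_sg {x y : L} {h : (wd D).toAffine.Nonsingular x y}
    (hP : Affine.Point.some x y h ∈ nsSet V (wd D)) : ¬ Sg V D x y := by
  rintro ⟨hx, hY⟩
  rcases hP with h0 | ⟨x', y', h', hxy, hcase⟩
  · exact absurd h0 (Affine.Point.some_ne_zero _)
  obtain ⟨rfl, rfl⟩ := (Affine.Point.some.injEq ..).mp hxy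
  rcases hcase with h1 | h1 | h1
  · exact absurd h1 (not_lt.2 hx)
  · have e : 2 * y + (wd D).a₁ * x + (wd D).a₃ = 2 * y + D := by
      simp only [wd]
      ring
    rw [e] at h1
    exact absurd h1 hY.ne
  · have e1 : 3 * x ^ 2 + 2 * (wd D).a₂ * x + (wd D).a₄ - (wd D).a₁ * y = 3 * x ^ 2 := by
      simp [wd]
    rw [e1, map_mul, map_pow] at h1
    have h4 : V (3 : L) * V x ^ 2 < 1 :=
      mul_lt_one_of_lt_of_le (v3lt H) (pow_le_one₀ zero_le hx)
    rw [h1] at h4
    exact lt_irrefl _ h4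

theorem ns_le : nsG V (wd D) ≤ GG H := by
  rw [nsG, AddSubgroup.closure_le]
  intro P hP
  rcases P with _ | ⟨x, y, h⟩
  · exact Or.inl rfl
  have hns := ns_not_sg H hP
  have heqn := eqn h
  have heq : y * (y + D) = x ^ 3 := by
    have h20 : (4 : L) ≠ 0 := by
      intro h0
      have := v4 H
      rw [h0, map_zero] at this
      exact zero_ne_one this
    apply mul_left_cancel₀ h20
    linear_combination heqn
  refine Or.inr ⟨x, y, h, rfl, ?_⟩
  by_cases hx : V x ≤ 1
  · -- `V (2 y + D) = 1`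
    have hY1 : V (2 * y + D) = 1 := by
      have h1 : V (2 * y + D) ≤ 1 := by
        have h2 : V ((2 * y + D) ^ 2) ≤ 1 := by
          rw [heqn]
          refine (Valuation.map_add _ _ _).trans (max_le ?_ ?_)
          · rw [map_mul, v4 H, one_mul, map_pow]
            exact pow_le_one₀ zero_le hx
          · rw [map_pow, H.D1, one_pow]
        rw [map_pow] at h2
        exact (pow_le_one_iff_of_nonneg zero_le two_ne_zero).1 h2
      rcases h1.lt_or_eq with h3 | h3
      · exact absurd ⟨hx, h3⟩ hns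
      · exact h3
    have hx3 : V (x ^ 3) < 1 := by
      have e : 4 * x ^ 3 = ((2 * y + D) ^ 2 - 1) - (D ^ 2 - 1) := by linear_combination -heqn
      have h2 : V (4 * x ^ 3) < 1 := by
        rw [e]
        exact Valuation.map_sub_lt _ (sq_unit H hY1) (sq_unit H H.D1)
      rwa [map_mul, v4 H, one_mul] at h2
    have hx1 : V x < 1 := by
      by_contra hc
      rw [map_pow] at hx3
      exact absurd hx3 (not_lt.2 (one_le_pow₀ (not_lt.1 hc)))
    have hx3' : V (x ^ 3) ≤ exp (-2 : ℤ) := by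
      rw [map_pow]
      calc V x ^ 3 ≤ exp (-1 : ℤ) ^ 3 := pow_le_pow_left₀ zero_le (le_one hx1) 3
        _ ≤ exp (-2 : ℤ) := by
          rw [← exp_nsmul, exp_le_exp]
          norm_num
    have hy1 : V y ≤ 1 := by
      have e : 2 * y = (2 * y + D) - D := by ring
      have h2 : V (2 * y) ≤ 1 := by
        rw [e]
        exact (Valuation.map_sub _ _ _).trans (max_le hY1.le H.D1.le)
      rwa [map_mul, v2 H, one_mul] at h2
    have hprod : V y * V (y + D) = V (x ^ 3) := by rw [← map_mul, heq]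
    rcases hy1.lt_or_eq with hy | hy
    · have hz : V (y + D) = 1 := by
        rw [Valuation.map_add_eq_of_lt_right, H.D1]
        rwa [H.D1]
      rw [hz, mul_one] at hprod
      have k : HH V (y + D) := by
        rw [add_comm]
        exact (HH_D H).add H.D1 (hprod.le.trans hx3')
      refine ⟨fun h0 => k.cube (a := x) (by rw [mul_comm]; exact heq) ?_, fun _ => k⟩
      intro hx0
      rw [hx0, zero_pow three_ne_zero] at heq
      exact (mul_ne_zero h0 k.ne) heq
    · rw [hy, one_mul] at hprod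
      have k : HH V y := by
        have e : y = -D + (y + D) := by ring
        rw [e]
        refine (HH_D H).neg.add ?_ (hprod.le.trans hx3')
        rw [Valuation.map_neg, H.D1]
      refine ⟨fun _ => k, fun h0 => k.cube (a := x) heq ?_⟩
      intro hx0
      rw [hx0, zero_pow three_ne_zero] at heq
      exact (mul_ne_zero k.ne h0) heq
  · rw [not_le] at hx
    have hyv : 1 < V y := by
      by_contra hc
      rw [not_lt] at hc
      have h2 : V (y * (y + D)) ≤ 1 := by
        rw [map_mul]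
        exact mul_le_one' hc ((Valuation.map_add _ _ _).trans (max_le hc H.D1.le))
      rw [heq, map_pow] at h2
      exact absurd h2 (not_le.2 (one_lt_pow₀ hx (by norm_num)))
    have hzv : V (y + D) = V y := by
      rw [Valuation.map_add_eq_of_lt_left]
      rwa [H.D1]
    have hy0 : y ≠ 0 := by
      rintro rfl
      rw [map_zero] at hyv
      exact absurd hyv (not_lt.2 zero_le)
    have hx0 : x ≠ 0 := by
      rintro rfl
      rw [map_zero] at hx
      exact absurd hx (not_lt.2 zero_le)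
    have hprod : V y ^ 2 = V x ^ 3 := by
      rw [← map_pow V x, ← heq, map_mul, hzv, pow_two]
    have hyi : V (D / y) ≤ exp (-2 : ℤ) := by
      obtain ⟨a, ha⟩ : ∃ a : ℤ, V x = exp a :=
        ⟨WithZero.log (V x), (WithZero.exp_log ((Valuation.ne_zero_iff V).2 hx0)).symm⟩
      obtain ⟨b, hb⟩ : ∃ b : ℤ, V y = exp b :=
        ⟨WithZero.log (V y), (WithZero.exp_log ((Valuation.ne_zero_iff V).2 hy0)).symm⟩
      rw [ha, ← exp_zero, exp_lt_exp] at hx
      rw [ha, hb, ← exp_nsmul, ← exp_nsmul, exp_inj] at hprod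
      rw [map_div₀, H.D1, hb, one_div, ← exp_neg, exp_le_exp]
      simp only [nsmul_eq_mul, Nat.cast_ofNat] at hprod
      omega
    have k : HH V y := by
      refine ⟨x / y, ?_⟩
      have e : y * (x / y) ^ 3 - 1 = D / y := by
        rw [div_pow, ← heq]
        field_simp
        ring
      rw [e]
      exact hyi
    exact ⟨fun _ => k, fun _ => k.cube (a := x) heq hx0⟩

/-- a point with singular reduction is not in the subgroup -/
theorem sg_not {x y : L} {h : (wd D).toAffine.Nonsingular x y} (hs : Sg V D x y) :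
    Affine.Point.some x y h ∉ nsG V (wd D) := by
  intro hm
  rcases ns_le H hm with h0 | ⟨x', y', h', hxy, hc⟩
  · exact Affine.Point.some_ne_zero _ h0
  obtain ⟨rfl, rfl⟩ := (Affine.Point.some.injEq ..).mp hxy
  have w := vY H h hs
  have hvy : V y = 1 := by
    have e : 2 * y = (2 * y + D) - D := by ring
    have h2 : V (2 * y) = 1 := by
      rw [e, Valuation.map_sub_eq_of_lt_right, H.D1]
      rw [H.D1]
      exact hs.2
    rwa [map_mul, v2 H, one_mul] at h2
  have hy0 : y ≠ 0 := by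
    rintro rfl
    rw [map_zero] at hvy
    exact zero_ne_one hvy
  have h23 : exp (-3 : ℤ) ≤ exp (-2 : ℤ) := by
    rw [exp_le_exp]
    norm_num
  have h21 : exp (-2 : ℤ) < exp (-1 : ℤ) := by
    rw [exp_lt_exp]
    norm_num
  have big : ∀ z : L, V z ≤ exp (-2 : ℤ) → 2 * y + D ≠ z := by
    intro z hz h0
    rw [h0] at w
    rw [w] at hz
    exact absurd hz (not_le.2 h21)
  have unit' : ∀ z e : L, V z ≤ exp (-2 : ℤ) → V e = 1 → 2 * y + D ≠ z + e := by
    intro z e hz he h0
    have h5 : V (z + e) = 1 := by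
      rw [Valuation.map_add_eq_of_lt_right, he]
      rw [he]
      exact hz.trans_lt e2lt
    rw [← h0] at h5
    exact absurd h5 hs.2.ne
  have t2 : ∀ z : L, V z ≤ exp (-2 : ℤ) → V (2 * z) ≤ exp (-2 : ℤ) := by
    intro z hz
    rwa [map_mul, v2 H, one_mul]
  rcases (hc.1 hy0).pm H hvy with h1 | h1 <;> rcases D_pm H with h2 | h2
  · refine big (2 * (y - 1) + (D - 1) + 3) ?_ (by ring)
    exact (Valuation.map_add _ _ _).trans (max_le ((Valuation.map_add _ _ _).trans
      (max_le (t2 _ h1) (h2.trans h23))) (v3 H).le)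
  · refine unit' (2 * (y - 1) + (D + 1)) 1 ?_ (map_one V) (by ring)
    exact (Valuation.map_add _ _ _).trans (max_le (t2 _ h1) (h2.trans h23))
  · refine unit' (2 * (y + 1) + (D - 1)) (-1) ?_ (by rw [Valuation.map_neg, map_one]) (by ring)
    exact (Valuation.map_add _ _ _).trans (max_le (t2 _ h1) (h2.trans h23))
  · refine big (2 * (y + 1) + (D + 1) - 3) ?_ (by ring)
    exact (Valuation.map_sub _ _ _).trans (max_le ((Valuation.map_add _ _ _).trans
      (max_le (t2 _ h1) (h2.trans h23))) (v3 H).le)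

/-- **The index is three.** -/
theorem index (hex : ∃ (x y : L) (_ : (wd D).toAffine.Nonsingular x y), Sg V D x y) :
    (nsG V (wd D)).index = 3 := by
  obtain ⟨x, y, h, hs⟩ := hex
  have hs' : Sg V D x (-y - D) := by
    refine ⟨hs.1, ?_⟩
    have e : 2 * (-y - D) + D = -(2 * y + D) := by ring
    rw [e, Valuation.map_neg]
    exact hs.2
  obtain ⟨A, hA⟩ : ∃ A : (wd D).toAffine.Point, A = Affine.Point.some x y h := ⟨_, rfl⟩
  have hAn : A ∉ nsG V (wd D) := by
    rw [hA]
    exact sg_not H hs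
  have hnA : -A = Affine.Point.some x (-y - D) (nons_neg h) := by rw [hA, neg_some']
  have hAA : A + A ∉ nsG V (wd D) := by
    obtain ⟨x₃, y₃, h₃, hadd, h3s⟩ := two_sg H h hs
    rw [hA, hadd]
    exact sg_not H h3s
  have hnAn : -A ∉ nsG V (wd D) := fun hm => hAn (by simpa using (nsG V (wd D)).neg_mem hm)
  have hnAA : -A + -A ∉ nsG V (wd D) := by
    intro hm
    apply hAA
    have := (nsG V (wd D)).neg_mem hm
    have e : -(-A + -A) = A + A := by abel
    rwa [e] at this
  have hinj : Function.Injective (fun i : Fin 3 =>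
      (QuotientAddGroup.mk (![0, A, -A] i) : (wd D).toAffine.Point ⧸ nsG V (wd D))) := by
    intro i j hij
    have hij' : -(![0, A, -A] i) + ![0, A, -A] j ∈ nsG V (wd D) := QuotientAddGroup.eq.1 hij
    fin_cases i <;> fin_cases j <;> simp [hAA, hAn] at hij' ⊢
    · exact hnAA (by simpa using hij')
  have hsurj : Function.Surjective (fun i : Fin 3 =>
      (QuotientAddGroup.mk (![0, A, -A] i) : (wd D).toAffine.Point ⧸ nsG V (wd D))) := by
    intro q
    obtain ⟨P, rfl⟩ := QuotientAddGroup.mk_surjective q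
    have hred : ∀ i : Fin 3, P - (![0, A, -A] i) ∈ nsSet V (wd D) → ∃ i : Fin 3,
        (QuotientAddGroup.mk (![0, A, -A] i) : (wd D).toAffine.Point ⧸ nsG V (wd D)) =
          QuotientAddGroup.mk P := fun i hi =>
      ⟨i, QuotientAddGroup.eq.2 (by
        rw [neg_add_eq_sub]
        exact AddSubgroup.subset_closure hi)⟩
    rcases P with _ | ⟨x', y', h'⟩
    · refine hred 0 ?_
      change 0 - 0 ∈ _
      rw [sub_zero]
      exact Or.inl rfl
    rcases mem_or H h' with h1 | h1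
    · refine hred 0 ?_
      change _ - 0 ∈ _
      rw [sub_zero]
      exact h1
    rcases dich H h' h h1 hs with h2 | h2
    · refine hred 1 ?_
      change _ - A ∈ _
      rw [hA]
      exact pair H h' h h1 hs h2
    · refine hred 2 ?_
      change _ - -A ∈ _
      rw [hnA]
      refine pair H h' (nons_neg h) h1 hs' ?_
      have e : 2 * y' + D - (2 * (-y - D) + D) = 2 * y' + D + (2 * y + D) := by ring
      rw [e]
      exact h2
  have hcard := Nat.card_congr (Equiv.ofBijective _ ⟨hinj, hsurj⟩)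
  rw [Nat.card_eq_fintype_card, Fintype.card_fin] at hcard
  exact hcard.symm

end

end TamHd

end Pool.Agent.Lib.MP_1a91b9_ntK.C
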