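import Pool.Agent.Lib.MP_1a91b9_ntK.C.PerJ
import Pool.Agent.Lib.MP_1a91b9_ntK.C.Tam

/-!
# MP_1a91b9_nt (cubic twists), block K-tam: transport from the minimal model of `y² + D y = x³`, all
cube-free `D`, and the Tamagawa number at `√-3` if `√-3` divides `D`
-/

set_option autoImplicit false

namespace Pool.Agent.Lib.MP_1a91b9_ntK.C

open NumberField IsDedekindDomain WithZero WeierstrassCurve Pool.Agent.Lib.MP_1a91b9_ntT
open Pool.Agent.Lib.MP_1a91b9_ntT.S9 (tam nonsing minModel minChange minModel_isMinimal)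
open Pool.Agent.Lib.MP_1a91b9_ntT.CT (min_int min_le ns_unit ns)
open Pool.Agent.Lib.MP_1a91b9_ntH (wO s3 s3_ne)
open Pool.Agent.Lib.MP_1a91b9_ntH.C (nsSet nsG tam_def perb_int perb_bc perb_one)
open Pool.Agent.Lib.MP_1a91b9_ntH.C.TamT (Itg index_smul Itg_bc)
open scoped Classical

/-- The Tamagawa number on any integral equation if the scaling factor is a unit. -/
theorem tam_eq_of {N : Type*} [Field N] [NumberField N] (v : HeightOneSpectrum (𝓞 N))
    (W : WeierstrassCurve N)
    (hI : ∃ I : WeierstrassCurve (v.adicCompletionIntegers N),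
      W.baseChange (v.adicCompletion N) = I.baseChange (v.adicCompletion N))
    (hu : Valued.v ((minChange W v).u : v.adicCompletion N) = 1) :
    tam W v = (nsG (Valued.v : Valuation (v.adicCompletion N) ℤᵐ⁰)
      (W.baseChange (v.adicCompletion N))).index := by
  rw [tam_def]
  have hm := minModel_isMinimal W v
  unfold minModel at hm ⊢
  generalize W.baseChange (v.adicCompletion N) = W₀ at *
  generalize minChange W v = C at *
  have hM := Itg_bc (min_int (C • W₀) hm)
  obtain ⟨hr, hs⟩ := coef_gen (Valued.v : Valuation (v.adicCompletion N) ℤᵐ⁰) (Itg_bc hI) hM hu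
  exact index_smul hM hu hr hs

/-- The Tamagawa numbers of `y² + D y = x³`, `D` cube-free, on this equation. -/
theorem tam_eq_wd {D : 𝓞 K} (hD0 : D ≠ 0) (hD : ∀ p : 𝓞 K, Prime p → ¬ p ^ 3 ∣ D)
    (v : HeightOneSpectrum (𝓞 K)) :
    tam (wd (D : K)) v = (nsG (Valued.v : Valuation (v.adicCompletion K) ℤᵐ⁰)
      (wd (algebraMap K (v.adicCompletion K) (D : K)))).index := by
  have hbc : (wd (D : K)).baseChange (v.adicCompletion K) =
      wd (algebraMap K (v.adicCompletion K) (D : K)) := wd_map _ _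
  rw [tam_eq_of v (wd (D : K)) ?_ (perj_u hD0 hD v), hbc]
  obtain ⟨r, hr⟩ := perb_int v D
  refine ⟨⟨0, 0, r, 0, 0⟩, ?_⟩
  rw [hbc, perb_bc, map_zero, hr]
  rfl

/-- The values of a cube-free `D` at a place. -/
theorem val_cubefree {D : 𝓞 K} (hD0 : D ≠ 0) (hD : ∀ p : 𝓞 K, Prime p → ¬ p ^ 3 ∣ D)
    {v : HeightOneSpectrum (𝓞 K)} (h : D ∈ v.asIdeal) :
    ∃ e : ℤ, (e = 1 ∨ e = 2) ∧ v.valuation K (D : K) = exp (-e) := by
  have h1 := per3_cubefree hD0 hD v
  have h2 : v.valuation K (D : K) < 1 := (HeightOneSpectrum.valuation_lt_one_iff_mem v D).2 h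
  have h0 : v.valuation K (D : K) ≠ 0 := by
    rw [Valuation.ne_zero_iff]
    exact fun h => hD0 (RingOfIntegers.ext h)
  obtain ⟨m, hm⟩ : ∃ m : ℤ, v.valuation K (D : K) = exp m := ⟨_, (exp_log h0).symm⟩
  rw [hm, exp_le_exp] at h1
  rw [hm, ← exp_zero, exp_lt_exp] at h2
  exact ⟨-m, by omega, by rw [hm, neg_neg]⟩

/-- **The Tamagawa number at a place which divides `D`** (also at `√-3`). -/
theorem tam_three {D : 𝓞 K} (hD0 : D ≠ 0) (hD : ∀ p : 𝓞 K, Prime p → ¬ p ^ 3 ∣ D)
    {v : HeightOneSpectrum (𝓞 K)} (h : D ∈ v.asIdeal) : tam (wd (D : K)) v = 3 := by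
  have hc0 : CharZero (v.adicCompletion K) :=
    charZero_of_injective_algebraMap (algebraMap K (v.adicCompletion K)).injective
  rw [tam_eq_wd hD0 hD]
  obtain ⟨e, he, hv⟩ := val_cubefree hD0 hD h
  refine index_three (e := e) Valued.v he ?_ ?_
  · rw [MP_1a91b9_nt.valued_algebraMap, hv]
  · by_cases h3 : s3 ∈ v.asIdeal
    · right
      have h4 : Valued.v (3 : v.adicCompletion K) < (1 : ℤᵐ⁰) := by
        have h7 := MP_1a91b9_nt.valued_algebraMap v (3 : K)
        rw [map_ofNat, perj_v3 h3] at h7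
        rw [h7, ← exp_zero, exp_lt_exp]
        norm_num
      have e : (2 : v.adicCompletion K) = -1 + 3 := by norm_num
      rw [e, Valuation.map_add_eq_of_lt_left, Valuation.map_neg, map_one]
      rwa [Valuation.map_neg, map_one]
    · left
      have h7 := MP_1a91b9_nt.valued_algebraMap v (3 : K)
      rw [map_ofNat] at h7
      rw [h7]
      have h1 := MP_1a91b9_ntH.C.perb_three
      have h5 : (3 : K) = -((s3 : 𝓞 K) : K) ^ 2 := by linear_combination h1
      rw [h5, Valuation.map_neg, map_pow, perb_one h3, one_pow]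

/-- the Tamagawa number at a place which divides neither `√-3` nor `D` -/
theorem tam_good_wd {D : 𝓞 K} {v : HeightOneSpectrum (𝓞 K)} (hs : s3 ∉ v.asIdeal)
    (hD : D ∉ v.asIdeal) : tam (wd (D : K)) v = 1 := tamK_good hs hD

/-- **The product of the Tamagawa numbers**: a factor `3` for each prime which divides `D`, and the
Tamagawa number at `√-3` if `√-3` does not divide `D`. -/
theorem finprod_tam_wd {ι : Type} {p : ι → 𝓞 K} {S : Finset ι} {D : 𝓞 K} (h : PD D p S)
    (hD0 : D ≠ 0) (hD : ∀ p : 𝓞 K, Prime p → ¬ p ^ 3 ∣ D) {w3 : HeightOneSpectrum (𝓞 K)}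
    (hw3 : s3 ∈ w3.asIdeal) :
    ∏ᶠ v : HeightOneSpectrum (𝓞 K), tam (wd (D : K)) v =
      3 ^ S.card * if s3 ∣ D then 1 else tam (wd (D : K)) w3 := by
  have hpid : IsPrincipalIdealRing (𝓞 K) := IsCyclotomicExtension.Rat.three_pid K
  have hs3p : Prime s3 := Pool.Agent.Lib.MP_1a91b9_ntH.C.s3_prime
  have hex : ∀ q : ι, ∃ v : HeightOneSpectrum (𝓞 K), q ∈ S → v.asIdeal = Ideal.span {p q} := by
    intro q
    by_cases hq : q ∈ S
    · exact ⟨⟨Ideal.span {p q}, (Ideal.span_singleton_prime (h.prime q hq).ne_zero).2 (h.prime q hq),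
        by
          rw [Ne, Ideal.span_singleton_eq_bot]
          exact (h.prime q hq).ne_zero⟩, fun _ => rfl⟩
    · exact ⟨w3, fun h4 => absurd h4 hq⟩
  choose P hP using hex
  have hmem : ∀ q ∈ S, p q ∈ (P q).asIdeal := by
    intro q hq
    rw [hP q hq]
    exact Ideal.mem_span_singleton_self _
  have hinj : Set.InjOn P S := by
    intro q hq r hr hqr
    apply h.inj q hq r hr
    rw [← Ideal.mem_span_singleton, ← hP q hq, hqr]
    exact hmem r hr
  have hDP : ∀ q ∈ S, D ∈ (P q).asIdeal := by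
    intro q hq
    rw [hP q hq, Ideal.mem_span_singleton]
    exact h.dvd q hq
  have hall : ∀ v : HeightOneSpectrum (𝓞 K), D ∈ v.asIdeal → ∃ q ∈ S, P q = v := by
    intro v hm
    obtain ⟨r, hr⟩ := (hpid.principal v.asIdeal).principal
    have hr' : v.asIdeal = Ideal.span {r} := hr
    have hr0 : r ≠ 0 := by
      rintro rfl
      apply v.ne_bot
      rw [hr', Ideal.span_singleton_eq_bot.2 rfl]
    have hrp : Prime r := by
      rw [← Ideal.span_singleton_prime hr0, ← hr']
      exact v.isPrime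
    rw [hr', Ideal.mem_span_singleton] at hm
    obtain ⟨q, hq, hqr⟩ := h.all r hrp hm
    refine ⟨q, hq, ?_⟩
    apply HeightOneSpectrum.ext
    rw [hP q hq, hr', Ideal.span_singleton_eq_span_singleton]
    exact ((h.prime q hq).dvd_prime_iff_associated hrp).1 hqr
  have hw : ∀ v : HeightOneSpectrum (𝓞 K), s3 ∈ v.asIdeal → v = w3 := by
    intro v hm
    apply HeightOneSpectrum.ext
    rw [Pool.Agent.Lib.MP_1a91b9_ntH.C.perb_eq hs3p hm,
      Pool.Agent.Lib.MP_1a91b9_ntH.C.perb_eq hs3p hw3]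
  have hprod : ∏ v ∈ S.image P, tam (wd (D : K)) v = 3 ^ S.card := by
    rw [Finset.prod_image hinj, Finset.prod_congr rfl (fun q hq => tam_three hD0 hD (hDP q hq)),
      Finset.prod_const]
  by_cases h3 : s3 ∣ D
  · rw [if_pos h3, mul_one, ← hprod]
    refine finprod_eq_prod_of_mulSupport_subset _ ?_
    intro v hv
    rw [Function.mem_mulSupport] at hv
    rw [Finset.mem_coe, Finset.mem_image]
    by_contra hcon
    apply hv
    have hDv : D ∉ v.asIdeal := fun hm => hcon (hall v hm)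
    refine tam_good_wd (fun hm => hDv ?_) hDv
    obtain ⟨c, hc⟩ := h3
    rw [hc]
    exact Ideal.mul_mem_right _ _ hm
  · rw [if_neg h3, ← hprod]
    have hwD : D ∉ w3.asIdeal := by
      rw [Pool.Agent.Lib.MP_1a91b9_ntH.C.perb_eq hs3p hw3, Ideal.mem_span_singleton]
      exact h3
    have h3S : w3 ∉ S.image P := by
      intro hm
      obtain ⟨q, hq, hqw⟩ := Finset.mem_image.1 hm
      exact hwD (hqw ▸ hDP q hq)
    have hsupp : (Function.mulSupport fun v : HeightOneSpectrum (𝓞 K) => tam (wd (D : K)) v) ⊆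
        ((insert w3 (S.image P) : Finset (HeightOneSpectrum (𝓞 K))) :
          Set (HeightOneSpectrum (𝓞 K))) := by
      intro v hv
      rw [Function.mem_mulSupport] at hv
      rw [Finset.mem_coe, Finset.mem_insert, Finset.mem_image]
      by_contra hcon
      push Not at hcon
      apply hv
      refine tam_good_wd (fun hm => hcon.1 (hw v hm)) fun hm => ?_
      obtain ⟨q, hq, hqv⟩ := hall v hm
      exact hcon.2 q hq hqv
    rw [finprod_eq_prod_of_mulSupport_subset _ hsupp, Finset.prod_insert h3S, mul_comm]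

end Pool.Agent.Lib.MP_1a91b9_ntK.C
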