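import Pool.Agent.Lib.MP_1a91b9_ntK.C.LocDefs

/-!
# MP_1a91b9_nt (cubic twists), part C: the local conditions away from 3
-/

set_option autoImplicit false
set_option linter.unusedSectionVars false

namespace Pool.Agent.Lib.MP_1a91b9_ntK.C

open WithZero

variable {L : Type*} [Field L] [CharZero L] (ν : Valuation L ℤᵐ⁰)

/-! ### values -/

theorem exists_exp {g : ℤᵐ⁰} (h : g ≠ 0) : ∃ n : ℤ, g = exp n := ⟨log g, (exp_log h).symm⟩

theorem exists_nu {u : L} (h : u ≠ 0) : ∃ n : ℤ, ν u = exp n :=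
  exists_exp (ν.ne_zero_iff.2 h)

/-- the value of `u` is the cube of a value -/
def Cv (g : ℤᵐ⁰) : Prop := ∃ m : ℤ, g = exp (3 * m)

theorem cv_exp {n : ℤ} : Cv (exp n) ↔ (3 : ℤ) ∣ n := by
  constructor
  · rintro ⟨m, hm⟩
    exact ⟨m, exp_inj.1 hm⟩
  · rintro ⟨m, rfl⟩
    exact ⟨m, rfl⟩

/-! ### `Cu` -/

section

variable {ν : Valuation L ℤᵐ⁰} {l : L}

theorem nu_one {x : L} (hl : ν (3 * l) ≤ 1) (h : ν (x - 1) < ν (3 * l)) : ν x = 1 := by
  have := ν.map_one_add_of_lt (lt_of_lt_of_le h hl)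
  rwa [add_sub_cancel] at this

theorem Cu.ne {u : L} (hl : ν (3 * l) ≤ 1) (h : Cu ν l u) : u ≠ 0 := by
  rintro rfl
  obtain ⟨b, hb, h⟩ := h
  rw [zero_div, zero_sub, Valuation.map_neg, map_one] at h
  exact absurd h (not_lt.2 hl)

theorem Cu.mul {u u' : L} (hl : ν (3 * l) ≤ 1) (h : Cu ν l u) (h' : Cu ν l u') :
    Cu ν l (u * u') := by
  obtain ⟨b, hb, h⟩ := h
  obtain ⟨b', hb', h'⟩ := h'
  refine ⟨b * b', mul_ne_zero hb hb', ?_⟩
  have e : u * u' / (b * b') ^ 3 - 1 = (u / b ^ 3) * (u' / b' ^ 3 - 1) + (u / b ^ 3 - 1) := by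
    field_simp
    ring
  rw [e]
  refine ν.map_add_lt ?_ h
  rw [map_mul, nu_one hl h, one_mul]
  exact h'

theorem Cu.cube {u : L} (hl0 : l ≠ 0) (h0 : u ≠ 0) : Cu ν l (u ^ 3) := by
  refine ⟨u, h0, ?_⟩
  have e : u ^ 3 / u ^ 3 - 1 = 0 := by
    field_simp
    ring
  rw [e, map_zero]
  exact ν.pos_iff.2 (mul_ne_zero (by norm_num) hl0)

theorem Cu.of_eq_cube {u b : L} (hl0 : l ≠ 0) (hb : b ≠ 0) (h : u = b ^ 3) : Cu ν l u := by
  rw [h]
  exact Cu.cube hl0 hb

theorem Cu.val {u : L} (hl : ν (3 * l) ≤ 1) (h : Cu ν l u) : Cv (ν u) := by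
  obtain ⟨b, hb, h⟩ := h
  obtain ⟨m, hm⟩ := exists_nu ν hb
  refine ⟨m, ?_⟩
  have e : u = b ^ 3 * (u / b ^ 3) := by field_simp
  rw [e, map_mul, nu_one hl h, mul_one, map_pow, hm, ← exp_nsmul]
  norm_num

theorem Cu.one {u : L} (h : ν (u - 1) < ν (3 * l)) : Cu ν l u :=
  ⟨1, one_ne_zero, by rwa [one_pow, div_one]⟩

theorem Cu.of_mul_cube {u s : L} (hs : s ≠ 0) (h : Cu ν l (u * s ^ 3)) : Cu ν l u := by
  obtain ⟨b, hb, h⟩ := h
  refine ⟨b / s, div_ne_zero hb hs, ?_⟩
  have e : u / (b / s) ^ 3 = u * s ^ 3 / b ^ 3 := by field_simp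
  rwa [e]

theorem Cu.neg {u : L} (h : Cu ν l (-u)) : Cu ν l u := by
  refine Cu.of_mul_cube (s := -1) (by norm_num) ?_
  have e : u * (-1) ^ 3 = -u := by ring
  rwa [e]

/-- if `a x` is a cube and `y = x (1 + small)`, then `a y` is a cube -/
theorem Cu.near {a x y : L} (hl : ν (3 * l) ≤ 1) (h : Cu ν l (a * x))
    (hy : ν (y / x - 1) < ν (3 * l)) : Cu ν l (a * y) := by
  have hx : x ≠ 0 := fun h' => h.ne hl (by rw [h', mul_zero])
  have h2 := h.mul hl (Cu.one hy)
  have e : a * x * (y / x) = a * y := by field_simp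
  rwa [e] at h2

/-- quotients -/
theorem Cu.cancel {a x : L} (hl : ν (3 * l) ≤ 1) (h : Cu ν l (a * x)) (hx : Cu ν l x) :
    Cu ν l a := by
  refine Cu.of_mul_cube (hx.ne hl) ?_
  have h2 := (h.mul hl hx).mul hl hx
  have e : a * x * x * x = a * x ^ 3 := by ring
  rwa [e] at h2

/-- `u²` a cube: `u` a cube -/
theorem Cu.of_sq {u : L} (hl : ν (3 * l) ≤ 1) (h : Cu ν l (u ^ 2)) : Cu ν l u := by
  have hu : u ≠ 0 := by
    rintro rfl
    exact h.ne hl (by ring)
  refine Cu.of_mul_cube hu ?_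
  have h2 := h.mul hl h
  have e : u ^ 2 * u ^ 2 = u * u ^ 3 := by ring
  rwa [e] at h2

end

/-! ### the two factors `y - k`, `y + k` -/

/-- the two factors: equal values, or one of them has the value of `2 k` and the other one a
smaller value -/
theorem two (y k : L) (hk : k ≠ 0) :
    (ν (y - k) = ν (y + k) ∧ ν (2 * k) ≤ ν (y - k)) ∨ (ν (y + k) = ν (2 * k) ∧ ν (y - k) < ν (2 * k)) ∨
      (ν (y - k) = ν (2 * k) ∧ ν (y + k) < ν (2 * k)) := by
  have e : (y + k) - (y - k) = 2 * k := by ring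
  rcases lt_trichotomy (ν (y - k)) (ν (y + k)) with h | h | h
  · right
    left
    have h1 := ν.map_sub_eq_of_lt_left h
    rw [e] at h1
    rw [h1]
    exact ⟨rfl, h⟩
  · left
    refine ⟨h, ?_⟩
    rw [← e]
    refine (ν.map_sub _ _).trans ?_
    rw [h, max_self]
  · right
    right
    have h1 := ν.map_sub_eq_of_lt_right h
    rw [e] at h1
    rw [h1]
    exact ⟨rfl, h⟩

/-- (a): the value of `2 k` is a cube -/
theorem loc_unr {l k a : L} (hk : k ≠ 0) (hl : ν (3 * l) ≤ 1) (hv : Cv (ν (2 * k)))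
    (h : GLoc ν l k a) : Cv (ν a) := by
  obtain ⟨g, hg⟩ := hv
  have key : ∀ {x : L}, x ≠ 0 → Cv (ν x) → Cu ν l (a * x) → Cv (ν a) := by
    intro x hx0 hx hax
    have h1 := hax.val hl
    obtain ⟨m, hm⟩ := hx
    obtain ⟨m', hm'⟩ := h1
    refine ⟨m' - m, ?_⟩
    rw [map_mul, hm] at hm'
    rw [mul_sub, exp_sub, ← hm', mul_div_cancel_right₀ _ exp_ne_zero]
  have h2k : (2 * k : L) ≠ 0 := mul_ne_zero two_ne_zero hk
  rcases h with h | h | h | ⟨y, hy, h⟩
  · exact h.val hl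
  · exact key h2k ⟨g, hg⟩ h
  · refine key (pow_ne_zero 2 h2k) ⟨2 * g, ?_⟩ h
    rw [map_pow, hg, ← exp_nsmul]
    congr 1
    rw [nsmul_eq_mul]
    push_cast
    ring
  · have hy0 := hy.ne hl
    have e : y ^ 2 - k ^ 2 = (y - k) * (y + k) := by ring
    rw [e] at hy hy0
    have h1 : y - k ≠ 0 := left_ne_zero_of_mul hy0
    have h2 : y + k ≠ 0 := right_ne_zero_of_mul hy0
    refine key h1 ?_ h
    have h3 := hy.val hl
    obtain ⟨n, hn⟩ := exists_nu ν h1
    obtain ⟨n', hn'⟩ := exists_nu ν h2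
    rw [map_mul, hn, hn', ← exp_add, cv_exp] at h3
    rw [hn, cv_exp]
    rcases two ν y k hk with ⟨h4, -⟩ | ⟨h4, -⟩ | ⟨h4, -⟩
    · rw [hn, hn', exp_inj] at h4
      omega
    · rw [hn', hg, exp_inj] at h4
      omega
    · rw [hn, hg, exp_inj] at h4
      omega

/-- (b): the value of `2 k` is not a cube: only the classes of the points `(0, ± k)` -/
theorem loc_tame {l k a : L} (hk : k ≠ 0) (hl : ν (3 * l) = 1) (hv : ¬ Cv (ν (2 * k)))
    (h : GLoc ν l k a) : Cu ν l a ∨ Cu ν l (a * (2 * k)) ∨ Cu ν l (a * (2 * k) ^ 2) := by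
  have h2k : (2 * k : L) ≠ 0 := mul_ne_zero two_ne_zero hk
  have h2kv : ν (2 * k) ≠ 0 := ν.ne_zero_iff.2 h2k
  rcases h with h | h | h | ⟨y, hy, h⟩
  · exact Or.inl h
  · exact Or.inr (Or.inl h)
  · exact Or.inr (Or.inr h)
  · have hy0 := hy.ne hl.le
    have e : y ^ 2 - k ^ 2 = (y - k) * (y + k) := by ring
    rw [e] at hy hy0
    have h1 : y - k ≠ 0 := left_ne_zero_of_mul hy0
    have h2 : y + k ≠ 0 := right_ne_zero_of_mul hy0
    rcases two ν y k hk with ⟨h4, h5⟩ | ⟨h4, h5⟩ | ⟨h4, h5⟩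
    · -- equal values: larger than the value of `2 k`
      left
      have h6 : ν (2 * k) < ν (y - k) := by
        refine lt_of_le_of_ne h5 fun h7 => hv ?_
        have h3 := hy.val hl.le
        obtain ⟨n, hn⟩ := exists_nu ν h1
        rw [map_mul, ← h4, hn, ← exp_add, cv_exp] at h3
        rw [h7, hn, cv_exp]
        omega
      have h7 : ν ((y + k) / (y - k) - 1) < ν (3 * l) := by
        have e2 : (y + k) / (y - k) - 1 = 2 * k / (y - k) := by
          rw [div_sub_one h1]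
          congr 1
          ring
        rw [e2, map_div₀, hl]
        exact (div_lt_one₀ (ν.pos_iff.2 h1)).2 h6
      have h8 : Cu ν l (y - k) := by
        have h9 : Cu ν l ((y - k) * (y - k)) := by
          refine hy.near hl.le ?_
          have e3 : (y - k) / (y + k) - 1 = -(2 * k / (y + k)) := by
            rw [div_sub_one h2, ← neg_div]
            congr 1
            ring
          rw [e3, Valuation.map_neg, map_div₀, hl, ← h4]
          exact (div_lt_one₀ (ν.pos_iff.2 h1)).2 h6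
        refine Cu.of_sq hl.le ?_
        rwa [sq]
      exact h.cancel hl.le h8
    · -- `y + k` is close to `2 k`; `a (y - k)`, `(y - k) (y + k)` cubes
      right
      right
      have h6 : Cu ν l ((y - k) * (2 * k)) := by
        refine hy.near hl.le ?_
        have e2 : 2 * k / (y + k) - 1 = -((y - k) / (y + k)) := by
          rw [div_sub_one h2, ← neg_div]
          congr 1
          ring
        rw [e2, Valuation.map_neg, map_div₀, hl, h4]
        exact (div_lt_one₀ (ν.pos_iff.2 h2k)).2 h5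
      -- `a (2k)²`: multiply `a (y - k)` and `((y - k) 2 k)²`, divide by `(y - k)³`
      have h7 := (h.mul hl.le h6).mul hl.le h6
      refine Cu.of_mul_cube h1 ?_
      have e3 : a * (y - k) * ((y - k) * (2 * k)) * ((y - k) * (2 * k)) =
          a * (2 * k) ^ 2 * (y - k) ^ 3 := by ring
      rwa [e3] at h7
    · -- `y - k` is close to `- 2 k`
      right
      left
      have h6 : Cu ν l (a * (-(2 * k))) := by
        refine h.near hl.le ?_
        have e2 : -(2 * k) / (y - k) - 1 = -((y + k) / (y - k)) := by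
          rw [div_sub_one h1, ← neg_div]
          congr 1
          ring
        rw [e2, Valuation.map_neg, map_div₀, hl, h4]
        exact (div_lt_one₀ (ν.pos_iff.2 h2k)).2 h5
      refine Cu.neg ?_
      have e3 : -(a * (2 * k)) = a * (-(2 * k)) := by ring
      rwa [e3]

end Pool.Agent.Lib.MP_1a91b9_ntK.C
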